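import Pool.Agent.U197.GQ.V7

/-!
Affine varieties: local rings and invariant neighbourhoods.
-/

set_option autoImplicit false
set_option linter.unusedSectionVars false

namespace Pool.Agent.U197.GQ

open AlgebraicGeometry CategoryTheory
open Pool.Agent.W559.Mg Pool.Agent.W559.Et Pool.Agent.H920R2 Pool.Agent.U197.SF
open Pool.Agent.H519R3.RS Pool.Agent.N98.PJ
open KaehlerDifferential TensorProduct

section loc

variable {k S : Type} [Field k] [CommRing S] [IsDomain S] [Algebra k S] (P : Ideal S)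

variable {P} in
lemma neA {t : S} (ht : t ∉ P) : t ≠ 0 := by
  rintro rfl
  exact ht P.zero_mem

variable [hP : P.IsPrime]

/-- The local ring of a point, in the field of fractions. -/
noncomputable def lrA (k : Type) {S : Type} [Field k] [CommRing S] [IsDomain S] [Algebra k S]
    (P : Ideal S) [hP : P.IsPrime] : Subalgebra k (FractionRing S) where
  carrier := {y | ∃ s t : S, t ∉ P ∧ y = ev k S s / ev k S t}
  mul_mem' := by
    rintro _ _ ⟨s, t, ht, rfl⟩ ⟨s', t', ht', rfl⟩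
    exact ⟨s * s', t * t', fun h => (hP.mem_or_mem h).elim ht ht', by
      rw [map_mul, map_mul, div_mul_div_comm]⟩
  add_mem' := by
    rintro _ _ ⟨s, t, ht, rfl⟩ ⟨s', t', ht', rfl⟩
    refine ⟨s * t' + t * s', t * t', fun h => (hP.mem_or_mem h).elim ht ht', ?_⟩
    rw [div_add_div _ _ (ev_ne (neA ht)) (ev_ne (neA ht')), map_add, map_mul, map_mul, map_mul]
  algebraMap_mem' r := ⟨algebraMap k S r, 1, (Ideal.ne_top_iff_one P).1 hP.ne_top, by
    rw [map_one, div_one]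
    exact ((ev k S).commutes r).symm⟩

lemma unitA {s t : S} (ht : t ∉ P) (h : ev k S s / ev k S t ∈ lrA k P) :
    IsUnit (⟨_, h⟩ : lrA k P) ↔ s ∉ P := by
  have ht0 := ev_ne (k := k) (neA ht)
  constructor
  · intro hu hs
    obtain ⟨⟨y, hy⟩, hyu⟩ := hu.exists_right_inv
    obtain ⟨s', t', ht', rfl⟩ := hy
    have ht0' := ev_ne (k := k) (neA ht')
    have h1 : ev k S s / ev k S t * (ev k S s' / ev k S t') = 1 := congrArg Subtype.val hyu
    have h2 : ev k S (s * s') = ev k S (t * t') := by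
      rw [map_mul, map_mul]
      field_simp at h1
      exact h1
    have h3 : s * s' = t * t' := ev_inj (k := k) h2
    have h4 : t * t' ∈ P := by
      rw [← h3]
      exact Ideal.mul_mem_right _ _ hs
    exact (hP.mem_or_mem h4).elim ht ht'
  · intro hs
    have hs0 := ev_ne (k := k) (neA hs)
    refine IsUnit.of_mul_eq_one ⟨ev k S t / ev k S s, ⟨t, s, hs, rfl⟩⟩ (Subtype.ext ?_)
    change ev k S s / ev k S t * (ev k S t / ev k S s) = 1
    field_simp

instance isLocalRing_lrA : IsLocalRing (lrA k P) := by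
  refine IsLocalRing.of_nonunits_add ?_
  rintro ⟨y, hy⟩ ⟨y', hy'⟩ h1 h2
  have hy0 := hy
  have hy0' := hy'
  obtain ⟨s, t, ht, rfl⟩ := hy0
  obtain ⟨s', t', ht', rfl⟩ := hy0'
  rw [mem_nonunits_iff, unitA P ht, not_not] at h1
  rw [mem_nonunits_iff, unitA P ht', not_not] at h2
  rw [mem_nonunits_iff]
  have ht0 := ev_ne (k := k) (neA ht)
  have ht0' := ev_ne (k := k) (neA ht')
  have hadd : ev k S s / ev k S t + ev k S s' / ev k S t' =
      ev k S (s * t' + t * s') / ev k S (t * t') := by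
    rw [div_add_div _ _ ht0 ht0', map_add, map_mul, map_mul, map_mul]
  have hmem : ev k S (s * t' + t * s') / ev k S (t * t') ∈ lrA k P := by
    rw [← hadd]
    exact Subalgebra.add_mem _ hy hy'
  have h3 := unitA P (fun h => (hP.mem_or_mem h).elim ht ht') hmem
  have h4 : (⟨_, hy⟩ + ⟨_, hy'⟩ : lrA k P) = ⟨_, hmem⟩ := Subtype.ext hadd
  rw [h4, h3, not_not]
  exact Ideal.add_mem _ (Ideal.mul_mem_right _ _ h1) (Ideal.mul_mem_left _ _ h2)

lemma inv_mem_A {s t : S} (ht : t ∉ P) (h0 : s ≠ 0) (h : (ev k S s / ev k S t)⁻¹ ∈ lrA k P) :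
    s ∉ P := by
  have ht0 := ev_ne (k := k) (neA ht)
  have hs0 := ev_ne (k := k) h0
  have hmem : ev k S s / ev k S t ∈ lrA k P := ⟨s, t, ht, rfl⟩
  rw [← unitA P ht hmem]
  exact IsUnit.of_mul_eq_one ⟨_, h⟩ (Subtype.ext (mul_inv_cancel₀ (div_ne_zero hs0 ht0)))

variable {σ : S ≃ₐ[k] S}

lemma sig_notMem (hσ : ∀ s, σ s - s ∈ P) {t : S} (ht : t ∉ P) : σ t ∉ P := fun h => ht (by
  have h1 := Ideal.sub_mem _ h (hσ t)
  rwa [sub_sub_cancel] at h1)

lemma tau_mem_lrA (hσ : ∀ s, σ s - s ∈ P) (y : FractionRing S) (hy : y ∈ lrA k P) :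
    tauS σ y ∈ lrA k P := by
  obtain ⟨s, t, ht, rfl⟩ := hy
  refine ⟨σ s, σ t, sig_notMem P hσ ht, ?_⟩
  rw [map_div₀, tauS_ev, tauS_ev]

end loc

section chart

variable {k S : Type} [Field k] [CommRing S] [IsDomain S] [Algebra k S]

lemma Cz_congr {z z' : S} (h : z = z') (z0 : z ≠ 0) (z0' : z' ≠ 0) :
    (Cz z0 : Subalgebra k (FractionRing S)) = Cz z0' := by
  subst h
  rfl

lemma locAt_Cz {f : S} (f0 : f ≠ 0) (N : ℕ) {s : S} (s0 : s ≠ 0)
    (hg : ev k S s / ev k S f ^ N ∈ (Cz f0 : Subalgebra k (FractionRing S))) :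
    locAt (Cz f0 : Subalgebra k (FractionRing S)) (ev k S s / ev k S f ^ N) hg =
      Cz (mul_ne_zero f0 s0) := by
  have hf1 := ev_ne (k := k) f0
  have hs1 := ev_ne (k := k) s0
  ext y
  constructor
  · rintro ⟨n, j, t, hy⟩
    refine ⟨j + n, t * f ^ (N * n) * f ^ n * s ^ j, ?_⟩
    have h1 : y = (ev k S t / ev k S f ^ j) / (ev k S s / ev k S f ^ N) ^ n := by
      rw [← hy]
      field_simp
    rw [h1, map_mul, map_mul, map_mul, map_pow, map_pow, map_pow, map_mul]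
    rw [div_pow, ← pow_mul, mul_pow, pow_add, pow_add]
    field_simp
  · rintro ⟨j, t, rfl⟩
    refine ⟨j, j + N * j, t, ?_⟩
    rw [map_mul, div_pow, ← pow_mul, mul_pow, pow_add]
    field_simp

/-- The affine variety as a chart. -/
noncomputable def eOne : S ≃ₐ[k] (Cz (one_ne_zero : (1 : S) ≠ 0) :
    Subalgebra k (FractionRing S)) :=
  AlgEquiv.ofBijective ((ev k S).codRestrict _ fun s => ev_mem_Cz _ s)
    ⟨fun _ _ h => ev_inj (k := k) (congrArg Subtype.val h), by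
      rintro ⟨_, N, s, rfl⟩
      refine ⟨s, Subtype.ext ?_⟩
      change ev k S s = ev k S s / ev k S 1 ^ N
      rw [map_one, one_pow, div_one]⟩

lemma eOne_coe (s : S) : ((eOne s : (Cz (one_ne_zero : (1 : S) ≠ 0) :
    Subalgebra k (FractionRing S))) : FractionRing S) = ev k S s := rfl

lemma smooth_CzA [Algebra.Smooth k S] {f : S} (f0 : f ≠ 0) :
    Algebra.Smooth k (Cz f0 : Subalgebra k (FractionRing S)) := by
  have h1 : Algebra.Smooth k (Cz (one_ne_zero : (1 : S) ≠ 0) : Subalgebra k (FractionRing S)) :=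
    Algebra.Smooth.of_equiv (eOne (k := k) (S := S))
  have hg : ev k S f / ev k S 1 ^ 0 ∈ (Cz (one_ne_zero : (1 : S) ≠ 0) :
    Subalgebra k (FractionRing S)) := ⟨0, f, rfl⟩
  have h2 := smooth_locAt (Cz (one_ne_zero : (1 : S) ≠ 0) : Subalgebra k (FractionRing S)) _ hg (by
    rw [pow_zero, div_one]
    exact ev_ne f0)
  rw [locAt_Cz one_ne_zero 0 f0 hg, Cz_congr (one_mul f) _ f0] at h2
  exact h2

/-- The invariant affine neighbourhoods. -/
def InvA (σ : S ≃ₐ[k] S) (P : Ideal S) (R : Subalgebra k (FractionRing S)) : Prop :=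
  ∃ (f : S) (f0 : f ≠ 0), σ f = f ∧ f ∉ P ∧ R = Cz f0

variable {P : Ideal S} [hP : P.IsPrime] {σ : S ≃ₐ[k] S}

theorem chartFamA [Algebra.Smooth k S] : ChartFam (lrA k P) (tauS σ) (InvA σ P) where
  le := by
    rintro R ⟨f, f0, hσf, hf, rfl⟩ _ ⟨N, s, rfl⟩
    exact ⟨s, f ^ N, fun h => hf (hP.mem_of_pow_mem _ h), by rw [map_pow]⟩
  sm := by
    rintro R ⟨f, f0, hσf, hf, rfl⟩
    exact smooth_CzA f0
  st := by
    rintro R ⟨f, f0, hσf, hf, rfl⟩ _ ⟨N, s, rfl⟩
    refine ⟨N, σ s, ?_⟩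
    rw [map_div₀, map_pow, tauS_ev, tauS_ev, hσf]
  loc := by
    rintro R ⟨f, f0, hσf, hf, rfl⟩ g hg hτ hg0 hgO
    have hg' := hg
    obtain ⟨N, s, rfl⟩ := hg'
    have hf1 := ev_ne (k := k) f0
    have hs0 : s ≠ 0 := by
      rintro rfl
      rw [map_zero, zero_div] at hg0
      exact hg0 rfl
    have hσs : σ s = s := by
      rw [map_div₀, map_pow, tauS_ev, tauS_ev, hσf, div_left_inj' (pow_ne_zero N hf1)] at hτ
      exact ev_inj (k := k) hτ
    have hsP : s ∉ P := by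
      have hfN : f ^ N ∉ P := fun h => hf (hP.mem_of_pow_mem _ h)
      refine inv_mem_A (k := k) P hfN hs0 ?_
      rwa [map_pow]
    exact ⟨f * s, mul_ne_zero f0 hs0, by rw [map_mul, hσf, hσs],
      fun h => (hP.mem_or_mem h).elim hf hsP, locAt_Cz f0 N hs0 hg⟩
  frac := by
    rintro R ⟨f, f0, hσf, hf, rfl⟩ _ ⟨s, t, ht, rfl⟩
    have ht0 := ev_ne (k := k) (neA ht)
    refine ⟨ev k S t, ev_mem_Cz f0 t, ht0, ⟨1, t, ht, by rw [map_one, one_div]⟩, ?_⟩
    rw [div_mul_cancel₀ _ ht0]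
    exact ev_mem_Cz f0 s
  nonempty := ⟨_, 1, one_ne_zero, map_one σ, (Ideal.ne_top_iff_one P).1 hP.ne_top, rfl⟩

end chart

section nice

variable {k S : Type} [Field k] [CommRing S] [IsDomain S] [Algebra k S]

/-- Weighted coordinates in the local ring of a point which are adapted to `σ`. -/
def LocA (σ : S ≃ₐ[k] S) (P : Ideal S) [P.IsPrime] : Prop :=
  ∃ (n : ℕ) (y : Fin n → FractionRing S) (w : Fin n → ℕ) (l : ℕ) (hy : ∀ i, y i ∈ lrA k P),
    0 < l ∧ (∃ b : Module.Basis (Fin n) (lrA k P) (Ω[lrA k P⁄k]),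
      ∀ i, b i = KaehlerDifferential.D k (lrA k P) ⟨y i, hy i⟩) ∧
    NDk y w (fun z => tauS σ z - z) l (lrA k P)

/-- A nondegenerate weighted centre on an invariant neighbourhood. -/
def NiceA (σ : S ≃ₐ[k] S) (f : S) : Prop :=
  ∃ (f0 : f ≠ 0) (l : ℕ) (F : ℕ → Ideal (Cz f0 : Subalgebra k (FractionRing S))),
    σ f = f ∧ 0 < l ∧ NWC (Cz f0 : Subalgebra k (FractionRing S)) (fun x => tauS σ x - x) l F

theorem niceA_of_local [Algebra.Smooth k S] {p : ℕ} [hp : Fact p.Prime] {σ : S ≃ₐ[k] S}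
    (hσp : ∀ s, σ^[p] s = s) {P : Ideal S} [hP : P.IsPrime] (hσP : ∀ s, σ s - s ∈ P)
    (h : LocA σ P) : ∃ f, NiceA σ f ∧ f ∉ P := by
  obtain ⟨n, y, w, l, hy, hl, hyΩ, hnd⟩ := h
  obtain ⟨R, hR, hyR, het, hndR, -⟩ := spread2 (c := 0) (chartFamA (P := P) (σ := σ)) hp.out.pos
    (tauS_iter σ hσp) (tau_mem_lrA P hσP) hy hyΩ hnd (Submodule.zero_mem _)
  have hst := (chartFamA (k := k) (P := P) (σ := σ)).st R hR
  obtain ⟨f, f0, hσf, hf, rfl⟩ := hR
  refine ⟨f, ⟨f0, l, _, hσf, hl, nwc_of_ndk hyR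
    (fun a ha => Subalgebra.sub_mem _ (hst a ha) ha)
      (fun a b => by rw [map_add]; ring) (fun a b => ⟨1, by
        rw [map_mul, one_smul]
        ring⟩) hndR het⟩, hf⟩

end nice

end Pool.Agent.U197.GQ
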