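import Pool.Agent.U197.GQ.A1

/-!
Affine varieties: gluing of the local centres.
-/

set_option autoImplicit false
set_option linter.unusedSectionVars false

namespace Pool.Agent.U197.GQ

open AlgebraicGeometry CategoryTheory
open Pool.Agent.W559.Mg Pool.Agent.W559.Et Pool.Agent.H920R2 Pool.Agent.U197.SF
open Pool.Agent.H519R3.RS Pool.Agent.N98.PJ

section glue

variable {k S : Type} [Field k] [CommRing S] [IsDomain S] [Algebra k S]

lemma exists_fin_cover {R : Type} [CommRing R] (X : Set R)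
    (h : ∀ P : Ideal R, P.IsPrime → ∃ y ∈ X, y ∉ P) :
    ∃ Y : Finset R, (Y : Set R) ⊆ X ∧ ∀ P : Ideal R, P.IsPrime → ∃ y ∈ Y, y ∉ P := by
  classical
  have h1 : Ideal.span X = ⊤ := by
    by_contra hcon
    obtain ⟨M, hM, hle⟩ := Ideal.exists_le_maximal _ hcon
    obtain ⟨y, hy, hyM⟩ := h M hM.isPrime
    exact hyM (hle (Ideal.subset_span hy))
  have h2 : (1 : R) ∈ Ideal.span X := by
    rw [h1]
    trivial
  obtain ⟨Y, hY, hY1⟩ := Submodule.mem_span_finite_of_mem_span h2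
  refine ⟨Y, hY, fun P hP => ?_⟩
  by_contra hcon
  push Not at hcon
  apply hP.ne_top
  rw [Ideal.eq_top_iff_one]
  exact (Ideal.span_le.2 fun y hy => hcon y hy : Ideal.span (Y : Set R) ≤ P) hY1

/-- Gluing of the local centres. -/
theorem gluedA [Algebra.Smooth k S] {p : ℕ} (hp : 0 < p) (hpk : (p : k) = 0) (σ : S ≃ₐ[k] S)
    (hpt : ∀ P : Ideal S, P.IsPrime → (∀ s, σ s - s ∈ P) → ∃ f, NiceA σ f ∧ f ∉ P) :
    ∃ l, 0 < l ∧ ∃ F, NWC (Cz (one_ne_zero : (1 : S) ≠ 0) : Subalgebra k (FractionRing S))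
      (fun x => tauS σ x - x) l F := by
  classical
  let X : Set S := {y | NiceA σ y} ∪ {y | ∃ s, y = σ s - s}
  obtain ⟨Y, hYX, hYcov⟩ := exists_fin_cover X fun P hP => by
    by_cases hx : ∀ s, σ s - s ∈ P
    · obtain ⟨y, hy, hyP⟩ := hpt P hP hx
      exact ⟨y, Or.inl hy, hyP⟩
    · push Not at hx
      obtain ⟨s, hs⟩ := hx
      exact ⟨_, Or.inr ⟨s, rfl⟩, hs⟩
  let ι : Type := {y : Y // NiceA σ (y : S)}
  have hι : ∀ a : ι, NiceA σ ((a : Y) : S) := fun a => a.2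
  choose za0 la Fa hσa hla hHa using hι
  have _ : Fintype ι := Fintype.ofFinite ι
  let L : ℕ := ∏ a, la a
  have hL : 0 < L := Finset.prod_pos fun a _ => hla a
  have hF' : ∀ a, ∃ F', NWC (Cz (za0 a) : Subalgebra k (FractionRing S))
      (fun x => tauS σ x - x) L F' := by
    intro a
    obtain ⟨c, hc⟩ : la a ∣ L := Finset.dvd_prod_of_mem la (Finset.mem_univ a)
    obtain ⟨q, rfl⟩ : ∃ q, c = q + 1 := by
      refine ⟨c - 1, ?_⟩
      have : c ≠ 0 := by
        rintro rfl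
        rw [mul_zero] at hc
        omega
      omega
    rw [hc, mul_comm]
    exact ⟨_, (hHa a).scale q⟩
  choose F hN using hF'
  have hsm1 : Algebra.Smooth k (Cz (one_ne_zero : (1 : S) ≠ 0) :
      Subalgebra k (FractionRing S)) := smooth_CzA _
  have hsm : ∀ a, Algebra.Smooth k (Cz (za0 a) : Subalgebra k (FractionRing S)) := fun a =>
    smooth_CzA (za0 a)
  have hτ : ∀ s, tauS σ (ev k S s) = ev k S ((fun s => σ s) s) := fun s => tauS_ev σ s
  have hcov : ∀ P : Ideal (Cz (one_ne_zero : (1 : S) ≠ 0) : Subalgebra k (FractionRing S)),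
      P.IsPrime →
      zI (Cz (one_ne_zero : (1 : S) ≠ 0) : Subalgebra k (FractionRing S))
        (fun x => tauS σ x - x) ≤ P →
      ∃ a : ι, (⟨ev k S ((a : Y) : S), ev_mem_Cz _ _⟩ :
        (Cz (one_ne_zero : (1 : S) ≠ 0) : Subalgebra k (FractionRing S))) ∉ P := by
    intro P hP hle
    have hQ : (P.comap ((eOne (k := k) (S := S) : S ≃ₐ[k] _) : S →+* _)).IsPrime :=
      Ideal.comap_isPrime _ _
    obtain ⟨y, hyY, hyx⟩ := hYcov _ hQ
    rcases hYX hyY with hy | ⟨s, rfl⟩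
    · exact ⟨⟨⟨y, hyY⟩, hy⟩, hyx⟩
    · refine absurd (hle ?_) hyx
      refine Ideal.subset_span ⟨eOne s, ?_⟩
      change ev k S (σ s - s) = tauS σ (ev k S s) - ev k S s
      rw [map_sub, tauS_ev]
  refine ⟨L, hL, GF (one_ne_zero : (1 : S) ≠ 0) (fun a : ι => ((a : Y) : S)) za0 F,
    GF_rwc hτ (map_one σ) hσa hL hN hsm hcov hp hpk, ?_, GF_zeros hτ (map_one σ) hσa hN hcov, ?_⟩
  · intro d y hy y' h
    exact GF_raise hτ (map_one σ) hσa hN hy y' h
  · intro d hd y hy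
    exact GF_lead hτ (map_one σ) hσa hL hN hsm hcov d y hy hd

end glue

end Pool.Agent.U197.GQ
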