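import Pool.Agent.U197.GQ.A2
import Pool.Agent.W333.Et.Modif
import Pool.Agent.W417.Et.Step
import Pool.Agent.W440.ET.Model

/-!
Affine varieties: the chart without grading, and the family of centres.
-/

set_option autoImplicit false
set_option linter.unusedSectionVars false

namespace Pool.Agent.U197.GQ

open AlgebraicGeometry CategoryTheory
open Pool.Agent.W559.Mg Pool.Agent.W559.Et Pool.Agent.H920R2 Pool.Agent.U197.SF

section r1

variable {k K : Type} [Field k] [Field K] [Algebra k K]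

lemma mlU (f : ML K Unit) : f = mo () (f.coeff ()) := by
  apply ml_ext
  rintro ⟨⟩
  rw [coeff_mo_same]

lemma coeff_mulU (f g : ML K Unit) : (f * g).coeff () = f.coeff () * g.coeff () := by
  conv_lhs => rw [mlU f, mlU g, mo_mul]
  exact coeff_mo_same _ _

/-- The chart without grading. -/
noncomputable def R1 (C : Subalgebra k K) : Subalgebra k (ML K Unit) where
  carrier := {f | f.coeff () ∈ C}
  mul_mem' := by
    intro f g hf hg
    change (f * g).coeff () ∈ C
    rw [coeff_mulU]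
    exact C.mul_mem hf hg
  add_mem' := by
    intro f g hf hg
    change (f + g).coeff () ∈ C
    rw [coeff_add']
    exact C.add_mem hf hg
  algebraMap_mem' := by
    intro r
    change (algebraMap k (ML K Unit) r).coeff () ∈ C
    rw [algebraMap_ML]
    change (mo () (algebraMap k K r)).coeff () ∈ C
    rw [coeff_mo_same]
    exact C.algebraMap_mem r

variable (C : Subalgebra k K)

lemma mem_R1 {f : ML K Unit} : f ∈ R1 C ↔ f.coeff () ∈ C := Iff.rfl

lemma mo_mem_R1 {m : Unit} {x : K} : mo m x ∈ R1 C ↔ x ∈ C := by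
  rw [mem_R1]
  change (mo () x).coeff () ∈ C ↔ _
  rw [coeff_mo_same]

lemma gr_R1 : Gr (R1 C) := fun _ hf m => (mo_mem_R1 C).2 hf

/-- The isomorphism with the ring of functions. -/
noncomputable def e1 : R1 C ≃ₐ[k] C where
  toFun f := ⟨(f : ML K Unit).coeff (), f.2⟩
  invFun x := ⟨mo () (x : K), (mo_mem_R1 C).2 x.2⟩
  left_inv f := Subtype.ext (mlU _).symm
  right_inv x := Subtype.ext (coeff_mo_same _ _)
  map_mul' f g := Subtype.ext (coeff_mulU _ _)
  map_add' f g := Subtype.ext (coeff_add' _ _ _)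
  commutes' r := Subtype.ext (by
    change (algebraMap k (ML K Unit) r).coeff () = algebraMap k K r
    rw [algebraMap_ML]
    exact coeff_mo_same _ _)

lemma e1_coe (f : R1 C) : ((e1 C f : C) : K) = (f : ML K Unit).coeff () := rfl

variable {C} in
lemma e1_ext {f g : R1 C} (h : ((e1 C f : C) : K) = e1 C g) : f = g :=
  (e1 C).injective (Subtype.ext h)

variable {Γ : Type} [Group Γ] (ρ : Γ →* (K ≃ₐ[k] K)) (hC : ∀ γ, ∀ x ∈ C, ρ γ x ∈ C)

include hC in
lemma ga_R1 (γ : Γ) (f : ML K Unit) (hf : f ∈ R1 C) : ga ρ Unit γ f ∈ R1 C := by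
  rw [mem_R1, ga_coeff]
  exact hC γ _ hf

/-- The action on the chart. -/
noncomputable def a1 : Γ →* (R1 C ≃+* R1 C) where
  toFun γ :=
    { toFun := fun f => ⟨ga ρ Unit γ f, ga_R1 C ρ hC γ f f.2⟩
      invFun := fun f => ⟨ga ρ Unit γ⁻¹ f, ga_R1 C ρ hC γ⁻¹ f f.2⟩
      left_inv := fun f => Subtype.ext (by
        change ga ρ Unit γ⁻¹ (ga ρ Unit γ (f : ML K Unit)) = f
        rw [← ga_mul, inv_mul_cancel, ga_one])
      right_inv := fun f => Subtype.ext (by
        change ga ρ Unit γ (ga ρ Unit γ⁻¹ (f : ML K Unit)) = f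
        rw [← ga_mul, mul_inv_cancel, ga_one])
      map_mul' := fun f g => Subtype.ext (map_mul (ga ρ Unit γ) _ _)
      map_add' := fun f g => Subtype.ext (map_add (ga ρ Unit γ) _ _) }
  map_one' := RingEquiv.ext fun f => Subtype.ext (ga_one ρ _)
  map_mul' γ γ' := RingEquiv.ext fun f => Subtype.ext (ga_mul ρ γ γ' _)

lemma e1_a1 (γ : Γ) (f : R1 C) : ((e1 C (a1 C ρ hC γ f) : C) : K) = ρ γ (e1 C f : C) :=
  ga_coeff ρ γ _ _

/-- The filtrations on the chart. -/
noncomputable def F1 (F : Γ → ℕ → Ideal C) (σ : Γ) (d : ℕ) : Ideal (R1 C) :=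
  (F σ d).comap (e1 C : R1 C →+* C)

variable {F : Γ → ℕ → Ideal C}

lemma mem_F1 {σ : Γ} {d : ℕ} {b : R1 C} : b ∈ F1 C F σ d ↔ e1 C b ∈ F σ d := Iff.rfl

variable {p l : ℕ} (hN : ∀ σ ∈ SP p Γ, NWC C (fun x => ρ σ x - x) l (F σ))

include hN in
/-- The compatible family. -/
theorem sigFam1 [Algebra.Smooth k C] (hp : p.Prime)
    (hl : 0 < l)
    (hin : ∀ P : Ideal (R1 C), P.IsPrime → Nat.card (In (a1 C ρ hC) P) = 1 ∨
      Nat.card (In (a1 C ρ hC) P) = p) :
    SigFam k (a1 C ρ hC) p l (F1 C F) where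
  centre σ hσ := rwc_comap (e1 C) (hN σ hσ).centre
  conj := by
    intro γ σ hσ d b hb
    rw [mem_F1] at hb ⊢
    have hγ : ∀ x ∈ C,
        ρ γ x ∈ C := hC γ
    have hsy : ∀ x, (ρ γ).symm x = ρ γ⁻¹ x := by
      intro x
      rw [AlgEquiv.symm_apply_eq]
      have h2 : (ρ γ * ρ γ⁻¹) x = x := by
        rw [← map_mul, mul_inv_cancel, map_one]
        rfl
      exact h2.symm
    have hγ' : ∀ x ∈ C,
        (ρ γ).symm x ∈ C := by
      intro x hx
      rw [hsy]
      exact hC γ⁻¹ x hx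
    have hσ' : γ * σ * γ⁻¹ ∈ SP p Γ := by
      refine ⟨fun h => hσ.1 ?_, ?_⟩
      · have h2 : σ = γ⁻¹ * (γ * σ * γ⁻¹) * γ := by group
        rw [h2, h, mul_one, inv_mul_cancel]
      · rw [conj_pow, hσ.2, mul_one, mul_inv_cancel]
    have h1 := NWC.conj (ρ σ) (hN σ hσ) (ρ γ) hγ hγ' (ρ (γ * σ * γ⁻¹)) (by
      intro x
      have h2 : (ρ (γ * σ * γ⁻¹) * ρ γ) x = (ρ γ * ρ σ) x := by
        rw [← map_mul, ← map_mul]
        congr 2
        group
      exact h2)
    have h2 := nwc_le (ρ (γ * σ * γ⁻¹)) (hC _) hl (hN _ hσ') h1 d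
    apply h2
    rw [Ideal.mem_comap]
    have h3 : ((resE (ρ γ) hγ hγ').symm : C →+* _)
        (e1 C (a1 C ρ hC γ b)) = e1 C b := by
      change (resE (ρ γ) hγ hγ').symm _ = _
      rw [AlgEquiv.symm_apply_eq]
      exact Subtype.ext (e1_a1 C ρ hC γ b)
    rw [h3]
    exact hb
  gen := by
    intro σ hσ j hj d
    obtain ⟨i, hi'⟩ := exists_inv_pow hp hσ hj
    have h1 := NWC.pow (ρ σ) (hN σ hσ) (hC σ) (j := j) (i := i) (by
      rw [← map_pow, ← map_pow, hi'])
    have h2 := hN _ hj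
    have h3 : ρ (σ ^ j) = ρ σ ^ j := map_pow _ _ _
    rw [← h3] at h1
    exact Ideal.comap_mono (nwc_le (ρ (σ ^ j)) (hC _) hl h1 h2 d)
  raise := by
    intro σ hσ d b hb
    rw [mem_F1] at hb ⊢
    refine (hN σ hσ).raise d _ hb _ ?_
    rw [map_sub]
    change _ - _ = _
    rw [← e1_a1 C ρ hC]
  zeros := by
    intro σ hσ b hb
    rw [mem_F1] at hb
    obtain ⟨M, hM⟩ := (hN σ hσ).zeros hb
    refine ⟨M, ?_⟩
    unfold zI at hM
    have h1 := Ideal.mem_map_of_mem
      ((e1 C).symm : C →+* R1 C) hM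
    have h2 : ((e1 C).symm : C →+* R1 C)
        (e1 C b ^ M) = b ^ M := by
      change (e1 C).symm _ = _
      rw [map_pow, AlgEquiv.symm_apply_apply]
    rw [h2, Ideal.map_span] at h1
    refine Ideal.span_mono ?_ h1
    rintro _ ⟨y, ⟨c, hc⟩, rfl⟩
    refine ⟨(e1 C).symm c, ?_⟩
    apply e1_ext
    change _ = ((e1 C ((e1 C).symm y) :
      C) : K)
    rw [AlgEquiv.apply_symm_apply, hc, map_sub]
    change ((e1 C (a1 C ρ hC σ ((e1 C).symm c)) :
      C) : K) -
      ((e1 C ((e1 C).symm c) : C) :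
        K) = _
    rw [e1_a1, AlgEquiv.apply_symm_apply]
  lead := by
    intro σ hσ d hd b hb
    rw [mem_F1] at hb
    obtain ⟨N, hN'⟩ := (hN σ hσ).lead d hd _ hb
    refine ⟨N, ?_⟩
    have h1 := Ideal.mem_map_of_mem
      ((e1 C).symm : C →+* R1 C) hN'
    have h2 : ((e1 C).symm : C →+* R1 C)
        (e1 C b ^ N) = b ^ N := by
      change (e1 C).symm _ = _
      rw [map_pow, AlgEquiv.symm_apply_apply]
    rw [h2, Ideal.map_sup, Ideal.map_span] at h1
    have hsy : ∀ (e : ℕ) (c : C), c ∈ F σ e →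
        (e1 C).symm c ∈ F1 C F σ e := by
      intro e c hc
      rw [mem_F1, AlgEquiv.apply_symm_apply]
      exact hc
    refine SetLike.le_def.1 (sup_le (le_trans ?_ le_sup_left) (le_trans (Ideal.span_mono ?_)
      le_sup_right)) h1
    · rw [Ideal.map_le_iff_le_comap]
      exact fun x hx => hsy _ x hx
    · rintro _ ⟨y, ⟨e, c, hc, b', hb', z', hz', rfl⟩, rfl⟩
      refine ⟨e, (e1 C).symm c, hsy e c hc, (e1 C).symm b', hsy _ b' hb', ?_⟩
      have h3 : (e1 C).symm z' = a1 C ρ hC σ ((e1 C).symm c) -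
          (e1 C).symm c := by
        apply e1_ext
        rw [AlgEquiv.apply_symm_apply, hz', map_sub]
        change _ = ((e1 C (a1 C ρ hC σ ((e1 C).symm c)) :
          C) : K) -
          ((e1 C ((e1 C).symm c) : C) :
            K)
        rw [e1_a1, AlgEquiv.apply_symm_apply]
      rw [← h3]
      exact map_mul (e1 C).symm b' z'
  inert P hP := hin P hP
  sep := by
    intro σ hσ P hP hle b
    apply hle
    rw [mem_F1]
    have h0 : e1 C b ∈ F σ 0 := by
      rw [(hN σ hσ).centre.zero]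
      trivial
    have h1 := (hN σ hσ).raise 0 _ h0 (e1 C (a1 C ρ hC σ b - b)) (by
      rw [map_sub]
      change _ - _ = _
      rw [← e1_a1 C ρ hC])
    exact (hN σ hσ).centre.anti _ _ (by omega) h1

end r1

end Pool.Agent.U197.GQ
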