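import Pool.Agent.U197.GQ.R1

/-!
Resolution of the quotients of smooth projective varieties by finite groups with inertia groups of
order `1` or `p`.
-/

set_option autoImplicit false
set_option linter.unusedSectionVars false

namespace Pool.Agent.U197.GQ

open AlgebraicGeometry CategoryTheory
open Pool.Agent.W559.Mg Pool.Agent.W559.Et Pool.Agent.H920R2 Pool.Agent.U197.SF
open Pool.Agent.H519R3.RS Pool.Agent.N98.PJ

section fix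

variable {k S : Type} [Field k] [CommRing S] [IsDomain S] [Algebra k S] {Γ : Type} [Group Γ]
  (ρ : Γ →* (FractionRing S ≃ₐ[k] FractionRing S))

/-- The fixed field. -/
noncomputable def fixK : IntermediateField k (FractionRing S) where
  carrier := {x | ∀ γ, ρ γ x = x}
  mul_mem' := fun ha hb γ => by rw [map_mul, ha γ, hb γ]
  add_mem' := fun ha hb γ => by rw [map_add, ha γ, hb γ]
  algebraMap_mem' := fun r γ => (ρ γ).commutes r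
  inv_mem' := fun x hx γ => by rw [map_inv₀, hx γ]

end fix

/-- The model of the field of invariant functions over the charts of the Veronese subalgebra. -/
theorem modelV (p : ℕ) [Fact p.Prime] {k S : Type} [Field k] [PerfectField k] [CharP k p]
    [CommRing S] [IsDomain S] [Algebra k S] {𝒜 : ℕ → Submodule k S} [GradedAlgebra 𝒜]
    [GradedAlgebra (VG 𝒜 p)]
    {Γ : Type} [Group Γ] [Fintype Γ] (ρS : Γ →* (S ≃ₐ[k] S))
    (hgr : ∀ γ n, ∀ s ∈ 𝒜 n, ρS γ s ∈ 𝒜 n)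
    {m : ℕ} (b : Fin (m + 1) → S) (hb : ∀ i, b i ∈ 𝒜 1)
    (hbg : Algebra.adjoin k (Set.range b) = ⊤)
    {m' : ℕ} (b' : Fin (m' + 1) → Ver 𝒜 p) (hb' : ∀ i, b' i ∈ VG 𝒜 p 1) (hb0' : ∀ i, b' i ≠ 0)
    (hbg' : Algebra.adjoin k (Set.range b') = ⊤)
    (hX : AlgebraicGeometry.Smooth (str 𝒜))
    (hfX : ∀ γ, (∀ n, ∀ s ∈ 𝒜 n, ∀ t ∈ 𝒜 n, ρS γ s * t = s * ρS γ t) → γ = 1)
    (hin : ∀ x : ProjectiveSpectrum 𝒜, IsClosed ({x} : Set (ProjectiveSpectrum 𝒜)) →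
      Nat.card (InS ρS x.asHomogeneousIdeal.toIdeal) = 1 ∨
      Nat.card (InS ρS x.asHomogeneousIdeal.toIdeal) = p)
    (hpt : ∀ σ : Γ, σ ≠ 1 → σ ^ p = 1 → ∀ x : ProjectiveSpectrum 𝒜,
      IsClosed ({x} : Set (ProjectiveSpectrum 𝒜)) → σ ∈ InS ρS x.asHomogeneousIdeal.toIdeal →
        LocD 𝒜 (ρS σ) x) :
    ∃ (I : Type) (_ : Finite I) (z : I → FractionRing (Ver 𝒜 p)) (J : Set I),
      ModelG k (WS (rhoV ρS hgr p) (rhoF (rhoV ρS hgr p)) b' (VG 𝒜 p))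
        (KfS (rhoF (rhoV ρS hgr p)) (VG 𝒜 p)).toSubfield z J := by
  have hp : p.Prime := Fact.out
  have hpk : (p : k) = 0 := CharP.cast_eq_zero k p
  have _ : CharP S p := charP_of_injective_algebraMap (algebraMap k S).injective p
  have hftS : Algebra.FiniteType k S := by
    refine ⟨⟨(Set.finite_range b).toFinset, ?_⟩⟩
    rw [Set.Finite.coe_toFinset, hbg]
  have hnoe : IsNoetherianRing S := Algebra.FiniteType.isNoetherianRing k S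
  refine modelX' (rhoV ρS hgr p) (rhoF (rhoV ρS hgr p)) (rhoF_ev (rhoV ρS hgr p))
    (rhoV_gr ρS hgr p) b' hb' hb0' hbg' hp hpk
    (smCh_V p hp.pos hX) (faith_V ρS hgr p hfX) (fun x => ?_) (fun σ hσ x hx => ?_)
  · rw [InS_ptV ρS hgr p x]
    obtain ⟨y, hxy, hcl⟩ := exists_closed 𝒜 (ptV 𝒜 p x)
    have hle : InS ρS (ptV 𝒜 p x).asHomogeneousIdeal.toIdeal ≤
        InS ρS y.asHomogeneousIdeal.toIdeal := fun γ hγ s => hxy (hγ s)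
    have hdvd := Subgroup.card_dvd_of_le hle
    rcases hin y hcl with h | h
    · left
      rw [h] at hdvd
      exact Nat.dvd_one.1 hdvd
    · rw [h] at hdvd
      exact (Nat.dvd_prime hp).1 hdvd
  · rw [InS_ptV ρS hgr p x] at hx
    obtain ⟨y, hxy, hcl⟩ := exists_closed 𝒜 (ptV 𝒜 p x)
    have hy : σ ∈ InS ρS y.asHomogeneousIdeal.toIdeal := fun s => hxy (hx s)
    obtain ⟨z, hz, s, hs, hzs⟩ := niceC_V ρS hgr p hX b hb hbg hσ.2 hy (hpt σ hσ.1 hσ.2 y hcl hy)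
    refine ⟨z, hz, fun h => hs (hxy ?_)⟩
    change frV 𝒜 p s ∈ x.asHomogeneousIdeal
    have h1 : frV 𝒜 p s = z := Subtype.ext hzs.symm
    rw [h1]
    exact h

/-- **Resolution of the quotients.** -/
theorem rsvQ (p : ℕ) [Fact p.Prime] {k S : Type} [Field k] [PerfectField k] [CharP k p]
    [CommRing S] [IsDomain S] [Algebra k S] {𝒜 : ℕ → Submodule k S} [GradedAlgebra 𝒜]
    {Γ : Type} [Group Γ] [Finite Γ] (ρS : Γ →* (S ≃ₐ[k] S))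
    (hgr : ∀ γ n, ∀ s ∈ 𝒜 n, ρS γ s ∈ 𝒜 n)
    {m : ℕ} (b : Fin (m + 1) → S) (hb : ∀ i, b i ∈ 𝒜 1) (hb0 : ∀ i, b i ≠ 0)
    (hbg : Algebra.adjoin k (Set.range b) = ⊤)
    (hX : AlgebraicGeometry.Smooth (str 𝒜))
    (hfX : ∀ γ, (∀ n, ∀ s ∈ 𝒜 n, ∀ t ∈ 𝒜 n, ρS γ s * t = s * ρS γ t) → γ = 1)
    (hin : ∀ x : ProjectiveSpectrum 𝒜, IsClosed ({x} : Set (ProjectiveSpectrum 𝒜)) →
      Nat.card (InS ρS x.asHomogeneousIdeal.toIdeal) = 1 ∨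
      Nat.card (InS ρS x.asHomogeneousIdeal.toIdeal) = p)
    (hpt : ∀ σ : Γ, σ ≠ 1 → σ ^ p = 1 → ∀ x : ProjectiveSpectrum 𝒜,
      IsClosed ({x} : Set (ProjectiveSpectrum 𝒜)) → σ ∈ InS ρS x.asHomogeneousIdeal.toIdeal →
        LocD 𝒜 (ρS σ) x)
    (C : Subalgebra k S) (hC : ∀ s, s ∈ C ↔ ∀ γ, ρS γ s = s) :
    ∃ _ : GradedAlgebra (piece 𝒜 C), RsvG 𝒜 C := by
  classical
  have hp : p.Prime := Fact.out
  have _ : Fintype Γ := Fintype.ofFinite Γ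
  have hftS : Algebra.FiniteType k S := by
    refine ⟨⟨(Set.finite_range b).toFinset, ?_⟩⟩
    rw [Set.Finite.coe_toFinset, hbg]
  have hft : Algebra.FiniteType k C := finiteType_inv ρS C hC
  refine ⟨grd 𝒜 C (proj_inv ρS hgr C hC), ?_⟩
  let _ := grd 𝒜 C (proj_inv ρS hgr C hC)
  let _ : GradedAlgebra (VG 𝒜 p) := gVG 𝒜 hp.pos
  obtain ⟨m', b', hb', hb0', hbg'⟩ := exists_gen_V 𝒜 hp.pos b hb hb0 hbg
  obtain ⟨I, _, z, J, hmod⟩ := modelV p ρS hgr b hb hbg b' hb' hb0' hbg' hX hfX hin hpt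
  let ρV : Γ →* (Ver 𝒜 p ≃ₐ[k] Ver 𝒜 p) := rhoV ρS hgr p
  have hgrV : ∀ γ n, ∀ s ∈ VG 𝒜 p n, ρV γ s ∈ VG 𝒜 p n := rhoV_gr ρS hgr p
  let h : TS ρV b' → S := fun t => (zS ρV b' t : Ver 𝒜 p)
  have hh' : ∀ t, zS ρV b' t ∈ VG 𝒜 p (DD Γ) := zS_mem ρV hgrV b' hb'
  have hh : ∀ t, h t ∈ 𝒜 (p * DD Γ) := hh'
  have h0' : ∀ t, zS ρV b' t ≠ 0 := zS_ne ρV b'
  have h0 : ∀ t, h t ≠ 0 := fun t ht => h0' t (Subtype.ext ht)
  have hinv : ∀ t γ, ρS γ (h t) = h t := fun t γ =>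
    congrArg Subtype.val (zS_inv ρV (rhoF ρV) (rhoF_ev ρV) b' t γ)
  have hCh : ∀ t, h t ∈ C := fun t => (hC _).2 (hinv t)
  have hKf : ∀ s, ev k S s ∈ fixK (rhoF ρS) ↔ s ∈ C := by
    intro s
    rw [hC]
    constructor
    · intro hs γ
      have h1 := hs γ
      rw [rhoF_ev] at h1
      exact ev_inj (k := k) h1
    · intro hs γ
      change rhoF ρS γ (ev k S s) = ev k S s
      rw [rhoF_ev, hs γ]
  have hW : ∀ t, {x | x ∈ ch 𝒜 (h t) (p * DD Γ) (hh t) (h0 t) ∧ x ∈ fixK (rhoF ρS)} ⊆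
      jV 𝒜 p '' WS ρV (rhoF ρV) b' (VG 𝒜 p) t := by
    rintro t x ⟨hx, hxK⟩
    obtain ⟨x', hx', rfl⟩ := jV_ch2 p (hh' t) (h0' t) (hh t) (h0 t) x hx
    refine ⟨x', ⟨hz_ch (hh' t) (h0' t) hx', fun γ => ?_⟩, rfl⟩
    apply (jV 𝒜 p).injective
    change jV 𝒜 p _ = jV 𝒜 p _
    rw [jV_rho]
    exact hxK γ
  have hL : ∀ x ∈ (KfS (rhoF ρV) (VG 𝒜 p)).toSubfield,
      jV 𝒜 p x ∈ (KfS (rhoF ρS) 𝒜).toSubfield := by
    rintro x ⟨⟨d, s, t, hs, ht, ht0, rfl⟩, hinv⟩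
    refine ⟨⟨p * d, s, t, hs, ht, fun h => ht0 (Subtype.ext h), ?_⟩, fun γ => ?_⟩
    · rw [map_div₀, jV_ev, jV_ev]
    · rw [← jV_rho p ρS hgr, hinv γ]
  have hmod' := modelG_map (W := fun t => {x | x ∈ ch 𝒜 (h t) (p * DD Γ) (hh t) (h0 t) ∧
    x ∈ fixK (rhoF ρS)}) (jV 𝒜 p) hW hL hmod
  obtain ⟨i0, hi0, -⟩ := hmod.cv ⊤ fun _ => trivial
  obtain ⟨t0, -⟩ := hmod.aa i0 hi0
  have hD : 0 < p * DD Γ := Nat.mul_pos hp.pos (DD_pos Γ)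
  refine rsvG_of 𝒜 b hb hbg C hD.ne' ⟨h t0, hCh t0⟩ (hh t0)
    (fun h' => h0 t0 (congrArg Subtype.val h')) ?_
  exact resolution_of_model (W := fun t => {x | x ∈ ch 𝒜 (h t) (p * DD Γ) (hh t) (h0 t) ∧
    x ∈ fixK (rhoF ρS)}) 𝒜 C (fixK (rhoF ρS)) hKf hD h hh h0 hCh
    (fun d t ht ht0 => exists_inv_mul ρS hgr C hC d t ht ht0) (KfS (rhoF ρS) 𝒜)
    (fun x => Iff.rfl) (fun t x hx hxK => ⟨hx, hxK⟩) hmod'

end Pool.Agent.U197.GQ
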