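import Pool.Agent.U197.GQ.A3
import Pool.Agent.U197.GQ.R2

/-!
Affine varieties: resolution of the quotient.
-/

set_option autoImplicit false
set_option linter.unusedSectionVars false

namespace Pool.Agent.U197.GQ

open AlgebraicGeometry CategoryTheory
open Pool.Agent.W559.Mg Pool.Agent.W559.Et Pool.Agent.H920R2 Pool.Agent.U197.SF

section main

variable {k S : Type} [Field k] [CommRing S] [IsDomain S] [Algebra k S] {Γ : Type} [Group Γ]
  (ρS : Γ →* (S ≃ₐ[k] S))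

/-- The ring of functions in the field of fractions. -/
noncomputable abbrev CA (k S : Type) [Field k] [CommRing S] [IsDomain S] [Algebra k S] :
    Subalgebra k (FractionRing S) := Cz (one_ne_zero : (1 : S) ≠ 0)

lemma rho_CA (γ : Γ) : ∀ x ∈ CA k S, rhoF ρS γ x ∈ CA k S := fun x hx =>
  rho_Cz one_ne_zero ρS (rhoF ρS) (rhoF_ev ρS) (fun γ => map_one (ρS γ)) γ x hx

/-- The functions on the chart. -/
noncomputable def iA (k S : Type) [Field k] [CommRing S] [IsDomain S] [Algebra k S] :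
    S ≃ₐ[k] R1 (CA k S) := (eOne (k := k) (S := S)).trans (e1 (CA k S)).symm

lemma iA_coe (s : S) : ((e1 (CA k S) (iA k S s) : CA k S) : FractionRing S) = ev k S s := by
  unfold iA
  rw [AlgEquiv.trans_apply, AlgEquiv.apply_symm_apply]
  rfl

lemma a1_iA (γ : Γ) (s : S) : a1 (CA k S) (rhoF ρS) (rho_CA ρS) γ (iA k S s) =
    iA k S (ρS γ s) := by
  apply e1_ext
  rw [e1_a1, iA_coe, iA_coe, rhoF_ev]

lemma In_eq1 (P : Ideal (R1 (CA k S))) : In (a1 (CA k S) (rhoF ρS) (rho_CA ρS)) P =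
    InS ρS (P.comap ((iA k S : S ≃ₐ[k] R1 (CA k S)) : S →+* R1 (CA k S))) := by
  ext γ
  constructor
  · intro h s
    change iA k S (ρS γ s - s) ∈ P
    rw [map_sub, ← a1_iA]
    exact h _
  · intro h b
    obtain ⟨s, rfl⟩ := (iA k S).surjective b
    rw [a1_iA, ← map_sub]
    exact h s

lemma faith_R1 (hf : ∀ γ, (∀ s, ρS γ s = s) → γ = 1) (γ : Γ)
    (h : ∀ f ∈ R1 (CA k S), ga (rhoF ρS) Unit γ f = f) : γ = 1 := by
  apply hf
  intro s
  have h1 : a1 (CA k S) (rhoF ρS) (rho_CA ρS) γ (iA k S s) = iA k S s :=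
    Subtype.ext (h _ (iA k S s).2)
  rw [a1_iA] at h1
  exact (iA k S).injective h1

/-- Functions which are integral over the invariants. -/
lemma mem_val [Fintype Γ] (A : Subalgebra k S) (hA : ∀ s, s ∈ A ↔ ∀ γ, ρS γ s = s)
    (V : ValuationSubring (FractionRing S)) (hV : ∀ a : A, ((ev k S).comp A.val) a ∈ V) (s : S) :
    ev k S s ∈ V := by
  by_cases hs : s = 0
  · rw [hs, map_zero]
    exact V.zero_mem
  obtain ⟨l, -, hl⟩ := exists_es (rhoF ρS) V (ev_ne (k := k) hs)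
  have h1 : es (rhoF ρS) (ev k S s) (l + 1) ∈ V := by
    rw [← ev_esS ρS (rhoF ρS) (rhoF_ev ρS)]
    exact hV ⟨_, (hA _).2 fun γ => esS_inv ρS (rhoF ρS) (rhoF_ev ρS) s (l + 1) γ⟩
  rw [← V.valuation_le_one_iff] at h1 ⊢
  by_contra hcon
  push Not at hcon
  exact absurd (hl.trans h1) (not_le.2 (one_lt_pow₀ hcon (Nat.succ_ne_zero l)))

/-- The atlas. -/
theorem pbA [Fintype Γ] (A : Subalgebra k S) (hA : ∀ s, s ∈ A ↔ ∀ γ, ρS γ s = s) :
    PB {V : ValuationSubring (FractionRing S) | ∀ a : A, ((ev k S).comp A.val) a ∈ V}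
      (fixK (rhoF ρS)).toSubfield (fun _ : Unit => Set.range ((ev k S).comp A.val))
      (FX (rhoF ρS) Unit) 1 (fun _ : Unit => R1 (CA k S)) (fun _ => 1) where
  H0 _ := one_ne_zero
  HK _ := fun γ => map_one _
  gr _ := gr_inf (gr_R1 _) (gr_FX _)
  aa _ := ⟨(), by
    rintro _ ⟨a, rfl⟩
    refine ⟨(mo_mem_R1 _).2 (ev_mem_Cz _ _), (mo_mem_FX _).2 fun γ => ?_⟩
    change rhoF ρS γ (ev k S (a : S)) = ev k S (a : S)
    rw [rhoF_ev, (hA _).1 a.2 γ]⟩
  inF _ x hx := (mo_mem_FX _).1 hx.2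
  Fi m a ha hm := by
    rw [mo_mem_FX] at hm ⊢
    intro γ
    rw [map_inv₀, hm γ]
  rt _ _ := by
    rw [div_one, mo_one]
    exact Subalgebra.one_mem _
  gl _ _ f hf := ⟨0, by
    rw [pow_zero, one_mul]
    exact hf⟩
  cv V hV := ⟨(), 1, fun _ => 1, one_pos, fun _ => one_ne_zero, fun _ _ => (one_mul 1).symm,
    fun f hf m => by
      rw [pow_one]
      change V.valuation (f.coeff ()) ≤ 1
      rw [V.valuation_le_one_iff]
      obtain ⟨N, s, hs⟩ := hf
      rw [hs, map_one, one_pow, div_one]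
      exact mem_val ρS A hA V hV s⟩
  E0 := one_pos
  un _ m := ⟨1, one_ne_zero, ⟨(mo_mem_R1 _).2 (Subalgebra.one_mem _),
    (mo_mem_FX _).2 fun γ => map_one _⟩, by
      rw [inv_one]
      exact ⟨(mo_mem_R1 _).2 (Subalgebra.one_mem _), (mo_mem_FX _).2 fun γ => map_one _⟩⟩
  gen _ := by
    rw [eq_top_iff]
    intro m _
    exact AddSubgroup.zero_mem _

variable {F : Γ → ℕ → Ideal (CA k S)} {p l : ℕ}

/-- The centre is not empty. -/
theorem pos_A [Finite Γ] (hf : ∀ γ, (∀ s, ρS γ s = s) → γ = 1) (hl : 0 < l)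
    (hN : ∀ σ ∈ SP p Γ, NWC (CA k S) (fun x => rhoF ρS σ x - x) l (F σ)) :
    ∃ b ∈ FFa p (F1 (CA k S) F) 1, b ≠ 0 := by
  classical
  have _ : Fintype Γ := Fintype.ofFinite Γ
  have key : ∀ σ : Γ, ∃ y : CA k S, y ≠ 0 ∧ (σ ∈ SP p Γ → y ∈ F σ 1) := by
    intro σ
    by_cases hσ : σ ∈ SP p Γ
    · have h1 : ∃ s, ρS σ s ≠ s := by
        by_contra hcon
        push Not at hcon
        exact hσ.1 (hf σ hcon)
      obtain ⟨s, hs⟩ := h1
      have h2 : ev k S (ρS σ s - s) ∈ CA k S := ev_mem_Cz _ _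
      refine ⟨⟨_, h2⟩, ?_, fun _ => ?_⟩
      · intro h3
        have h4 : ev k S (ρS σ s - s) = 0 := congrArg Subtype.val h3
        rw [map_eq_zero_iff _ (ev_inj (k := k))] at h4
        exact hs (sub_eq_zero.1 h4)
      · have h3 : (⟨ev k S s, ev_mem_Cz _ s⟩ : CA k S) ∈ F σ 0 := by
          rw [(hN σ hσ).centre.zero]
          trivial
        have h4 := (hN σ hσ).raise 0 _ h3 ⟨_, h2⟩ (by
          change ev k S (ρS σ s - s) = rhoF ρS σ (ev k S s) - ev k S s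
          rw [rhoF_ev, map_sub])
        exact (hN σ hσ).centre.anti _ _ (by omega) h4
    · exact ⟨1, one_ne_zero, fun h => absurd h hσ⟩
  choose y hy0 hy using key
  refine ⟨(e1 (CA k S)).symm (∏ σ : Γ, y σ), ?_, ?_⟩
  · rw [mem_FFa]
    intro σ hσ
    rw [mem_F1, AlgEquiv.apply_symm_apply]
    exact Ideal.mem_of_dvd _ (Finset.dvd_prod_of_mem y (Finset.mem_univ σ)) (hy σ hσ)
  · intro h
    have h1 : (∏ σ : Γ, y σ) = 0 := by
      have h2 := congrArg (e1 (CA k S)) h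
      rwa [AlgEquiv.apply_symm_apply, map_zero] at h2
    rw [Finset.prod_eq_zero_iff] at h1
    obtain ⟨σ, -, h3⟩ := h1
    exact hy0 σ h3

/-- Invariant fractions are fractions of invariants. -/
lemma frac_A [Fintype Γ] (A : Subalgebra k S) (hA : ∀ s, s ∈ A ↔ ∀ γ, ρS γ s = s)
    (x : FractionRing S) (hx : ∀ γ, rhoF ρS γ x = x) : ∃ a b : A,
      ((ev k S).comp A.val) b ≠ 0 ∧ x = ((ev k S).comp A.val) a / ((ev k S).comp A.val) b := by
  classical
  obtain ⟨s, t, ht, rfl⟩ := IsFractionRing.div_surjective (A := S) x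
  have ht' : t ≠ 0 := nonZeroDivisors.ne_zero ht
  have ht0 : ev k S t ≠ 0 := ev_ne ht'
  have hb0 : ∏ γ, ρS γ t ≠ 0 := by
    rw [Finset.prod_ne_zero_iff]
    intro γ _ h
    exact ht' ((map_eq_zero_iff _ (ρS γ).injective).1 h)
  have hbi : ∀ δ, ρS δ (∏ γ, ρS γ t) = ∏ γ, ρS γ t := by
    intro δ
    rw [map_prod]
    refine Fintype.prod_equiv (Equiv.mulLeft δ) _ _ fun γ => ?_
    change ρS δ (ρS γ t) = ρS (δ * γ) t
    rw [map_mul]
    rfl
  have h1 : ∏ γ, ρS γ t = t * ∏ γ ∈ Finset.univ.erase (1 : Γ), ρS γ t := by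
    rw [← Finset.mul_prod_erase Finset.univ _ (Finset.mem_univ (1 : Γ)), map_one]
    rfl
  have ha : ev k S (s * ∏ γ ∈ Finset.univ.erase (1 : Γ), ρS γ t) =
      (ev k S s / ev k S t) * ev k S (∏ γ, ρS γ t) := by
    rw [h1, map_mul, map_mul]
    field_simp
  have hai : s * ∏ γ ∈ Finset.univ.erase (1 : Γ), ρS γ t ∈ A := by
    rw [hA]
    intro γ
    apply ev_inj (k := k)
    rw [← rhoF_ev, ha, map_mul, rhoF_ev, hbi]
    congr 1
    exact hx γ
  refine ⟨⟨_, hai⟩, ⟨_, (hA _).2 hbi⟩, ev_ne (k := k) hb0, ?_⟩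
  change ev k S s / ev k S t = ev k S (s * ∏ γ ∈ Finset.univ.erase (1 : Γ), ρS γ t) /
    ev k S (∏ γ, ρS γ t)
  rw [ha, mul_div_assoc, div_self (ev_ne (k := k) hb0), mul_one]

/-- **Resolution of the quotients of affine varieties.** -/
theorem resA [PerfectField k] [Finite Γ] {p : ℕ} [hp : Fact p.Prime] [CharP k p]
    [Algebra.Smooth k S] (hf : ∀ γ, (∀ s, ρS γ s = s) → γ = 1)
    (hin : ∀ P : Ideal S, P.IsMaximal → Nat.card (InS ρS P) = 1 ∨ Nat.card (InS ρS P) = p)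
    (hpt : ∀ σ : Γ, σ ≠ 1 → σ ^ p = 1 → ∀ (P : Ideal S) [P.IsMaximal], σ ∈ InS ρS P →
      LocA (ρS σ) P)
    (A : Subalgebra k S) (hA : ∀ s, s ∈ A ↔ ∀ γ, ρS γ s = s) :
    HasResolution (X := Spec (CommRingCat.of A))
      (Spec.map (CommRingCat.ofHom (algebraMap k A))) := by
  classical
  have _ : Fintype Γ := Fintype.ofFinite Γ
  have hpk : (p : k) = 0 := CharP.cast_eq_zero k p
  have hin' : ∀ P : Ideal S, P.IsPrime → Nat.card (InS ρS P) = 1 ∨
      Nat.card (InS ρS P) = p := by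
    intro P hP
    obtain ⟨M, hM, hle⟩ := Ideal.exists_le_maximal P hP.ne_top
    have hle' : InS ρS P ≤ InS ρS M := fun γ hγ s => hle (hγ s)
    have hdvd := Subgroup.card_dvd_of_le hle'
    rcases hin M hM with h | h
    · left
      rw [h] at hdvd
      exact Nat.dvd_one.1 hdvd
    · rw [h] at hdvd
      exact (Nat.dvd_prime hp.out).1 hdvd
  have hl : ∀ σ : Γ, ∃ l, 0 < l ∧ (σ ∈ SP p Γ → ∃ F, NWC (CA k S)
      (fun x => rhoF ρS σ x - x) l F) := by
    intro σ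
    by_cases hσ : σ ∈ SP p Γ
    · have hσp : ∀ s, (ρS σ)^[p] s = s := by
        intro s
        rw [iter_rho, hσ.2, map_one]
        rfl
      obtain ⟨l, hl, F, hF⟩ := gluedA hp.out.pos hpk (ρS σ) (fun P hP hσP => by
        obtain ⟨M, hM, hle⟩ := Ideal.exists_le_maximal P hP.ne_top
        have _ := hM
        obtain ⟨f, hf, hfM⟩ := niceA_of_local hσp (P := M) (fun s => hle (hσP s))
          (hpt σ hσ.1 hσ.2 M fun s => hle (hσP s))
        exact ⟨f, hf, fun h => hfM (hle h)⟩)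
      exact ⟨l, hl, fun _ => ⟨F, hF⟩⟩
    · exact ⟨1, one_pos, fun h => absurd h hσ⟩
  choose l hl0 hlF using hl
  let L : ℕ := ∏ σ, l σ
  have hL : 0 < L := Finset.prod_pos fun σ _ => hl0 σ
  have hF' : ∀ σ : Γ, ∃ F : ℕ → Ideal (CA k S), σ ∈ SP p Γ →
      NWC (CA k S) (fun x => rhoF ρS σ x - x) L F := by
    intro σ
    by_cases hσ : σ ∈ SP p Γ
    · obtain ⟨F, hF⟩ := hlF σ hσ
      obtain ⟨c, hc⟩ : l σ ∣ L := Finset.dvd_prod_of_mem l (Finset.mem_univ σ)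
      obtain ⟨q, rfl⟩ : ∃ q, c = q + 1 := by
        refine ⟨c - 1, ?_⟩
        have : c ≠ 0 := by
          rintro rfl
          rw [mul_zero] at hc
          omega
        omega
      rw [hc, mul_comm]
      exact ⟨_, fun _ => hF.scale q⟩
    · exact ⟨fun _ => ⊥, fun h => absurd h hσ⟩
  choose F hN using hF'
  have hsm : Algebra.Smooth k (CA k S) := smooth_CzA _
  have hfam := sigFam1 (CA k S) (rhoF ρS) (rho_CA ρS) hN hp.out hL (fun P hP => by
    rw [In_eq1]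
    exact hin' _ (Ideal.comap_isPrime _ _))
  obtain ⟨T1, _, E1, C1, H1, h1⟩ := mb_of_centre (rhoF ρS) (pbA ρS A hA)
    (fun _ => gr_R1 _) (fun _ => ga_R1 (CA k S) (rhoF ρS) (rho_CA ρS))
    (fun _ => Algebra.Smooth.of_equiv (e1 (CA k S)).symm)
    (fun _ => faith_R1 ρS hf)
    (fun _ => FFa p (F1 (CA k S) F))
    (fun _ => hfam.rwc hp.out)
    (fun _ γ d a ha => hfam.stab γ d ha)
    (fun _ d c hc m => ⟨c, hc, mlU _⟩)
    (fun _ _ d c hc => ⟨0, c, hc, by rw [pow_zero, one_mul]⟩)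
    (fun _ => pos_A ρS hf hL hN)
    (fun _ P hP => hfam.loc hp.out hL P hP)
  have hstep := Pool.Agent.W417.Et.step Pool.Agent.W333.Et.modif
  obtain ⟨T3, _, E3, C3, H3, h3⟩ := hstep k (FractionRing S) Unit _ _ _ _ T1 E1 C1 H1 h1
  exact Pool.Agent.W440.ET.aff k (FractionRing S) A ((ev k S).comp A.val)
    ((ev_inj (k := k)).comp Subtype.val_injective) (fixK (rhoF ρS)).toSubfield
    (fun x hx => frac_A ρS A hA x hx) T3 E3 C3 H3 h3

end main

end Pool.Agent.U197.GQ
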