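import Pool.Agent.U197.GQ.A4

/-!
Resolution of the quotient of the spectrum of a smooth algebra in a field, given the centres.
-/

set_option autoImplicit false
set_option linter.unusedSectionVars false

namespace Pool.Agent.U197.GQ

open AlgebraicGeometry CategoryTheory
open Pool.Agent.W559.Mg Pool.Agent.W559.Et Pool.Agent.H920R2 Pool.Agent.U197.SF

section main

variable {k K : Type} [Field k] [Field K] [Algebra k K] (C : Subalgebra k K) {Γ : Type} [Group Γ]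
  (ρ : Γ →* (K ≃ₐ[k] K)) (hC : ∀ γ, ∀ x ∈ C, ρ γ x ∈ C)

/-- The fixed field. -/
noncomputable def fixF' : Subfield K where
  carrier := {x | ∀ γ, ρ γ x = x}
  mul_mem' := fun ha hb γ => by rw [map_mul, ha γ, hb γ]
  add_mem' := fun ha hb γ => by rw [map_add, ha γ, hb γ]
  one_mem' := fun γ => map_one _
  zero_mem' := fun γ => map_zero _
  neg_mem' := fun ha γ => by rw [map_neg, ha γ]
  inv_mem' := fun x hx γ => by rw [map_inv₀, hx γ]

/-- The invariants. -/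
noncomputable def invC : Subalgebra k K where
  carrier := {x | x ∈ C ∧ ∀ γ, ρ γ x = x}
  mul_mem' := fun ha hb => ⟨C.mul_mem ha.1 hb.1, fun γ => by rw [map_mul, ha.2 γ, hb.2 γ]⟩
  add_mem' := fun ha hb => ⟨C.add_mem ha.1 hb.1, fun γ => by rw [map_add, ha.2 γ, hb.2 γ]⟩
  algebraMap_mem' := fun r => ⟨C.algebraMap_mem r, fun γ => (ρ γ).commutes r⟩

lemma mem_invC {x : K} : x ∈ invC C ρ ↔ x ∈ C ∧ ∀ γ, ρ γ x = x := Iff.rfl

include hC in
/-- Functions which are integral over the invariants. -/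
lemma mem_valC [Fintype Γ] (V : ValuationSubring K) (hV : ∀ a ∈ invC C ρ, a ∈ V) (x : K)
    (hx : x ∈ C) : x ∈ V := by
  by_cases hx0 : x = 0
  · rw [hx0]
    exact V.zero_mem
  obtain ⟨l, -, hl⟩ := exists_es ρ V hx0
  have h1 : es ρ x (l + 1) ∈ V := by
    refine hV _ ⟨?_, es_inv ρ x (l + 1)⟩
    unfold es
    exact Subalgebra.sum_mem _ fun A _ => Subalgebra.prod_mem _ fun γ _ => hC γ x hx
  rw [← V.valuation_le_one_iff] at h1 ⊢
  by_contra hcon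
  push Not at hcon
  exact absurd (hl.trans h1) (not_le.2 (one_lt_pow₀ hcon (Nat.succ_ne_zero l)))

include hC in
/-- The atlas. -/
theorem pbC [Fintype Γ] :
    PB {V : ValuationSubring K | ∀ a : invC C ρ, (invC C ρ).val a ∈ V}
      (fixF' ρ) (fun _ : Unit => Set.range ((invC C ρ).val))
      (FX ρ Unit) 1 (fun _ : Unit => R1 C) (fun _ => 1) where
  H0 _ := one_ne_zero
  HK _ := fun γ => map_one _
  gr _ := gr_inf (gr_R1 _) (gr_FX _)
  aa _ := ⟨(), by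
    rintro _ ⟨a, rfl⟩
    exact ⟨(mo_mem_R1 _).2 a.2.1, (mo_mem_FX _).2 a.2.2⟩⟩
  inF _ x hx := (mo_mem_FX _).1 hx.2
  Fi m a ha hm := by
    rw [mo_mem_FX] at hm ⊢
    intro γ
    rw [map_inv₀, hm γ]
  rt _ _ := by
    rw [div_one, mo_one]
    exact Subalgebra.one_mem _
  gl _ _ f hf := ⟨0, by
    rw [pow_zero, one_mul]
    exact hf⟩
  cv V hV := ⟨(), 1, fun _ => 1, one_pos, fun _ => one_ne_zero, fun _ _ => (one_mul 1).symm,
    fun f hf m => by
      rw [pow_one]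
      change V.valuation (f.coeff ()) ≤ 1
      rw [V.valuation_le_one_iff]
      exact mem_valC C ρ hC V (fun a ha => hV ⟨a, ha⟩) _ hf⟩
  E0 := one_pos
  un _ m := ⟨1, one_ne_zero, ⟨(mo_mem_R1 _).2 (Subalgebra.one_mem _),
    (mo_mem_FX _).2 fun γ => map_one _⟩, by
      rw [inv_one]
      exact ⟨(mo_mem_R1 _).2 (Subalgebra.one_mem _), (mo_mem_FX _).2 fun γ => map_one _⟩⟩
  gen _ := by
    rw [eq_top_iff]
    intro m _
    exact AddSubgroup.zero_mem _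

variable {C ρ} {F : Γ → ℕ → Ideal C} {p l : ℕ}

include hC in
/-- The centre is not empty. -/
theorem pos_C [Finite Γ] (hf : ∀ γ, (∀ x ∈ C, ρ γ x = x) → γ = 1) (hl : 0 < l)
    (hN : ∀ σ ∈ SP p Γ, NWC C (fun x => ρ σ x - x) l (F σ)) :
    ∃ b ∈ FFa p (F1 C F) 1, b ≠ 0 := by
  classical
  have _ : Fintype Γ := Fintype.ofFinite Γ
  have key : ∀ σ : Γ, ∃ y : C, y ≠ 0 ∧ (σ ∈ SP p Γ → y ∈ F σ 1) := by
    intro σ
    by_cases hσ : σ ∈ SP p Γ
    · have h1 : ∃ s ∈ C, ρ σ s ≠ s := by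
        by_contra hcon
        push Not at hcon
        exact hσ.1 (hf σ hcon)
      obtain ⟨s, hsC, hs⟩ := h1
      have h2 : ρ σ s - s ∈ C := C.sub_mem (hC σ s hsC) hsC
      refine ⟨⟨_, h2⟩, ?_, fun _ => ?_⟩
      · intro h3
        have h4 : ρ σ s - s = 0 := congrArg Subtype.val h3
        exact hs (sub_eq_zero.1 h4)
      · have h3 : (⟨s, hsC⟩ : C) ∈ F σ 0 := by
          rw [(hN σ hσ).centre.zero]
          trivial
        have h4 := (hN σ hσ).raise 0 _ h3 ⟨_, h2⟩ rfl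
        exact (hN σ hσ).centre.anti _ _ (by omega) h4
    · exact ⟨1, one_ne_zero, fun h => absurd h hσ⟩
  choose y hy0 hy using key
  refine ⟨(e1 C).symm (∏ σ : Γ, y σ), ?_, ?_⟩
  · rw [mem_FFa]
    intro σ hσ
    rw [mem_F1, AlgEquiv.apply_symm_apply]
    exact Ideal.mem_of_dvd _ (Finset.dvd_prod_of_mem y (Finset.mem_univ σ)) (hy σ hσ)
  · intro h
    have h1 : (∏ σ : Γ, y σ) = 0 := by
      have h2 := congrArg (e1 C) h
      rwa [AlgEquiv.apply_symm_apply, map_zero] at h2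
    rw [Finset.prod_eq_zero_iff] at h1
    obtain ⟨σ, -, h3⟩ := h1
    exact hy0 σ h3

/-- Invariant fractions are fractions of invariants. -/
lemma frac_C [Fintype Γ] (hfr : ∀ x : K, ∃ a ∈ C, ∃ b ∈ C, b ≠ 0 ∧ x = a / b)
    (hC : ∀ γ, ∀ x ∈ C, ρ γ x ∈ C) (x : K) (hx : ∀ γ, ρ γ x = x) : ∃ a b : invC C ρ,
      (invC C ρ).val b ≠ 0 ∧ x = (invC C ρ).val a / (invC C ρ).val b := by
  classical
  obtain ⟨s, hs, t, ht, ht0, rfl⟩ := hfr x
  have hb0 : ∏ γ, ρ γ t ≠ 0 := by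
    rw [Finset.prod_ne_zero_iff]
    intro γ _ h
    exact ht0 ((map_eq_zero_iff _ (ρ γ).injective).1 h)
  have hbi : ∀ δ, ρ δ (∏ γ, ρ γ t) = ∏ γ, ρ γ t := by
    intro δ
    rw [map_prod]
    refine Fintype.prod_equiv (Equiv.mulLeft δ) _ _ fun γ => ?_
    change ρ δ (ρ γ t) = ρ (δ * γ) t
    rw [map_mul]
    rfl
  have h1 : ∏ γ, ρ γ t = t * ∏ γ ∈ Finset.univ.erase (1 : Γ), ρ γ t := by
    rw [← Finset.mul_prod_erase Finset.univ _ (Finset.mem_univ (1 : Γ)), map_one]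
    rfl
  have hbC : ∏ γ, ρ γ t ∈ C := Subalgebra.prod_mem _ fun γ _ => hC γ t ht
  have ha : s * ∏ γ ∈ Finset.univ.erase (1 : Γ), ρ γ t = (s / t) * ∏ γ, ρ γ t := by
    rw [h1]
    field_simp
  have haC : s * ∏ γ ∈ Finset.univ.erase (1 : Γ), ρ γ t ∈ C :=
    C.mul_mem hs (Subalgebra.prod_mem _ fun γ _ => hC γ t ht)
  refine ⟨⟨_, haC, fun γ => ?_⟩, ⟨_, hbC, hbi⟩, hb0, ?_⟩
  · rw [ha, map_mul, hbi, hx γ]
  · change s / t = (s * ∏ γ ∈ Finset.univ.erase (1 : Γ), ρ γ t) / ∏ γ, ρ γ t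
    rw [ha, mul_div_assoc, div_self hb0, mul_one]

/-- **Resolution of the quotients.** -/
theorem resC [PerfectField k] [Finite Γ] [hp : Fact p.Prime] [Algebra.Smooth k C]
    (hC : ∀ γ, ∀ x ∈ C, ρ γ x ∈ C) (hfr : ∀ x : K, ∃ a ∈ C, ∃ b ∈ C, b ≠ 0 ∧ x = a / b)
    (hf : ∀ γ, (∀ x ∈ C, ρ γ x = x) → γ = 1)
    (hin : ∀ P : Ideal (R1 C), P.IsPrime → Nat.card (In (a1 C ρ hC) P) = 1 ∨
      Nat.card (In (a1 C ρ hC) P) = p)
    (hN : ∀ σ ∈ SP p Γ, ∃ l, 0 < l ∧ ∃ F, NWC C (fun x => ρ σ x - x) l F) :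
    HasResolution (X := Spec (CommRingCat.of (invC C ρ)))
      (Spec.map (CommRingCat.ofHom (algebraMap k (invC C ρ)))) := by
  classical
  have _ : Fintype Γ := Fintype.ofFinite Γ
  have hl : ∀ σ : Γ, ∃ l, 0 < l ∧ (σ ∈ SP p Γ → ∃ F, NWC C (fun x => ρ σ x - x) l F) := by
    intro σ
    by_cases hσ : σ ∈ SP p Γ
    · obtain ⟨l, hl, F, hF⟩ := hN σ hσ
      exact ⟨l, hl, fun _ => ⟨F, hF⟩⟩
    · exact ⟨1, one_pos, fun h => absurd h hσ⟩
  choose l hl0 hlF using hl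
  let L : ℕ := ∏ σ, l σ
  have hL : 0 < L := Finset.prod_pos fun σ _ => hl0 σ
  have hF' : ∀ σ : Γ, ∃ F : ℕ → Ideal C, σ ∈ SP p Γ →
      NWC C (fun x => ρ σ x - x) L F := by
    intro σ
    by_cases hσ : σ ∈ SP p Γ
    · obtain ⟨F, hF⟩ := hlF σ hσ
      obtain ⟨c, hc⟩ : l σ ∣ L := Finset.dvd_prod_of_mem l (Finset.mem_univ σ)
      obtain ⟨q, rfl⟩ : ∃ q, c = q + 1 := by
        refine ⟨c - 1, ?_⟩
        have : c ≠ 0 := by
          rintro rfl
          rw [mul_zero] at hc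
          omega
        omega
      rw [hc, mul_comm]
      exact ⟨_, fun _ => hF.scale q⟩
    · exact ⟨fun _ => ⊥, fun h => absurd h hσ⟩
  choose F hN' using hF'
  have hfam := sigFam1 C ρ hC hN' hp.out hL hin
  obtain ⟨T1, _, E1, C1, H1, h1⟩ := mb_of_centre ρ (pbC C ρ hC)
    (fun _ => gr_R1 _) (fun _ => ga_R1 C ρ hC)
    (fun _ => Algebra.Smooth.of_equiv (e1 C).symm)
    (fun _ γ h => hf γ fun x hx => by
      have h2 := h (mo () x) ((mo_mem_R1 C).2 hx)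
      have h3 := congrArg (fun f : ML K Unit => f.coeff ()) h2
      change (ga ρ Unit γ (mo () x)).coeff () = (mo () x).coeff () at h3
      rw [ga_coeff, coeff_mo_same] at h3
      exact h3)
    (fun _ => FFa p (F1 C F))
    (fun _ => hfam.rwc hp.out)
    (fun _ γ d a ha => hfam.stab γ d ha)
    (fun _ d c hc m => ⟨c, hc, mlU _⟩)
    (fun _ _ d c hc => ⟨0, c, hc, by rw [pow_zero, one_mul]⟩)
    (fun _ => pos_C hC hf hL hN')
    (fun _ P hP => hfam.loc hp.out hL P hP)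
  have hstep := Pool.Agent.W417.Et.step Pool.Agent.W333.Et.modif
  obtain ⟨T3, _, E3, C3, H3, h3⟩ := hstep k K Unit _ _ _ _ T1 E1 C1 H1 h1
  exact Pool.Agent.W440.ET.aff k K (invC C ρ) (invC C ρ).val Subtype.val_injective (fixF' ρ)
    (fun x hx => frac_C hfr hC x hx) T3 E3 C3 H3 h3

end main

end Pool.Agent.U197.GQ
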