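import Pool.Agent.U197.GQ.B1

/-!
Invariant neighbourhoods of an orbit.
-/

set_option autoImplicit false
set_option linter.unusedSectionVars false

namespace Pool.Agent.U197.GQ

open AlgebraicGeometry CategoryTheory
open Pool.Agent.W559.Mg Pool.Agent.W559.Et Pool.Agent.H920R2 Pool.Agent.U197.SF
open Pool.Agent.H519R3.RS Pool.Agent.N98.PJ

section orbit

variable {k S : Type} [Field k] [CommRing S] [IsDomain S] [Algebra k S] {Γ : Type} [Group Γ]
  (ρS : Γ →* (S ≃ₐ[k] S))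

lemma rhoF_tauS (γ : Γ) : rhoF ρS γ = tauS (ρS γ) := rfl

lemma rhoF_mul (γ δ : Γ) (x : FractionRing S) : rhoF ρS (γ * δ) x = rhoF ρS γ (rhoF ρS δ x) := by
  rw [map_mul]
  rfl

lemma rhoF_one (x : FractionRing S) : rhoF ρS 1 x = x := by
  rw [map_one]
  rfl

/-- Transport of local centres along the group. -/
theorem niceA_orbit [Algebra.Smooth k S] {p : ℕ} [hp : Fact p.Prime] {σ : Γ} (hσ : σ ^ p = 1)
    (g : Γ) {P : Ideal S} [hP : P.IsPrime] (hσP : g⁻¹ * σ * g ∈ InS ρS P)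
    (h : LocA (ρS (g⁻¹ * σ * g)) P) :
    ∃ f, NiceA (ρS σ) f ∧ ρS g⁻¹ f ∉ P := by
  obtain ⟨n, y, w, l, hy, hl, hyΩ, hnd⟩ := h
  have hσp : ∀ s, (ρS (g⁻¹ * σ * g))^[p] s = s := by
    intro s
    have h1 : (g⁻¹ * σ * g) ^ p = 1 := by
      have h2 : g⁻¹ * σ * g = g⁻¹ * σ * (g⁻¹)⁻¹ := by rw [inv_inv]
      rw [h2, conj_pow, hσ, mul_one, inv_inv, inv_mul_cancel]
    rw [iter_rho, h1, map_one]
    rfl
  obtain ⟨R, hR, hyR, het, hndR, -⟩ := spread2 (c := 0)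
    (chartFamA (P := P) (σ := ρS (g⁻¹ * σ * g))) hp.out.pos
    (tauS_iter _ hσp) (tau_mem_lrA P hσP) hy hyΩ hnd (Submodule.zero_mem _)
  obtain ⟨f, f0, hσf, hf, rfl⟩ := hR
  have hgf0 : ρS g f ≠ 0 := fun h => f0 ((map_eq_zero_iff _ (ρS g).injective).1 h)
  -- the embedding
  let j : FractionRing S →ₐ[k] FractionRing S := (rhoF ρS g⁻¹ : FractionRing S ≃ₐ[k] FractionRing S)
  have hj : ∀ x, j x = rhoF ρS g⁻¹ x := fun x => rfl
  have h1 : ∀ x ∈ (Cz hgf0 : Subalgebra k (FractionRing S)),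
      j x ∈ (Cz f0 : Subalgebra k (FractionRing S)) := by
    rintro _ ⟨N, s, rfl⟩
    refine ⟨N, ρS g⁻¹ s, ?_⟩
    rw [hj, map_div₀, map_pow, rhoF_ev, rhoF_ev, rho_inv_apply']
  have h2 : ∀ x ∈ (Cz f0 : Subalgebra k (FractionRing S)),
      ∃ x' ∈ (Cz hgf0 : Subalgebra k (FractionRing S)), j x' = x := by
    rintro _ ⟨N, s, rfl⟩
    refine ⟨ev k S (ρS g s) / ev k S (ρS g f) ^ N, ⟨N, ρS g s, rfl⟩, ?_⟩
    rw [hj, map_div₀, map_pow, rhoF_ev, rhoF_ev, rho_inv_apply', rho_inv_apply']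
  choose y' hy' hyy using fun i => h2 (y i) (hyR i)
  obtain rfl : y = fun i => j (y' i) := funext fun i => (hyy i).symm
  have hnd' : NDk y' w (fun x => rhoF ρS σ x - x) l
      (Cz hgf0 : Subalgebra k (FractionRing S)) := by
    refine ndk_lift j h1 h2 (δ := fun x => tauS (ρS (g⁻¹ * σ * g)) x - x) (fun v => ?_) hndR
    rw [map_sub, hj, hj]
    change _ = rhoF ρS (g⁻¹ * σ * g) (rhoF ρS g⁻¹ v) - rhoF ρS g⁻¹ v
    rw [← rhoF_mul, ← rhoF_mul, mul_assoc, mul_assoc, mul_inv_cancel, mul_one]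
  have het' : EtC (Cz hgf0 : Subalgebra k (FractionRing S)) y' hy' := etC_lift j h1 h2 hy' het
  have hσgf : ρS σ (ρS g f) = ρS g f := by
    have h3 : ρS g (ρS (g⁻¹ * σ * g) f) = ρS g f := by rw [hσf]
    have h4 : ρS g (ρS (g⁻¹ * σ * g) f) = ρS (g * (g⁻¹ * σ * g)) f := by
      rw [map_mul ρS g]
      rfl
    have h5 : ρS σ (ρS g f) = ρS (σ * g) f := by
      rw [map_mul]
      rfl
    rw [h5, ← h3, h4]
    congr 2
    group
  have hst : ∀ x ∈ (Cz hgf0 : Subalgebra k (FractionRing S)),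
      rhoF ρS σ x ∈ (Cz hgf0 : Subalgebra k (FractionRing S)) :=
    tau_Cz (τS := fun s => ρS σ s) (fun s => rhoF_ev ρS σ s) hσgf
  refine ⟨ρS g f, ⟨hgf0, l, _, hσgf, hl, nwc_of_ndk hy'
    (fun a ha => Subalgebra.sub_mem _ (hst a ha) ha)
      (fun a b => by rw [map_add]; ring) (fun a b => ⟨1, by
        rw [map_mul, one_smul]
        ring⟩) hnd' het'⟩, ?_⟩
  rwa [rho_inv_apply']

/-- Finitely many elements cover the complement of the zeros of `f`. -/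
lemma exists_fin_cover' {R : Type} [CommRing R] (X : Set R) (f : R)
    (h : ∀ P : Ideal R, P.IsPrime → f ∉ P → ∃ y ∈ X, y ∉ P) :
    ∃ Y : Finset R, (Y : Set R) ⊆ X ∧ ∀ P : Ideal R, P.IsPrime → f ∉ P → ∃ y ∈ Y, y ∉ P := by
  classical
  have h1 : f ∈ (Ideal.span X).radical := by
    rw [Ideal.radical_eq_sInf, Submodule.mem_sInf]
    rintro P ⟨hle, hP⟩
    by_contra hf
    obtain ⟨y, hy, hyP⟩ := h P hP hf
    exact hyP (hle (Ideal.subset_span hy))
  obtain ⟨n, hn⟩ := h1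
  obtain ⟨Y, hY, hY1⟩ := Submodule.mem_span_finite_of_mem_span hn
  refine ⟨Y, hY, fun P hP hf => ?_⟩
  by_contra hcon
  push Not at hcon
  apply hf
  exact hP.mem_of_pow_mem n
    ((Ideal.span_le.2 fun y hy => hcon y hy : Ideal.span (Y : Set R) ≤ P) hY1)

/-- Gluing of the local centres on an invariant neighbourhood. -/
theorem gluedB [Algebra.Smooth k S] {p : ℕ} (hp : 0 < p) (hpk : (p : k) = 0) (σ : S ≃ₐ[k] S)
    {f : S} (f0 : f ≠ 0) (hσf : σ f = f)
    (hpt : ∀ P : Ideal S, P.IsPrime → f ∉ P → (∀ s, σ s - s ∈ P) → ∃ y, NiceA σ y ∧ y ∉ P) :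
    ∃ l, 0 < l ∧ ∃ F, NWC (Cz f0 : Subalgebra k (FractionRing S))
      (fun x => tauS σ x - x) l F := by
  classical
  let X : Set S := {y | NiceA σ y} ∪ {y | ∃ s, y = σ s - s}
  obtain ⟨Y, hYX, hYcov⟩ := exists_fin_cover' X f fun P hP hfP => by
    by_cases hx : ∀ s, σ s - s ∈ P
    · obtain ⟨y, hy, hyP⟩ := hpt P hP hfP hx
      exact ⟨y, Or.inl hy, hyP⟩
    · push Not at hx
      obtain ⟨s, hs⟩ := hx
      exact ⟨_, Or.inr ⟨s, rfl⟩, hs⟩
  let ι : Type := {y : Y // NiceA σ (y : S)}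
  have hι : ∀ a : ι, NiceA σ ((a : Y) : S) := fun a => a.2
  choose za0 la Fa hσa hla hHa using hι
  have _ : Fintype ι := Fintype.ofFinite ι
  let L : ℕ := ∏ a, la a
  have hL : 0 < L := Finset.prod_pos fun a _ => hla a
  have hF' : ∀ a, ∃ F', NWC (Cz (za0 a) : Subalgebra k (FractionRing S))
      (fun x => tauS σ x - x) L F' := by
    intro a
    obtain ⟨c, hc⟩ : la a ∣ L := Finset.dvd_prod_of_mem la (Finset.mem_univ a)
    obtain ⟨q, rfl⟩ : ∃ q, c = q + 1 := by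
      refine ⟨c - 1, ?_⟩
      have : c ≠ 0 := by
        rintro rfl
        rw [mul_zero] at hc
        omega
      omega
    rw [hc, mul_comm]
    exact ⟨_, (hHa a).scale q⟩
  choose F hN using hF'
  have hsm1 : Algebra.Smooth k (Cz f0 : Subalgebra k (FractionRing S)) := smooth_CzA _
  have hsm : ∀ a, Algebra.Smooth k (Cz (za0 a) : Subalgebra k (FractionRing S)) := fun a =>
    smooth_CzA (za0 a)
  have hτ : ∀ s, tauS σ (ev k S s) = ev k S ((fun s => σ s) s) := fun s => tauS_ev σ s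
  have hcov : ∀ P : Ideal (Cz f0 : Subalgebra k (FractionRing S)), P.IsPrime →
      zI (Cz f0 : Subalgebra k (FractionRing S)) (fun x => tauS σ x - x) ≤ P →
      ∃ a : ι, (⟨ev k S ((a : Y) : S), ev_mem_Cz _ _⟩ :
        (Cz f0 : Subalgebra k (FractionRing S))) ∉ P := by
    intro P hP hle
    let j : S →+* (Cz f0 : Subalgebra k (FractionRing S)) :=
      (ev k S : S →+* FractionRing S).codRestrict (Cz f0 : Subalgebra k (FractionRing S)).toSubring
        fun s => ev_mem_Cz f0 s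
    have hQ : (P.comap j).IsPrime := Ideal.comap_isPrime _ _
    have hfQ : f ∉ P.comap j := by
      have h3 := z_notMem hP 1
      rw [pow_one] at h3
      exact h3
    obtain ⟨y, hyY, hyx⟩ := hYcov _ hQ hfQ
    rcases hYX hyY with hy | ⟨s, rfl⟩
    · exact ⟨⟨⟨y, hyY⟩, hy⟩, hyx⟩
    · refine absurd (hle ?_) hyx
      refine Ideal.subset_span ⟨j s, ?_⟩
      change ev k S (σ s - s) = tauS σ (ev k S s) - ev k S s
      rw [map_sub, tauS_ev]
  refine ⟨L, hL, GF f0 (fun a : ι => ((a : Y) : S)) za0 F,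
    GF_rwc hτ hσf hσa hL hN hsm hcov hp hpk, ?_, GF_zeros hτ hσf hσa hN hcov, ?_⟩
  · intro d y hy y' h
    exact GF_raise hτ hσf hσa hN hy y' h
  · intro d hd y hy
    exact GF_lead hτ hσf hσa hL hN hsm hcov d y hy hd

end orbit

end Pool.Agent.U197.GQ
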