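import Pool.Agent.U197.GQ.B2

/-!
Invariant neighbourhoods of a point: avoidance.
-/

set_option autoImplicit false
set_option linter.unusedSectionVars false

namespace Pool.Agent.U197.GQ

open AlgebraicGeometry CategoryTheory
open Pool.Agent.W559.Mg Pool.Agent.W559.Et Pool.Agent.H920R2 Pool.Agent.U197.SF
open Pool.Agent.H519R3.RS Pool.Agent.N98.PJ

section avoid

variable {k S : Type} [Field k] [CommRing S] [IsDomain S] [Algebra k S] {Γ : Type} [Group Γ]
  (ρS : Γ →* (S ≃ₐ[k] S))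

lemma rhoS_mul (γ δ : Γ) (s : S) : ρS (γ * δ) s = ρS γ (ρS δ s) := by
  rw [map_mul]
  rfl

/-- The translate of an ideal. -/
def trI (g : Γ) (P : Ideal S) : Ideal S := P.comap (ρS g⁻¹ : S →+* S)

lemma mem_trI {g : Γ} {P : Ideal S} {s : S} : s ∈ trI ρS g P ↔ ρS g⁻¹ s ∈ P := Iff.rfl

lemma trI_prime (g : Γ) {P : Ideal S} (hP : P.IsPrime) : (trI ρS g P).IsPrime :=
  Ideal.comap_isPrime _ _

lemma mem_InS_trI {g σ : Γ} {P : Ideal S} :
    σ ∈ InS ρS (trI ρS g P) ↔ g⁻¹ * σ * g ∈ InS ρS P := by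
  constructor
  · intro h s
    have h1 := h (ρS g s)
    rw [mem_trI, map_sub, ← rhoS_mul, ← rhoS_mul, ← rhoS_mul, inv_mul_cancel, map_one] at h1
    exact h1
  · intro h s
    rw [mem_trI, map_sub]
    have h1 := h (ρS g⁻¹ s)
    rw [← rhoS_mul, mul_assoc, mul_inv_cancel, mul_one, rhoS_mul] at h1
    exact h1

lemma card_trI (g : Γ) (P : Ideal S) :
    Nat.card (InS ρS (trI ρS g P)) = Nat.card (InS ρS P) := by
  refine Nat.card_congr
    { toFun := fun σ => ⟨g⁻¹ * σ * g, (mem_InS_trI ρS).1 σ.2⟩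
      invFun := fun σ => ⟨g * σ * g⁻¹, (mem_InS_trI ρS).2 (by
        have h : g⁻¹ * (g * (σ : Γ) * g⁻¹) * g = σ := by group
        rw [h]
        exact σ.2)⟩
      left_inv := fun σ => Subtype.ext (by
        change g * (g⁻¹ * (σ : Γ) * g) * g⁻¹ = σ
        group)
      right_inv := fun σ => Subtype.ext (by
        change g⁻¹ * (g * (σ : Γ) * g⁻¹) * g = σ
        group) }

/-- **Avoidance.** -/
theorem exists_nbhd [Finite Γ] [Algebra.Smooth k S] {p : ℕ} [hp : Fact p.Prime]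
    {P : Ideal S} [hP : P.IsPrime]
    (hin : Nat.card (InS ρS P) = 1 ∨ Nat.card (InS ρS P) = p)
    (hpt : ∀ σ : Γ, σ ≠ 1 → σ ^ p = 1 → σ ∈ InS ρS P → LocA (ρS σ) P) :
    ∃ f : S, (∀ γ, ρS γ f = f) ∧ f ∉ P ∧ ∀ P' : Ideal S, P'.IsPrime → f ∉ P' →
      (Nat.card (InS ρS P') = 1 ∨ Nat.card (InS ρS P') = p) ∧
      ∀ σ ∈ SP p Γ, (∀ s, ρS σ s - s ∈ P') → ∃ y, NiceA (ρS σ) y ∧ y ∉ P' := by
  classical
  have _ : Fintype Γ := Fintype.ofFinite Γ
  -- the ideals
  let J1 : Finset Γ → Ideal S := fun T => Ideal.span {x | ∃ t ∈ T, ∃ s, x = ρS t s - s}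
  let J2 : Γ → Ideal S := fun σ => Ideal.span
    ({y | NiceA (ρS σ) y} ∪ {y | ∃ s, y = ρS σ s - s})
  let bad : Finset Γ → Prop := fun T => ∀ g, ∃ t ∈ T, t ∉ InS ρS (trI ρS g P)
  let I1 : Finset Γ → Ideal S := fun T => if bad T then J1 T else ⊤
  let I2 : Γ → Ideal S := fun σ => if σ ∈ SP p Γ then J2 σ else ⊤
  let I : Ideal S := (∏ T, I1 T) * ∏ σ, I2 σ
  have hJ1 : ∀ T g, bad T → ¬ J1 T ≤ trI ρS g P := by
    intro T g hT hle
    obtain ⟨t, ht, ht'⟩ := hT g
    exact ht' fun s => hle (Ideal.subset_span ⟨t, ht, s, rfl⟩)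
  have hJ2 : ∀ σ ∈ SP p Γ, ∀ g, ¬ J2 σ ≤ trI ρS g P := by
    intro σ hσ g hle
    by_cases h : σ ∈ InS ρS (trI ρS g P)
    · have h1 := (mem_InS_trI ρS).1 h
      have h2 : g⁻¹ * σ * g ≠ 1 := by
        intro h2
        apply hσ.1
        have h3 : σ = g * (g⁻¹ * σ * g) * g⁻¹ := by group
        rw [h3, h2, mul_one, mul_inv_cancel]
      have h3 : (g⁻¹ * σ * g) ^ p = 1 := by
        have h4 : g⁻¹ * σ * g = g⁻¹ * σ * (g⁻¹)⁻¹ := by rw [inv_inv]
        rw [h4, conj_pow, hσ.2, mul_one, inv_inv, inv_mul_cancel]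
      obtain ⟨f, hf, hfP⟩ := niceA_orbit ρS hσ.2 g h1 (hpt _ h2 h3 h1)
      exact hfP (hle (Ideal.subset_span (Or.inl hf)))
    · exact h fun s => hle (Ideal.subset_span (Or.inr ⟨s, rfl⟩))
  have hI : ∀ g, ¬ I ≤ trI ρS g P := by
    intro g hle
    have hpr := trI_prime ρS g hP
    rcases hpr.mul_le.1 hle with h | h
    · rw [hpr.prod_le] at h
      obtain ⟨T, -, h⟩ := h
      by_cases hT : bad T
      · simp only [I1, if_pos hT] at h
        exact hJ1 T g hT h
      · simp only [I1, if_neg hT] at h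
        exact hpr.ne_top (top_le_iff.1 h)
    · rw [hpr.prod_le] at h
      obtain ⟨σ, -, h⟩ := h
      by_cases hσ : σ ∈ SP p Γ
      · simp only [I2, if_pos hσ] at h
        exact hJ2 σ hσ g h
      · simp only [I2, if_neg hσ] at h
        exact hpr.ne_top (top_le_iff.1 h)
  obtain ⟨x, hxI, hx⟩ : ∃ x ∈ I, ∀ g, x ∉ trI ρS g P := by
    by_contra hcon
    push Not at hcon
    have h1 : (I : Set S) ⊆ ⋃ g ∈ (↑(Finset.univ : Finset Γ) : Set Γ), (trI ρS g P : Set S) := by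
      intro x hx
      obtain ⟨g, hg⟩ := hcon x hx
      simp only [Set.mem_iUnion]
      exact ⟨g, by simp, hg⟩
    rw [Ideal.subset_union_prime (1 : Γ) 1 (fun g _ _ _ => trI_prime ρS g hP)] at h1
    obtain ⟨g, -, h1⟩ := h1
    exact hI g h1
  refine ⟨∏ γ, ρS γ x, fun δ => ?_, ?_, ?_⟩
  · rw [map_prod]
    refine Fintype.prod_equiv (Equiv.mulLeft δ) _ _ fun γ => ?_
    change ρS δ (ρS γ x) = ρS (δ * γ) x
    rw [rhoS_mul]
  · intro h
    rw [hP.prod_mem_iff] at h
    obtain ⟨γ, -, h⟩ := h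
    refine hx γ⁻¹ ?_
    rw [mem_trI, inv_inv]
    exact h
  · intro P' hP' hfP'
    have hxP' : x ∉ P' := by
      intro h
      apply hfP'
      refine Ideal.mem_of_dvd _ (Finset.dvd_prod_of_mem _ (Finset.mem_univ (1 : Γ))) ?_
      rw [map_one]
      exact h
    have hle1 : ∀ T, bad T → ¬ J1 T ≤ P' := by
      intro T hT hle
      apply hxP'
      have h1 : I ≤ I1 T := (Ideal.mul_le_left).trans (Ideal.prod_le_inf.trans
        (Finset.inf_le (Finset.mem_univ T)))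
      have h2 := h1 hxI
      simp only [I1, if_pos hT] at h2
      exact hle h2
    have hle2 : ∀ σ ∈ SP p Γ, ¬ J2 σ ≤ P' := by
      intro σ hσ hle
      apply hxP'
      have h1 : I ≤ I2 σ := (Ideal.mul_le_right).trans (Ideal.prod_le_inf.trans
        (Finset.inf_le (Finset.mem_univ σ)))
      have h2 := h1 hxI
      simp only [I2, if_pos hσ] at h2
      exact hle h2
    constructor
    · have h1 : ¬ bad (Finset.univ.filter fun t => t ∈ InS ρS P') := by
        intro hbad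
        apply hle1 _ hbad
        rw [Ideal.span_le]
        rintro _ ⟨t, ht, s, rfl⟩
        exact (Finset.mem_filter.1 ht).2 s
      simp only [bad] at h1
      push Not at h1
      obtain ⟨g, hg⟩ := h1
      have h2 : InS ρS P' ≤ InS ρS (trI ρS g P) := fun t ht =>
        hg t (Finset.mem_filter.2 ⟨Finset.mem_univ _, ht⟩)
      have hdvd := Subgroup.card_dvd_of_le h2
      rw [card_trI] at hdvd
      rcases hin with h | h
      · left
        rw [h] at hdvd
        exact Nat.dvd_one.1 hdvd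
      · rw [h] at hdvd
        exact (Nat.dvd_prime hp.out).1 hdvd
    · intro σ hσ hσP'
      by_contra hcon
      push Not at hcon
      apply hle2 σ hσ
      rw [Ideal.span_le]
      rintro y (hy | ⟨s, rfl⟩)
      · exact hcon y hy
      · exact hσP' s

end avoid

end Pool.Agent.U197.GQ
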