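import Pool.Agent.U197.GQ.B3

/-!
Resolution of the quotient on an invariant neighbourhood.
-/

set_option autoImplicit false
set_option linter.unusedSectionVars false

namespace Pool.Agent.U197.GQ

open AlgebraicGeometry CategoryTheory
open Pool.Agent.W559.Mg Pool.Agent.W559.Et Pool.Agent.H920R2 Pool.Agent.U197.SF

section nbhd

variable {k S : Type} [Field k] [CommRing S] [IsDomain S] [Algebra k S] {Γ : Type} [Group Γ]
  (ρS : Γ →* (S ≃ₐ[k] S)) {f : S} (f0 : f ≠ 0) (hfi : ∀ γ, ρS γ f = f)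

include hfi in
lemma rho_CzI (γ : Γ) : ∀ x ∈ (Cz f0 : Subalgebra k (FractionRing S)),
    rhoF ρS γ x ∈ (Cz f0 : Subalgebra k (FractionRing S)) := fun x hx =>
  rho_Cz f0 ρS (rhoF ρS) (rhoF_ev ρS) hfi γ x hx

/-- The functions on the chart. -/
noncomputable def jA (k : Type) {S : Type} [Field k] [CommRing S] [IsDomain S] [Algebra k S]
    {f : S} (f0 : f ≠ 0) : S →+* R1 (Cz f0 : Subalgebra k (FractionRing S)) :=
  ((e1 (Cz f0 : Subalgebra k (FractionRing S))).symm :
    (Cz f0 : Subalgebra k (FractionRing S)) →+* _).comp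
  ((ev k S : S →+* FractionRing S).codRestrict
    (Cz f0 : Subalgebra k (FractionRing S)).toSubring fun s => ev_mem_Cz f0 s)

lemma e1_jA (s : S) : ((e1 (Cz f0 : Subalgebra k (FractionRing S)) (jA k f0 s) :
    (Cz f0 : Subalgebra k (FractionRing S))) : FractionRing S) = ev k S s := by
  change ((e1 (Cz f0 : Subalgebra k (FractionRing S))
    ((e1 (Cz f0 : Subalgebra k (FractionRing S))).symm _) :
    (Cz f0 : Subalgebra k (FractionRing S))) : FractionRing S) = ev k S s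
  rw [AlgEquiv.apply_symm_apply]
  rfl

lemma a1_jA (γ : Γ) (s : S) :
    a1 (Cz f0 : Subalgebra k (FractionRing S)) (rhoF ρS) (rho_CzI ρS f0 hfi) γ (jA k f0 s) =
    jA k f0 (ρS γ s) := by
  apply e1_ext
  rw [e1_a1, e1_jA, e1_jA, rhoF_ev]

lemma jA_notMem {P : Ideal (R1 (Cz f0 : Subalgebra k (FractionRing S)))} (hP : P.IsPrime)
    (n : ℕ) : jA k f0 f ^ n ∉ P := by
  intro h
  have hQ : (P.comap ((e1 (Cz f0 : Subalgebra k (FractionRing S))).symm :
    (Cz f0 : Subalgebra k (FractionRing S)) →+* _)).IsPrime := Ideal.comap_isPrime _ _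
  refine z_notMem hQ n ?_
  rw [Ideal.mem_comap, map_pow]
  exact h

lemma In_eqB {P : Ideal (R1 (Cz f0 : Subalgebra k (FractionRing S)))} (hP : P.IsPrime) :
    In (a1 (Cz f0 : Subalgebra k (FractionRing S)) (rhoF ρS) (rho_CzI ρS f0 hfi)) P =
    InS ρS (P.comap (jA k f0)) := by
  ext γ
  constructor
  · intro h s
    rw [Ideal.mem_comap, map_sub, ← a1_jA ρS f0 hfi]
    exact h _
  · intro h b
    obtain ⟨N, s, hs⟩ := (e1 (Cz f0 : Subalgebra k (FractionRing S)) b).2
    have hf : ev k S f ≠ 0 := ev_ne f0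
    have h1 : b * jA k f0 f ^ N = jA k f0 s := by
      apply e1_ext
      rw [map_mul, map_pow, e1_jA]
      change (e1 (Cz f0 : Subalgebra k (FractionRing S)) b : FractionRing S) *
        ((e1 (Cz f0 : Subalgebra k (FractionRing S)) (jA k f0 f) : FractionRing S)) ^ N = _
      rw [e1_jA, hs, div_mul_cancel₀ _ (pow_ne_zero _ hf)]
    have h2 : a1 (Cz f0 : Subalgebra k (FractionRing S)) (rhoF ρS) (rho_CzI ρS f0 hfi) γ b *
        jA k f0 f ^ N = jA k f0 (ρS γ s) := by
      have h3 := congrArg (a1 (Cz f0 : Subalgebra k (FractionRing S)) (rhoF ρS)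
        (rho_CzI ρS f0 hfi) γ) h1
      rwa [map_mul, map_pow, a1_jA ρS f0 hfi, a1_jA ρS f0 hfi, hfi] at h3
    have h3 : (a1 (Cz f0 : Subalgebra k (FractionRing S)) (rhoF ρS) (rho_CzI ρS f0 hfi) γ b - b) *
        jA k f0 f ^ N ∈ P := by
      rw [sub_mul, h1, h2, ← map_sub]
      exact h s
    exact (hP.mem_or_mem h3).resolve_right (jA_notMem f0 hP N)

include hfi in
/-- **Resolution of the quotient on an invariant neighbourhood.** -/
theorem resB [PerfectField k] [Finite Γ] {p : ℕ} [hp : Fact p.Prime] [CharP k p]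
    [Algebra.Smooth k S] (hf : ∀ γ, (∀ s, ρS γ s = s) → γ = 1)
    (hnb : ∀ P' : Ideal S, P'.IsPrime → f ∉ P' →
      (Nat.card (InS ρS P') = 1 ∨ Nat.card (InS ρS P') = p) ∧
      ∀ σ ∈ SP p Γ, (∀ s, ρS σ s - s ∈ P') → ∃ y, NiceA (ρS σ) y ∧ y ∉ P') :
    HasResolution
      (X := Spec (CommRingCat.of (invC (Cz f0 : Subalgebra k (FractionRing S)) (rhoF ρS))))
      (Spec.map (CommRingCat.ofHom
        (algebraMap k (invC (Cz f0 : Subalgebra k (FractionRing S)) (rhoF ρS))))) := by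
  have hpk : (p : k) = 0 := CharP.cast_eq_zero k p
  have hsm : Algebra.Smooth k (Cz f0 : Subalgebra k (FractionRing S)) := smooth_CzA f0
  refine resC (p := p) (rho_CzI ρS f0 hfi) ?_ ?_ ?_ ?_
  · intro x
    obtain ⟨s, t, ht, rfl⟩ := IsFractionRing.div_surjective (A := S) x
    exact ⟨ev k S s, ev_mem_Cz f0 s, ev k S t, ev_mem_Cz f0 t,
      ev_ne (nonZeroDivisors.ne_zero ht), rfl⟩
  · intro γ h
    apply hf
    intro s
    apply ev_inj (k := k)
    rw [← rhoF_ev]
    exact h _ (ev_mem_Cz f0 s)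
  · intro P hP
    rw [In_eqB ρS f0 hfi hP]
    refine (hnb _ (Ideal.comap_isPrime _ _) fun h => jA_notMem f0 hP 1 ?_).1
    rw [pow_one]
    exact h
  · intro σ hσ
    exact gluedB hp.out.pos hpk (ρS σ) f0 (hfi σ) fun P hP hfP hσP => (hnb P hP hfP).2 σ hσ hσP

end nbhd

end Pool.Agent.U197.GQ
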