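import Pool.Agent.U197.GQ.B4
import Pool.Agent.H519R3.RS.LUS

/-!
Local uniformization of the local ring of a point of the quotient.
-/

set_option autoImplicit false
set_option linter.unusedSectionVars false

namespace Pool.Agent.U197.GQ

open AlgebraicGeometry CategoryTheory
open Pool.Agent.W559.Mg Pool.Agent.W559.Et Pool.Agent.H920R2 Pool.Agent.U197.SF

section lu

variable {k S : Type} [Field k] [CommRing S] [IsDomain S] [Algebra k S] {Γ : Type} [Group Γ]
  (ρS : Γ →* (S ≃ₐ[k] S))

/-- The map of the invariants to the invariants on the neighbourhood. -/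
noncomputable def phiA (A : Subalgebra k S) (hA : ∀ s, s ∈ A ↔ ∀ γ, ρS γ s = s) {f : S}
    (f0 : f ≠ 0) : A →+* invC (Cz f0 : Subalgebra k (FractionRing S)) (rhoF ρS) :=
  ((ev k S : S →+* FractionRing S).comp (algebraMap A S)).codRestrict
    (invC (Cz f0 : Subalgebra k (FractionRing S)) (rhoF ρS)).toSubring fun a =>
      ⟨ev_mem_Cz f0 (a : S), fun γ => by
        change rhoF ρS γ (ev k S (a : S)) = ev k S (a : S)
        rw [rhoF_ev, (hA _).1 a.2 γ]⟩

lemma phiA_coe (A : Subalgebra k S) (hA : ∀ s, s ∈ A ↔ ∀ γ, ρS γ s = s) {f : S}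
    (f0 : f ≠ 0) (a : A) : (phiA ρS A hA f0 a : FractionRing S) = ev k S (a : S) := rfl

/-- **Local uniformization of the local rings of the quotient at the points with nondegenerate
inertia.** -/
theorem luB [PerfectField k] [Finite Γ] {p : ℕ} [hp : Fact p.Prime] [CharP k p]
    [Algebra.Smooth k S] (hf : ∀ γ, (∀ s, ρS γ s = s) → γ = 1)
    (A : Subalgebra k S) (hA : ∀ s, s ∈ A ↔ ∀ γ, ρS γ s = s)
    {P : Ideal S} [hP : P.IsPrime]
    (hin : Nat.card (InS ρS P) = 1 ∨ Nat.card (InS ρS P) = p)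
    (hpt : ∀ σ : Γ, σ ≠ 1 → σ ^ p = 1 → σ ∈ InS ρS P → LocA (ρS σ) P)
    (R : Type) [CommRing R] [IsLocalRing R] [Algebra A R]
    [hR : IsLocalization.AtPrime R (P.comap (algebraMap A S))] :
    Pool.Agent.H519R3.RS.AdmitsLU R := by
  classical
  obtain ⟨f, hfi, hfP, hnb⟩ := exists_nbhd ρS hin hpt
  have f0 : f ≠ 0 := by
    rintro rfl
    exact hfP P.zero_mem
  have hef : ev k S f ≠ 0 := ev_ne f0
  have hres := resB ρS f0 hfi hf hnb
  set C' := invC (Cz f0 : Subalgebra k (FractionRing S)) (rhoF ρS) with hC'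
  let fA : A := ⟨f, (hA f).2 hfi⟩
  let alg : Algebra A C' := (phiA ρS A hA f0).toAlgebra
  have hinj : Function.Injective (algebraMap A C') := by
    intro a b hab
    apply Subtype.ext
    apply ev_inj (k := k)
    exact congrArg Subtype.val hab
  have hloc : IsLocalization.Away fA C' := by
    refine ⟨?_, ?_, ?_⟩
    · rintro ⟨_, n, rfl⟩
      change IsUnit (algebraMap A C' (fA ^ n))
      rw [map_pow]
      refine IsUnit.pow _ (IsUnit.of_mul_eq_one ⟨(ev k S f)⁻¹, ⟨⟨1, 1, ?_⟩, fun γ => ?_⟩⟩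
        (Subtype.ext ?_))
      · rw [map_one, pow_one, one_div]
      · rw [map_inv₀, rhoF_ev, hfi]
      · change ev k S f * (ev k S f)⁻¹ = 1
        exact mul_inv_cancel₀ hef
    · rintro ⟨x, hxC, hxi⟩
      obtain ⟨N, s, hs⟩ := hxC
      have h1 : x * ev k S f ^ N = ev k S s := by
        rw [hs, div_mul_cancel₀ _ (pow_ne_zero _ hef)]
      have h2 : s ∈ A := by
        rw [hA]
        intro γ
        apply ev_inj (k := k)
        rw [← rhoF_ev, ← h1, map_mul, map_pow, rhoF_ev, hfi, hxi γ]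
      refine ⟨⟨⟨s, h2⟩, ⟨fA ^ N, N, rfl⟩⟩, Subtype.ext ?_⟩
      change x * ev k S ((fA ^ N : A) : S) = ev k S s
      rw [← h1]
      congr 1
      exact map_pow (ev k S) f N
    · intro x y hxy
      exact ⟨1, by rw [hinj hxy]⟩
  have hfu : IsUnit (algebraMap A R fA) :=
    IsLocalization.map_units R (⟨fA, hfP⟩ : (P.comap (algebraMap A S)).primeCompl)
  let ψ : C' →+* R := IsLocalization.Away.lift fA hfu
  let alg' : Algebra C' R := ψ.toAlgebra
  have htow : IsScalarTower A C' R := IsScalarTower.of_algebraMap_eq fun a =>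
    (IsLocalization.Away.lift_eq fA hfu a).symm
  have hle : Submonoid.powers fA ≤ (P.comap (algebraMap A S)).primeCompl := by
    rw [Submonoid.powers_le]
    exact hfP
  have h1 : IsLocalization ((P.comap (algebraMap A S)).primeCompl.map (algebraMap A C')) R :=
    IsLocalization.isLocalization_of_submonoid_le C' R (Submonoid.powers fA) _ hle
  let Q' : Ideal C' := (IsLocalRing.maximalIdeal R).comap (algebraMap C' R)
  have hQ' : Q'.IsPrime := Ideal.comap_isPrime _ _
  have h2 : IsLocalization.AtPrime R Q' := by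
    refine IsLocalization.of_le
      ((P.comap (algebraMap A S)).primeCompl.map (algebraMap A C')) Q'.primeCompl ?_ ?_
    · rintro _ ⟨a, ha, rfl⟩
      change algebraMap A C' a ∉ Q'
      rw [Ideal.mem_comap, ← IsScalarTower.algebraMap_apply]
      intro h
      exact (IsLocalRing.mem_maximalIdeal _).1 h
        (IsLocalization.map_units R (⟨a, ha⟩ : (P.comap (algebraMap A S)).primeCompl))
    · intro c hc
      by_contra h
      exact hc ((IsLocalRing.mem_maximalIdeal _).2 h)
  exact Pool.Agent.H519R3.RS.admitsLU_of_res hres Q' R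

end lu

end Pool.Agent.U197.GQ
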