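import Pool.Agent.U197.GQ.A2

/-!
Vector fields: spreading out of the local conditions.
-/

set_option autoImplicit false
set_option linter.unusedSectionVars false

namespace Pool.Agent.U197.GQ

open AlgebraicGeometry CategoryTheory
open Pool.Agent.W559.Mg Pool.Agent.W559.Et Pool.Agent.H920R2 Pool.Agent.U197.SF
open Pool.Agent.H519R3.RS Pool.Agent.N98.PJ
open KaehlerDifferential TensorProduct

/-- A family of neighbourhoods of a point with the local ring `O`, for a vector field. -/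
structure ChartFamD {k K : Type} [Field k] [Field K] [Algebra k K] (O : Subalgebra k K)
    (E : Derivation k K K) (𝒞 : Subalgebra k K → Prop) : Prop where
  le : ∀ R, 𝒞 R → R ≤ O
  sm : ∀ R, 𝒞 R → Algebra.Smooth k R
  st : ∀ R, 𝒞 R → ∀ x ∈ R, E x ∈ R
  loc : ∀ R, 𝒞 R → ∀ (g : K) (hg : g ∈ R), E g = 0 → g ≠ 0 → g⁻¹ ∈ O → 𝒞 (locAt R g hg)
  frac : ∀ R, 𝒞 R → ∀ y ∈ O, ∃ g ∈ R, g ≠ 0 ∧ g⁻¹ ∈ O ∧ y * g ∈ R
  nonempty : ∃ R, 𝒞 R

section spread

variable {k K : Type} [Field k] [Field K] [Algebra k K] {O : Subalgebra k K}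
  {E : Derivation k K K} {𝒞 : Subalgebra k K → Prop}
  (h𝒞 : ChartFamD O E 𝒞) {p : ℕ} (hp : 0 < p) (hpk : (p : k) = 0)
  {n : ℕ} {x : Fin n → K} {w : Fin n → ℕ} {l : ℕ}

include hp hpk in
/-- Powers. -/
lemma exists_normD {R : Subalgebra k K} (g : K) (hg : g ∈ R) (hg0 : g ≠ 0)
    (hgO : g⁻¹ ∈ O) : ∃ g' ∈ R, E (g * g') = 0 ∧ g * g' ≠ 0 ∧ (g * g')⁻¹ ∈ O := by
  obtain ⟨q, rfl⟩ : ∃ q, p = q + 1 := ⟨p - 1, by omega⟩
  have hpK : ((q + 1 : ℕ) : K) = 0 := by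
    rw [← map_natCast (algebraMap k K), hpk, map_zero]
  have h1 : g * g ^ q = g ^ (q + 1) := by rw [pow_succ, mul_comm]
  refine ⟨g ^ q, R.pow_mem hg q, ?_, mul_ne_zero hg0 (pow_ne_zero q hg0), ?_⟩
  · rw [h1, Derivation.leibniz_pow, nsmul_eq_mul, hpK, zero_mul]
  · rw [h1, ← inv_pow]
    exact O.pow_mem hgO _

include h𝒞 hp hpk in
/-- Neighbourhoods which contain finitely many given elements. -/
lemma exists_enlargeD {R : Subalgebra k K} (hR : 𝒞 R) (E' : Finset K) (hE : ∀ e ∈ E', e ∈ O) :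
    ∃ (g : K) (hg : g ∈ R), E g = 0 ∧ g ≠ 0 ∧ g⁻¹ ∈ O ∧ ∀ e ∈ E', e ∈ locAt R g hg := by
  classical
  have h1 : ∀ E' : Finset K, (∀ e ∈ E', e ∈ O) → ∃ g ∈ R, g ≠ 0 ∧ g⁻¹ ∈ O ∧
      ∀ e ∈ E', e * g ∈ R := by
    intro E'
    induction E' using Finset.induction_on with
    | empty => exact fun _ => ⟨1, R.one_mem, one_ne_zero, by rw [inv_one]; exact O.one_mem,
        fun e he => absurd he (Finset.notMem_empty e)⟩
    | insert a E' ha ih =>
      intro hE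
      obtain ⟨g, hg, hg0, hgO, hgE⟩ := ih fun e he => hE e (Finset.mem_insert_of_mem he)
      obtain ⟨g', hg', hg0', hgO', hga⟩ := h𝒞.frac R hR a (hE a (Finset.mem_insert_self a E'))
      refine ⟨g * g', R.mul_mem hg hg', mul_ne_zero hg0 hg0', ?_, fun e he => ?_⟩
      · rw [mul_inv]
        exact O.mul_mem hgO hgO'
      · rcases Finset.mem_insert.1 he with rfl | he
        · rw [mul_comm g, ← mul_assoc]
          exact R.mul_mem hga hg
        · rw [← mul_assoc]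
          exact R.mul_mem (hgE e he) hg'
  obtain ⟨g, hg, hg0, hgO, hgE⟩ := h1 E' hE
  obtain ⟨g', hg', hτ, h0, hinv⟩ := exists_normD (E := E) hp hpk g hg hg0 hgO
  refine ⟨g * g', R.mul_mem hg hg', hτ, h0, hinv, fun e he => ⟨1, ?_⟩⟩
  rw [pow_one, ← mul_assoc]
  exact R.mul_mem (hgE e he) hg'

include h𝒞 hp hpk in
/-- **Spreading out.** -/
theorem spreadD [IsLocalRing O] (hx : ∀ i, x i ∈ O) (hxΩ : ∃ b : Module.Basis (Fin n) O (Ω[O⁄k]),
    ∀ i, b i = D k O ⟨x i, hx i⟩) (h : NDk x w (fun y => E y) l O) :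
    ∃ R, 𝒞 R ∧ ∃ hx' : ∀ i, x i ∈ R, EtC R x hx' ∧ NDk x w (fun y => E y) l R := by
  classical
  obtain ⟨R', hR'⟩ := h𝒞.nonempty
  -- the coordinates are defined on the neighbourhood
  obtain ⟨R0, hR0, hx0⟩ : ∃ R, 𝒞 R ∧ ∀ i, x i ∈ R := by
    obtain ⟨g, hg, hτ, hg0, hgO, hgE⟩ := exists_enlargeD h𝒞 hp hpk hR' (Finset.univ.image x)
      (fun e he => by
        obtain ⟨i, -, rfl⟩ := Finset.mem_image.1 he
        exact hx i)
    exact ⟨_, h𝒞.loc R' hR' g hg hτ hg0 hgO, fun i =>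
      hgE _ (Finset.mem_image_of_mem x (Finset.mem_univ i))⟩
  -- étale coordinates
  obtain ⟨R1, hR1, hx1, het1⟩ : ∃ R, 𝒞 R ∧ ∃ hx1 : ∀ i, x i ∈ R, EtC R x hx1 := by
    let _ : Algebra R0 O := (Subalgebra.inclusion (h𝒞.le R0 hR0)).toRingHom.toAlgebra
    have _ : IsScalarTower k R0 O := IsScalarTower.of_algebraMap_eq fun r => rfl
    have _ := h𝒞.sm R0 hR0
    let P : Ideal R0 := (IsLocalRing.maximalIdeal O).comap (algebraMap R0 O)
    have hP : ∀ (g : K) (hg : g ∈ R0), (⟨g, hg⟩ : R0) ∉ P ↔ g ≠ 0 ∧ g⁻¹ ∈ O := by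
      intro g hg
      rw [Ideal.mem_comap, IsLocalRing.mem_maximalIdeal, mem_nonunits_iff, not_not]
      constructor
      · intro hu
        obtain ⟨y, hy⟩ := hu.exists_right_inv
        have h1 : g * (y : K) = 1 := congrArg Subtype.val hy
        have h2 : g ≠ 0 := left_ne_zero_of_mul_eq_one h1
        refine ⟨h2, ?_⟩
        rw [inv_eq_of_mul_eq_one_right h1]
        exact y.2
      · rintro ⟨h1, h2⟩
        exact IsUnit.of_mul_eq_one ⟨g⁻¹, h2⟩ (Subtype.ext (mul_inv_cancel₀ h1))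
    have hloc : IsLocalization.AtPrime O P := by
      refine ⟨?_, ?_, ?_⟩
      · rintro ⟨⟨g, hg⟩, hgP⟩
        obtain ⟨h1, h2⟩ := (hP g hg).1 hgP
        exact IsUnit.of_mul_eq_one ⟨g⁻¹, h2⟩ (Subtype.ext (mul_inv_cancel₀ h1))
      · intro y
        obtain ⟨g, hg, hg0, hgO, hyg⟩ := h𝒞.frac R0 hR0 y y.2
        exact ⟨⟨⟨y * g, hyg⟩, ⟨g, hg⟩, (hP g hg).2 ⟨hg0, hgO⟩⟩, Subtype.ext rfl⟩
      · intro a b hab
        refine ⟨1, ?_⟩
        have h3 : (a : K) = b := congrArg (fun z : O => (z : K)) hab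
        rw [Subtype.ext h3]
    obtain ⟨b, hb⟩ := hxΩ
    obtain ⟨⟨g, hg⟩, hgP, het⟩ := exists_etale' (fun i => (⟨x i, hx0 i⟩ : R0)) P b hb
    obtain ⟨hg0, hgO⟩ := (hP g hg).1 hgP
    obtain ⟨g', hg', hτ, h0, hinv⟩ := exists_normD (E := E) hp hpk g hg hg0 hgO
    have h1 := etale_mul _ _ (⟨g', hg'⟩ : R0) het
    exact ⟨_, h𝒞.loc R0 hR0 (g * g') (R0.mul_mem hg hg') hτ h0 hinv,
      fun i => le_locAt _ _ _ (hx0 i), etC_of_away hx0 (g * g') (R0.mul_mem hg hg') h0 h1⟩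
  -- the generators
  have _ := h𝒞.sm R1 hR1
  have hft : Algebra.FiniteType k R1 := inferInstance
  obtain ⟨T, hT⟩ := hft.1
  obtain ⟨E', hE, hER⟩ := fc_ndk h (T.image Subtype.val) (fun b hb => by
    obtain ⟨b, -, rfl⟩ := Finset.mem_image.1 hb
    exact h𝒞.le R1 hR1 b.2)
  obtain ⟨g, hg, hτ, hg0, hgO, hgE⟩ := exists_enlargeD h𝒞 hp hpk hR1 E' hE
  have hR2 := h𝒞.loc R1 hR1 g hg hτ hg0 hgO
  have hx2 : ∀ i, x i ∈ locAt R1 g hg := fun i => le_locAt _ _ _ (hx1 i)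
  obtain ⟨hT2, hc2, hz2, hl2⟩ := hER _ hx2 hgE
  have ho1 : ∀ a ∈ R1, E a ∈ Fk x w (locAt R1 g hg) l := by
    have h1 : ∀ a : R1, E (a : K) ∈ Fk x w (locAt R1 g hg) l := by
      intro a
      have ha : a ∈ Algebra.adjoin k (T : Set R1) := by rw [hT]; trivial
      induction ha using Algebra.adjoin_induction with
      | mem b hb => exact hT2 b (Finset.mem_image_of_mem _ hb)
      | algebraMap r =>
        have h2 : E ((algebraMap k R1 r : R1) : K) = 0 := E.map_algebraMap r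
        rw [h2]
        exact Submodule.zero_mem _
      | add a b _ _ ha hb =>
        rw [Subalgebra.coe_add, map_add]
        exact Submodule.add_mem _ ha hb
      | mul a b _ _ ha hb =>
        rw [Subalgebra.coe_mul, Derivation.leibniz]
        have hle := le_locAt R1 g hg
        refine Submodule.add_mem _ ?_ ?_
        · exact Submodule.smul_mem _ (⟨a, hle a.2⟩ : locAt R1 g hg) hb
        · exact Submodule.smul_mem _ (⟨b, hle b.2⟩ : locAt R1 g hg) ha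
    exact fun a ha => h1 ⟨a, ha⟩
  have ho2 : ∀ a ∈ locAt R1 g hg, E a ∈ Fk x w (locAt R1 g hg) l := by
    rintro a ⟨m, hm⟩
    have h1 := ho1 _ hm
    have h2 : E (a * g ^ m) = g ^ m * E a := by
      rw [Derivation.leibniz, Derivation.leibniz_pow, hτ]
      simp
    rw [h2] at h1
    have h3 : E a = (g⁻¹) ^ m * (g ^ m * E a) := by
      rw [← mul_assoc, ← mul_pow, inv_mul_cancel₀ hg0, one_pow, one_mul]
    rw [h3]
    exact Submodule.smul_mem _ (⟨(g⁻¹) ^ m, Subalgebra.pow_mem _ (inv_mem_locAt R1 g hg hg0) m⟩ :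
      locAt R1 g hg) h1
  exact ⟨_, hR2, hx2, EtC.locAt het1 g hg hg0, ⟨ho2, hc2, hz2, hl2⟩⟩

end spread

end Pool.Agent.U197.GQ
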