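import Pool.Agent.U197.GQ.E1

/-!
Gluing of weighted centres for general maps.
-/

set_option autoImplicit false
set_option linter.unusedSectionVars false

namespace Pool.Agent.U197.GQ

open AlgebraicGeometry CategoryTheory
open Pool.Agent.W559.Mg Pool.Agent.W559.Et Pool.Agent.H920R2 Pool.Agent.U197.SF
open Pool.Agent.H519R3.RS Pool.Agent.N98.PJ

/-- The map `δ` acts on the charts, and the denominators are constants. -/
structure GDat (k : Type) {S : Type} [Field k] [CommRing S] [IsDomain S] [Algebra k S] {z : S}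
    (z0 : z ≠ 0) {ι : Type} {za : ι → S} (za0 : ∀ a, za a ≠ 0)
    (δ : FractionRing S → FractionRing S) : Prop where
  sz : ∀ x ∈ (Cz z0 : Subalgebra k (FractionRing S)), δ x ∈ (Cz z0 : Subalgebra k (FractionRing S))
  sa : ∀ a, ∀ x ∈ (Cz (za0 a) : Subalgebra k (FractionRing S)),
    δ x ∈ (Cz (za0 a) : Subalgebra k (FractionRing S))
  mz : ∀ (n : ℕ) (x : FractionRing S), δ (ev k S z ^ n * x) = ev k S z ^ n * δ x
  ma : ∀ a (n : ℕ) (x : FractionRing S), δ (ev k S (za a) ^ n * x) = ev k S (za a) ^ n * δ x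

section glue

variable {k S : Type} [Field k] [CommRing S] [IsDomain S] [Algebra k S] {z : S} {z0 : z ≠ 0}
  {ι : Type} {za : ι → S} {za0 : ∀ a, za a ≠ 0}
  {F : ∀ a, ℕ → Ideal (Cz (za0 a) : Subalgebra k (FractionRing S))}
  [Finite ι] {δ : FractionRing S → FractionRing S} (hG : GDat k z0 za0 δ)

variable {l : ℕ} (hl : 0 < l)
  (hN : ∀ a, NWC (Cz (za0 a) : Subalgebra k (FractionRing S)) δ l (F a))
  (hsm : ∀ a, Algebra.Smooth k (Cz (za0 a) : Subalgebra k (FractionRing S)))

include hG hl hN hsm in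
/-- The local filtrations come from the glued one. -/
theorem GF_upD (a : ι) (d : ℕ) (g : (Cz (za0 a) : Subalgebra k (FractionRing S)))
    (hg : g ∈ F a d) : ∃ n : ℕ, ∃ y ∈ GF z0 za za0 F d,
      (y : FractionRing S) = ev k S (za a) ^ n * g := by
  classical
  have _ : Fintype ι := Fintype.ofFinite ι
  have key : ∀ b, ∃ n : ℕ, ∃ g' ∈ F b d, (g' : FractionRing S) = ev k S (za a) ^ n * g := by
    intro b
    have _ := hsm a
    have _ := hsm b
    refine glue_nwc (u := 1) (n0 := 0) (ev_mem_Cz (za0 b) (za a)) ?_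
      (hG.sa b) (hG.sa a) ?_
      (by rw [pow_zero, one_mul]; exact Subalgebra.one_mem _)
      (fun x => by rw [one_mul]) hl (hN b) (hN a) d g hg
    · intro x hx
      obtain ⟨n, s, hs⟩ := exists_ev ⟨x, hx⟩
      exact ⟨n, by rw [hs]; exact ev_mem_Cz _ s⟩
    · intro x
      have h1 := hG.ma a 1 x
      rwa [pow_one] at h1
  choose N g' hg' hgN using key
  obtain ⟨n0, s, hs⟩ := exists_ev g
  have h1 : ev k S (za a) ^ (n0 + ∑ b, N b) * (g : FractionRing S) =
      ev k S (za a ^ (∑ b, N b) * s) := by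
    rw [map_mul, map_pow, ← hs, pow_add]
    ring
  refine ⟨n0 + ∑ b, N b, ⟨_, h1 ▸ ev_mem_Cz z0 _⟩, fun b => ?_, rfl⟩
  have h3 : N b ≤ n0 + ∑ b, N b :=
    (Finset.single_le_sum (fun _ _ => Nat.zero_le _) (Finset.mem_univ b)).trans
      (Nat.le_add_left _ _)
  obtain ⟨e, he⟩ := Nat.exists_eq_add_of_le h3
  refine ⟨0, ⟨ev k S (za a), ev_mem_Cz _ _⟩ ^ e * g' b, Ideal.mul_mem_left _ _ (hg' b), ?_⟩
  change ev k S (za a) ^ e * (g' b : FractionRing S) = ev k S z ^ 0 *
    (ev k S (za a) ^ (n0 + ∑ b, N b) * (g : FractionRing S))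
  rw [hgN, he, pow_zero, one_mul, pow_add]
  ring

include hN in
lemma GF_zeroD : GF z0 za za0 F 0 = ⊤ := by
  rw [eq_top_iff]
  intro y _ a
  obtain ⟨n, s, hs⟩ := exists_ev y
  refine ⟨n, ⟨ev k S s, ev_mem_Cz _ s⟩, ?_, hs.symm⟩
  rw [(hN a).centre.zero]
  trivial

include hN in
lemma GF_antiD {c d : ℕ} (h : c ≤ d) : GF z0 za za0 F d ≤ GF z0 za za0 F c := by
  intro y hy a
  obtain ⟨n, g, hg, hgy⟩ := hy a
  exact ⟨n, g, (hN a).centre.anti _ _ h hg, hgy⟩

include hN in
lemma GF_mulD {c d : ℕ} {x y : (Cz z0 : Subalgebra k (FractionRing S))}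
    (hx : x ∈ GF z0 za za0 F c) (hy : y ∈ GF z0 za za0 F d) : x * y ∈ GF z0 za za0 F (c + d) := by
  intro a
  obtain ⟨n, g, hg, hgx⟩ := hx a
  obtain ⟨m, g', hg', hgy⟩ := hy a
  refine ⟨n + m, g * g', (hN a).centre.mul _ _ (Ideal.mul_mem_mul hg hg'), ?_⟩
  rw [Subalgebra.coe_mul, hgx, hgy, Subalgebra.coe_mul, pow_add]
  ring

include hG hN in
lemma GF_raiseD {d : ℕ} {y : (Cz z0 : Subalgebra k (FractionRing S))}
    (hy : y ∈ GF z0 za za0 F d) (y' : (Cz z0 : Subalgebra k (FractionRing S)))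
    (h : (y' : FractionRing S) = δ y) : y' ∈ GF z0 za za0 F (d + l) := by
  intro a
  obtain ⟨n, g, hg, hgy⟩ := hy a
  refine ⟨n, ⟨_, hG.sa a g g.2⟩, (hN a).raise d g hg _ rfl, ?_⟩
  change δ (g : FractionRing S) = _
  rw [hgy, hG.mz, h]

include hG hN hl in
/-- The zeros are contained in the glued centre. -/
lemma zI_leD : zI (Cz z0 : Subalgebra k (FractionRing S)) δ ≤
    GF z0 za za0 F 1 := by
  unfold zI
  rw [Ideal.span_le]
  rintro y ⟨c, hc⟩
  have h1 : c ∈ GF z0 za za0 F 0 := by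
    rw [GF_zeroD hN]
    trivial
  have h2 := GF_raiseD hG hN h1 y hc
  exact GF_antiD hN (by omega) h2

variable (hcov : ∀ P : Ideal (Cz z0 : Subalgebra k (FractionRing S)), P.IsPrime →
  zI (Cz z0 : Subalgebra k (FractionRing S)) δ ≤ P →
    ∃ a, (⟨ev k S (za a), ev_mem_Cz z0 (za a)⟩ :
      (Cz z0 : Subalgebra k (FractionRing S))) ∉ P)

include hG hN hcov in
/-- The glued centre is contained in the zeros. -/
lemma GF_zerosD : GF z0 za za0 F 1 ≤
    (zI (Cz z0 : Subalgebra k (FractionRing S)) δ).radical := by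
  intro y hy
  rw [Ideal.radical_eq_sInf]
  refine Submodule.mem_sInf.2 ?_
  rintro P ⟨hle, hP⟩
  obtain ⟨a, ha⟩ := hcov P hP hle
  obtain ⟨n, g, hg, hgy⟩ := hy a
  obtain ⟨M, hM⟩ := (hN a).zeros hg
  obtain ⟨N, g', hg', hgg⟩ := glue_zI (u := 1) (n0 := 0) (ev_mem_Cz z0 (za a)) (by
      intro x hx
      obtain ⟨n, s, hs⟩ := exists_ev ⟨x, hx⟩
      exact ⟨n, by rw [hs]; exact ev_mem_Cz _ s⟩)
    (by
      intro x
      have h1 := hG.ma a 1 x
      rwa [pow_one] at h1)
    (by rw [pow_zero, one_mul]; exact Subalgebra.one_mem _)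
    (fun x => by rw [one_mul]) hG.sz _ hM
  have h1 : g' = ⟨ev k S (za a), ev_mem_Cz z0 (za a)⟩ ^ N *
      (⟨ev k S z, ev_mem_Cz z0 z⟩ ^ (n * M) * y ^ M) := by
    apply Subtype.ext
    rw [hgg]
    change ev k S (za a) ^ N * (g : FractionRing S) ^ M = ev k S (za a) ^ N *
      (ev k S z ^ (n * M) * (y : FractionRing S) ^ M)
    rw [hgy, mul_pow, ← pow_mul]
  have h2 := hle hg'
  rw [h1] at h2
  rcases hP.mem_or_mem h2 with h3 | h3
  · exact absurd (hP.mem_of_pow_mem _ h3) ha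
  · rcases hP.mem_or_mem h3 with h4 | h4
    · exact absurd h4 (z_notMem hP _)
    · exact hP.mem_of_pow_mem _ h4

variable (z0 za za0 F δ l) in
/-- The leading ideal of the glued filtration. -/
noncomputable def LGD (m : ℕ) : Ideal (Cz z0 : Subalgebra k (FractionRing S)) :=
  GF z0 za za0 F (m + 1) ⊔ Ideal.span {y | ∃ e, ∃ c ∈ GF z0 za za0 F e,
    ∃ b ∈ GF z0 za za0 F (m - (e + l)),
      ∃ x : (Cz z0 : Subalgebra k (FractionRing S)), (x : FractionRing S) = δ c ∧ y = b * x}

include hN in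
lemma LG_mulD {m e : ℕ} {x y : (Cz z0 : Subalgebra k (FractionRing S))}
    (hx : x ∈ LGD z0 za za0 F δ l m) (hy : y ∈ GF z0 za za0 F e) :
    x * y ∈ LGD z0 za za0 F δ l (m + e) := by
  obtain ⟨x1, hx1, x2, hx2, rfl⟩ := Submodule.mem_sup.1 hx
  rw [add_mul]
  refine Ideal.add_mem _ (Ideal.mem_sup_left ?_) ?_
  · have h1 := GF_mulD hN hx1 hy
    rwa [show m + 1 + e = m + e + 1 by ring] at h1
  · refine Ideal.mem_sup_right ?_
    clear hx
    induction hx2 using Submodule.span_induction with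
    | mem t ht =>
      obtain ⟨e', c, hc, b, hb, x, hx, rfl⟩ := ht
      refine Ideal.subset_span ⟨e', c, hc, b * y, ?_, x, hx, by ring⟩
      exact GF_antiD hN (by omega) (GF_mulD hN hb hy)
    | zero => rw [zero_mul]; exact Ideal.zero_mem _
    | add u v _ _ hu hv => rw [add_mul]; exact Ideal.add_mem _ hu hv
    | smul r u _ hu =>
      rw [smul_eq_mul, mul_assoc]
      exact Ideal.mul_mem_left _ _ hu

include hG hl hN hsm in
lemma LG_upD (a : ι) (m : ℕ) (x : (Cz (za0 a) : Subalgebra k (FractionRing S)))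
    (hx : x ∈ F a (m + 1) ⊔ Ideal.span {y | ∃ e, ∃ c ∈ F a e, ∃ b ∈ F a (m - (e + l)),
      ∃ x : (Cz (za0 a) : Subalgebra k (FractionRing S)), (x : FractionRing S) =
        δ (c : FractionRing S) ∧ y = b * x}) :
    ∃ n : ℕ, ∃ y ∈ LGD z0 za za0 F δ l m, (y : FractionRing S) = ev k S (za a) ^ n * x := by
  obtain ⟨x1, hx1, x2, hx2, rfl⟩ := Submodule.mem_sup.1 hx
  refine up_add (I := LGD z0 za za0 F δ l m) ?_ ?_
  · obtain ⟨n, y, hy, hyx⟩ := GF_upD (z0 := z0) hG hl hN hsm a _ _ hx1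
    exact ⟨n, y, Ideal.mem_sup_left hy, hyx⟩
  · refine up_span (c0 := za0 a) ?_ x2 hx2
    rintro t ⟨e, c, hc, b, hb, x, hx, rfl⟩
    obtain ⟨n1, c', hc', hcc⟩ := GF_upD (z0 := z0) hG hl hN hsm a _ _ hc
    obtain ⟨n2, b', hb', hbb⟩ := GF_upD (z0 := z0) hG hl hN hsm a _ _ hb
    refine ⟨n2 + n1, b' * ⟨_, hG.sz c' c'.2⟩, Ideal.mem_sup_right
      (Ideal.subset_span ⟨e, c', hc', b', hb', _, rfl, rfl⟩), ?_⟩
    change (b' : FractionRing S) * δ (c' : FractionRing S) =
      ev k S (za a) ^ (n2 + n1) * ((b : FractionRing S) * x)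
    rw [hcc, hbb, hG.ma a, hx, pow_add]
    ring

include hN in
lemma GF_powD {d : ℕ} {y : (Cz z0 : Subalgebra k (FractionRing S))}
    (hy : y ∈ GF z0 za za0 F d) (n : ℕ) : y ^ n ∈ GF z0 za za0 F (n * d) := by
  induction n with
  | zero =>
    rw [zero_mul, GF_zeroD hN]
    trivial
  | succ n ih =>
    rw [pow_succ, show (n + 1) * d = n * d + d by ring]
    exact GF_mulD hN ih hy

include hG hl hN hsm hcov in
/-- The leading form of the glued centre. -/
theorem GF_leadD (d : ℕ) (y : (Cz z0 : Subalgebra k (FractionRing S)))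
    (hy : y ∈ GF z0 za za0 F d) (hd : 1 ≤ d) :
    ∃ N : ℕ, y ^ N ∈ LGD z0 za za0 F δ l (N * d) := by
  classical
  have _ : Fintype ι := Fintype.ofFinite ι
  have key : ∀ a, ∃ N m : ℕ, (⟨ev k S (za a), ev_mem_Cz z0 (za a)⟩ :
      (Cz z0 : Subalgebra k (FractionRing S))) ^ m * y ^ N ∈ LGD z0 za za0 F δ l (N * d) := by
    intro a
    obtain ⟨n, g, hg, hgy⟩ := hy a
    obtain ⟨N, hNN⟩ := (hN a).lead d hd g hg
    obtain ⟨m, y', hy', hyy⟩ := LG_upD (z0 := z0) hG hl hN hsm a _ _ hNN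
    refine ⟨N, m, ?_⟩
    have hz' : ev k S z ≠ 0 := ev_ne z0
    have h1 : (⟨ev k S (za a), ev_mem_Cz z0 (za a)⟩ :
        (Cz z0 : Subalgebra k (FractionRing S))) ^ m * y ^ N =
        ⟨(ev k S z)⁻¹, inv_mem_Cz'⟩ ^ (n * N) * y' := by
      apply Subtype.ext
      change ev k S (za a) ^ m * (y : FractionRing S) ^ N = (ev k S z)⁻¹ ^ (n * N) *
        (y' : FractionRing S)
      have h2 : (ev k S z)⁻¹ ^ (n * N) * ev k S z ^ (n * N) = 1 := by
        rw [← mul_pow, inv_mul_cancel₀ hz', one_pow]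
      rw [hyy, Subalgebra.coe_pow, hgy, mul_pow, ← pow_mul]
      linear_combination (-(ev k S (za a) ^ m * (y : FractionRing S) ^ N)) * h2
    rw [h1]
    exact Ideal.mul_mem_left _ _ hy'
  choose N m hNm using key
  refine ⟨∑ a, N a, ?_⟩
  have h1 : ∀ a, (⟨ev k S (za a), ev_mem_Cz z0 (za a)⟩ :
      (Cz z0 : Subalgebra k (FractionRing S))) ^ m a * y ^ (∑ a, N a) ∈
        LGD z0 za za0 F δ l ((∑ a, N a) * d) := by
    intro a
    obtain ⟨e, he⟩ := Nat.exists_eq_add_of_le
      (Finset.single_le_sum (f := N) (fun _ _ => Nat.zero_le _) (Finset.mem_univ a))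
    rw [he, pow_add, ← mul_assoc, add_mul]
    exact LG_mulD hN (hNm a) (GF_powD hN hy e)
  let I : Ideal (Cz z0 : Subalgebra k (FractionRing S)) :=
    { carrier := {r | r * y ^ (∑ a, N a) ∈ LGD z0 za za0 F δ l ((∑ a, N a) * d)}
      add_mem' := fun {r r'} hr hr' => by
        change (r + r') * y ^ (∑ a, N a) ∈ LGD z0 za za0 F δ l ((∑ a, N a) * d)
        rw [add_mul]
        exact Ideal.add_mem _ hr hr'
      zero_mem' := by
        change 0 * y ^ (∑ a, N a) ∈ LGD z0 za za0 F δ l ((∑ a, N a) * d)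
        rw [zero_mul]
        exact Ideal.zero_mem _
      smul_mem' := fun r x hx => by
        change (r * x) * y ^ (∑ a, N a) ∈ LGD z0 za za0 F δ l ((∑ a, N a) * d)
        rw [mul_assoc]
        exact Ideal.mul_mem_left _ _ hx }
  have hI : I = ⊤ := by
    by_contra hcon
    obtain ⟨P, hP, hle⟩ := Ideal.exists_le_maximal _ hcon
    obtain ⟨a, ha⟩ := hcov P hP.isPrime (by
      unfold zI
      rw [Ideal.span_le]
      intro x hx
      have h2 : x ∈ GF z0 za za0 F 1 := zI_leD hG hl hN (Ideal.subset_span hx)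
      have h3 := GF_powD hN h2 ((∑ a, N a) * d + 1)
      rw [mul_one] at h3
      have h4 : x ^ ((∑ a, N a) * d + 1) ∈ I := by
        change x ^ ((∑ a, N a) * d + 1) * y ^ (∑ a, N a) ∈
          LGD z0 za za0 F δ l ((∑ a, N a) * d)
        exact Ideal.mul_mem_right _ _ (Ideal.mem_sup_left h3)
      exact hP.isPrime.mem_of_pow_mem _ (hle h4))
    exact ha (hP.isPrime.mem_of_pow_mem _ (hle (show _ ∈ I from h1 a)))
  have h2 : (1 : (Cz z0 : Subalgebra k (FractionRing S))) ∈ I := by rw [hI]; trivial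
  change 1 * y ^ (∑ a, N a) ∈ LGD z0 za za0 F δ l ((∑ a, N a) * d) at h2
  rwa [one_mul] at h2

include hG hl hN hsm hcov in
/-- The glued filtration is a regular weighted centre. -/
theorem GF_rwcD [Algebra.Smooth k (Cz z0 : Subalgebra k (FractionRing S))] {p : ℕ} (hp : 0 < p)
    (hpk : (p : k) = 0) : RegularWeightedCentre k (GF z0 za za0 F) where
  zero := GF_zeroD hN
  anti a b h := GF_antiD hN h
  mul a b := by
    rw [Ideal.mul_le]
    exact fun x hx y hy => GF_mulD hN hx hy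
  coord P hP hP1 := by
    obtain ⟨a, ha⟩ := hcov P hP ((zI_leD hG hl hN).trans hP1)
    have hza : ev k S (za a) ≠ 0 := ev_ne (za0 a)
    have hzz : ev k S z ≠ 0 := ev_ne z0
    let C := (Cz z0 : Subalgebra k (FractionRing S))
    let A := (Cz (za0 a) : Subalgebra k (FractionRing S))
    let fa : C := ⟨ev k S (za a), ev_mem_Cz z0 (za a)⟩
    let E := locAt C (fa : FractionRing S) fa.2
    have hAE : A ≤ E := by
      intro x hx
      obtain ⟨n, s, hs⟩ := exists_ev ⟨x, hx⟩
      refine ⟨n, ?_⟩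
      change x * ev k S (za a) ^ n ∈ C
      rw [mul_comm]
      change ev k S (za a) ^ n * x = ev k S s at hs
      rw [hs]
      exact ev_mem_Cz z0 s
    let PE : Ideal E := P.map (Subalgebra.inclusion (le_locAt C _ fa.2) : C →+* E)
    have hPE : PE.IsPrime := by
      let _ : Algebra C E := (Subalgebra.inclusion (le_locAt C _ fa.2)).toRingHom.toAlgebra
      have hloc : IsLocalization (Submonoid.powers fa) E := locAt_isLocalization C _ fa.2 hza
      refine IsLocalization.isPrime_of_isPrime_disjoint (Submonoid.powers fa) E P hP ?_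
      rw [Set.disjoint_left]
      rintro _ ⟨n, rfl⟩ h
      exact ha (hP.mem_of_pow_mem _ h)
    let P' : Ideal A := PE.comap (Subalgebra.inclusion hAE : A →+* E)
    have hP' : P'.IsPrime := Ideal.comap_isPrime _ _
    have hFP' : F a 1 ≤ P' := by
      intro g hg
      obtain ⟨n, y, hy, hyg⟩ := GF_upD (z0 := z0) hG hl hN hsm a _ _ hg
      exact (mem_map_locAt fa hza P (Subalgebra.inclusion hAE g)).2 ⟨n, y, hP1 hy, hyg⟩
    obtain ⟨f', n, x', w, hf', het, hmon⟩ := (hN a).centre.coord P' hP' hFP'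
    have hf'0 : (f' : FractionRing S) ≠ 0 := by
      intro h
      apply hf'
      have h1 : f' = 0 := Subtype.ext h
      rw [h1]
      exact Ideal.zero_mem _
    have hc1 := crd_of_away f' hf'0 het hmon
    have hzA : ev k S z ∈ locAt A (f' : FractionRing S) f'.2 :=
      le_locAt _ _ _ (ev_mem_Cz _ z)
    have hc2 := hc1.loc (ev k S z) hzA hzz
    obtain ⟨M, s', hs'⟩ := exists_ev f'
    have hs0 : ev k S s' ≠ 0 := by
      rw [← hs']
      exact mul_ne_zero (pow_ne_zero _ hza) hf'0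
    let f : C := ⟨ev k S (za a * s'), ev_mem_Cz z0 _⟩
    have hfe : (f : FractionRing S) = ev k S (za a) * ev k S s' := map_mul _ _ _
    have hf0 : (f : FractionRing S) ≠ 0 := by
      rw [hfe]
      exact mul_ne_zero hza hs0
    have hfP : f ∉ P := by
      intro h
      have h1 : fa * ⟨ev k S s', ev_mem_Cz z0 s'⟩ ∈ P := by
        have h2 : f = fa * ⟨ev k S s', ev_mem_Cz z0 s'⟩ := Subtype.ext hfe
        rwa [h2] at h
      rcases hP.mem_or_mem h1 with h2 | h2
      · exact ha h2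
      · apply hf'
        exact (mem_map_locAt fa hza P (Subalgebra.inclusion hAE f')).2 ⟨M, _, h2, hs'.symm⟩
    have hE : locAt (locAt A (f' : FractionRing S) f'.2) (ev k S z) hzA =
        locAt C (f : FractionRing S) f.2 := locAt_eq a f' hf'0 hs' hzA _
    have hAf : A ≤ locAt C (f : FractionRing S) f.2 := by
      rw [← hE]
      exact (le_locAt A _ f'.2).trans (le_locAt _ _ hzA)
    have hc3 := Crd.cast hE hAf hc2
    have hinvz : (ev k S z)⁻¹ ∈ locAt C (f : FractionRing S) f.2 := le_locAt _ _ _ inv_mem_Cz'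
    have hinva : (ev k S (za a))⁻¹ ∈ locAt C (f : FractionRing S) f.2 := by
      refine ⟨1, ?_⟩
      rw [pow_one, hfe, ← mul_assoc, inv_mul_cancel₀ hza, one_mul]
      exact ev_mem_Cz z0 s'
    have hmema : ev k S (za a) ∈ locAt C (f : FractionRing S) f.2 :=
      le_locAt _ _ _ (ev_mem_Cz z0 (za a))
    have hFG : ∀ d, (F a d).map (Subalgebra.inclusion hAf : A →+* locAt C (f : FractionRing S) f.2) =
        (GF z0 za za0 F d).map (Subalgebra.inclusion (le_locAt C (f : FractionRing S) f.2) :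
          C →+* locAt C (f : FractionRing S) f.2) := by
      intro d
      apply le_antisymm
      · rw [Ideal.map_le_iff_le_comap]
        intro g hg
        obtain ⟨n, y, hy, hyg⟩ := GF_upD (z0 := z0) hG hl hN hsm a _ _ hg
        rw [Ideal.mem_comap]
        have h1 : (Subalgebra.inclusion hAf g : locAt C (f : FractionRing S) f.2) =
            ⟨(ev k S (za a))⁻¹, hinva⟩ ^ n * Subalgebra.inclusion (le_locAt C _ f.2) y := by
          apply Subtype.ext
          change (g : FractionRing S) = (ev k S (za a))⁻¹ ^ n * (y : FractionRing S)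
          rw [hyg, ← mul_assoc, ← mul_pow, inv_mul_cancel₀ hza, one_pow, one_mul]
        change (Subalgebra.inclusion hAf g : locAt C (f : FractionRing S) f.2) ∈ _
        rw [h1]
        exact Ideal.mul_mem_left _ _ (Ideal.mem_map_of_mem _ hy)
      · rw [Ideal.map_le_iff_le_comap]
        intro y hy
        obtain ⟨n, g, hg, hgy⟩ := hy a
        rw [Ideal.mem_comap]
        have h1 : (Subalgebra.inclusion (le_locAt C _ f.2) y : locAt C (f : FractionRing S) f.2) =
            ⟨(ev k S z)⁻¹, hinvz⟩ ^ n * Subalgebra.inclusion hAf g := by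
          apply Subtype.ext
          change (y : FractionRing S) = (ev k S z)⁻¹ ^ n * (g : FractionRing S)
          rw [hgy, ← mul_assoc, ← mul_pow, inv_mul_cancel₀ hzz, one_pow, one_mul]
        change (Subalgebra.inclusion (le_locAt C _ f.2) y : locAt C (f : FractionRing S) f.2) ∈ _
        rw [h1]
        exact Ideal.mul_mem_left _ _ (Ideal.mem_map_of_mem _ hg)
    choose Mi si hsi using fun i => exists_ev (x' i)
    have _ : Algebra.Smooth k (locAt C (f : FractionRing S) f.2) := smooth_locAt C _ f.2 hf0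
    have hc4 := hc3.change (hC := le_locAt C _ f.2) hpk hFG (fun i => ev k S (za a) ^ Mi i)
      (fun i => pow_ne_zero _ hza) (fun i => Subalgebra.pow_mem _ hmema _)
      (fun i => by rw [← inv_pow]; exact Subalgebra.pow_mem _ hinva _)
    have hx : ∀ i, (ev k S (za a) ^ Mi i) ^ p * (x' i : FractionRing S) =
        ev k S (za a ^ (Mi i * (p - 1)) * si i) := by
      intro i
      obtain ⟨q, rfl⟩ : ∃ q, p = q + 1 := ⟨p - 1, by omega⟩
      rw [map_mul, map_pow, ← hsi, Nat.add_sub_cancel, ← pow_mul, Nat.mul_succ, pow_add]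
      ring
    have hc5 : Crd (le_locAt C (f : FractionRing S) f.2) (GF z0 za za0 F)
        (fun i => (((⟨ev k S (za a ^ (Mi i * (p - 1)) * si i), ev_mem_Cz z0 _⟩ : C)) :
          FractionRing S)) w := by
      have h1 : (fun i => (((⟨ev k S (za a ^ (Mi i * (p - 1)) * si i), ev_mem_Cz z0 _⟩ : C)) :
          FractionRing S)) = fun i => (ev k S (za a) ^ Mi i) ^ p * (x' i : FractionRing S) :=
        funext fun i => (hx i).symm
      rw [h1]
      exact hc4
    obtain ⟨h1, h2⟩ := away_of_crd f hf0 hc5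
    exact ⟨f, n, _, w, hfP, h1, h2⟩

end glue

end Pool.Agent.U197.GQ
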