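import Pool.Agent.U197.GQ.N1
import Pool.Agent.U197.SF.D5

/-!
Nondegenerate weighted centres: transport, powers, conjugation, uniqueness.
-/

set_option autoImplicit false
set_option linter.unusedSectionVars false

open MvPolynomial

namespace Pool.Agent.U197.GQ

open Pool.Agent.H920R2 Pool.Agent.U197.SF

section transport

variable {k R A : Type} [Field k] [CommRing R] [Algebra k R] [CommRing A] [Algebra k A]

/-- Transport of a regular weighted centre along an isomorphism. -/
theorem rwc_comap (e : R ≃ₐ[k] A) {F : ℕ → Ideal A} (hF : RegularWeightedCentre k F) :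
    RegularWeightedCentre k (fun d => (F d).comap (e : R →+* A)) where
  zero := by
    change (F 0).comap (e : R →+* A) = ⊤
    rw [hF.zero, Ideal.comap_top]
  anti a b h := Ideal.comap_mono (hF.anti a b h)
  mul a b := by
    rw [Ideal.mul_le]
    intro x hx y hy
    rw [Ideal.mem_comap] at hx hy ⊢
    rw [map_mul]
    exact hF.mul a b (Ideal.mul_mem_mul hx hy)
  coord P hP hFP := by
    have hP' : (P.comap (e.symm : A →+* R)).IsPrime := Ideal.comap_isPrime _ _
    obtain ⟨f, n, x, w, hf, het, hmon⟩ := hF.coord (P.comap (e.symm : A →+* R)) hP' (by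
      intro a ha
      apply hFP
      rw [Ideal.mem_comap]
      change e (e.symm a) ∈ F 1
      rwa [e.apply_symm_apply])
    have hmap : (Submonoid.powers f).map ((e.symm : A ≃+* R).toMonoidHom) =
        Submonoid.powers (e.symm f) := Submonoid.map_powers _ _
    let ψ : Localization.Away f ≃+* Localization.Away (e.symm f) :=
      IsLocalization.ringEquivOfRingEquiv (Localization.Away f) (Localization.Away (e.symm f))
        (e.symm : A ≃+* R) hmap
    have hψ : ∀ a, ψ (algebraMap A _ a) = algebraMap R _ (e.symm a) := fun a =>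
      IsLocalization.ringEquivOfRingEquiv_eq _ _
    refine ⟨e.symm f, n, fun i => e.symm (x i), w, hf, ?_, fun d => ?_⟩
    · have h4 : ((ψ : Localization.Away f →+* Localization.Away (e.symm f))).Etale :=
        RingHom.Etale.of_bijective ψ.bijective
      have h5 := RingHom.Etale.stableUnderComposition _ _ het h4
      have h6 : (ψ : Localization.Away f →+* Localization.Away (e.symm f)).comp
          ((aeval (fun i => algebraMap A (Localization.Away f) (x i)) :
            MvPolynomial (Fin n) k →ₐ[k] Localization.Away f) :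
            MvPolynomial (Fin n) k →+* Localization.Away f) =
          ((aeval (fun i => algebraMap R (Localization.Away (e.symm f)) (e.symm (x i))) :
            MvPolynomial (Fin n) k →ₐ[k] Localization.Away (e.symm f)) :
            MvPolynomial (Fin n) k →+* Localization.Away (e.symm f)) := by
        apply MvPolynomial.ringHom_ext
        · intro r
          change ψ (aeval (fun i => algebraMap A (Localization.Away f) (x i)) (C r)) =
            aeval (fun i => algebraMap R (Localization.Away (e.symm f)) (e.symm (x i))) (C r)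
          rw [← MvPolynomial.algebraMap_eq, AlgHom.commutes, AlgHom.commutes,
            IsScalarTower.algebraMap_apply k A (Localization.Away f), hψ, AlgEquiv.commutes,
            ← IsScalarTower.algebraMap_apply]
        · intro i
          change ψ (aeval (fun i => algebraMap A (Localization.Away f) (x i)) (X i)) =
            aeval (fun i => algebraMap R (Localization.Away (e.symm f)) (e.symm (x i))) (X i)
          rw [aeval_X, aeval_X, hψ]
      rw [← h6]
      exact h5
    · have h1 : (F d).comap (e : R →+* A) = (F d).map (e.symm : A →+* R) := by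
        apply le_antisymm
        · intro r hr
          have h2 := Ideal.mem_map_of_mem (e.symm : A →+* R) hr
          change e.symm (e r) ∈ _ at h2
          rwa [e.symm_apply_apply] at h2
        · rw [Ideal.map_le_iff_le_comap]
          intro a ha
          rw [Ideal.mem_comap, Ideal.mem_comap]
          change e (e.symm a) ∈ F d
          rwa [e.apply_symm_apply]
      have h2 : (algebraMap R (Localization.Away (e.symm f))).comp (e.symm : A →+* R) =
          (ψ : Localization.Away f →+* Localization.Away (e.symm f)).comp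
            (algebraMap A (Localization.Away f)) := RingHom.ext fun a => (hψ a).symm
      change ((F d).comap (e : R →+* A)).map _ = _
      rw [h1, Ideal.map_map, h2, ← Ideal.map_map, hmon d, Ideal.map_span]
      congr 1
      ext y
      constructor
      · rintro ⟨_, ⟨α, hα, rfl⟩, rfl⟩
        refine ⟨α, hα, ?_⟩
        rw [map_prod]
        exact Finset.prod_congr rfl fun i _ => by
          rw [map_pow]
          exact congrArg (· ^ α i) (hψ (x i))
      · rintro ⟨α, hα, rfl⟩
        refine ⟨_, ⟨α, hα, rfl⟩, ?_⟩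
        rw [map_prod]
        exact Finset.prod_congr rfl fun i _ => by
          rw [map_pow]
          exact congrArg (· ^ α i) (hψ (x i))

end transport

section nwc

variable {k K : Type} [Field k] [Field K] [Algebra k K] {B : Subalgebra k K}

/-- Uniqueness of the centre. -/
theorem nwc_le [Algebra.Smooth k B] (τ : K ≃ₐ[k] K) (hτ : ∀ x ∈ B, τ x ∈ B) {l : ℕ} (hl : 0 < l)
    {F F' : ℕ → Ideal B} (h : NWC B (fun x => τ x - x) l F) (h' : NWC B (fun x => τ x - x) l F')
    (d : ℕ) : F' d ≤ F d := by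
  intro f hf
  have hst : ∀ x ∈ B, (fun x => τ x - x) x ∈ B := fun x hx => B.sub_mem (hτ x hx) hx
  obtain ⟨n, g, hg, hgf⟩ := glue_nwc (A := B) (B := B) (c := 1) (δA := fun x => τ x - x)
    (δB := fun x => τ x - x) (u := 1) (n0 := 0) B.one_mem
    (fun x hx => ⟨0, by rwa [pow_zero, one_mul]⟩) hst hst (fun x => by rw [one_mul, one_mul])
    (by rw [pow_zero, one_mul]; exact B.one_mem) (fun x => by rw [one_mul]) hl h h' d f hf
  rw [one_pow, one_mul] at hgf
  rwa [← Subtype.ext hgf]

variable (τ : K ≃ₐ[k] K)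

/-- Iterates of an automorphism. -/
lemma iter_mem' (hτ : ∀ x ∈ B, τ x ∈ B) (j : ℕ) (x : K) (hx : x ∈ B) : (τ ^ j) x ∈ B := by
  induction j with
  | zero => exact hx
  | succ j ih =>
    have h1 : (τ ^ (j + 1)) x = τ ((τ ^ j) x) := by
      rw [pow_succ']
      rfl
    rw [h1]
    exact hτ _ ih

/-- Telescoping. -/
lemma tele (j : ℕ) (x : K) : (τ ^ j) x - x =
    ∑ i ∈ Finset.range j, (τ ((τ ^ i) x) - (τ ^ i) x) := by
  have h1 : ∀ i, τ ((τ ^ i) x) = (τ ^ (i + 1)) x := by
    intro i
    rw [pow_succ']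
    rfl
  rw [Finset.sum_congr rfl fun i _ => by rw [h1 i],
    Finset.sum_range_sub (fun i => (τ ^ i) x) j]
  rfl

/-- The filtration is stable under the automorphism. -/
lemma NWC.stab {l : ℕ} {F : ℕ → Ideal B} (h : NWC B (fun x => τ x - x) l F)
    (hτ : ∀ x ∈ B, τ x ∈ B) (j d : ℕ) (a : B) (ha : a ∈ F d) :
    (⟨(τ ^ j) a, iter_mem' τ hτ j a a.2⟩ : B) ∈ F d := by
  induction j with
  | zero => exact ha
  | succ j ih =>
    have h1 := h.raise d _ ih ⟨τ ((τ ^ j) a) - (τ ^ j) a,
      B.sub_mem (hτ _ (iter_mem' τ hτ j a a.2)) (iter_mem' τ hτ j a a.2)⟩ rfl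
    have h2 := Ideal.add_mem _ (h.centre.anti _ _ (Nat.le_add_right d l) h1) ih
    have h3 : (⟨τ ((τ ^ j) a) - (τ ^ j) a, B.sub_mem (hτ _ (iter_mem' τ hτ j a a.2))
        (iter_mem' τ hτ j a a.2)⟩ : B) + ⟨(τ ^ j) a, iter_mem' τ hτ j a a.2⟩ =
        ⟨(τ ^ (j + 1)) a, iter_mem' τ hτ (j + 1) a a.2⟩ := by
      apply Subtype.ext
      change τ ((τ ^ j) a) - (τ ^ j) a + (τ ^ j) a = (τ ^ (j + 1)) (a : K)
      rw [sub_add_cancel, pow_succ']
      rfl
    rwa [h3] at h2

/-- Powers which generate the same group. -/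
theorem NWC.pow {l : ℕ} {F : ℕ → Ideal B} (h : NWC B (fun x => τ x - x) l F)
    (hτ : ∀ x ∈ B, τ x ∈ B) {j i : ℕ} (hji : (τ ^ j) ^ i = τ) :
    NWC B (fun x => (τ ^ j) x - x) l F := by
  have hτj : ∀ x ∈ B, (τ ^ j) x ∈ B := iter_mem' τ hτ j
  refine ⟨h.centre, fun d a ha y hy => ?_, ?_, fun d hd a ha => ?_⟩
  · have h1 : y = ∑ i ∈ Finset.range j, (⟨τ ((τ ^ i) a) - (τ ^ i) a,
        B.sub_mem (hτ _ (iter_mem' τ hτ i a a.2)) (iter_mem' τ hτ i a a.2)⟩ : B) := by
      apply Subtype.ext
      rw [hy]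
      change (τ ^ j) (a : K) - a = B.val _
      rw [map_sum]
      exact tele τ j a
    rw [h1]
    exact Ideal.sum_mem _ fun i _ => h.raise d _ (NWC.stab τ h hτ i d a ha) _ rfl
  · refine h.zeros.trans (Ideal.radical_mono ?_)
    unfold zI
    rw [Ideal.span_le]
    rintro y ⟨b, hb⟩
    have h1 : y = ∑ t ∈ Finset.range i, (⟨(τ ^ j) (((τ ^ j) ^ t) b) - ((τ ^ j) ^ t) b,
        B.sub_mem (hτj _ (iter_mem' _ hτj t b b.2)) (iter_mem' _ hτj t b b.2)⟩ : B) := by
      apply Subtype.ext
      rw [hb]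
      change τ (b : K) - b = B.val _
      rw [map_sum]
      conv_lhs => rw [← hji]
      exact tele (τ ^ j) i b
    rw [h1]
    exact Ideal.sum_mem _ fun t _ => Ideal.subset_span
      ⟨⟨_, iter_mem' _ hτj t b b.2⟩, rfl⟩
  · obtain ⟨N, hN⟩ := h.lead d hd a ha
    refine ⟨N, SetLike.le_def.1 (sup_le le_sup_left (le_trans ?_ le_sup_right)) hN⟩
    rw [Ideal.span_le]
    rintro y ⟨e, c, hc, b, hb, z, hz, rfl⟩
    have h1 : z = ∑ t ∈ Finset.range i, (⟨(τ ^ j) (((τ ^ j) ^ t) c) - ((τ ^ j) ^ t) c,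
        B.sub_mem (hτj _ (iter_mem' _ hτj t c c.2)) (iter_mem' _ hτj t c c.2)⟩ : B) := by
      apply Subtype.ext
      rw [hz]
      change τ (c : K) - c = B.val _
      rw [map_sum]
      conv_lhs => rw [← hji]
      exact tele (τ ^ j) i c
    have h2 : ∀ t, (⟨((τ ^ j) ^ t) c, iter_mem' _ hτj t c c.2⟩ : B) ∈ F e := by
      intro t
      have h3 := NWC.stab τ h hτ (j * t) e c hc
      have h4 : (⟨(τ ^ (j * t)) c, iter_mem' τ hτ (j * t) c c.2⟩ : B) =
          ⟨((τ ^ j) ^ t) c, iter_mem' _ hτj t c c.2⟩ := by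
        apply Subtype.ext
        change (τ ^ (j * t)) (c : K) = ((τ ^ j) ^ t) (c : K)
        rw [pow_mul]
      rwa [h4] at h3
    rw [h1, Finset.mul_sum]
    exact Ideal.sum_mem _ fun t _ => Ideal.subset_span
      ⟨e, ⟨_, iter_mem' _ hτj t c c.2⟩, h2 t, b, hb, _, rfl, rfl⟩

/-- The automorphism of a stable subalgebra. -/
def resE (γ : K ≃ₐ[k] K) (h : ∀ x ∈ B, γ x ∈ B) (h' : ∀ x ∈ B, γ.symm x ∈ B) : B ≃ₐ[k] B where
  toFun x := ⟨γ x, h x x.2⟩
  invFun x := ⟨γ.symm x, h' x x.2⟩
  left_inv x := Subtype.ext (γ.symm_apply_apply x)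
  right_inv x := Subtype.ext (γ.apply_symm_apply x)
  map_mul' _ _ := Subtype.ext (map_mul γ _ _)
  map_add' _ _ := Subtype.ext (map_add γ _ _)
  commutes' r := Subtype.ext (γ.commutes r)

/-- Conjugation. -/
theorem NWC.conj {l : ℕ} {F : ℕ → Ideal B} (h : NWC B (fun x => τ x - x) l F)
    (γ : K ≃ₐ[k] K) (hγ : ∀ x ∈ B, γ x ∈ B) (hγ' : ∀ x ∈ B, γ.symm x ∈ B) (τ' : K ≃ₐ[k] K)
    (hτ' : ∀ x, τ' (γ x) = γ (τ x)) :
    NWC B (fun x => τ' x - x) l
      (fun d => (F d).comap ((resE γ hγ hγ').symm : B →+* B)) := by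
  have hs : ∀ x, γ.symm (τ' x) = τ (γ.symm x) := by
    intro x
    have h1 := hτ' (γ.symm x)
    rw [γ.apply_symm_apply] at h1
    rw [h1, γ.symm_apply_apply]
  have hmem : ∀ (d : ℕ) (a : B), a ∈ F d → (resE γ hγ hγ') a ∈
      (F d).comap ((resE γ hγ hγ').symm : B →+* B) := by
    intro d a ha
    rw [Ideal.mem_comap]
    change (resE γ hγ hγ').symm ((resE γ hγ hγ') a) ∈ F d
    rwa [AlgEquiv.symm_apply_apply]
  refine ⟨rwc_comap (resE γ hγ hγ').symm h.centre, fun d a ha y hy => ?_, ?_, fun d hd a ha => ?_⟩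
  · rw [Ideal.mem_comap] at ha ⊢
    refine h.raise d _ ha _ ?_
    change γ.symm (y : K) = τ (γ.symm (a : K)) - γ.symm (a : K)
    rw [hy, map_sub, hs]
  · intro a ha
    have ha' : (resE γ hγ hγ').symm a ∈ F 1 := ha
    obtain ⟨n, hn⟩ := h.zeros ha'
    refine ⟨n, ?_⟩
    have h1 : ∀ y ∈ zI B (fun x => τ x - x), (resE γ hγ hγ') y ∈ zI B (fun x => τ' x - x) := by
      intro y hy
      unfold zI at hy ⊢
      have h2 := Ideal.mem_map_of_mem ((resE γ hγ hγ' : B ≃ₐ[k] B) : B →+* B) hy
      rw [Ideal.map_span] at h2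
      refine Ideal.span_mono ?_ h2
      rintro _ ⟨y, ⟨b, hb⟩, rfl⟩
      refine ⟨(resE γ hγ hγ') b, ?_⟩
      change γ (y : K) = τ' (γ (b : K)) - γ (b : K)
      rw [hb, hτ']
      exact map_sub γ _ _
    have h2 := h1 _ hn
    rwa [map_pow, AlgEquiv.apply_symm_apply] at h2
  · have ha' : (resE γ hγ hγ').symm a ∈ F d := ha
    obtain ⟨N, hN⟩ := h.lead d hd _ ha'
    refine ⟨N, ?_⟩
    have h2 := Ideal.mem_map_of_mem ((resE γ hγ hγ' : B ≃ₐ[k] B) : B →+* B) hN
    have h3 : ((resE γ hγ hγ' : B ≃ₐ[k] B) : B →+* B) ((resE γ hγ hγ').symm a ^ N) = a ^ N := by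
      change (resE γ hγ hγ') ((resE γ hγ hγ').symm a ^ N) = a ^ N
      rw [map_pow, AlgEquiv.apply_symm_apply]
    rw [h3, Ideal.map_sup, Ideal.map_span] at h2
    refine SetLike.le_def.1 (sup_le (le_trans ?_ le_sup_left) (le_trans (Ideal.span_mono ?_)
      le_sup_right)) h2
    · rw [Ideal.map_le_iff_le_comap]
      exact fun x hx => hmem _ x hx
    · rintro _ ⟨y, ⟨e, c, hc, b, hb, z, hz, rfl⟩, rfl⟩
      refine ⟨e, (resE γ hγ hγ') c, hmem e c hc, (resE γ hγ hγ') b, hmem _ b hb,
        (resE γ hγ hγ') z, ?_, map_mul _ _ _⟩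
      change γ (z : K) = τ' (γ (c : K)) - γ (c : K)
      rw [hz, hτ']
      exact map_sub γ _ _

end nwc

end Pool.Agent.U197.GQ
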