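import Pool.Agent.U197.GQ.E2
import Pool.Agent.U197.GQ.N2

/-!
Vector fields: neighbourhoods and glueing.
-/

set_option autoImplicit false
set_option linter.unusedSectionVars false

namespace Pool.Agent.U197.GQ

open AlgebraicGeometry CategoryTheory
open Pool.Agent.W559.Mg Pool.Agent.W559.Et Pool.Agent.H920R2 Pool.Agent.U197.SF
open Pool.Agent.H519R3.RS Pool.Agent.N98.PJ
open KaehlerDifferential TensorProduct

section der

variable {k S : Type} [Field k] [CommRing S] [IsDomain S] [Algebra k S]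
  (E : Derivation k (FractionRing S) (FractionRing S))

lemma der_mul {c : FractionRing S} (hc : E c = 0) (n : ℕ) (x : FractionRing S) :
    E (c ^ n * x) = c ^ n * E x := by
  rw [Derivation.leibniz, Derivation.leibniz_pow, hc]
  simp

variable {E} (hreg : ∀ s : S, ∃ t : S, E (ev k S s) = ev k S t)

include hreg in
lemma der_Cz {f : S} (f0 : f ≠ 0) (hf : E (ev k S f) = 0) :
    ∀ x ∈ (Cz f0 : Subalgebra k (FractionRing S)),
      E x ∈ (Cz f0 : Subalgebra k (FractionRing S)) := by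
  rintro _ ⟨N, s, rfl⟩
  obtain ⟨t, ht⟩ := hreg s
  have hf1 : ev k S f ≠ 0 := ev_ne f0
  refine ⟨N, t, ?_⟩
  have h1 := der_mul E hf N (ev k S s / ev k S f ^ N)
  rw [mul_div_cancel₀ _ (pow_ne_zero N hf1), ht] at h1
  rw [h1]
  field_simp

variable (E) in
/-- The affine neighbourhoods given by constants. -/
def InvD (P : Ideal S) (R : Subalgebra k (FractionRing S)) : Prop :=
  ∃ (f : S) (f0 : f ≠ 0), E (ev k S f) = 0 ∧ f ∉ P ∧ R = Cz f0

variable {P : Ideal S} [hP : P.IsPrime]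

include hreg in
theorem chartFamD [Algebra.Smooth k S] : ChartFamD (lrA k P) E (InvD E P) where
  le := by
    rintro R ⟨f, f0, hσf, hf, rfl⟩ _ ⟨N, s, rfl⟩
    exact ⟨s, f ^ N, fun h => hf (hP.mem_of_pow_mem _ h), by rw [map_pow]⟩
  sm := by
    rintro R ⟨f, f0, hσf, hf, rfl⟩
    exact smooth_CzA f0
  st := by
    rintro R ⟨f, f0, hσf, hf, rfl⟩
    exact der_Cz hreg f0 hσf
  loc := by
    rintro R ⟨f, f0, hσf, hf, rfl⟩ g hg hτ hg0 hgO
    have hg' := hg
    obtain ⟨N, s, rfl⟩ := hg'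
    have hf1 := ev_ne (k := k) f0
    have hs0 : s ≠ 0 := by
      rintro rfl
      rw [map_zero, zero_div] at hg0
      exact hg0 rfl
    have hσs : E (ev k S s) = 0 := by
      have h1 := der_mul E hσf N (ev k S s / ev k S f ^ N)
      rwa [mul_div_cancel₀ _ (pow_ne_zero N hf1), hτ, mul_zero] at h1
    have hsP : s ∉ P := by
      have hfN : f ^ N ∉ P := fun h => hf (hP.mem_of_pow_mem _ h)
      refine inv_mem_A (k := k) P hfN hs0 ?_
      rwa [map_pow]
    refine ⟨f * s, mul_ne_zero f0 hs0, ?_,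
      fun h => (hP.mem_or_mem h).elim hf hsP, locAt_Cz f0 N hs0 hg⟩
    rw [map_mul, Derivation.leibniz, hσf, hσs, smul_zero, smul_zero, add_zero]
  frac := by
    rintro R ⟨f, f0, hσf, hf, rfl⟩ _ ⟨s, t, ht, rfl⟩
    have ht0 := ev_ne (k := k) (neA ht)
    refine ⟨ev k S t, ev_mem_Cz f0 t, ht0, ⟨1, t, ht, by rw [map_one, one_div]⟩, ?_⟩
    rw [div_mul_cancel₀ _ ht0]
    exact ev_mem_Cz f0 s
  nonempty := ⟨_, 1, one_ne_zero, by rw [map_one, Derivation.map_one_eq_zero],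
    (Ideal.ne_top_iff_one P).1 hP.ne_top, rfl⟩

variable (E) in
/-- Weighted coordinates in the local ring of a point which are adapted to the vector field. -/
def LocVF (P : Ideal S) [P.IsPrime] : Prop :=
  ∃ (n : ℕ) (y : Fin n → FractionRing S) (w : Fin n → ℕ) (l : ℕ) (hy : ∀ i, y i ∈ lrA k P),
    0 < l ∧ (∃ b : Module.Basis (Fin n) (lrA k P) (Ω[lrA k P⁄k]),
      ∀ i, b i = KaehlerDifferential.D k (lrA k P) ⟨y i, hy i⟩) ∧
    NDk y w (fun z => E z) l (lrA k P)

variable (E) in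
/-- A nondegenerate weighted centre on a neighbourhood. -/
def NiceD (f : S) : Prop :=
  ∃ (f0 : f ≠ 0) (l : ℕ) (F : ℕ → Ideal (Cz f0 : Subalgebra k (FractionRing S))),
    E (ev k S f) = 0 ∧ 0 < l ∧ NWC (Cz f0 : Subalgebra k (FractionRing S)) (fun x => E x) l F

include hreg in
theorem niceD_of_local [Algebra.Smooth k S] {p : ℕ} (hp : 0 < p) (hpk : (p : k) = 0)
    (h : LocVF E P) : ∃ f, NiceD E f ∧ f ∉ P := by
  obtain ⟨n, y, w, l, hy, hl, hyΩ, hnd⟩ := h
  obtain ⟨R, hR, hyR, het, hndR⟩ := spreadD (chartFamD (P := P) hreg) hp hpk hy hyΩ hnd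
  have hst := (chartFamD (k := k) (P := P) hreg).st R hR
  obtain ⟨f, f0, hσf, hf, rfl⟩ := hR
  exact ⟨f, ⟨f0, l, _, hσf, hl, nwc_of_ndk hyR hst
      (fun a b => map_add E a b) (fun a b => ⟨0, by
        change E (a * b) = a * E b + b * E a + (0 : k) • (E a * E b)
        rw [Derivation.leibniz, zero_smul, add_zero, smul_eq_mul, smul_eq_mul]⟩) hndR het⟩, hf⟩

include hreg in
/-- Gluing of the local centres. -/
theorem gluedD [Algebra.Smooth k S] {p : ℕ} (hp : 0 < p) (hpk : (p : k) = 0)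
    (hpt : ∀ P : Ideal S, P.IsPrime → (∀ s t : S, E (ev k S s) = ev k S t → t ∈ P) →
      ∃ f, NiceD E f ∧ f ∉ P) :
    ∃ l, 0 < l ∧ ∃ F, NWC (Cz (one_ne_zero : (1 : S) ≠ 0) : Subalgebra k (FractionRing S))
      (fun x => E x) l F := by
  classical
  let X : Set S := {y | NiceD E y} ∪ {y | ∃ s, E (ev k S s) = ev k S y}
  obtain ⟨Y, hYX, hYcov⟩ := exists_fin_cover X fun P hP => by
    by_cases hx : ∀ s t : S, E (ev k S s) = ev k S t → t ∈ P
    · obtain ⟨y, hy, hyP⟩ := hpt P hP hx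
      exact ⟨y, Or.inl hy, hyP⟩
    · push Not at hx
      obtain ⟨s, t, hs, ht⟩ := hx
      exact ⟨t, Or.inr ⟨s, hs⟩, ht⟩
  let ι : Type := {y : Y // NiceD E (y : S)}
  have hι : ∀ a : ι, NiceD E ((a : Y) : S) := fun a => a.2
  choose za0 la Fa hσa hla hHa using hι
  have _ : Fintype ι := Fintype.ofFinite ι
  let L : ℕ := ∏ a, la a
  have hL : 0 < L := Finset.prod_pos fun a _ => hla a
  have hF' : ∀ a, ∃ F', NWC (Cz (za0 a) : Subalgebra k (FractionRing S))
      (fun x => E x) L F' := by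
    intro a
    obtain ⟨c, hc⟩ : la a ∣ L := Finset.dvd_prod_of_mem la (Finset.mem_univ a)
    obtain ⟨q, rfl⟩ : ∃ q, c = q + 1 := by
      refine ⟨c - 1, ?_⟩
      have : c ≠ 0 := by
        rintro rfl
        rw [mul_zero] at hc
        omega
      omega
    rw [hc, mul_comm]
    exact ⟨_, (hHa a).scale q⟩
  choose F hN using hF'
  have hsm1 : Algebra.Smooth k (Cz (one_ne_zero : (1 : S) ≠ 0) :
      Subalgebra k (FractionRing S)) := smooth_CzA _
  have hsm : ∀ a, Algebra.Smooth k (Cz (za0 a) : Subalgebra k (FractionRing S)) := fun a =>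
    smooth_CzA (za0 a)
  have hE1 : E (ev k S 1) = 0 := by rw [map_one, Derivation.map_one_eq_zero]
  have hG : GDat k (one_ne_zero : (1 : S) ≠ 0) za0 (fun x => E x) :=
    ⟨der_Cz hreg _ hE1, fun a => der_Cz hreg _ (hσa a), fun n x => der_mul E hE1 n x,
      fun a n x => der_mul E (hσa a) n x⟩
  have hcov : ∀ P : Ideal (Cz (one_ne_zero : (1 : S) ≠ 0) : Subalgebra k (FractionRing S)),
      P.IsPrime →
      zI (Cz (one_ne_zero : (1 : S) ≠ 0) : Subalgebra k (FractionRing S)) (fun x => E x) ≤ P →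
      ∃ a : ι, (⟨ev k S ((a : Y) : S), ev_mem_Cz _ _⟩ :
        (Cz (one_ne_zero : (1 : S) ≠ 0) : Subalgebra k (FractionRing S))) ∉ P := by
    intro P hP hle
    let j : S →+* (Cz (one_ne_zero : (1 : S) ≠ 0) : Subalgebra k (FractionRing S)) :=
      (ev k S : S →+* FractionRing S).codRestrict
        (Cz (one_ne_zero : (1 : S) ≠ 0) : Subalgebra k (FractionRing S)).toSubring
        fun s => ev_mem_Cz (one_ne_zero : (1 : S) ≠ 0) s
    have hQ : (P.comap j).IsPrime := Ideal.comap_isPrime _ _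
    obtain ⟨y, hyY, hyx⟩ := hYcov _ hQ
    rcases hYX hyY with hy | ⟨s, hs⟩
    · exact ⟨⟨⟨y, hyY⟩, hy⟩, hyx⟩
    · refine absurd (hle ?_) hyx
      refine Ideal.subset_span ⟨j s, ?_⟩
      exact hs.symm
  refine ⟨L, hL, GF one_ne_zero (fun a : ι => ((a : Y) : S)) za0 F,
    GF_rwcD hG hL hN hsm hcov hp hpk, ?_, GF_zerosD hG hN hcov, ?_⟩
  · intro d y hy y' h
    exact GF_raiseD hG hN hy y' h
  · intro d hd y hy
    exact GF_leadD hG hL hN hsm hcov d y hy hd

end der

end Pool.Agent.U197.GQ
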