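import Pool.Agent.U197.GQ.E3

/-!
Vector fields: resolution of the quotient.
-/

set_option autoImplicit false
set_option linter.unusedSectionVars false

namespace Pool.Agent.U197.GQ

open AlgebraicGeometry CategoryTheory
open Pool.Agent.W559.Mg Pool.Agent.W559.Et Pool.Agent.H920R2 Pool.Agent.U197.SF
open Pool.Agent.H519R3.RS Pool.Agent.N98.PJ

section der

variable {k S : Type} [Field k] [CommRing S] [IsDomain S] [Algebra k S]
  {E : Derivation k (FractionRing S) (FractionRing S)}
  (hreg : ∀ s : S, ∃ t : S, E (ev k S s) = ev k S t)

/-- The values of the vector field on functions. -/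
noncomputable def fS (s : S) : S := (hreg s).choose

lemma fS_spec (s : S) : ev k S (fS hreg s) = E (ev k S s) := (hreg s).choose_spec.symm

/-- The restriction of the vector field to the ring of functions. -/
noncomputable def resD : Derivation k S S :=
  Derivation.mk'
    { toFun := fS hreg
      map_add' := fun s t => by
        apply ev_inj (k := k)
        rw [fS_spec, map_add, map_add, map_add, fS_spec, fS_spec]
      map_smul' := fun r s => by
        apply ev_inj (k := k)
        have h1 : ev k S (r • s) = r • ev k S s := map_smul (ev k S) r s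
        have h2 : ev k S (r • fS hreg s) = r • ev k S (fS hreg s) := map_smul (ev k S) r _
        rw [fS_spec, h1, RingHom.id_apply, h2, fS_spec]
        exact E.toLinearMap.map_smul r (ev k S s) }
    (fun s t => by
      apply ev_inj (k := k)
      change ev k S (fS hreg (s * t)) = ev k S (s * fS hreg t + t * fS hreg s)
      rw [fS_spec, map_mul, Derivation.leibniz, map_add, map_mul, map_mul, fS_spec, fS_spec]
      rfl)

lemma ev_resD (s : S) : ev k S (resD hreg s) = E (ev k S s) := fS_spec hreg s

lemma ev_resD_iter (n : ℕ) (s : S) : ev k S ((resD hreg)^[n] s) = E^[n] (ev k S s) := by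
  induction n with
  | zero => rfl
  | succ n ih => rw [Function.iterate_succ_apply', Function.iterate_succ_apply', ev_resD, ih]

include hreg in
/-- **Resolution of the quotients by vector fields.** -/
theorem resVF [Algebra.Smooth k S] {p : ℕ} (hp : p.Prime) (hpk : (p : k) = 0) (hE : E ≠ 0)
    (hcl : ∃ c : FractionRing S, ∀ x, E^[p] x = c * E x)
    (hpt : ∀ (P : Ideal S) [P.IsMaximal], (∀ s t : S, E (ev k S s) = ev k S t → t ∈ P) →
      LocVF E P)
    (C : Subalgebra k S) (hC : ∀ s, s ∈ C ↔ E (ev k S s) = 0) :
    IsVariety (X := Spec (CommRingCat.of C))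
      (Spec.map (CommRingCat.ofHom (algebraMap k C))) ∧
    HasResolution (X := Spec (CommRingCat.of C))
      (Spec.map (CommRingCat.ofHom (algebraMap k C))) := by
  obtain ⟨l, hl, F, hN⟩ := gluedD hreg hp.pos hpk fun P hP h => by
    obtain ⟨M, hM, hle⟩ := Ideal.exists_le_maximal P hP.ne_top
    have _ := hM
    obtain ⟨f, hf, hfM⟩ := niceD_of_local (P := M) hreg hp.pos hpk
      (hpt M fun s t hst => hle (h s t hst))
    exact ⟨f, hf, fun h => hfM (hle h)⟩
  obtain ⟨c, hc⟩ := hcl
  let e : S ≃ₐ[k] (Cz (one_ne_zero : (1 : S) ≠ 0) : Subalgebra k (FractionRing S)) := eOne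
  let FB : ℕ → Ideal S := fun d => (F d).comap (e : S →+* _)
  have hcB : RegularWeightedCentre k FB := rwc_comap e hN.centre
  have hF : IsFilt FB := RegularWeightedCentre.isFilt hcB
  have hraise : ∀ d, ∀ a ∈ FB d, resD hreg a ∈ FB (d + l) := by
    intro d a ha
    change e (resD hreg a) ∈ F (d + l)
    refine hN.raise d (e a) ha _ ?_
    exact ev_resD hreg a
  have hne0 : ∃ s, resD hreg s ≠ 0 := by
    by_contra hcon
    push Not at hcon
    apply hE
    ext x
    obtain ⟨s, t, ht, rfl⟩ := IsFractionRing.div_surjective (A := S) x
    have ht0 : ev k S t ≠ 0 := ev_ne (nonZeroDivisors.ne_zero ht)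
    have h1 : ∀ s, E (ev k S s) = 0 := fun s => by rw [← ev_resD hreg, hcon, map_zero]
    have h2 := der_mul E (h1 t) 1 (ev k S s / ev k S t)
    rw [pow_one, mul_div_cancel₀ _ ht0, h1] at h2
    rw [Derivation.zero_apply]
    exact (mul_eq_zero.1 h2.symm).resolve_left ht0
  obtain ⟨h1, h2⟩ := good_inv_der' hp hpk (resD hreg) c (fun b => by
      change ev k S ((resD hreg)^[p] b) = c * ev k S (resD hreg b)
      rw [ev_resD_iter, hc, ev_resD]) hF (good_of_centre hF hcB) (l := l) (by
      obtain ⟨s, hs⟩ := hne0
      intro hbot
      have h3 := hraise 0 s (by rw [hF.zero]; trivial)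
      have h4 := hF.anti 1 (0 + l) (by omega) h3
      rw [hbot, Ideal.mem_bot] at h4
      exact hs h4) hraise (by
      intro P hP h3 a ha
      obtain ⟨M, hM⟩ := hN.zeros (show e a ∈ F 1 from ha)
      have h4 : zI (Cz (one_ne_zero : (1 : S) ≠ 0) : Subalgebra k (FractionRing S))
          (fun x => E x) ≤ P.comap (e.symm : _ →+* S) := by
        unfold zI
        rw [Ideal.span_le]
        rintro y ⟨b, hb⟩
        change e.symm y ∈ P
        have h5 : e.symm y = resD hreg (e.symm b) := by
          rw [AlgEquiv.symm_apply_eq]
          apply Subtype.ext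
          change (y : FractionRing S) = ev k S (resD hreg (e.symm b))
          rw [ev_resD, hb]
          congr 1
          change (b : FractionRing S) = (e (e.symm b) : FractionRing S)
          rw [AlgEquiv.apply_symm_apply]
        rw [h5]
        exact h3 _
      have h5 := h4 hM
      change e.symm (e a ^ M) ∈ P at h5
      rw [map_pow, AlgEquiv.symm_apply_apply] at h5
      exact hP.mem_of_pow_mem _ h5) (by
      intro d hd a ha
      obtain ⟨N, hNN⟩ := hN.lead d hd (e a) ha
      refine ⟨N, ?_⟩
      have h4 : F (N * d + 1) ⊔ Ideal.span {y | ∃ e', ∃ c ∈ F e', ∃ b ∈ F (N * d - (e' + l)),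
          ∃ z : (Cz (one_ne_zero : (1 : S) ≠ 0) : Subalgebra k (FractionRing S)),
            (z : FractionRing S) = E c ∧ y = b * z} ≤
          (leadI (fun c => resD hreg c) FB l (N * d)).comap (e.symm : _ →+* S) := by
        refine sup_le ?_ ?_
        · intro x hx
          refine Ideal.mem_sup_left ?_
          change e (e.symm x) ∈ F (N * d + 1)
          rw [AlgEquiv.apply_symm_apply]
          exact hx
        · rw [Ideal.span_le]
          rintro y ⟨e', c', hc', b, hb, z, hz, rfl⟩
          refine Ideal.mem_sup_right (Ideal.subset_span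
            ⟨e', e.symm c', ?_, e.symm b, ?_, ?_⟩)
          · change e (e.symm c') ∈ F e'
            rw [AlgEquiv.apply_symm_apply]
            exact hc'
          · change e (e.symm b) ∈ F (N * d - (e' + l))
            rw [AlgEquiv.apply_symm_apply]
            exact hb
          · change e.symm (b * z) = e.symm b * resD hreg (e.symm c')
            rw [map_mul]
            congr 1
            rw [AlgEquiv.symm_apply_eq]
            apply Subtype.ext
            change (z : FractionRing S) = ev k S (resD hreg (e.symm c'))
            rw [ev_resD, hz]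
            congr 1
            change (c' : FractionRing S) = (e (e.symm c') : FractionRing S)
            rw [AlgEquiv.apply_symm_apply]
      have h5 := h4 hNN
      change e.symm (e a ^ N) ∈ leadI (fun c => resD hreg c) FB l (N * d) at h5
      rwa [map_pow, AlgEquiv.symm_apply_apply] at h5) C (fun b => by
      rw [hC, ← ev_resD hreg, map_eq_zero_iff _ (ev_inj (k := k))])
  exact concl hF h1 h2

end der

end Pool.Agent.U197.GQ
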