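import Pool.Agent.U197.GQ.E4

/-!
Vector fields: isolated zeros.
-/

set_option autoImplicit false
set_option linter.unusedSectionVars false

namespace Pool.Agent.U197.GQ

open AlgebraicGeometry CategoryTheory
open Pool.Agent.W559.Mg Pool.Agent.W559.Et Pool.Agent.H920R2 Pool.Agent.U197.SF
open Pool.Agent.H519R3.RS Pool.Agent.N98.PJ

section iso

variable {k K : Type} [Field k] [Field K] [Algebra k K] {O : Subalgebra k K} [IsLocalRing O]
  {E : Derivation k K K} (hE : ∀ x ∈ O, E x ∈ O)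

/-- The vector field on the local ring. -/
def dE (hE : ∀ x ∈ O, E x ∈ O) (a : O) : O := ⟨E a, hE a a.2⟩

/-- Isolated zeros with nondegenerate leading forms. -/
theorem ndk_isoD [IsNoetherianRing O] {n : ℕ} (y : Fin n → O) (w : Fin n → ℕ) {l : ℕ} (hl : 0 < l)
    (hw : ∀ i, 0 < w i)
    (hrat : ∀ a : O, ∃ c : k, a - algebraMap k O c ∈ IsLocalRing.maximalIdeal O)
    (hgen : Ideal.span (Set.range y) = IsLocalRing.maximalIdeal O)
    (hord : ∀ i, dE hE (y i) ∈ monoF y w (w i + l))
    (hlead : ∀ i, ∃ N : ℕ, y i ^ N ∈ monoF y w (N * w i + 1) ⊔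
      Ideal.span {c | ∃ j, ∃ b ∈ monoF y w (N * w i - (w j + l)), c = b * dE hE (y j)}) :
    NDk (fun i => (y i : K)) w (fun z => E z) l O := by
  have hadd : ∀ a b, dE hE (a + b) = dE hE a + dE hE b := by
    intro a b
    apply Subtype.ext
    exact map_add E (a : K) (b : K)
  have hmul : ∀ a b, ∃ c, dE hE (a * b) = a * dE hE b + b * dE hE a +
      c * (dE hE a * dE hE b) := by
    intro a b
    refine ⟨0, Subtype.ext ?_⟩
    change E ((a : K) * b) = a * E (b : K) + b * E (a : K) + 0 * (E (a : K) * E (b : K))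
    rw [Derivation.leibniz, zero_mul, add_zero, smul_eq_mul, smul_eq_mul]
  have hconst : ∀ c : k, dE hE (algebraMap k O c) = 0 := by
    intro c
    apply Subtype.ext
    exact E.map_algebraMap c
  have h1 := order_all y w hrat hgen hw hadd hmul hconst hord hl
  refine ndk_of_ring (δ := fun z => E z) hE y w h1 hord
    (fun i _ => ?_) (fun i _ => ?_)
  · refine zeros_all y w hgen hw (zI O fun z => E z) (fun i => ?_) i
    obtain ⟨N, hN⟩ := hlead i
    refine ⟨N, SetLike.le_def.1 (sup_le le_sup_left (le_trans ?_ le_sup_right)) hN⟩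
    rw [Ideal.span_le]
    rintro _ ⟨j, b, -, rfl⟩
    exact Ideal.mul_mem_left _ _ (Ideal.subset_span ⟨y j, rfl⟩)
  · obtain ⟨N, hN⟩ := hlead i
    refine ⟨N, SetLike.le_def.1 (sup_le le_sup_left (le_trans (Ideal.span_mono ?_) le_sup_right)) hN⟩
    rintro _ ⟨j, b, hb, rfl⟩
    exact ⟨w j, y j, coord_mem y w j, b, hb, rfl⟩

end iso

section der

variable {k S : Type} [Field k] [CommRing S] [IsDomain S] [Algebra k S]
  {E : Derivation k (FractionRing S) (FractionRing S)}
  (hreg : ∀ s : S, ∃ t : S, E (ev k S s) = ev k S t) {P : Ideal S} [hP : P.IsPrime]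

include hreg in
lemma der_lrA : ∀ y ∈ lrA k P, E y ∈ lrA k P := by
  rintro _ ⟨s, t, ht, rfl⟩
  obtain ⟨s', hs'⟩ := hreg s
  obtain ⟨t', ht'⟩ := hreg t
  have ht0 : ev k S t ≠ 0 := ev_ne (neA ht)
  refine ⟨t * s' - s * t', t * t, fun h => (hP.mem_or_mem h).elim ht ht, ?_⟩
  have h1 : E (ev k S t * (ev k S s / ev k S t)) = ev k S s' := by
    rw [mul_div_cancel₀ _ ht0, hs']
  rw [Derivation.leibniz, smul_eq_mul, smul_eq_mul, ht'] at h1
  rw [map_sub, map_mul, map_mul, map_mul, eq_div_iff (mul_ne_zero ht0 ht0)]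
  have h2 : ev k S s / ev k S t * ev k S t = ev k S s := div_mul_cancel₀ _ ht0
  linear_combination (ev k S t) * h1 - (ev k S t') * h2

end der

end Pool.Agent.U197.GQ
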