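import Pool.Agent.U197.GQ.E5
import Pool.Agent.H519R3.RS.LUS

/-!
Vector fields: local uniformization of the local rings of the quotient.
-/

set_option autoImplicit false
set_option linter.unusedSectionVars false

namespace Pool.Agent.U197.GQ

open AlgebraicGeometry CategoryTheory
open Pool.Agent.W559.Mg Pool.Agent.W559.Et Pool.Agent.H920R2 Pool.Agent.U197.SF
open Pool.Agent.H519R3.RS Pool.Agent.N98.PJ

section lu

variable {k S : Type} [Field k] [CommRing S] [IsDomain S] [Algebra k S]
  {E : Derivation k (FractionRing S) (FractionRing S)}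
  (hreg : ∀ s : S, ∃ t : S, E (ev k S s) = ev k S t)

/-- The points which are not zeros. -/
theorem niceD_of_unit {p : ℕ} (hp : p ≠ 0) (hpk : (p : k) = 0) {s t : S}
    (hst : E (ev k S s) = ev k S t) {P : Ideal S} [hP : P.IsPrime] (ht : t ∉ P) :
    ∃ f, NiceD E f ∧ f ∉ P := by
  have ht0 : ev k S t ≠ 0 := ev_ne (neA ht)
  have hpK : ((p : ℕ) : FractionRing S) = 0 := by
    rw [← map_natCast (algebraMap k (FractionRing S)), hpk, map_zero]
  refine ⟨t ^ p, ⟨pow_ne_zero p (neA ht), 1, fun _ => ⊤, ?_, one_pos, ?_⟩,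
    fun h => ht (hP.mem_of_pow_mem _ h)⟩
  · rw [map_pow, Derivation.leibniz_pow, nsmul_eq_mul, hpK, zero_mul]
  · refine ⟨⟨rfl, fun _ _ _ => le_rfl, fun _ _ => le_top, fun Q hQ hQ1 =>
      absurd (top_le_iff.1 hQ1) hQ.ne_top⟩, fun _ _ _ _ _ => trivial, ?_, fun _ _ _ _ =>
      ⟨0, Ideal.mem_sup_left trivial⟩⟩
    intro x _
    refine Ideal.le_radical ?_
    have h1 : (⟨ev k S t, ev_mem_Cz _ t⟩ :
        (Cz (pow_ne_zero p (neA ht)) : Subalgebra k (FractionRing S))) ∈
        zI (Cz (pow_ne_zero p (neA ht)) : Subalgebra k (FractionRing S)) (fun x => E x) :=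
      Ideal.subset_span ⟨⟨ev k S s, ev_mem_Cz _ s⟩, hst.symm⟩
    obtain ⟨q, rfl⟩ := Nat.exists_eq_succ_of_ne_zero hp
    have e1 : ev k S (t ^ q) = ev k S t ^ q := map_pow _ _ _
    have e2 : ev k S (t ^ q.succ) = ev k S t ^ (q + 1) := map_pow _ _ _
    have e3 : (ev k S (t ^ q) / ev k S (t ^ q.succ) ^ 1) * ev k S t = 1 := by
      rw [e1, e2, pow_one, pow_succ]
      field_simp
    have h2 : x = (x * ⟨ev k S (t ^ q) / ev k S (t ^ q.succ) ^ 1, ⟨1, t ^ q, rfl⟩⟩) *
        (⟨ev k S t, ev_mem_Cz _ t⟩ :
        (Cz (pow_ne_zero q.succ (neA ht)) : Subalgebra k (FractionRing S))) := by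
      apply Subtype.ext
      change (x : FractionRing S) = ((x : FractionRing S) *
        (ev k S (t ^ q) / ev k S (t ^ q.succ) ^ 1)) * ev k S t
      rw [mul_assoc, e3, mul_one]
    rw [h2]
    exact Ideal.mul_mem_left _ _ h1

/-- The vector field on a chart. -/
noncomputable def derC (C : Subalgebra k (FractionRing S)) (hC : ∀ x ∈ C, E x ∈ C) :
    Derivation k C C :=
  Derivation.mk'
    { toFun := fun x => ⟨E x, hC x x.2⟩
      map_add' := fun x y => Subtype.ext (map_add E (x : FractionRing S) y)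
      map_smul' := fun r x => Subtype.ext (E.toLinearMap.map_smul r (x : FractionRing S)) }
    (fun x y => Subtype.ext (E.leibniz (x : FractionRing S) y))

lemma derC_coe (C : Subalgebra k (FractionRing S)) (hC : ∀ x ∈ C, E x ∈ C) (x : C) :
    (derC C hC x : FractionRing S) = E x := rfl

lemma derC_iter (C : Subalgebra k (FractionRing S)) (hC : ∀ x ∈ C, E x ∈ C) (n : ℕ) (x : C) :
    ((derC C hC)^[n] x : FractionRing S) = E^[n] x := by
  induction n with
  | zero => rfl
  | succ n ih => rw [Function.iterate_succ_apply', Function.iterate_succ_apply', derC_coe, ih]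

include hreg in
/-- **Resolution of the quotient of a chart.** -/
theorem resChart [Algebra.Smooth k S] {p : ℕ} (hp : p.Prime) (hpk : (p : k) = 0) (hE : E ≠ 0)
    (hcl : ∃ c : FractionRing S, ∀ x, E^[p] x = c * E x) {f : S} (f0 : f ≠ 0)
    (hf : E (ev k S f) = 0) {l : ℕ} (hl : 0 < l)
    {F : ℕ → Ideal (Cz f0 : Subalgebra k (FractionRing S))}
    (hN : NWC (Cz f0 : Subalgebra k (FractionRing S)) (fun x => E x) l F)
    (C' : Subalgebra k (Cz f0 : Subalgebra k (FractionRing S)))
    (hC' : ∀ x, x ∈ C' ↔ E (x : FractionRing S) = 0) :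
    HasResolution (X := Spec (CommRingCat.of C'))
      (Spec.map (CommRingCat.ofHom (algebraMap k C'))) := by
  have hst := der_Cz hreg f0 hf
  have hF := RegularWeightedCentre.isFilt hN.centre
  have hsm : Algebra.Smooth k (Cz f0 : Subalgebra k (FractionRing S)) := smooth_CzA f0
  obtain ⟨b0, hb0⟩ : ∃ b, derC _ hst b ≠ 0 := by
    by_contra hcon
    push Not at hcon
    apply hE
    ext x
    obtain ⟨s, t, ht, rfl⟩ := IsFractionRing.div_surjective (A := S) x
    have ht0 : ev k S t ≠ 0 := ev_ne (nonZeroDivisors.ne_zero ht)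
    have h1 : ∀ s, E (ev k S s) = 0 := fun s =>
      congrArg Subtype.val (hcon ⟨ev k S s, ev_mem_Cz f0 s⟩)
    have h2 := der_mul E (h1 t) 1 (ev k S s / ev k S t)
    rw [pow_one, mul_div_cancel₀ _ ht0, h1] at h2
    rw [Derivation.zero_apply]
    exact (mul_eq_zero.1 h2.symm).resolve_left ht0
  obtain ⟨c, hc⟩ := hcl
  have hcl' : ∀ b, (derC _ hst)^[p] b * derC _ hst b0 = (derC _ hst)^[p] b0 * derC _ hst b := by
    intro b
    apply Subtype.ext
    change ((derC _ hst)^[p] b : FractionRing S) * (derC _ hst b0 : FractionRing S) =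
      ((derC _ hst)^[p] b0 : FractionRing S) * (derC _ hst b : FractionRing S)
    rw [derC_iter, derC_iter, derC_coe, derC_coe, hc, hc]
    ring
  have hinj := IsFractionRing.injective (Cz f0 : Subalgebra k (FractionRing S))
    (FractionRing (Cz f0 : Subalgebra k (FractionRing S)))
  have hb1 : algebraMap _ (FractionRing (Cz f0 : Subalgebra k (FractionRing S)))
      (derC _ hst b0) ≠ 0 := fun h => hb0 ((map_eq_zero_iff _ hinj).1 h)
  obtain ⟨h1, h2⟩ := good_inv_der' hp hpk (derC _ hst)
    (algebraMap _ (FractionRing (Cz f0 : Subalgebra k (FractionRing S)))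
      ((derC _ hst)^[p] b0) / algebraMap _ _ (derC _ hst b0)) (fun b => by
      rw [div_mul_eq_mul_div, eq_div_iff hb1, ← map_mul, ← map_mul, hcl' b]) hF
    (good_of_centre hF hN.centre) (l := l) (by
      intro hbot
      have h3 := hN.raise 0 b0 (by rw [hF.zero]; trivial) (derC _ hst b0) rfl
      have h4 := hF.anti 1 (0 + l) (by omega) h3
      rw [hbot, Ideal.mem_bot] at h4
      exact hb0 h4) (fun d a ha => hN.raise d a ha _ rfl) (by
      intro P hP h3
      refine hN.zeros.trans (hP.radical_le_iff.2 ?_)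
      refine Ideal.span_le.2 ?_
      rintro y ⟨b, hb⟩
      have := h3 b
      rwa [show y = derC _ hst b from Subtype.ext hb]) (by
      intro d hd a ha
      obtain ⟨N, hNN⟩ := hN.lead d hd a ha
      refine ⟨N, ?_⟩
      refine SetLike.le_def.1 (sup_le le_sup_left (le_trans (Ideal.span_mono ?_) le_sup_right)) hNN
      rintro y ⟨e, c', hc', b, hb, z, hz, rfl⟩
      refine ⟨e, c', hc', b, hb, ?_⟩
      congr 1
      exact Subtype.ext hz) C' (fun b => by
      rw [hC']
      exact ⟨fun h => Subtype.ext h, fun h => congrArg Subtype.val h⟩)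
  exact (concl hF h1 h2).2

/-- The constants on a chart. -/
noncomputable def constC (E : Derivation k (FractionRing S) (FractionRing S))
    (C : Subalgebra k (FractionRing S)) : Subalgebra k C where
  carrier := {x | E (x : FractionRing S) = 0}
  mul_mem' := by
    intro a b ha hb
    change E (a : FractionRing S) = 0 at ha
    change E (b : FractionRing S) = 0 at hb
    change E ((a : FractionRing S) * b) = 0
    rw [Derivation.leibniz, ha, hb, smul_zero, smul_zero, add_zero]
  add_mem' := by
    intro a b ha hb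
    change E (a : FractionRing S) = 0 at ha
    change E (b : FractionRing S) = 0 at hb
    change E ((a : FractionRing S) + b) = 0
    rw [map_add, ha, hb, add_zero]
  algebraMap_mem' := fun r => E.map_algebraMap r

/-- The map of the constants to the constants on the neighbourhood. -/
noncomputable def phiD (A : Subalgebra k S) (hA : ∀ s, s ∈ A ↔ E (ev k S s) = 0) {f : S}
    (f0 : f ≠ 0) : A →+* constC E (Cz f0 : Subalgebra k (FractionRing S)) :=
  (((ev k S : S →+* FractionRing S).comp (algebraMap A S)).codRestrict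
    (Cz f0 : Subalgebra k (FractionRing S)).toSubring fun a => ev_mem_Cz f0 (a : S)).codRestrict
    (constC E (Cz f0 : Subalgebra k (FractionRing S))).toSubring fun a => (hA _).1 a.2

include hreg in
/-- **Local uniformization of the local rings of the quotient at the points with nondegenerate
zeros.** -/
theorem luVF [Algebra.Smooth k S] {p : ℕ} (hp : p.Prime) (hpk : (p : k) = 0) (hE : E ≠ 0)
    (hcl : ∃ c : FractionRing S, ∀ x, E^[p] x = c * E x)
    (A : Subalgebra k S) (hA : ∀ s, s ∈ A ↔ E (ev k S s) = 0)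
    {P : Ideal S} [hP : P.IsPrime]
    (hpt : (∀ s t : S, E (ev k S s) = ev k S t → t ∈ P) → LocVF E P)
    (R : Type) [CommRing R] [IsLocalRing R] [Algebra A R]
    [hR : IsLocalization.AtPrime R (P.comap (algebraMap A S))] :
    Pool.Agent.H519R3.RS.AdmitsLU R := by
  classical
  obtain ⟨f, ⟨f0, l, F, hf, hl, hN⟩, hfP⟩ : ∃ f, NiceD E f ∧ f ∉ P := by
    by_cases h : ∀ s t : S, E (ev k S s) = ev k S t → t ∈ P
    · exact niceD_of_local hreg hp.pos hpk (hpt h)
    · push Not at h
      obtain ⟨s, t, hst, ht⟩ := h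
      exact niceD_of_unit hp.ne_zero hpk hst ht
  have hef : ev k S f ≠ 0 := ev_ne f0
  have hres := resChart hreg hp hpk hE hcl f0 hf hl hN
    (constC E (Cz f0 : Subalgebra k (FractionRing S))) (fun _ => Iff.rfl)
  set C' := constC E (Cz f0 : Subalgebra k (FractionRing S)) with hC'
  let fA : A := ⟨f, (hA f).2 hf⟩
  let alg : Algebra A C' := (phiD A hA f0).toAlgebra
  have hinj : Function.Injective (algebraMap A C') := by
    intro a b hab
    apply Subtype.ext
    apply ev_inj (k := k)
    exact congrArg (fun x : C' => ((x : (Cz f0 : Subalgebra k (FractionRing S))) :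
      FractionRing S)) hab
  have hloc : IsLocalization.Away fA C' := by
    refine ⟨?_, ?_, ?_⟩
    · rintro ⟨_, n, rfl⟩
      change IsUnit (algebraMap A C' (fA ^ n))
      rw [map_pow]
      have h0 : (ev k S f)⁻¹ ∈ (Cz f0 : Subalgebra k (FractionRing S)) :=
        ⟨1, 1, by rw [map_one, pow_one, one_div]⟩
      refine IsUnit.pow _ (IsUnit.of_mul_eq_one ⟨⟨(ev k S f)⁻¹, h0⟩, ?_⟩
        (Subtype.ext (Subtype.ext ?_)))
      · change E (ev k S f)⁻¹ = 0
        have h1 := der_mul E hf 1 (ev k S f)⁻¹
        rw [pow_one, mul_inv_cancel₀ hef, Derivation.map_one_eq_zero] at h1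
        exact (mul_eq_zero.1 h1.symm).resolve_left hef
      · change ev k S f * (ev k S f)⁻¹ = 1
        exact mul_inv_cancel₀ hef
    · rintro ⟨⟨x, hxC⟩, hxi⟩
      have hxC' := hxC
      obtain ⟨N, s, hs⟩ := hxC'
      change E x = 0 at hxi
      have h1 : ev k S f ^ N * x = ev k S s := by
        rw [hs, mul_div_cancel₀ _ (pow_ne_zero _ hef)]
      have h2 : s ∈ A := by
        rw [hA, ← h1, der_mul E hf, hxi, mul_zero]
      refine ⟨⟨⟨s, h2⟩, ⟨fA ^ N, N, rfl⟩⟩, Subtype.ext (Subtype.ext ?_)⟩
      change x * ev k S ((fA ^ N : A) : S) = ev k S s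
      rw [← h1, mul_comm]
      congr 1
      exact map_pow (ev k S) f N
    · intro x y hxy
      exact ⟨1, by rw [hinj hxy]⟩
  have hfu : IsUnit (algebraMap A R fA) :=
    IsLocalization.map_units R (⟨fA, hfP⟩ : (P.comap (algebraMap A S)).primeCompl)
  let ψ : C' →+* R := IsLocalization.Away.lift fA hfu
  let alg' : Algebra C' R := ψ.toAlgebra
  have htow : IsScalarTower A C' R := IsScalarTower.of_algebraMap_eq fun a =>
    (IsLocalization.Away.lift_eq fA hfu a).symm
  have hle : Submonoid.powers fA ≤ (P.comap (algebraMap A S)).primeCompl := by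
    rw [Submonoid.powers_le]
    exact hfP
  have h1 : IsLocalization ((P.comap (algebraMap A S)).primeCompl.map (algebraMap A C')) R :=
    IsLocalization.isLocalization_of_submonoid_le C' R (Submonoid.powers fA) _ hle
  let Q' : Ideal C' := (IsLocalRing.maximalIdeal R).comap (algebraMap C' R)
  have hQ' : Q'.IsPrime := Ideal.comap_isPrime _ _
  have h2 : IsLocalization.AtPrime R Q' := by
    refine IsLocalization.of_le
      ((P.comap (algebraMap A S)).primeCompl.map (algebraMap A C')) Q'.primeCompl ?_ ?_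
    · rintro _ ⟨a, ha, rfl⟩
      change algebraMap A C' a ∉ Q'
      rw [Ideal.mem_comap, ← IsScalarTower.algebraMap_apply]
      intro h
      exact (IsLocalRing.mem_maximalIdeal _).1 h
        (IsLocalization.map_units R (⟨a, ha⟩ : (P.comap (algebraMap A S)).primeCompl))
    · intro c hc
      by_contra h
      exact hc ((IsLocalRing.mem_maximalIdeal _).2 h)
  exact Pool.Agent.H519R3.RS.admitsLU_of_res hres Q' R

end lu

end Pool.Agent.U197.GQ
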