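import Pool.Agent.W559.Mg.T4
import Mathlib

/-!
Finite groups acting on the coefficients of group algebras: the ideal generated by the invariant
homogeneous elements of positive degree.
-/

set_option autoImplicit false
set_option linter.unusedSectionVars false

namespace Pool.Agent.U197.GQ

open Pool.Agent.W559.Mg

section act

variable {k K : Type} [Field k] [Field K] [Algebra k K] {Γ : Type} [Group Γ]
  (ρ : Γ →* (K ≃ₐ[k] K)) {G : Type} [AddCommGroup G]

/-- The action on the coefficients. -/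
noncomputable def ga (G : Type) [AddCommGroup G] (γ : Γ) : ML K G →ₐ[k] ML K G :=
  gm G ((ρ γ : K ≃ₐ[k] K) : K →ₐ[k] K)

lemma ga_mo (γ : Γ) (d : G) (a : K) : ga ρ G γ (mo d a) = mo d (ρ γ a) := gm_mo _ d a

lemma ga_coeff (γ : Γ) (f : ML K G) (d : G) : (ga ρ G γ f).coeff d = ρ γ (f.coeff d) :=
  gm_coeff _ f d

lemma ga_one (f : ML K G) : ga ρ G 1 f = f := by
  apply ml_ext
  intro m
  rw [ga_coeff, map_one]
  rfl

lemma ga_mul (γ γ' : Γ) (f : ML K G) : ga ρ G (γ * γ') f = ga ρ G γ (ga ρ G γ' f) := by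
  apply ml_ext
  intro m
  rw [ga_coeff, ga_coeff, ga_coeff, map_mul]
  rfl

/-- The elements with invariant coefficients. -/
def FX (G : Type) [AddCommGroup G] : Subalgebra k (ML K G) where
  carrier := {f | ∀ γ, ga ρ G γ f = f}
  mul_mem' := fun ha hb γ => by rw [map_mul, ha γ, hb γ]
  add_mem' := fun ha hb γ => by rw [map_add, ha γ, hb γ]
  algebraMap_mem' := fun c γ => AlgHom.commutes _ _

lemma mem_FX {f : ML K G} : f ∈ FX ρ G ↔ ∀ γ, ga ρ G γ f = f := Iff.rfl

lemma mo_mem_FX {d : G} {a : K} : mo d a ∈ FX ρ G ↔ ∀ γ, ρ γ a = a := by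
  rw [mem_FX]
  refine forall_congr' fun γ => ?_
  rw [ga_mo]
  exact ⟨fun h => mo_inj h, fun h => by rw [h]⟩

lemma gr_FX : Gr (FX ρ G) := by
  intro f hf d
  rw [mo_mem_FX]
  intro γ
  rw [← ga_coeff, hf γ]

variable [Fintype Γ]

/-- Elementary symmetric functions of the conjugates. -/
noncomputable def es (c : K) (l : ℕ) : K :=
  ∑ A ∈ (Finset.univ : Finset Γ).powersetCard l, ∏ γ ∈ A, ρ γ c

lemma es_inv (c : K) (l : ℕ) (γ : Γ) : ρ γ (es ρ c l) = es ρ c l := by
  classical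
  unfold es
  rw [map_sum]
  refine Finset.sum_equiv (Equiv.finsetCongr (Equiv.mulLeft γ)) (fun A => ?_) (fun A _ => ?_)
  · rw [Finset.mem_powersetCard_univ, Finset.mem_powersetCard_univ, Equiv.finsetCongr_apply,
      Finset.card_map]
  · rw [map_prod, Equiv.finsetCongr_apply, Finset.prod_map]
    refine Finset.prod_congr rfl fun δ _ => ?_
    change ρ γ (ρ δ c) = ρ (γ * δ) c
    rw [map_mul]
    rfl

/-- If the elementary symmetric functions are in an ideal, so is a power of each element. -/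
lemma pow_mem_of_es {R : Type} [CommRing R] (y : Γ → R) (Q : Ideal R)
    (h : ∀ l, 1 ≤ l → l ≤ Fintype.card Γ →
      (∑ A ∈ (Finset.univ : Finset Γ).powersetCard l, ∏ γ ∈ A, y γ) ∈ Q) (γ₀ : Γ) :
    y γ₀ ^ Fintype.card Γ ∈ Q := by
  classical
  have h1 : ∏ j : Γ, (-(y j) + y γ₀) = 0 := by
    rw [Finset.prod_eq_zero (Finset.mem_univ γ₀)]
    rw [neg_add_cancel]
  rw [Finset.prod_add, Finset.sum_powerset, Finset.sum_range_succ'] at h1
  have h2 : ∑ A ∈ (Finset.univ : Finset Γ).powersetCard 0, (∏ j ∈ A, -(y j)) *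
      ∏ j ∈ Finset.univ \ A, y γ₀ = y γ₀ ^ Fintype.card Γ := by
    rw [Finset.powersetCard_zero, Finset.sum_singleton, Finset.prod_empty, one_mul,
      Finset.sdiff_empty, Finset.prod_const, Finset.card_univ]
  rw [h2] at h1
  have h3 : y γ₀ ^ Fintype.card Γ = -∑ l ∈ Finset.range (Finset.univ : Finset Γ).card,
      ∑ A ∈ (Finset.univ : Finset Γ).powersetCard (l + 1), (∏ j ∈ A, -(y j)) *
      ∏ j ∈ Finset.univ \ A, y γ₀ := (neg_eq_of_add_eq_zero_right h1).symm
  rw [h3]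
  refine Q.neg_mem (Q.sum_mem fun l hl => ?_)
  rw [Finset.card_univ, Finset.mem_range] at hl
  have h4 : ∑ A ∈ (Finset.univ : Finset Γ).powersetCard (l + 1), (∏ j ∈ A, -(y j)) *
      ∏ j ∈ Finset.univ \ A, y γ₀ =
      ((-1) ^ (l + 1) * y γ₀ ^ (Fintype.card Γ - (l + 1))) *
        ∑ A ∈ (Finset.univ : Finset Γ).powersetCard (l + 1), ∏ j ∈ A, y j := by
    rw [Finset.mul_sum]
    refine Finset.sum_congr rfl fun A hA => ?_
    rw [Finset.mem_powersetCard] at hA
    rw [Finset.prod_neg, Finset.prod_const, Finset.card_sdiff_of_subset hA.1, hA.2,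
      Finset.card_univ]
    ring
  rw [h4]
  exact Q.mul_mem_left _ (h _ (by omega) (by omega))

/-- The invariant homogeneous elements of positive degree. -/
def IP (S : Subalgebra k (ML K G)) (τ : G →+ ℤ) : Set S :=
  {z | ∃ (μ : G) (x : K), x ≠ 0 ∧ (∀ γ, ρ γ x = x) ∧ 0 < τ μ ∧ (z : ML K G) = mo μ x}

/-- The homogeneous elements of positive degree are in the radical of the ideal generated by the
invariant ones. -/
theorem mem_rad_IP (S : Subalgebra k (ML K G)) (hS : ∀ γ, ∀ f ∈ S, ga ρ G γ f ∈ S) (τ : G →+ ℤ)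
    {d : G} {c : K} (h : mo d c ∈ S) (hd : 0 < τ d) :
    (⟨mo d c, h⟩ : S) ∈ (Ideal.span (IP ρ S τ)).radical := by
  classical
  let y : Γ → S := fun γ => ⟨mo d (ρ γ c), by rw [← ga_mo]; exact hS γ _ h⟩
  have hy1 : y 1 = ⟨mo d c, h⟩ := Subtype.ext (by
    change mo d (ρ 1 c) = mo d c
    rw [map_one]
    rfl)
  rw [← hy1]
  refine ⟨Fintype.card Γ, pow_mem_of_es y _ (fun l hl _ => ?_) 1⟩
  have h1 : ((∑ A ∈ (Finset.univ : Finset Γ).powersetCard l, ∏ γ ∈ A, y γ : S) : ML K G) =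
      mo (l • d) (es ρ c l) := by
    unfold es
    rw [mo_sum]
    change S.val _ = _
    rw [map_sum]
    refine Finset.sum_congr rfl fun A hA => ?_
    rw [map_prod]
    change ∏ γ ∈ A, mo d (ρ γ c) = _
    rw [mo_prod, Finset.sum_const, (Finset.mem_powersetCard.1 hA).2]
  by_cases h0 : es ρ c l = 0
  · have h2 : (∑ A ∈ (Finset.univ : Finset Γ).powersetCard l, ∏ γ ∈ A, y γ : S) = 0 := by
      apply Subtype.ext
      rw [h1, h0, mo_zero]
      rfl
    rw [h2]
    exact Ideal.zero_mem _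
  · refine Ideal.subset_span ⟨l • d, es ρ c l, h0, es_inv ρ c l, ?_, h1⟩
    rw [map_nsmul, nsmul_eq_mul]
    have : (0 : ℤ) < l := by exact_mod_cast hl
    exact mul_pos this hd

end act

end Pool.Agent.U197.GQ
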