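import Pool.Agent.U197.GQ.M9

/-!
The charts of the torsor over the blowup of the origin.
-/

set_option autoImplicit false
set_option linter.unusedSectionVars false

open MvPolynomial

namespace Pool.Agent.U197.GQ

open Pool.Agent.W559.Mg Pool.Agent.H920R2 Pool.Agent.Y177.Ga Pool.Agent.Y177.Tor

section hom

variable {k K : Type} [Field k] [Field K] [Algebra k K] {G : Type} [AddCommGroup G]

/-- Ideals generated by homogeneous elements. -/
lemma hom_span {R : Subalgebra k (ML K G)} (hR : Gr R) (Y : Set R)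
    (hY : ∀ y ∈ Y, ∃ d a, (y : ML K G) = mo d a) {b : R} (hb : b ∈ Ideal.span Y) (m : G) :
    (⟨mo m ((b : ML K G).coeff m), hR b b.2 m⟩ : R) ∈ Ideal.span Y := by
  classical
  induction hb using Submodule.span_induction generalizing m with
  | mem y hy =>
    obtain ⟨d, a, hda⟩ := hY y hy
    by_cases h : d = m
    · subst h
      have h1 : (⟨mo d ((y : ML K G).coeff d), hR y y.2 d⟩ : R) = y := by
        apply Subtype.ext
        change mo d ((y : ML K G).coeff d) = (y : ML K G)
        rw [hda, coeff_mo_same]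
      rw [h1]
      exact Ideal.subset_span hy
    · have h1 : (⟨mo m ((y : ML K G).coeff m), hR y y.2 m⟩ : R) = 0 := by
        apply Subtype.ext
        change mo m ((y : ML K G).coeff m) = 0
        rw [hda, coeff_mo_ne h, mo_zero]
      rw [h1]
      exact Ideal.zero_mem _
  | zero =>
    have h1 : (⟨mo m (((0 : R) : ML K G).coeff m), hR _ (0 : R).2 m⟩ : R) = 0 := by
      apply Subtype.ext
      change mo m ((0 : ML K G).coeff m) = 0
      rw [coeff_zero', mo_zero]
    rw [h1]
    exact Ideal.zero_mem _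
  | add y z _ _ hy hz =>
    have h1 : (⟨mo m (((y + z : R) : ML K G).coeff m), hR _ (y + z).2 m⟩ : R) =
        ⟨mo m ((y : ML K G).coeff m), hR y y.2 m⟩ + ⟨mo m ((z : ML K G).coeff m), hR z z.2 m⟩ := by
      apply Subtype.ext
      change mo m (((y : ML K G) + (z : ML K G)).coeff m) =
        mo m ((y : ML K G).coeff m) + mo m ((z : ML K G).coeff m)
      rw [coeff_add', mo_add]
    rw [h1]
    exact Ideal.add_mem _ (hy m) (hz m)
  | smul r y _ hy =>
    have h1 : (⟨mo m (((r • y : R) : ML K G).coeff m), hR _ (r • y).2 m⟩ : R) =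
        ∑ a ∈ (r : ML K G).coeff.support, (⟨mo a ((r : ML K G).coeff a), hR r r.2 a⟩ : R) *
          ⟨mo (m - a) ((y : ML K G).coeff (m - a)), hR y y.2 (m - a)⟩ := by
      apply Subtype.ext
      rw [AddSubmonoidClass.coe_finsetSum]
      change mo m (((r : ML K G) * (y : ML K G)).coeff m) = ∑ a ∈ (r : ML K G).coeff.support,
        mo a ((r : ML K G).coeff a) * mo (m - a) ((y : ML K G).coeff (m - a))
      rw [coeff_mul_sum, mo_sum]
      refine Finset.sum_congr rfl fun a _ => ?_
      rw [mo_mul, add_sub_cancel]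
    rw [h1]
    exact Ideal.sum_mem _ fun a _ => Ideal.mul_mem_left _ _ (hy _)

end hom

section S1

variable (k : Type) [Field k] (n : ℕ)

/-- The coordinate ring of the torsor over the blowup of the origin. -/
noncomputable def S1 : Subalgebra k (ML (KK k n) (ℤ × Unit)) :=
  (Ph : MvPolynomial (Fin (n + 1)) k →ₐ[k] _).range

/-- The linear forms in the ring of the torsor. -/
noncomputable def x1 : (Fin n → k) →ₗ[k] ML (KK k n) (ℤ × Unit) where
  toFun v := mo (1, ()) (el k n v)
  map_add' u v := by rw [map_add, mo_add]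
  map_smul' c v := by rw [map_smul, ← smul_mo]; rfl

variable {k n}

lemma Ph_eq : (Ph : MvPolynomial (Fin (n + 1)) k →ₐ[k] _) = avL (mo (-1, ()) 1) (x1 k n) := by
  unfold Ph avL
  congr 1
  funext i
  refine Fin.cases rfl (fun i => ?_) i
  rw [Fin.cons_succ, Fin.cons_succ]
  change _ = mo (1, ()) (el k n (Pi.single i 1))
  rw [el_single]

lemma x1_mem (v : Fin n → k) : x1 k n v ∈ S1 k n :=
  ⟨lS k n v, by
    change Ph (lS k n v) = _
    rw [Ph_eq, avL_lS]⟩

lemma a1_mem : mo (-1, ()) 1 ∈ S1 k n := ⟨X 0, by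
  change Ph (X 0) = _
  rw [Ph_eq, avL_zero]⟩

/-- Images of polynomials. -/
lemma poly_mem {σ D : Type} [CommRing D] [Algebra k D] (S : Subalgebra k D)
    (f : MvPolynomial σ k →ₐ[k] D) (h : ∀ i, f (X i) ∈ S) (P : MvPolynomial σ k) : f P ∈ S := by
  induction P using MvPolynomial.induction_on with
  | C a =>
    rw [← MvPolynomial.algebraMap_eq, AlgHom.commutes]
    exact S.algebraMap_mem a
  | add p q hp hq => rw [map_add]; exact S.add_mem hp hq
  | mul_X p i hp => rw [map_mul]; exact S.mul_mem hp (h i)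

lemma S1_le {S : Subalgebra k (ML (KK k n) (ℤ × Unit))} (h0 : mo (-1, ()) 1 ∈ S)
    (h1 : ∀ v, x1 k n v ∈ S) : S1 k n ≤ S := by
  rintro _ ⟨P, rfl⟩
  refine poly_mem S (Ph : MvPolynomial (Fin (n + 1)) k →ₐ[k] _) (fun i => ?_) P
  rw [Ph_eq]
  refine Fin.cases ?_ (fun i => ?_) i
  · rw [avL_zero]
    exact h0
  · rw [← lS_single, avL_lS]
    exact h1 _

lemma gr_S1 : Gr (S1 k n) := by
  have h1 : S1 k n = Algebra.adjoin k ({mo (-1, ()) 1} ∪ Set.range (x1 k n)) := by
    apply le_antisymm
    · exact S1_le (Algebra.subset_adjoin (Or.inl rfl))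
        fun v => Algebra.subset_adjoin (Or.inr ⟨v, rfl⟩)
    · rw [Algebra.adjoin_le_iff]
      rintro f (hf | ⟨v, rfl⟩)
      · rw [hf]
        exact a1_mem
      · exact x1_mem v
  rw [h1]
  refine gr_adjoin _ ?_
  rintro f (hf | ⟨v, rfl⟩)
  · exact ⟨_, _, hf⟩
  · exact ⟨_, _, rfl⟩

/-- The linear forms. -/
noncomputable def xS (k : Type) [Field k] (n : ℕ) : (Fin n → k) →ₗ[k] S1 k n where
  toFun v := ⟨x1 k n v, x1_mem v⟩
  map_add' _ _ := Subtype.ext (map_add _ _ _)
  map_smul' _ _ := Subtype.ext (map_smul _ _ _)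

/-- The parameter of the exceptional divisor. -/
noncomputable def aS (k : Type) [Field k] (n : ℕ) : S1 k n := ⟨mo (-1, ()) 1, a1_mem⟩

lemma avS_coe (P : MvPolynomial (Fin (n + 1)) k) : ((avL (aS k n) (xS k n) P : S1 k n) :
    ML (KK k n) (ℤ × Unit)) = Ph P := by
  have h1 : (S1 k n).val.comp (avL (aS k n) (xS k n)) = Ph := by
    rw [Ph_eq]
    apply avL_ext
    · change ((avL (aS k n) (xS k n) (X 0) : S1 k n) : ML (KK k n) (ℤ × Unit)) = _
      rw [avL_zero, avL_zero]
      rfl
    · intro v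
      change ((avL (aS k n) (xS k n) (lS k n v) : S1 k n) : ML (KK k n) (ℤ × Unit)) = _
      rw [avL_lS, avL_lS]
      rfl
  exact congrArg (fun f => f P) h1

lemma avS_bij : Function.Bijective (avL (aS k n) (xS k n)) := by
  constructor
  · intro P Q h
    apply Ph_inj (k := k) (n := n)
    rw [← avS_coe, ← avS_coe, h]
  · rintro ⟨_, P, rfl⟩
    exact ⟨P, Subtype.ext (avS_coe P)⟩

lemma smooth_S1 : Algebra.Smooth k (S1 k n) :=
  Pool.Agent.U197.PQ.smooth_of_etale _ (etale_of_bij (avL (aS k n) (xS k n)) avS_bij)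

lemma el_inj {v : Fin n → k} (h : el k n v = 0) : v = 0 := by
  classical
  have h1 : ln k n v = 0 := evk_inj (h.trans (map_zero _).symm)
  funext i
  have h2 := congrArg (coeff (Finsupp.single i 1)) h1
  have h3 : coeff (Finsupp.single i 1) (ln k n v) = v i := by
    change coeff (Finsupp.single i 1) (∑ j, v j • (X j : MvPolynomial (Fin n) k)) = v i
    rw [coeff_sum, Finset.sum_eq_single i]
    · rw [coeff_smul, coeff_X, if_pos rfl, smul_eq_mul, mul_one]
    · intro j _ hji
      rw [coeff_smul, coeff_X, if_neg, smul_zero]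
      intro h4
      apply hji
      exact (Finsupp.single_left_injective one_ne_zero) h4
    · simp
  rw [← h3, h2]
  rfl

end S1

end Pool.Agent.U197.GQ
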