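import Pool.Agent.U197.GQ.M10

/-!
The action of a finite linear group on the charts of the torsor.
-/

set_option autoImplicit false
set_option linter.unusedSectionVars false

open MvPolynomial

namespace Pool.Agent.U197.GQ

open Pool.Agent.W559.Mg Pool.Agent.H920R2 Pool.Agent.Y177.Ga Pool.Agent.Y177.Tor

section Rh

variable {k : Type} [Field k] {n : ℕ} {D : ℕ} {h : KK k n} (h0 : h ≠ 0)
  (hh : mo ((D : ℤ), ()) h ∈ S1 k n)

/-- The chart. -/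
noncomputable def Rh (hh : mo ((D : ℤ), ()) h ∈ S1 k n) :
    Subalgebra k (ML (KK k n) (ℤ × Unit)) := lc (S1 k n) (mo ((D : ℤ), ()) h) hh

lemma S1_le_Rh : S1 k n ≤ Rh hh := le_lc _ _ _

lemma gr_Rh : Gr (Rh hh) := gr_lc gr_S1 hh

/-- The linear forms. -/
noncomputable def xR : (Fin n → k) →ₗ[k] Rh hh where
  toFun v := ⟨x1 k n v, S1_le_Rh hh (x1_mem v)⟩
  map_add' _ _ := Subtype.ext (map_add _ _ _)
  map_smul' _ _ := Subtype.ext (map_smul _ _ _)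

/-- The parameter of the exceptional divisor. -/
noncomputable def aR : Rh hh := ⟨mo (-1, ()) 1, S1_le_Rh hh a1_mem⟩

include h0 in
lemma unit_Rh : ∃ y : Rh hh, (⟨mo ((D : ℤ), ()) h, S1_le_Rh hh hh⟩ : Rh hh) * y = 1 :=
  ⟨⟨mo (-((D : ℤ), ())) h⁻¹, inv_mem_lc _ _ _ hh (mo_inv h0)⟩, Subtype.ext (mo_inv h0)⟩

include h0 in
lemma smooth_Rh : Algebra.Smooth k (Rh hh) := smooth_lc smooth_S1 hh (isUnit_mo h0)

include h0 in
lemma etale_Rh (c : Module.Basis (Fin n) k (Fin n → k)) :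
    ((aeval (Fin.cons (aR hh) fun j => xR hh (c j)) : MvPolynomial (Fin (n + 1)) k →ₐ[k] Rh hh) :
        MvPolynomial (Fin (n + 1)) k →+* Rh hh).Etale := by
  have h1 : ((aeval (Fin.cons (aS k n) fun j => xS k n (c j)) :
      MvPolynomial (Fin (n + 1)) k →ₐ[k] S1 k n) :
        MvPolynomial (Fin (n + 1)) k →+* S1 k n).Etale :=
    etale_of_bij _ (avL_basis_bij (aS k n) (xS k n) avS_bij c)
  let _ : Algebra (S1 k n) (Rh hh) :=
    (Subalgebra.inclusion (S1_le_Rh hh)).toRingHom.toAlgebra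
  have hloc : IsLocalization.Away (⟨mo ((D : ℤ), ()) h, hh⟩ : S1 k n) (Rh hh) :=
    isLoc_lc (S1 k n) hh (isUnit_mo h0)
  have h2 : Algebra.Etale (S1 k n) (Rh hh) :=
    Algebra.Etale.of_isLocalizationAway (⟨mo ((D : ℤ), ()) h, hh⟩ : S1 k n)
  have h3 : (algebraMap (S1 k n) (Rh hh)).Etale := RingHom.etale_algebraMap.2 h2
  have h4 := RingHom.Etale.stableUnderComposition _ _ h1 h3
  have h5 : (algebraMap (S1 k n) (Rh hh)).comp
      ((aeval (Fin.cons (aS k n) fun j => xS k n (c j)) :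
      MvPolynomial (Fin (n + 1)) k →ₐ[k] S1 k n) :
        MvPolynomial (Fin (n + 1)) k →+* S1 k n) =
      ((aeval (Fin.cons (aR hh) fun j => xR hh (c j)) :
        MvPolynomial (Fin (n + 1)) k →ₐ[k] Rh hh) :
        MvPolynomial (Fin (n + 1)) k →+* Rh hh) := by
    have h6 : (Subalgebra.inclusion (S1_le_Rh hh)).comp
        (aeval (Fin.cons (aS k n) fun j => xS k n (c j)) :
      MvPolynomial (Fin (n + 1)) k →ₐ[k] S1 k n) =
        (aeval (Fin.cons (aR hh) fun j => xR hh (c j)) :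
        MvPolynomial (Fin (n + 1)) k →ₐ[k] Rh hh) := by
      apply MvPolynomial.algHom_ext
      intro i
      rw [AlgHom.comp_apply, aeval_X, aeval_X]
      refine Fin.cases rfl (fun i => ?_) i
      rw [Fin.cons_succ, Fin.cons_succ]
      rfl
    rw [← h6]
    rfl
  rw [← h5]
  exact h4

include h0 in
lemma span_Rh (hsp : (⟨mo ((D : ℤ), ()) h, hh⟩ : S1 k n) ∈ Ideal.span (Set.range (xS k n)))
    (P : Ideal (Rh hh)) (hP : P.IsPrime) : ∃ v, xR hh v ∉ P := by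
  by_contra hcon
  push Not at hcon
  have h1 : Ideal.span (Set.range (xS k n)) ≤
      P.comap (Subalgebra.inclusion (S1_le_Rh hh)).toRingHom := by
    rw [Ideal.span_le]
    rintro _ ⟨v, rfl⟩
    exact hcon v
  have h2 : (⟨mo ((D : ℤ), ()) h, S1_le_Rh hh hh⟩ : Rh hh) ∈ P := h1 hsp
  obtain ⟨y, hy⟩ := unit_Rh h0 hh
  apply hP.ne_top
  rw [Ideal.eq_top_iff_one, ← hy]
  exact P.mul_mem_right _ h2

variable {Γ : Type} [Group Γ] (ρ : Γ →* (KK k n ≃ₐ[k] KK k n))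
  (A : Γ →* Module.End k (Fin n → k)) (hρ : ∀ γ v, ρ γ (el k n v) = el k n (A γ v))

include hρ in
lemma ga_x1 (γ : Γ) (v : Fin n → k) : ga ρ (ℤ × Unit) γ (x1 k n v) = x1 k n (A γ v) := by
  change ga ρ (ℤ × Unit) γ (mo (1, ()) (el k n v)) = mo (1, ()) (el k n (A γ v))
  rw [ga_mo, hρ]

lemma ga_a1 (γ : Γ) : ga ρ (ℤ × Unit) γ (mo (-1, ()) 1) = mo (-1, ()) 1 := by
  rw [ga_mo, map_one]

include hρ in
lemma ga_S1 (γ : Γ) {f : ML (KK k n) (ℤ × Unit)} (hf : f ∈ S1 k n) :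
    ga ρ (ℤ × Unit) γ f ∈ S1 k n := by
  obtain ⟨P, rfl⟩ := hf
  refine poly_mem (S1 k n) ((ga ρ (ℤ × Unit) γ).comp
    (Ph : MvPolynomial (Fin (n + 1)) k →ₐ[k] _)) (fun i => ?_) P
  rw [AlgHom.comp_apply, Ph_eq]
  refine Fin.cases ?_ (fun i => ?_) i
  · rw [avL_zero, ga_a1]
    exact a1_mem
  · rw [← lS_single, avL_lS, ga_x1 ρ A hρ]
    exact x1_mem _

variable (hi : ∀ γ, ρ γ h = h)

include hρ hi in
lemma ga_Rh (γ : Γ) (f : ML (KK k n) (ℤ × Unit)) (hf : f ∈ Rh hh) :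
    ga ρ (ℤ × Unit) γ f ∈ Rh hh := by
  obtain ⟨N, hN⟩ := hf
  refine ⟨N, ?_⟩
  have h1 := ga_S1 ρ A hρ γ hN
  rwa [map_mul, map_pow, ga_mo, hi] at h1

/-- The action on the chart. -/
noncomputable def aRh : Γ →* (Rh hh ≃+* Rh hh) where
  toFun γ :=
    { toFun := fun f => ⟨ga ρ (ℤ × Unit) γ f, ga_Rh hh ρ A hρ hi γ f f.2⟩
      invFun := fun f => ⟨ga ρ (ℤ × Unit) γ⁻¹ f, ga_Rh hh ρ A hρ hi γ⁻¹ f f.2⟩
      left_inv := fun f => Subtype.ext (by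
        change ga ρ (ℤ × Unit) γ⁻¹ (ga ρ (ℤ × Unit) γ (f : ML (KK k n) (ℤ × Unit))) = f
        rw [← ga_mul, inv_mul_cancel, ga_one])
      right_inv := fun f => Subtype.ext (by
        change ga ρ (ℤ × Unit) γ (ga ρ (ℤ × Unit) γ⁻¹ (f : ML (KK k n) (ℤ × Unit))) = f
        rw [← ga_mul, mul_inv_cancel, ga_one])
      map_mul' := fun f g => Subtype.ext (map_mul (ga ρ (ℤ × Unit) γ) _ _)
      map_add' := fun f g => Subtype.ext (map_add (ga ρ (ℤ × Unit) γ) _ _) }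
  map_one' := RingEquiv.ext fun f => Subtype.ext (ga_one ρ _)
  map_mul' γ γ' := RingEquiv.ext fun f => Subtype.ext (ga_mul ρ γ γ' _)

lemma aRh_coe (γ : Γ) (f : Rh hh) : ((aRh hh ρ A hρ hi γ f : Rh hh) :
    ML (KK k n) (ℤ × Unit)) = ga ρ (ℤ × Unit) γ f := rfl

lemma aRh_x (γ : Γ) (v : Fin n → k) : aRh hh ρ A hρ hi γ (xR hh v) = xR hh (A γ v) :=
  Subtype.ext (ga_x1 ρ A hρ γ v)

lemma gen_X (J : Ideal (Rh hh)) (γ : Γ) (hJ : ∀ v, xR hh (Nn A γ v) ∈ J) (i : Fin (n + 1))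
    (b : Rh hh) (hb : (b : ML (KK k n) (ℤ × Unit)) = Ph (X i)) :
    aRh hh ρ A hρ hi γ b - b ∈ J := by
  revert hb
  rw [Ph_eq]
  refine Fin.cases ?_ (fun i => ?_) i
  · intro hb
    have h4 : aRh hh ρ A hρ hi γ b - b = 0 := by
      apply Subtype.ext
      change ga ρ (ℤ × Unit) γ (b : ML (KK k n) (ℤ × Unit)) - b = 0
      rw [hb, avL_zero, ga_a1, sub_self]
    rw [h4]
    exact J.zero_mem
  · intro hb
    have h4 : aRh hh ρ A hρ hi γ b - b = xR hh (Nn A γ (Pi.single i 1)) := by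
      apply Subtype.ext
      change ga ρ (ℤ × Unit) γ (b : ML (KK k n) (ℤ × Unit)) - b =
        x1 k n (Nn A γ (Pi.single i 1))
      rw [hb, ← lS_single, avL_lS, ga_x1 ρ A hρ, ← map_sub]
      rfl
    rw [h4]
    exact hJ _

include h0 in
lemma gen_Rh (J : Ideal (Rh hh)) (γ : Γ) (hJ : ∀ v, xR hh (Nn A γ v) ∈ J) (b : Rh hh) :
    aRh hh ρ A hρ hi γ b - b ∈ J := by
  have h1 : ∀ P : MvPolynomial (Fin (n + 1)) k, ∀ hP : Ph P ∈ Rh hh,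
      aRh hh ρ A hρ hi γ ⟨Ph P, hP⟩ - ⟨Ph P, hP⟩ ∈ J := by
    intro P
    induction P using MvPolynomial.induction_on with
    | C a =>
      intro hP
      have h2 : aRh hh ρ A hρ hi γ ⟨Ph (C a), hP⟩ - ⟨Ph (C a), hP⟩ = 0 := by
        apply Subtype.ext
        change ga ρ (ℤ × Unit) γ (Ph (C a)) - Ph (C a) = 0
        rw [← MvPolynomial.algebraMap_eq, AlgHom.commutes, AlgHom.commutes, sub_self]
      rw [h2]
      exact J.zero_mem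
    | add p q hp hq =>
      intro hP
      have hp' : Ph p ∈ Rh hh := S1_le_Rh hh ⟨p, rfl⟩
      have hq' : Ph q ∈ Rh hh := S1_le_Rh hh ⟨q, rfl⟩
      have h2 : (⟨Ph (p + q), hP⟩ : Rh hh) = ⟨Ph p, hp'⟩ + ⟨Ph q, hq'⟩ :=
        Subtype.ext (map_add _ _ _)
      rw [h2, map_add]
      have h3 := J.add_mem (hp hp') (hq hq')
      have h4 : aRh hh ρ A hρ hi γ ⟨Ph p, hp'⟩ + aRh hh ρ A hρ hi γ ⟨Ph q, hq'⟩ -
          (⟨Ph p, hp'⟩ + ⟨Ph q, hq'⟩) = (aRh hh ρ A hρ hi γ ⟨Ph p, hp'⟩ - ⟨Ph p, hp'⟩) +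
            (aRh hh ρ A hρ hi γ ⟨Ph q, hq'⟩ - ⟨Ph q, hq'⟩) := by ring
      rw [h4]
      exact h3
    | mul_X p i hp =>
      intro hP
      have hp' : Ph p ∈ Rh hh := S1_le_Rh hh ⟨p, rfl⟩
      have hx' : Ph (X i) ∈ Rh hh := S1_le_Rh hh ⟨X i, rfl⟩
      have h2 : (⟨Ph (p * X i), hP⟩ : Rh hh) = ⟨Ph p, hp'⟩ * ⟨Ph (X i), hx'⟩ :=
        Subtype.ext (map_mul _ _ _)
      have h3 : aRh hh ρ A hρ hi γ ⟨Ph (X i), hx'⟩ - ⟨Ph (X i), hx'⟩ ∈ J :=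
        gen_X hh ρ A hρ hi J γ hJ i _ rfl
      rw [h2, map_mul]
      have h5 : aRh hh ρ A hρ hi γ ⟨Ph p, hp'⟩ * aRh hh ρ A hρ hi γ ⟨Ph (X i), hx'⟩ -
          ⟨Ph p, hp'⟩ * ⟨Ph (X i), hx'⟩ = aRh hh ρ A hρ hi γ ⟨Ph p, hp'⟩ *
            (aRh hh ρ A hρ hi γ ⟨Ph (X i), hx'⟩ - ⟨Ph (X i), hx'⟩) +
            ⟨Ph (X i), hx'⟩ * (aRh hh ρ A hρ hi γ ⟨Ph p, hp'⟩ - ⟨Ph p, hp'⟩) := by ring
      rw [h5]
      exact J.add_mem (J.mul_mem_left _ h3) (J.mul_mem_left _ (hp hp'))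
  obtain ⟨N, P, hP⟩ := b.2
  obtain ⟨y, hy⟩ := unit_Rh h0 hh
  set X' : Rh hh := ⟨mo ((D : ℤ), ()) h, S1_le_Rh hh hh⟩ with hX'
  have hXi : aRh hh ρ A hρ hi γ X' = X' := by
    apply Subtype.ext
    change ga ρ (ℤ × Unit) γ (mo ((D : ℤ), ()) h) = mo ((D : ℤ), ()) h
    rw [ga_mo, hi]
  have h2 := h1 P (S1_le_Rh hh ⟨P, rfl⟩)
  have h3 : (⟨Ph P, S1_le_Rh hh ⟨P, rfl⟩⟩ : Rh hh) = X' ^ N * b := Subtype.ext hP
  rw [h3, map_mul, map_pow, hXi, ← mul_sub] at h2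
  have h4 : y ^ N * (X' ^ N * (aRh hh ρ A hρ hi γ b - b)) = aRh hh ρ A hρ hi γ b - b := by
    rw [← mul_assoc, ← mul_pow, mul_comm y, hy, one_pow, one_mul]
  rw [← h4]
  exact J.mul_mem_left _ h2

end Rh

end Pool.Agent.U197.GQ
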