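import Pool.Agent.U197.GQ.M11

/-!
The comparison of the charts of the torsor.
-/

set_option autoImplicit false
set_option linter.unusedSectionVars false

open MvPolynomial

namespace Pool.Agent.U197.GQ

open Pool.Agent.W559.Mg Pool.Agent.H920R2 Pool.Agent.Y177.Ga Pool.Agent.Y177.Tor

section glue

variable {k : Type} [Field k] {n : ℕ} {D : ℕ} {h h' : KK k n} (h0 : h ≠ 0)
  (hh : mo ((D : ℤ), ()) h ∈ S1 k n) (hh' : mo ((D : ℤ), ()) h' ∈ S1 k n)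

include h0 hh hh' in
lemma rt_Rh : mo 0 (h' / h) ∈ Rh hh := by
  have h1 : mo 0 (h' / h) = mo ((D : ℤ), ()) h' * mo (-((D : ℤ), ())) h⁻¹ := by
    rw [mo_mul, add_neg_cancel, div_eq_mul_inv]
  rw [h1]
  exact (Rh hh).mul_mem (S1_le_Rh hh hh') (inv_mem_lc _ _ _ hh (mo_inv h0))

include h0 hh' in
lemma gl_Rh {f : ML (KK k n) (ℤ × Unit)} (hf : f ∈ Rh hh') :
    ∃ N : ℕ, mo 0 (h' / h) ^ N * f ∈ Rh hh := by
  obtain ⟨N, hN⟩ := hf
  refine ⟨N, ?_⟩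
  have h1 : mo 0 (h' / h) = mo ((D : ℤ), ()) h' * mo (-((D : ℤ), ())) h⁻¹ := by
    rw [mo_mul, add_neg_cancel, div_eq_mul_inv]
  have h2 : mo 0 (h' / h) ^ N * f = mo (-((D : ℤ), ())) h⁻¹ ^ N * (mo ((D : ℤ), ()) h' ^ N * f) := by
    rw [h1, mul_pow]
    ring
  rw [h2]
  exact (Rh hh).mul_mem ((Rh hh).pow_mem (inv_mem_lc _ _ _ hh (mo_inv h0)) _)
    (S1_le_Rh hh hN)

end glue

end Pool.Agent.U197.GQ
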