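import Pool.Agent.U197.GQ.M11b

/-!
The filtration on the charts of the torsor.
-/

set_option autoImplicit false
set_option linter.unusedSectionVars false

open MvPolynomial

namespace Pool.Agent.U197.GQ

open Pool.Agent.W559.Mg Pool.Agent.H920R2 Pool.Agent.Y177.Ga Pool.Agent.Y177.Tor

section FR

variable {k : Type} [Field k] {n : ℕ} {D : ℕ} {h : KK k n} (h0 : h ≠ 0)
  (hh : mo ((D : ℤ), ()) h ∈ S1 k n) {Γ : Type} [Group Γ]
  (A : Γ →* Module.End k (Fin n → k))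

lemma xR_inj {v : Fin n → k} (hv : xR hh v = 0) : v = 0 := by
  apply el_inj
  have h1 : mo ((1 : ℤ), ()) (el k n v) = (0 : ML (KK k n) (ℤ × Unit)) :=
    congrArg Subtype.val hv
  have h2 := congrArg (fun f : ML (KK k n) (ℤ × Unit) => f.coeff ((1 : ℤ), ())) h1
  simp only [coeff_mo_same] at h2
  rw [h2]
  rfl

lemma pos_Rh [Finite Γ] [IsDomain (ML (KK k n) (ℤ × Unit))] (hA : ∀ γ, A γ = 1 → γ = 1) (p : ℕ) :
    ∃ b ∈ FF A (xR hh) p 1, b ≠ 0 := by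
  classical
  have _ : Fintype Γ := Fintype.ofFinite Γ
  have h1 : ∀ σ : Γ, ∃ v, σ ≠ 1 → Nn A σ v ≠ 0 := by
    intro σ
    by_cases hσ : σ = 1
    · exact ⟨0, fun h' => absurd hσ h'⟩
    · by_contra hcon
      push Not at hcon
      apply hσ
      apply hA
      refine LinearMap.ext fun v => ?_
      have h2 := (hcon v).2
      rw [Nn_apply, sub_eq_zero] at h2
      rw [h2]
      rfl
  choose v hv using h1
  refine ⟨∏ σ ∈ Finset.univ.filter (fun σ : Γ => σ ≠ 1), xR hh (Nn A σ (v σ)), ?_, ?_⟩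
  · rw [mem_FF]
    intro σ hσ
    have h2 : xR hh (Nn A σ (v σ)) ∈ Fs A (xR hh) σ 1 := gen_mem _ ⟨v σ, by rw [pow_one]⟩
    exact Ideal.mem_of_dvd _ (Finset.dvd_prod_of_mem (fun σ => xR hh (Nn A σ (v σ)))
      (Finset.mem_filter.2 ⟨Finset.mem_univ σ, hσ.1⟩)) h2
  · rw [Finset.prod_ne_zero_iff]
    intro σ hσ h2
    exact hv σ (Finset.mem_filter.1 hσ).2 (xR_inj hh h2)

lemma hom_list (N : Module.End k (Fin n → k)) (t : List (Rh hh × ℕ))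
    (ht : ∀ q ∈ t, Gy (xR hh) N q.1 q.2) :
    ∃ d a, (((t.map Prod.fst).prod : Rh hh) : ML (KK k n) (ℤ × Unit)) = mo d a := by
  induction t with
  | nil => exact ⟨0, 1, by
      rw [mo_one]
      rfl⟩
  | cons q t ih =>
    obtain ⟨d, a, hda⟩ := ih fun q' hq' => ht q' (by simp [hq'])
    obtain ⟨v, hv⟩ := ht q (by simp)
    refine ⟨((1 : ℤ), ()) + d, el k n ((N ^ q.2) v) * a, ?_⟩
    rw [List.map_cons, List.prod_cons, hv, ← mo_mul, ← hda]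
    rfl

lemma hom_Fs (σ : Γ) (d : ℕ) {b : Rh hh} (hb : b ∈ Fs A (xR hh) σ d) (m : ℤ × Unit) :
    (⟨mo m ((b : ML (KK k n) (ℤ × Unit)).coeff m), gr_Rh hh b b.2 m⟩ : Rh hh) ∈
      Fs A (xR hh) σ d := by
  refine hom_span (gr_Rh hh) _ ?_ hb m
  rintro _ ⟨t, ht, -, rfl⟩
  exact hom_list hh _ t ht

lemma hom_FF (p d : ℕ) {b : Rh hh} (hb : b ∈ FF A (xR hh) p d) (m : ℤ × Unit) :
    ∃ c ∈ FF A (xR hh) p d, (c : ML (KK k n) (ℤ × Unit)) =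
      mo m ((b : ML (KK k n) (ℤ × Unit)).coeff m) := by
  refine ⟨⟨_, gr_Rh hh b b.2 m⟩, ?_, rfl⟩
  rw [mem_FF] at hb ⊢
  exact fun σ hσ => hom_Fs hh A σ d (hb σ hσ) m

end FR

section glue

variable {k : Type} [Field k] {n : ℕ} {C : Type} [CommRing C] [Algebra k C]
  {R R' : Subalgebra k C} (r : C) (hr : r ∈ R) (hgl : ∀ f ∈ R', ∃ N : ℕ, r ^ N * f ∈ R)
  (x : (Fin n → k) →ₗ[k] R) (x' : (Fin n → k) →ₗ[k] R') (hx : ∀ v, (x v : C) = x' v)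
  {Γ : Type} [Group Γ] (A : Γ →* Module.End k (Fin n → k))

include hx in
lemma glue_list (N : Module.End k (Fin n → k)) (t : List (R' × ℕ))
    (ht : ∀ q ∈ t, Gy x' N q.1 q.2) :
    ∃ t' : List (R × ℕ), (∀ q ∈ t', Gy x N q.1 q.2) ∧
      (t'.map Prod.snd).sum = (t.map Prod.snd).sum ∧
      (((t'.map Prod.fst).prod : R) : C) = (((t.map Prod.fst).prod : R') : C) := by
  induction t with
  | nil => exact ⟨[], by simp, rfl, rfl⟩
  | cons q t ih =>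
    obtain ⟨t', h1, h2, h3⟩ := ih fun q' hq' => ht q' (by simp [hq'])
    obtain ⟨v, hv⟩ := ht q (by simp)
    refine ⟨(x ((N ^ q.2) v), q.2) :: t', ?_, ?_, ?_⟩
    · intro q' hq'
      rcases List.mem_cons.1 hq' with h4 | h4
      · rw [h4]
        exact ⟨v, rfl⟩
      · exact h1 q' h4
    · rw [List.map_cons, List.map_cons, List.sum_cons, List.sum_cons, h2]
    · rw [List.map_cons, List.map_cons, List.prod_cons, List.prod_cons, Subalgebra.coe_mul,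
        Subalgebra.coe_mul, h3, hv, hx]

include hr hgl hx in
lemma glue_Fs' (σ : Γ) (d : ℕ) {b : R'} (hb : b ∈ Fs A x' σ d) :
    ∃ N : ℕ, ∃ c ∈ Fs A x σ d, (c : C) = r ^ N * (b : C) := by
  have hb' : b ∈ Ideal.span {y | ∃ t : List (R' × ℕ),
      (∀ q ∈ t, Gy x' (Nn A σ) q.1 q.2) ∧
      d ≤ (t.map Prod.snd).sum ∧ y = (t.map Prod.fst).prod} := hb
  clear hb
  induction hb' using Submodule.span_induction with
  | mem y hy =>
    obtain ⟨t, ht, hd, rfl⟩ := hy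
    obtain ⟨t', h1, h2, h3⟩ := glue_list x x' hx (Nn A σ) t ht
    exact ⟨0, _, prod_mem (Gy x (Nn A σ)) h1 (hd.trans h2.ge), by
      rw [h3, pow_zero, one_mul]⟩
  | zero => exact ⟨0, 0, Ideal.zero_mem _, (mul_zero _).symm⟩
  | add y z _ _ hy hz =>
    obtain ⟨N, c, hc, hce⟩ := hy
    obtain ⟨M, e, he, hee⟩ := hz
    refine ⟨N + M, (⟨r, hr⟩ : R) ^ M * c + (⟨r, hr⟩ : R) ^ N * e,
      Ideal.add_mem _ (Ideal.mul_mem_left _ _ hc) (Ideal.mul_mem_left _ _ he), ?_⟩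
    rw [Subalgebra.coe_add, Subalgebra.coe_mul, Subalgebra.coe_mul, Subalgebra.coe_pow,
      Subalgebra.coe_pow, Subalgebra.coe_add, hce, hee]
    ring
  | smul q y _ hy =>
    obtain ⟨N, c, hc, hce⟩ := hy
    obtain ⟨M, hM⟩ := hgl q q.2
    refine ⟨M + N, ⟨_, hM⟩ * c, Ideal.mul_mem_left _ _ hc, ?_⟩
    rw [Subalgebra.coe_mul, smul_eq_mul, Subalgebra.coe_mul, hce]
    ring

include hr hgl hx in
lemma glue_FF' [Finite Γ] (p d : ℕ) {b : R'} (hb : b ∈ FF A x' p d) :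
    ∃ N : ℕ, ∃ c ∈ FF A x p d, (c : C) = r ^ N * (b : C) := by
  classical
  have _ : Fintype Γ := Fintype.ofFinite Γ
  have h1 : ∀ σ : Γ, ∃ N : ℕ, σ ∈ SP p Γ → ∃ c ∈ Fs A x σ d,
      (c : C) = r ^ N * (b : C) := by
    intro σ
    by_cases hσ : σ ∈ SP p Γ
    · obtain ⟨N, hN⟩ := glue_Fs' r hr hgl x x' hx A σ d ((mem_FF A x').1 hb σ hσ)
      exact ⟨N, fun _ => hN⟩
    · exact ⟨0, fun h2 => absurd h2 hσ⟩
  choose N hN using h1
  obtain ⟨M, hM⟩ := hgl b b.2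
  have hle : ∀ σ, N σ ≤ ∑ σ : Γ, N σ := fun σ =>
    Finset.single_le_sum (f := N) (fun _ _ => Nat.zero_le _) (Finset.mem_univ σ)
  obtain ⟨L, hL⟩ : ∃ L, L = ∑ σ : Γ, N σ := ⟨_, rfl⟩
  rw [← hL] at hle
  have hmem : r ^ (M + L) * (b : C) ∈ R := by
    have h2 : r ^ (M + L) * (b : C) = r ^ L * (r ^ M * (b : C)) := by ring
    rw [h2]
    exact R.mul_mem (R.pow_mem hr _) hM
  refine ⟨M + L, ⟨_, hmem⟩, ?_, rfl⟩
  rw [mem_FF]
  intro σ hσ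
  obtain ⟨c, hc, hce⟩ := hN σ hσ
  have h2 : (⟨_, hmem⟩ : R) = (⟨_, hr⟩ : R) ^ (M + (L - N σ)) * c := by
    have h3 : M + L = M + (L - N σ) + N σ := by
      have := hle σ
      omega
    apply Subtype.ext
    rw [Subalgebra.coe_mul, Subalgebra.coe_pow, hce, ← mul_assoc, ← pow_add, ← h3]
  rw [h2]
  exact Ideal.mul_mem_left _ _ hc

end glue

lemma xR_coe {k : Type} [Field k] {n : ℕ} {D : ℕ} {h : KK k n}
    (hh : mo ((D : ℤ), ()) h ∈ S1 k n) (v : Fin n → k) :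
    ((xR hh v : Rh hh) : ML (KK k n) (ℤ × Unit)) = x1 k n v := rfl

section glue2

variable {k : Type} [Field k] {n : ℕ} {D : ℕ} {h h' : KK k n} (h0 : h ≠ 0)
  (hh : mo ((D : ℤ), ()) h ∈ S1 k n) (hh' : mo ((D : ℤ), ()) h' ∈ S1 k n)
  {Γ : Type} [Group Γ] (A : Γ →* Module.End k (Fin n → k))

include h0 in
lemma glue_FF [Finite Γ] (p d : ℕ) {b : Rh hh'} (hb : b ∈ FF A (xR hh') p d) :
    ∃ N : ℕ, ∃ c ∈ FF A (xR hh) p d, (c : ML (KK k n) (ℤ × Unit)) =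
      mo 0 (h' / h) ^ N * (b : ML (KK k n) (ℤ × Unit)) :=
  glue_FF' (mo 0 (h' / h)) (rt_Rh h0 hh hh') (fun _ hf => gl_Rh h0 hh hh' hf) (xR hh) (xR hh')
    (fun v => (xR_coe hh v).trans (xR_coe hh' v).symm) A p d hb

end glue2

section loc

variable {k : Type} [Field k] {n : ℕ} {D : ℕ} {h : KK k n} (h0 : h ≠ 0)
  (hh : mo ((D : ℤ), ()) h ∈ S1 k n) {Γ : Type} [Group Γ]
  (ρ : Γ →* (KK k n ≃ₐ[k] KK k n))
  (A : Γ →* Module.End k (Fin n → k)) (hρ : ∀ γ v, ρ γ (el k n v) = el k n (A γ v))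
  (hi : ∀ γ, ρ γ h = h)

include hρ in
lemma faith_Rh (hA : ∀ γ, A γ = 1 → γ = 1) (γ : Γ)
    (hγ : ∀ f ∈ Rh hh, ga ρ (ℤ × Unit) γ f = f) : γ = 1 := by
  apply hA
  refine LinearMap.ext fun v => ?_
  have h1 := hγ _ (xR hh v).2
  have h2 : xR hh (A γ v) = xR hh v := by
    apply Subtype.ext
    rw [← h1]
    exact (ga_x1 ρ A hρ γ v).symm
  have h3 : xR hh (A γ v - v) = 0 := by rw [map_sub, h2, sub_self]
  exact sub_eq_zero.1 (xR_inj hh h3)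

lemma stab_FF (p : ℕ) (γ : Γ) (d : ℕ) {b : Rh hh} (hb : b ∈ FF A (xR hh) p d) :
    (⟨ga ρ (ℤ × Unit) γ b, ga_Rh hh ρ A hρ hi γ b b.2⟩ : Rh hh) ∈ FF A (xR hh) p d :=
  a_FF A (xR hh) (aRh hh ρ A hρ hi) (aRh_x hh ρ A hρ hi) p γ d hb

include h0 in
theorem loc_Rh [Finite Γ] {p : ℕ} [Fact p.Prime] (hst : StabCond A p)
    (hsp : (⟨mo ((D : ℤ), ()) h, hh⟩ : S1 k n) ∈ Ideal.span (Set.range (xS k n)))
    (P : Ideal (Rh hh)) (hP : P.IsPrime) :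
    LocalCond ρ (Rh hh) (ga_Rh hh ρ A hρ hi) (FF A (xR hh) p) P :=
  local_FF A (xR hh) (aRh hh ρ A hρ hi) (aRh_x hh ρ A hρ hi)
    (fun J γ hJ b => gen_Rh h0 hh ρ A hρ hi J γ hJ b) hst P hP (span_Rh h0 hh hsp P hP)

include h0 in
theorem rwc_Rh [Finite Γ] {p : ℕ} [Fact p.Prime] [CharP k p] (hst : StabCond A p)
    (hsp : (⟨mo ((D : ℤ), ()) h, hh⟩ : S1 k n) ∈ Ideal.span (Set.range (xS k n))) :
    RegularWeightedCentre k (FF A (xR hh) p) :=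
  centre_FF A (xR hh) hst (span_Rh h0 hh hsp) (aR hh) (etale_Rh h0 hh)

end loc

end Pool.Agent.U197.GQ
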