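import Pool.Agent.U197.GQ.M11b

/-!
The atlas of the torsor over the blowup of the origin of a linear representation.
-/

set_option autoImplicit false
set_option linter.unusedSectionVars false

open MvPolynomial

namespace Pool.Agent.U197.GQ

open Pool.Agent.W559.Mg Pool.Agent.W559.Et Pool.Agent.H920R2

section val

variable {k K : Type} [Field k] [Field K] [Algebra k K] {Γ : Type} [Group Γ] [Fintype Γ]
  (ρ : Γ →* (K ≃ₐ[k] K))

/-- The equation of an element over the invariants. -/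
lemma es_eq (x : K) : x ^ Fintype.card Γ = -∑ l ∈ Finset.range (Fintype.card Γ),
    ((-1) ^ (l + 1) * x ^ (Fintype.card Γ - (l + 1))) * es ρ x (l + 1) := by
  classical
  have h1 : ∏ j : Γ, (-(ρ j x) + x) = 0 := by
    rw [Finset.prod_eq_zero (Finset.mem_univ 1)]
    rw [map_one]
    exact neg_add_cancel x
  rw [Finset.prod_add, Finset.sum_powerset, Finset.sum_range_succ'] at h1
  have h2 : ∑ A ∈ (Finset.univ : Finset Γ).powersetCard 0, (∏ j ∈ A, -(ρ j x)) *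
      ∏ j ∈ Finset.univ \ A, x = x ^ Fintype.card Γ := by
    rw [Finset.powersetCard_zero, Finset.sum_singleton, Finset.prod_empty, one_mul,
      Finset.sdiff_empty, Finset.prod_const, Finset.card_univ]
  rw [h2] at h1
  have h3 : x ^ Fintype.card Γ = -∑ l ∈ Finset.range (Finset.univ : Finset Γ).card,
      ∑ A ∈ (Finset.univ : Finset Γ).powersetCard (l + 1), (∏ j ∈ A, -(ρ j x)) *
      ∏ j ∈ Finset.univ \ A, x := (neg_eq_of_add_eq_zero_right h1).symm
  rw [h3, Finset.card_univ]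
  congr 1
  refine Finset.sum_congr rfl fun l hl => ?_
  unfold es
  rw [Finset.mul_sum]
  refine Finset.sum_congr rfl fun A hA => ?_
  rw [Finset.mem_powersetCard] at hA
  rw [Finset.prod_neg, Finset.prod_const, Finset.card_sdiff_of_subset hA.1, hA.2,
    Finset.card_univ]
  ring

/-- An elementary symmetric function dominates. -/
lemma exists_es (V : ValuationSubring K) {x : K} (hx : x ≠ 0) : ∃ l, l < Fintype.card Γ ∧
    V.valuation x ^ (l + 1) ≤ V.valuation (es ρ x (l + 1)) := by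
  by_contra hcon
  push Not at hcon
  have hv : V.valuation x ≠ 0 := (Valuation.ne_zero_iff _).2 hx
  have h1 := congrArg V.valuation (es_eq ρ x)
  rw [Valuation.map_neg] at h1
  have h2 : V.valuation (∑ l ∈ Finset.range (Fintype.card Γ),
      ((-1) ^ (l + 1) * x ^ (Fintype.card Γ - (l + 1))) * es ρ x (l + 1)) <
      V.valuation x ^ Fintype.card Γ := by
    apply Valuation.map_sum_lt _ (pow_ne_zero _ hv)
    intro l hl
    rw [Finset.mem_range] at hl
    rw [map_mul, map_mul, map_pow, Valuation.map_neg, map_one, one_pow, one_mul, map_pow]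
    have h3 : V.valuation x ^ Fintype.card Γ = V.valuation x ^ (Fintype.card Γ - (l + 1)) *
        V.valuation x ^ (l + 1) := by
      rw [← pow_add]
      congr 1
      omega
    rw [h3]
    exact mul_lt_mul_of_pos_left (hcon l hl) (zero_lt_iff.2 (pow_ne_zero _ hv))
  rw [← h1, map_pow] at h2
  exact lt_irrefl _ h2

end val

section atlas

variable {k : Type} [Field k] {n : ℕ}

lemma evk_mem (s : MvPolynomial (Fin n) k) : mo 0 (evk k n s) ∈ S1 k n := by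
  induction s using MvPolynomial.induction_on with
  | C a =>
    rw [← MvPolynomial.algebraMap_eq, AlgHom.commutes, ← algebraMap_ML]
    exact (S1 k n).algebraMap_mem a
  | add p q hp hq => rw [map_add, mo_add]; exact (S1 k n).add_mem hp hq
  | mul_X p i hp =>
    have h1 : mo 0 (evk k n (p * X i)) = mo 0 (evk k n p) *
        (x1 k n (Pi.single i 1) * mo (-1, ()) 1) := by
      change _ = mo 0 (evk k n p) * (mo (1, ()) (el k n (Pi.single i 1)) * mo (-1, ()) 1)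
      rw [mo_mul, mo_mul, el_single, mul_one, map_mul, zero_add]
      rfl
    rw [h1]
    exact (S1 k n).mul_mem hp ((S1 k n).mul_mem (x1_mem _) a1_mem)

variable {Γ : Type} [Group Γ] [Fintype Γ] (ρ : Γ →* (KK k n ≃ₐ[k] KK k n))
  (A : Γ →* Module.End k (Fin n → k)) (hρ : ∀ γ v, ρ γ (el k n v) = el k n (A γ v))

/-- The coordinates. -/
noncomputable def ec (k : Type) [Field k] {n : ℕ} (i : Fin n) : KK k n := el k n (Pi.single i 1)

include hρ in
lemma es_coe (i : Fin n) (l : ℕ) :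
    ((∑ B ∈ (Finset.univ : Finset Γ).powersetCard l, ∏ γ ∈ B,
      xS k n (A γ (Pi.single i 1)) : S1 k n) : ML (KK k n) (ℤ × Unit)) =
      mo ((l : ℤ), ()) (es ρ (ec k i) l) := by
  unfold es
  rw [mo_sum]
  change (S1 k n).val _ = _
  rw [map_sum]
  refine Finset.sum_congr rfl fun B hB => ?_
  rw [map_prod]
  change ∏ γ ∈ B, mo ((1 : ℤ), ()) (el k n (A γ (Pi.single i 1))) = _
  rw [mo_prod, Finset.sum_const, (Finset.mem_powersetCard.1 hB).2]
  congr 1
  · ext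
    simp
  · exact Finset.prod_congr rfl fun γ _ => (hρ γ _).symm

include hρ in
lemma es_mem (i : Fin n) (l : ℕ) : mo ((l : ℤ), ()) (es ρ (ec k i) l) ∈ S1 k n := by
  rw [← es_coe ρ A hρ]
  exact Subtype.property _

include hρ in
lemma es_span (i : Fin n) (l : ℕ) (hl : l ≠ 0) :
    (⟨mo ((l : ℤ), ()) (es ρ (ec k i) l), es_mem ρ A hρ i l⟩ : S1 k n) ∈
      Ideal.span (Set.range (xS k n)) := by
  have h1 : (⟨mo ((l : ℤ), ()) (es ρ (ec k i) l), es_mem ρ A hρ i l⟩ : S1 k n) =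
      ∑ B ∈ (Finset.univ : Finset Γ).powersetCard l, ∏ γ ∈ B,
      xS k n (A γ (Pi.single i 1)) := Subtype.ext (es_coe ρ A hρ i l).symm
  rw [h1]
  refine Ideal.sum_mem _ fun B hB => ?_
  have h2 : B.Nonempty := by
    rw [← Finset.card_pos, (Finset.mem_powersetCard.1 hB).2]
    exact Nat.pos_of_ne_zero hl
  obtain ⟨γ, hγ⟩ := h2
  exact Ideal.mem_of_dvd _ (Finset.dvd_prod_of_mem (fun γ => xS k n (A γ (Pi.single i 1))) hγ)
    (Ideal.subset_span ⟨_, rfl⟩)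

/-- The index set of the charts. -/
def TT : Type := {q : Fin n × Fin (Fintype.card Γ) // es ρ (ec k q.1) (q.2 + 1) ≠ 0}

noncomputable instance : Finite (TT ρ) := by unfold TT; infer_instance

/-- The degree of the charts. -/
def DD (Γ : Type) [Fintype Γ] : ℕ := (Fintype.card Γ).factorial

lemma DD_pos (Γ : Type) [Fintype Γ] : 0 < DD Γ := Nat.factorial_pos _

/-- The elements of the charts. -/
noncomputable def hT (t : TT ρ) : KK k n := es ρ (ec k t.1.1) (t.1.2 + 1) ^ (DD Γ / (t.1.2 + 1))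

lemma dvd_DD (l : Fin (Fintype.card Γ)) : (l : ℕ) + 1 ∣ DD Γ :=
  Nat.dvd_factorial (Nat.succ_pos _) l.2

lemma div_ne (l : Fin (Fintype.card Γ)) : DD Γ / (l + 1) ≠ 0 := by
  obtain ⟨c, hc⟩ := dvd_DD (Γ := Γ) l
  rw [hc, Nat.mul_div_cancel_left _ (Nat.succ_pos _)]
  rintro rfl
  have := DD_pos Γ
  omega

lemma hT_ne (t : TT ρ) : hT ρ t ≠ 0 := pow_ne_zero _ t.2

lemma hT_inv (t : TT ρ) (γ : Γ) : ρ γ (hT ρ t) = hT ρ t := by
  unfold hT
  rw [map_pow, es_inv]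

lemma hT_mo (t : TT ρ) : mo ((DD Γ : ℤ), ()) (hT ρ t) =
    mo ((((t.1.2 : ℕ) + 1 : ℕ) : ℤ), ()) (es ρ (ec k t.1.1) (t.1.2 + 1)) ^
      (DD Γ / (t.1.2 + 1)) := by
  rw [mo_pow]
  unfold hT
  congr 1
  ext
  rw [Prod.smul_fst, nsmul_eq_mul, ← Nat.cast_mul, Nat.div_mul_cancel (dvd_DD t.1.2)]

include hρ in
lemma hT_mem (t : TT ρ) : mo ((DD Γ : ℤ), ()) (hT ρ t) ∈ S1 k n := by
  rw [hT_mo]
  exact (S1 k n).pow_mem (es_mem ρ A hρ _ _) _

lemma hT_span (t : TT ρ) : (⟨mo ((DD Γ : ℤ), ()) (hT ρ t), hT_mem ρ A hρ t⟩ : S1 k n) ∈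
    Ideal.span (Set.range (xS k n)) := by
  have h1 : (⟨mo ((DD Γ : ℤ), ()) (hT ρ t), hT_mem ρ A hρ t⟩ : S1 k n) =
      (⟨_, es_mem ρ A hρ t.1.1 (t.1.2 + 1)⟩ : S1 k n) ^ (DD Γ / (t.1.2 + 1)) :=
    Subtype.ext (hT_mo ρ t)
  rw [h1]
  exact Ideal.pow_mem_of_mem _ (es_span ρ A hρ _ _ (Nat.succ_ne_zero _)) _
    (Nat.pos_of_ne_zero (div_ne _))

/-- The field of invariants. -/
def Kf : Subfield (KK k n) where
  carrier := {x | ∀ γ, ρ γ x = x}
  mul_mem' := fun ha hb γ => by rw [map_mul, ha γ, hb γ]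
  add_mem' := fun ha hb γ => by rw [map_add, ha γ, hb γ]
  one_mem' := fun γ => map_one _
  zero_mem' := fun γ => map_zero _
  neg_mem' := fun ha γ => by rw [map_neg, ha γ]
  inv_mem' := fun x hx γ => by rw [map_inv₀, hx γ]

/-- The chart. -/
noncomputable def RT (t : TT ρ) : Subalgebra k (ML (KK k n) (ℤ × Unit)) := Rh (hT_mem ρ A hρ t)

lemma hT_RT (t : TT ρ) : mo ((DD Γ : ℤ), ()) (hT ρ t) ∈ RT ρ A hρ t ⊓ FX ρ (ℤ × Unit) :=
  ⟨S1_le_Rh _ (hT_mem ρ A hρ t), (mo_mem_FX ρ).2 fun γ => hT_inv ρ t γ⟩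

lemma hT_RT' (t : TT ρ) : mo (-((DD Γ : ℤ), ())) (hT ρ t)⁻¹ ∈
    RT ρ A hρ t ⊓ FX ρ (ℤ × Unit) :=
  ⟨inv_mem_lc _ _ _ (hT_mem ρ A hρ t) (mo_inv (hT_ne ρ t)),
    (mo_mem_FX ρ).2 fun γ => by rw [map_inv₀, hT_inv]⟩

/-- A valuation has a chart. -/
lemma cv_RT [NeZero n] (Ainv : Subalgebra k (MvPolynomial (Fin n) k))
    (hAinv : ∀ s, s ∈ Ainv ↔ ∀ γ, ρ γ (evk k n s) = evk k n s)
    (hst : ∀ γ (s : MvPolynomial (Fin n) k), ∃ s', ρ γ (evk k n s) = evk k n s')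
    (V : ValuationSubring (KK k n)) (hV : ∀ a : Ainv, evk k n a ∈ V) :
    ∃ t E' ψ, Nrm V E' ψ (RT ρ A hρ t) := by
  classical
  -- the chart with the greatest value
  have hec : ∀ i : Fin n, ec k i ≠ 0 := by
    intro i h
    have h1 := el_inj h
    have h2 := congrFun h1 i
    rw [Pi.single_eq_same] at h2
    exact one_ne_zero h2
  have hex : ∀ i : Fin n, ∃ l : Fin (Fintype.card Γ),
      V.valuation (ec k i) ^ ((l : ℕ) + 1) ≤ V.valuation (es ρ (ec k i) (l + 1)) := by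
    intro i
    obtain ⟨l, hl, h⟩ := exists_es ρ V (hec i)
    exact ⟨⟨l, hl⟩, h⟩
  choose l hl using hex
  have hes0 : ∀ i, es ρ (ec k i) (l i + 1) ≠ 0 := by
    intro i h
    have h1 := hl i
    rw [h, map_zero] at h1
    exact pow_ne_zero _ ((Valuation.ne_zero_iff _).2 (hec i)) (le_antisymm h1 zero_le)
  let tt : Fin n → TT ρ := fun i => ⟨(i, l i), hes0 i⟩
  have hle : ∀ i, V.valuation (ec k i) ^ DD Γ ≤ V.valuation (hT ρ (tt i)) := by
    intro i
    change _ ≤ V.valuation (es ρ (ec k i) (l i + 1) ^ (DD Γ / (l i + 1)))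
    rw [map_pow]
    calc V.valuation (ec k i) ^ DD Γ =
        (V.valuation (ec k i) ^ ((l i : ℕ) + 1)) ^ (DD Γ / (l i + 1)) := by
          rw [← pow_mul, Nat.mul_div_cancel' (dvd_DD (l i))]
      _ ≤ _ := pow_le_pow_left' (hl i) _
  obtain ⟨i0, hi0⟩ := Finite.exists_max (fun i : Fin n => V.valuation (hT ρ (tt i)))
  -- the value is at most one
  have h1 : V.valuation (hT ρ (tt i0)) ≤ 1 := by
    change V.valuation (es ρ (ec k i0) (l i0 + 1) ^ (DD Γ / (l i0 + 1))) ≤ 1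
    rw [map_pow]
    refine pow_le_one' ?_ _
    rw [V.valuation_le_one_iff]
    choose s' hs' using hst
    obtain ⟨w, h2⟩ : ∃ w, es ρ (ec k i0) (l i0 + 1) = evk k n w := by
      refine ⟨∑ B ∈ (Finset.univ : Finset Γ).powersetCard (l i0 + 1), ∏ γ ∈ B,
          s' γ (X i0), ?_⟩
      unfold es
      rw [map_sum]
      refine Finset.sum_congr rfl fun B _ => ?_
      rw [map_prod]
      refine Finset.prod_congr rfl fun γ _ => ?_
      rw [← hs']
      unfold ec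
      rw [el_single]
    rw [h2]
    refine hV ⟨w, ?_⟩
    rw [hAinv]
    intro γ
    rw [← h2]
    exact es_inv ρ _ _ γ
  have h0 : V.valuation (hT ρ (tt i0)) ≠ 0 := (Valuation.ne_zero_iff _).2 (hT_ne ρ _)
  refine ⟨tt i0, DD Γ, fun m => V.valuation (hT ρ (tt i0)) ^ m.1, ?_⟩
  refine nrm_lc (C := S1 k n) ?_ (hT_mem ρ A hρ (tt i0)) (zpow_natCast _ _).symm
  have hS : S1 k n = Algebra.adjoin k
      ({mo (-1, ()) 1} ∪ Set.range fun i : Fin n => mo (1, ()) (ec k i)) := by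
    apply le_antisymm
    · have h2 : (Ph : MvPolynomial (Fin (n + 1)) k →ₐ[k] _).range = S1 k n := rfl
      rw [← h2]
      rintro _ ⟨P, rfl⟩
      refine poly_mem _ (Ph : MvPolynomial (Fin (n + 1)) k →ₐ[k] _) (fun i => ?_) P
      rw [Ph_eq]
      refine Fin.cases ?_ (fun i => ?_) i
      · rw [avL_zero]
        exact Algebra.subset_adjoin (Or.inl rfl)
      · rw [← lS_single, avL_lS]
        exact Algebra.subset_adjoin (Or.inr ⟨i, rfl⟩)
    · rw [Algebra.adjoin_le_iff]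
      rintro f (hf | ⟨i, rfl⟩)
      · rw [hf]
        exact a1_mem
      · exact x1_mem _
  rw [hS]
  refine nrm_adjoin (DD_pos Γ) (fun m => zpow_ne_zero _ h0)
    (fun m m' => by rw [Prod.fst_add, zpow_add₀ h0]) (fun r => ?_) _ ?_
  · have h2 := hV (algebraMap k Ainv r)
    have h3 : evk k n ((algebraMap k Ainv r : Ainv) : MvPolynomial (Fin n) k) =
        algebraMap k (KK k n) r := by
      have : ((algebraMap k Ainv r : Ainv) : MvPolynomial (Fin n) k) = algebraMap k _ r := rfl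
      rw [this, AlgHom.commutes]
    rwa [h3] at h2
  · rintro f (hf | ⟨i, rfl⟩) m
    · rw [hf]
      refine nrm_mo (ψ := fun m : ℤ × Unit => V.valuation (hT ρ (tt i0)) ^ m.1) (DD_pos Γ) ?_ m
      rw [map_one, one_pow]
      change (1 : V.ValueGroup) ≤ V.valuation (hT ρ (tt i0)) ^ (-1 : ℤ)
      rw [zpow_neg_one]
      exact (one_le_inv₀ (zero_lt_iff.2 h0)).2 h1
    · refine nrm_mo (ψ := fun m : ℤ × Unit => V.valuation (hT ρ (tt i0)) ^ m.1) (DD_pos Γ) ?_ m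
      change V.valuation (ec k i) ^ DD Γ ≤ V.valuation (hT ρ (tt i0)) ^ (1 : ℤ)
      rw [zpow_one]
      exact (hle i).trans (hi0 i)

/-- **The atlas.** -/
theorem pb_zero [NeZero n] (Ainv : Subalgebra k (MvPolynomial (Fin n) k))
    (hAinv : ∀ s, s ∈ Ainv ↔ ∀ γ, ρ γ (evk k n s) = evk k n s)
    (hst : ∀ γ (s : MvPolynomial (Fin n) k), ∃ s', ρ γ (evk k n s) = evk k n s') :
    PB {V : ValuationSubring (KK k n) | ∀ a : Ainv, ((evk k n).comp Ainv.val) a ∈ V} (Kf ρ)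
      (fun _ : Unit => Set.range ((evk k n).comp Ainv.val)) (FX ρ (ℤ × Unit)) (DD Γ)
      (RT ρ A hρ) (hT ρ) where
  H0 t := hT_ne ρ t
  HK t := hT_inv ρ t
  gr t := gr_inf (gr_Rh _) (gr_FX ρ)
  aa t := ⟨(), by
    rintro _ ⟨a, rfl⟩
    refine ⟨S1_le_Rh _ (evk_mem _), (mo_mem_FX ρ).2 ?_⟩
    exact (hAinv _).1 a.2⟩
  inF t x hx := (mo_mem_FX ρ).1 hx.2
  Fi m a ha hm := by
    rw [mo_mem_FX] at hm ⊢
    intro γ
    rw [map_inv₀, hm γ]
  rt t t' := ⟨rt_Rh (hT_ne ρ t) (hT_mem ρ A hρ t) (hT_mem ρ A hρ t'), (mo_mem_FX ρ).2 fun γ => by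
    rw [map_div₀, hT_inv, hT_inv]⟩
  gl t t' f hf := gl_Rh (hT_ne ρ t) (hT_mem ρ A hρ t) (hT_mem ρ A hρ t') hf
  cv V hV := cv_RT ρ A hρ Ainv hAinv hst V hV
  E0 := DD_pos Γ
  un t m := by
    have h1 := zpow_mem' (hT_RT ρ A hρ t) (hT_RT' ρ A hρ t) m.1
    have h2 := zpow_mem' (hT_RT ρ A hρ t) (hT_RT' ρ A hρ t) (-m.1)
    have h3 : m.1 • (((DD Γ : ℤ), ()) : ℤ × Unit) = DD Γ • m := by
      ext
      simp [mul_comm]
    refine ⟨hT ρ t ^ m.1, zpow_ne_zero _ (hT_ne ρ t), ?_, ?_⟩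
    · rwa [h3] at h1
    · rwa [zpow_neg, neg_smul, h3] at h2
  gen t := by
    rw [eq_top_iff]
    intro m _
    have h1 : ((1 : ℤ), ()) ∈ AddSubgroup.closure {m : ℤ × Unit | ∃ a : KK k n, a ≠ 0 ∧
        mo m a ∈ RT ρ A hρ t ⊓ FX ρ (ℤ × Unit)} := by
      refine AddSubgroup.subset_closure ⟨hT ρ t, hT_ne ρ t, ?_⟩
      have h2 : mo ((1 : ℤ), ()) (hT ρ t) = mo ((DD Γ : ℤ), ()) (hT ρ t) *
          (mo ((-1 : ℤ), ()) 1) ^ (DD Γ - 1) := by
        rw [mo_pow, mo_mul, one_pow, mul_one]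
        congr 1
        ext
        have h4 := DD_pos Γ
        have h5 : ((DD Γ - 1 : ℕ) : ℤ) = (DD Γ : ℤ) - 1 := by omega
        change (1 : ℤ) = (DD Γ : ℤ) + (DD Γ - 1) • (-1 : ℤ)
        rw [nsmul_eq_mul, h5]
        ring
      have h6 : mo ((-1 : ℤ), ()) (1 : KK k n) ∈ RT ρ A hρ t ⊓ FX ρ (ℤ × Unit) :=
        ⟨S1_le_Rh _ a1_mem, (mo_mem_FX ρ).2 fun γ => map_one _⟩
      rw [h2]
      exact Subalgebra.mul_mem _ (hT_RT ρ A hρ t) (Subalgebra.pow_mem _ h6 _)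
    have h3 : m = m.1 • ((1 : ℤ), ()) := by
      ext
      simp
    rw [h3]
    exact AddSubgroup.zsmul_mem _ h1 _

end atlas

end Pool.Agent.U197.GQ
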