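import Pool.Agent.U197.GQ.M12
import Pool.Agent.U197.GQ.M13
import Pool.Agent.W333.Et.Modif
import Pool.Agent.W417.Et.Step
import Pool.Agent.W440.ET.Model

/-!
Resolution of the quotient of an affine space by a finite linear group whose nonzero vectors have
stabilizers of order one or `p`.
-/

set_option autoImplicit false
set_option linter.unusedSectionVars false

open MvPolynomial AlgebraicGeometry

namespace Pool.Agent.U197.GQ

open Pool.Agent.W559.Mg Pool.Agent.W559.Et Pool.Agent.H920R2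

section frac

variable {k : Type} [Field k] {n : ℕ} {Γ : Type} [Group Γ] [Fintype Γ]
  (ρ : Γ →* (KK k n ≃ₐ[k] KK k n))

/-- Invariant fractions are fractions of invariants. -/
lemma frac_inv (Ainv : Subalgebra k (MvPolynomial (Fin n) k))
    (hAinv : ∀ s, s ∈ Ainv ↔ ∀ γ, ρ γ (evk k n s) = evk k n s)
    (hst : ∀ γ (s : MvPolynomial (Fin n) k), ∃ s', ρ γ (evk k n s) = evk k n s')
    (x : KK k n) (hx : ∀ γ, ρ γ x = x) : ∃ a b : Ainv,
      ((evk k n).comp Ainv.val) b ≠ 0 ∧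
      x = ((evk k n).comp Ainv.val) a / ((evk k n).comp Ainv.val) b := by
  classical
  choose s' hs' using hst
  obtain ⟨s, t, ht, rfl⟩ := IsFractionRing.div_surjective (A := MvPolynomial (Fin n) k) x
  have ht0 : evk k n t ≠ 0 := by
    intro h
    exact nonZeroDivisors.ne_zero ht (evk_inj (h.trans (map_zero _).symm))
  have hb : evk k n (∏ γ, s' γ t) = ∏ γ, ρ γ (evk k n t) := by
    rw [map_prod]
    exact Finset.prod_congr rfl fun γ _ => (hs' γ t).symm
  have hb0 : evk k n (∏ γ, s' γ t) ≠ 0 := by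
    rw [hb, Finset.prod_ne_zero_iff]
    intro γ _ h
    exact ht0 ((map_eq_zero (ρ γ)).1 h)
  have hbi : ∀ δ, ρ δ (evk k n (∏ γ, s' γ t)) = evk k n (∏ γ, s' γ t) := by
    intro δ
    rw [hb, map_prod]
    refine Fintype.prod_equiv (Equiv.mulLeft δ) _ _ fun γ => ?_
    change ρ δ (ρ γ (evk k n t)) = ρ (δ * γ) (evk k n t)
    rw [map_mul]
    rfl
  have ha : evk k n (s * ∏ γ ∈ Finset.univ.erase (1 : Γ), s' γ t) =
      (evk k n s / evk k n t) * evk k n (∏ γ, s' γ t) := by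
    have h1 : evk k n (s' 1 t) = evk k n t := by
      rw [← hs', map_one]
      rfl
    rw [← Finset.mul_prod_erase Finset.univ (fun γ => s' γ t) (Finset.mem_univ 1), map_mul,
      map_mul (evk k n) (s' 1 t), h1]
    field_simp
  refine ⟨⟨s * ∏ γ ∈ Finset.univ.erase (1 : Γ), s' γ t, ?_⟩, ⟨∏ γ, s' γ t, ?_⟩, hb0, ?_⟩
  · rw [hAinv]
    intro γ
    rw [ha, map_mul, hbi]
    congr 1
    exact hx γ
  · rw [hAinv]
    exact hbi
  · change evk k n s / evk k n t = evk k n (s * ∏ γ ∈ Finset.univ.erase (1 : Γ), s' γ t) /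
      evk k n (∏ γ, s' γ t)
    rw [ha, mul_div_assoc, div_self hb0, mul_one]

end frac

section main

variable {k : Type} [Field k] [PerfectField k] {n : ℕ} [NeZero n] {Γ : Type} [Group Γ]
  [Fintype Γ] (ρ : Γ →* (KK k n ≃ₐ[k] KK k n))
  (A : Γ →* Module.End k (Fin n → k)) (hρ : ∀ γ v, ρ γ (el k n v) = el k n (A γ v))

include hρ in
/-- **Resolution of the quotient.** -/
theorem res_lin {p : ℕ} [Fact p.Prime] [CharP k p] (hstab : StabCond A p)
    (hA : ∀ γ, A γ = 1 → γ = 1) (Ainv : Subalgebra k (MvPolynomial (Fin n) k))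
    (hAinv : ∀ s, s ∈ Ainv ↔ ∀ γ, ρ γ (evk k n s) = evk k n s)
    (hst : ∀ γ (s : MvPolynomial (Fin n) k), ∃ s', ρ γ (evk k n s) = evk k n s') :
    HasResolution (X := Spec (CommRingCat.of Ainv))
      (Spec.map (CommRingCat.ofHom (algebraMap k Ainv))) := by
  have hpb := pb_zero ρ A hρ Ainv hAinv hst
  obtain ⟨T1, _, E1, C1, H1, h1⟩ := mb_of_centre ρ hpb (fun t => gr_Rh (hT_mem ρ A hρ t))
    (fun t => ga_Rh (hT_mem ρ A hρ t) ρ A hρ (hT_inv ρ t))
    (fun t => smooth_Rh (hT_ne ρ t) (hT_mem ρ A hρ t))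
    (fun t => faith_Rh (hT_mem ρ A hρ t) ρ A hρ hA)
    (fun t => FF A (xR (hT_mem ρ A hρ t)) p)
    (fun t => rwc_Rh (hT_ne ρ t) (hT_mem ρ A hρ t) A hstab (hT_span ρ A hρ t))
    (fun t γ d a ha => stab_FF (hT_mem ρ A hρ t) ρ A hρ (hT_inv ρ t) p γ d ha)
    (fun t d b hb m => hom_FF (hT_mem ρ A hρ t) A p d hb m)
    (fun t t' d b hb => glue_FF (hT_ne ρ t) (hT_mem ρ A hρ t) (hT_mem ρ A hρ t') A p d hb)
    (fun t => pos_Rh (hT_mem ρ A hρ t) A hA p)
    (fun t P hP => loc_Rh (hT_ne ρ t) (hT_mem ρ A hρ t) ρ A hρ (hT_inv ρ t) hstab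
      (hT_span ρ A hρ t) P hP)
  have hstep := Pool.Agent.W417.Et.step Pool.Agent.W333.Et.modif
  obtain ⟨T2, _, E2, C2, H2, h2⟩ := hstep k (KK k n) (ℤ × Unit) _ _ _ _ T1 E1 C1 H1 h1
  obtain ⟨T3, _, E3, C3, H3, h3⟩ := hstep k (KK k n) Unit _ _ _ _ T2 E2 C2 H2 h2
  exact Pool.Agent.W440.ET.aff k (KK k n) Ainv ((evk k n).comp Ainv.val)
    (evk_inj.comp Subtype.val_injective) (Kf ρ) (fun x hx => frac_inv ρ Ainv hAinv hst x hx) T3 E3
    C3 H3 h3

end main

end Pool.Agent.U197.GQ
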