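import Pool.Agent.U197.GQ.M14
import Pool.Agent.H920R2.Trans

/-!
Resolution of the quotient of an affine space by a finite subgroup of the general linear group
whose nonzero vectors have stabilizers of order one or `p`.
-/

set_option autoImplicit false
set_option linter.unusedSectionVars false

open MvPolynomial AlgebraicGeometry

namespace Pool.Agent.U197.GQ

open Pool.Agent.W559.Mg Pool.Agent.W559.Et Pool.Agent.H920R2

section lin

variable {k : Type} [Field k] {n : ℕ}

/-- The substitution `x ↦ g x`. -/
noncomputable def sub (g : Matrix (Fin n) (Fin n) k) :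
    MvPolynomial (Fin n) k →ₐ[k] MvPolynomial (Fin n) k := aeval fun i => ∑ j, C (g i j) * X j

lemma sub_X (g : Matrix (Fin n) (Fin n) k) (i : Fin n) :
    sub g (X i) = ∑ j, C (g i j) * X j := aeval_X _ _

lemma sub_one : sub (1 : Matrix (Fin n) (Fin n) k) = AlgHom.id k _ := by
  classical
  apply MvPolynomial.algHom_ext
  intro i
  rw [sub_X, Finset.sum_eq_single i]
  · rw [Matrix.one_apply_eq, map_one, one_mul]
    rfl
  · intro j _ hj
    rw [Matrix.one_apply_ne (Ne.symm hj), map_zero, zero_mul]
  · simp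

lemma sub_mul (g h : Matrix (Fin n) (Fin n) k) : sub (g * h) = (sub h).comp (sub g) := by
  apply MvPolynomial.algHom_ext
  intro i
  rw [AlgHom.comp_apply, sub_X, sub_X, map_sum]
  simp only [map_mul, sub_X, Matrix.mul_apply, map_sum]
  have h1 : ∀ j, sub h (C (g i j)) = C (g i j) := fun j => by
    rw [← MvPolynomial.algebraMap_eq, AlgHom.commutes]
  simp only [h1, Finset.sum_mul, Finset.mul_sum]
  rw [Finset.sum_comm]
  refine Finset.sum_congr rfl fun j _ => Finset.sum_congr rfl fun l _ => ?_
  rw [mul_assoc]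

variable (G : Subgroup (Matrix.GeneralLinearGroup (Fin n) k))

/-- The action on polynomials. -/
noncomputable def th : G →* (MvPolynomial (Fin n) k ≃ₐ[k] MvPolynomial (Fin n) k) where
  toFun g := AlgEquiv.ofAlgHom (sub ((g⁻¹ : G) : Matrix.GeneralLinearGroup (Fin n) k).1)
    (sub (g : Matrix.GeneralLinearGroup (Fin n) k).1)
    (by
      rw [← sub_mul, ← Units.val_mul, ← Subgroup.coe_mul, mul_inv_cancel, Subgroup.coe_one,
        Units.val_one, sub_one])
    (by
      rw [← sub_mul, ← Units.val_mul, ← Subgroup.coe_mul, inv_mul_cancel, Subgroup.coe_one,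
        Units.val_one, sub_one])
  map_one' := by
    apply AlgEquiv.ext
    intro f
    change sub (((1 : G)⁻¹ : G) : Matrix.GeneralLinearGroup (Fin n) k).1 f = f
    rw [inv_one, Subgroup.coe_one, Units.val_one, sub_one]
    rfl
  map_mul' g h := by
    apply AlgEquiv.ext
    intro f
    change sub (((g * h)⁻¹ : G) : Matrix.GeneralLinearGroup (Fin n) k).1 f =
      sub ((g⁻¹ : G) : Matrix.GeneralLinearGroup (Fin n) k).1
        (sub ((h⁻¹ : G) : Matrix.GeneralLinearGroup (Fin n) k).1 f)
    rw [mul_inv_rev, Subgroup.coe_mul, Units.val_mul, sub_mul]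
    rfl

lemma th_apply (g : G) (f : MvPolynomial (Fin n) k) :
    th G g f = sub ((g⁻¹ : G) : Matrix.GeneralLinearGroup (Fin n) k).1 f := rfl

/-- The action on the rational functions. -/
noncomputable def rh : G →* (KK k n ≃ₐ[k] KK k n) :=
  (IsFractionRing.fieldEquivOfAlgEquivHom k (KK k n)).comp (th G)

lemma rh_evk (g : G) (f : MvPolynomial (Fin n) k) : rh G g (evk k n f) = evk k n (th G g f) :=
  IsFractionRing.fieldEquivOfAlgEquiv_algebraMap k (KK k n) (KK k n) (th G g) f

/-- The action on linear forms. -/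
noncomputable def Am : G →* Module.End k (Fin n → k) where
  toFun g := Matrix.mulVecLin ((g⁻¹ : G) : Matrix.GeneralLinearGroup (Fin n) k).1.transpose
  map_one' := by
    rw [inv_one, Subgroup.coe_one, Units.val_one, Matrix.transpose_one, Matrix.mulVecLin_one]
    rfl
  map_mul' g h := by
    rw [mul_inv_rev, Subgroup.coe_mul, Units.val_mul, Matrix.transpose_mul,
      Matrix.mulVecLin_mul]
    rfl

lemma Am_apply (g : G) (v : Fin n → k) : Am G g v =
    ((g⁻¹ : G) : Matrix.GeneralLinearGroup (Fin n) k).1.transpose.mulVec v := rfl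

lemma rh_el (g : G) (v : Fin n → k) : rh G g (el k n v) = el k n (Am G g v) := by
  classical
  have h1 : ((th G g : MvPolynomial (Fin n) k →ₐ[k] MvPolynomial (Fin n) k).toLinearMap ∘ₗ
      Pool.Agent.Y177.Ga.ln k n) = Pool.Agent.Y177.Ga.ln k n ∘ₗ Am G g := by
    apply lin_ext
    intro i
    change sub ((g⁻¹ : G) : Matrix.GeneralLinearGroup (Fin n) k).1
      (Pool.Agent.Y177.Ga.ln k n (Pi.single i 1)) = Pool.Agent.Y177.Ga.ln k n (Am G g (Pi.single i 1))
    rw [Pool.Agent.Y177.Ga.ln_single, sub_X, Am_apply, Matrix.mulVec_single_one]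
    change _ = ∑ j, _ • (X j : MvPolynomial (Fin n) k)
    refine Finset.sum_congr rfl fun j _ => ?_
    rw [MvPolynomial.smul_eq_C_mul]
    rfl
  change rh G g (evk k n (Pool.Agent.Y177.Ga.ln k n v)) =
    evk k n (Pool.Agent.Y177.Ga.ln k n (Am G g v))
  rw [rh_evk]
  exact congrArg (evk k n) (LinearMap.congr_fun h1 v)

lemma Am_faithful (g : G) (h : Am G g = 1) : g = 1 := by
  classical
  have h1 : ((g⁻¹ : G) : Matrix.GeneralLinearGroup (Fin n) k).1.transpose = 1 := by
    apply Matrix.toLin'.injective
    rw [Matrix.toLin'_one]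
    exact h
  have h2 : ((g⁻¹ : G) : Matrix.GeneralLinearGroup (Fin n) k) = 1 := by
    apply Units.ext
    rw [Units.val_one]
    apply Matrix.transpose_injective
    rw [h1, Matrix.transpose_one]
  have h3 : g⁻¹ = 1 := Subtype.ext h2
  exact inv_eq_one.1 h3

/-- A proper subspace is orthogonal to a nonzero vector. -/
lemma exists_orth {W : Submodule k (Fin n → k)} (hW : W ≠ ⊤) :
    ∃ w : Fin n → k, w ≠ 0 ∧ ∀ v ∈ W, v ⬝ᵥ w = 0 := by
  classical
  obtain ⟨f, hf, hfW⟩ := Submodule.exists_le_ker_of_lt_top W (lt_top_iff_ne_top.2 hW)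
  refine ⟨fun i => f (Pi.single i 1), fun h => hf ?_, fun v hv => ?_⟩
  · apply (Pi.basisFun k (Fin n)).ext
    intro i
    rw [Pi.basisFun_apply]
    exact congrFun h i
  · have h1 : f v = 0 := hfW hv
    rw [← h1]
    have h2 : v = ∑ i, v i • (Pi.single i 1 : Fin n → k) := by
      funext j
      rw [Finset.sum_apply, Finset.sum_eq_single j]
      · simp
      · intro i _ hi
        simp [Pi.single_eq_of_ne (Ne.symm hi)]
      · simp
    conv_rhs => rw [h2]
    rw [map_sum]
    exact Finset.sum_congr rfl fun i _ => by rw [map_smul, smul_eq_mul]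

lemma stab_cond {p : ℕ} [Fact p.Prime] [Finite G]
    (hG : ∀ v : Fin n → k, v ≠ 0 →
      Nat.card {g : G // (g : Matrix.GeneralLinearGroup (Fin n) k).1.mulVec v = v} = 1 ∨
      Nat.card {g : G // (g : Matrix.GeneralLinearGroup (Fin n) k).1.mulVec v = v} = p) :
    StabCond (Am G) p := by
  rintro H ⟨W, hW, hH⟩
  obtain ⟨w, hw0, hw⟩ := exists_orth hW
  let St : Subgroup G :=
    { carrier := {g : G | (g : Matrix.GeneralLinearGroup (Fin n) k).1.mulVec w = w}
      one_mem' := by
        change ((1 : G) : Matrix.GeneralLinearGroup (Fin n) k).1.mulVec w = w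
        rw [Subgroup.coe_one, Units.val_one, Matrix.one_mulVec]
      mul_mem' := by
        intro a b ha hb
        change ((a * b : G) : Matrix.GeneralLinearGroup (Fin n) k).1.mulVec w = w
        rw [Subgroup.coe_mul, Units.val_mul, ← Matrix.mulVec_mulVec, show
          ((b : Matrix.GeneralLinearGroup (Fin n) k).1.mulVec w = w) from hb]
        exact ha
      inv_mem' := by
        intro a ha
        change ((a⁻¹ : G) : Matrix.GeneralLinearGroup (Fin n) k).1.mulVec w = w
        have h1 : (a : Matrix.GeneralLinearGroup (Fin n) k).1.mulVec w = w := ha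
        conv_lhs => rw [← h1]
        rw [Matrix.mulVec_mulVec, ← Units.val_mul, ← Subgroup.coe_mul, inv_mul_cancel,
          Subgroup.coe_one, Units.val_one, Matrix.one_mulVec] }
  have hle : H ≤ St := by
    intro g hg
    have h1 : ∀ v, v ⬝ᵥ (((g⁻¹ : G) : Matrix.GeneralLinearGroup (Fin n) k).1.mulVec w - w) = 0 := by
      intro v
      have h2 := hw _ (hH g hg v)
      rw [Nn_apply, Am_apply, sub_dotProduct, Matrix.mulVec_transpose,
        ← Matrix.dotProduct_mulVec] at h2
      rw [dotProduct_sub]
      exact h2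
    have h2 : ((g⁻¹ : G) : Matrix.GeneralLinearGroup (Fin n) k).1.mulVec w = w := by
      rw [← sub_eq_zero]
      exact (dotProduct_eq_zero_iff.1 fun v => by rw [dotProduct_comm]; exact h1 v)
    have h3 : g⁻¹ ∈ St := h2
    exact inv_mem_iff.1 h3
  have hcard : Nat.card St = 1 ∨ Nat.card St = p := hG w hw0
  have hdvd := Subgroup.card_dvd_of_le hle
  rcases hcard with h | h
  · left
    rw [h] at hdvd
    exact Nat.dvd_one.1 hdvd
  · rw [h] at hdvd
    exact (Nat.dvd_prime (Fact.out : p.Prime)).1 hdvd

lemma finiteType_of (R : Subalgebra k (MvPolynomial (Fin n) k)) [Finite G]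
    (hR : ∀ f, f ∈ R ↔ ∀ g : G, th G g f = f) : Algebra.FiniteType k R := by
  classical
  have _ : Fintype G := Fintype.ofFinite G
  have h1 : Algebra.IsIntegral R (MvPolynomial (Fin n) k) := by
    refine ⟨fun s => ?_⟩
    let P : Polynomial (MvPolynomial (Fin n) k) := ∏ g : G, (Polynomial.X - Polynomial.C (th G g s))
    have hP : P.Monic := Polynomial.monic_prod_of_monic _ _ fun g _ => Polynomial.monic_X_sub_C _
    have hmap : ∀ h : G, P.map ((th G h : MvPolynomial (Fin n) k →ₐ[k] MvPolynomial (Fin n) k) :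
        MvPolynomial (Fin n) k →+* MvPolynomial (Fin n) k) = P := by
      intro h
      change (∏ g : G, (Polynomial.X - Polynomial.C (th G g s))).map _ = _
      rw [Polynomial.map_prod]
      refine Fintype.prod_equiv (Equiv.mulLeft h) _ _ fun g => ?_
      rw [Polynomial.map_sub, Polynomial.map_X, Polynomial.map_C]
      congr 2
      change th G h (th G g s) = th G (h * g) s
      rw [map_mul]
      rfl
    have hc : ∀ i, P.coeff i ∈ R := by
      intro i
      rw [hR]
      intro h
      have h2 := congrArg (fun Q : Polynomial (MvPolynomial (Fin n) k) => Q.coeff i) (hmap h)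
      simp only [Polynomial.coeff_map] at h2
      exact h2
    have hl : P ∈ Polynomial.lifts (algebraMap R (MvPolynomial (Fin n) k)) := by
      rw [Polynomial.lifts_iff_coeff_lifts]
      intro i
      exact ⟨⟨_, hc i⟩, rfl⟩
    obtain ⟨Q, hQ, -, hQm⟩ := Polynomial.lifts_and_natDegree_eq_and_monic hl hP
    refine ⟨Q, hQm, ?_⟩
    rw [← Polynomial.eval_map, hQ]
    change Polynomial.eval s (∏ g : G, (Polynomial.X - Polynomial.C (th G g s))) = 0
    rw [Polynomial.eval_prod]
    refine Finset.prod_eq_zero (Finset.mem_univ 1) ?_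
    rw [map_one, Polynomial.eval_sub, Polynomial.eval_X, Polynomial.eval_C]
    exact sub_self s
  have h2 : Algebra.FiniteType R (MvPolynomial (Fin n) k) := by
    apply Algebra.FiniteType.of_restrictScalars_finiteType k
  have h3 : Module.Finite R (MvPolynomial (Fin n) k) := Algebra.IsIntegral.finite
  refine ⟨?_⟩
  refine fg_of_fg_of_fg k R (MvPolynomial (Fin n) k) ?_ h3.1 ?_
  · exact (inferInstance : Algebra.FiniteType k (MvPolynomial (Fin n) k)).1
  · exact Subtype.val_injective

/-- **Quotients by linear groups with small stabilizers.** -/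
theorem lin_main [PerfectField k] {p : ℕ} [Fact p.Prime] [CharP k p] [Finite G]
    (hG : ∀ v : Fin n → k, v ≠ 0 →
      Nat.card {g : G // (g : Matrix.GeneralLinearGroup (Fin n) k).1.mulVec v = v} = 1 ∨
      Nat.card {g : G // (g : Matrix.GeneralLinearGroup (Fin n) k).1.mulVec v = v} = p)
    (R : Subalgebra k (MvPolynomial (Fin n) k))
    (hR : ∀ f, f ∈ R ↔ ∀ g ∈ G, sub (g : Matrix.GeneralLinearGroup (Fin n) k).1 f = f) :
    IsVariety (X := Spec (CommRingCat.of R)) (Spec.map (CommRingCat.ofHom (algebraMap k R))) ∧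
    HasResolution (X := Spec (CommRingCat.of R))
      (Spec.map (CommRingCat.ofHom (algebraMap k R))) := by
  classical
  have _ : Fintype G := Fintype.ofFinite G
  have hR' : ∀ f, f ∈ R ↔ ∀ g : G, th G g f = f := by
    intro f
    rw [hR]
    constructor
    · intro h g
      exact h _ (g⁻¹ : G).2
    · intro h g hg
      have h1 := h (⟨g, hg⟩ : G)⁻¹
      rw [th_apply, inv_inv] at h1
      exact h1
  have hft : Algebra.FiniteType k R := finiteType_of G R hR'
  refine ⟨isVariety_spec, ?_⟩
  rcases Nat.eq_zero_or_pos n with h | h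
  · subst h
    have htop : R = ⊤ := by
      rw [eq_top_iff]
      intro f _
      rw [hR']
      intro g
      obtain ⟨c, rfl⟩ := MvPolynomial.C_surjective (Fin 0) f
      rw [← MvPolynomial.algebraMap_eq, AlgEquiv.commutes]
    subst htop
    have _ : Algebra.Smooth k (MvPolynomial (Fin 0) k) := ⟨inferInstance, inferInstance⟩
    exact hasResolution_congr (Subalgebra.topEquiv (R := k) (A := MvPolynomial (Fin 0) k)).symm
      hasResolution_of_smooth
  · have _ : NeZero n := ⟨h.ne'⟩
    refine res_lin (rh G) (Am G) (rh_el G) (stab_cond G hG) (Am_faithful G) R ?_ ?_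
    · intro f
      rw [hR']
      refine forall_congr' fun g => ?_
      rw [rh_evk]
      exact ⟨fun h => by rw [h], fun h => evk_inj h⟩
    · intro g f
      exact ⟨_, rh_evk G g f⟩

end lin

end Pool.Agent.U197.GQ
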