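import Pool.Agent.U197.GQ.M1
import Pool.Agent.W559.Mg.T5
import Pool.Agent.W333.Et.Modif
import Pool.Agent.W613.Et.Level

/-!
One level of the construction for a finite group.
-/

set_option autoImplicit false
set_option linter.unusedSectionVars false

namespace Pool.Agent.U197.GQ

open Pool.Agent.W559.Mg Pool.Agent.W559.Et

variable {k K : Type} [Field k] [Field K] [Algebra k K] {Γ : Type} [Group Γ] [Fintype Γ]
  (ρ : Γ →* (K ≃ₐ[k] K)) {G : Type} [AddCommGroup G]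

/-- One level of the construction. -/
theorem levelG {𝒱 : Set (ValuationSubring K)} {Kf : Subfield K} {𝒜 : Type} {W : 𝒜 → Set K}
    {E : ℕ} {T : Type} [Finite T] {C : T → Subalgebra k (ML K G)} {H : T → K}
    (h : PB 𝒱 Kf W (FX ρ G) E C H) (τ : G →+ ℤ) (S : T → Subalgebra k (ML K G))
    (hle : ∀ t, S t ≤ C t) (hgr : ∀ t, Gr (S t))
    (hneg : ∀ t m a, τ m ≤ 0 → mo m a ∈ C t ⊓ FX ρ G → mo m a ∈ S t)
    (hgl : ∀ t t', ∀ f ∈ S t', ∃ n : ℕ, mo 0 (H t' / H t) ^ n * f ∈ S t)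
    (hS : ∀ t γ, ∀ f ∈ S t, ga ρ G γ f ∈ S t) (hfg : ∀ t, (S t).FG)
    (hpos : ∀ t, ∃ d a, a ≠ 0 ∧ 0 < τ d ∧ mo d a ∈ S t) :
    ∃ (J : T → Type) (_ : ∀ t, Finite (J t)) (μ : ∀ t, J t → G) (x : ∀ t, J t → K)
      (hx : ∀ t j, mo (μ t j) (x t j) ∈ S t) (L N : ℕ) (u : (Σ t, J t) → K), 0 < L ∧
      (∀ t j, x t j ≠ 0) ∧ (∀ t j γ, ρ γ (x t j) = x t j) ∧ (∀ t j, τ (μ t j) = L) ∧
      PB 𝒱 Kf W (FX ρ G) (E * L) (fun p : Σ t, J t => lc (S p.1) (mo (μ p.1 p.2) (x p.1 p.2))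
        (hx p.1 p.2)) (fun p => H p.1 ^ N * (x p.1 p.2 ^ E / u p)) := by
  classical
  choose I hI d c hc0 hcX hcS using fun t => exists_family (hfg t)
    {f | f ∈ S t ∧ ∃ (d : G) (a : K), f = mo d a} (fun f hf => hf.2) (adjoin_hom (hgr t))
  have hdS : ∀ t i, mo (d t i) (c t i) ∈ S t := fun t i => by
    rw [← hcS t]; exact Algebra.subset_adjoin ⟨i, rfl⟩
  -- invariant elements
  have hfr : ∀ t, ∃ (J : Type) (_ : Finite J) (v : J → S t), (∀ j, v j ∈ IP ρ (S t) τ) ∧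
      ∀ i : {i // 0 < τ (d t i)}, (⟨mo (d t i) (c t i), hdS t i⟩ : S t) ∈
        (Ideal.span (Set.range v)).radical := by
    intro t
    have := hI t
    exact fin_rad (IP ρ (S t) τ) (fun i : {i // 0 < τ (d t i)} =>
      (⟨mo (d t i) (c t i), hdS t i⟩ : S t)) (fun i => mem_rad_IP ρ (S t) (hS t) τ _ i.2)
  choose J hJ v hv hrad0 using hfr
  choose μ0 x0 hx0 hxi0 hμ0 hvx using hv
  have hfinT : Fintype T := Fintype.ofFinite T
  have hfinJ : ∀ t, Fintype (J t) := fun t => Fintype.ofFinite _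
  -- equal degrees
  let e : ∀ t, J t → ℕ := fun t j => (τ (μ0 t j)).toNat
  have he : ∀ t j, ((e t j : ℕ) : ℤ) = τ (μ0 t j) := fun t j =>
    Int.toNat_of_nonneg (hμ0 t j).le
  have he0 : ∀ t j, 0 < e t j := fun t j => by
    have h1 := he t j
    have h2 := hμ0 t j
    omega
  let L : ℕ := ∏ t, ∏ j, e t j
  have hL0 : 0 < L := Finset.prod_pos fun t _ => Finset.prod_pos fun j _ => he0 t j
  have hLd : ∀ t j, e t j ∣ L := fun t j =>
    (Finset.dvd_prod_of_mem (e t) (Finset.mem_univ j)).trans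
      (Finset.dvd_prod_of_mem (fun t => ∏ j, e t j) (Finset.mem_univ t))
  let q : ∀ t, J t → ℕ := fun t j => L / e t j
  have hq : ∀ t j, e t j * q t j = L := fun t j => Nat.mul_div_cancel' (hLd t j)
  let μ : ∀ t, J t → G := fun t j => q t j • μ0 t j
  let x : ∀ t, J t → K := fun t j => x0 t j ^ q t j
  have hμ : ∀ t j, τ (μ t j) = L := by
    intro t j
    change τ (q t j • μ0 t j) = L
    rw [map_nsmul, nsmul_eq_mul, ← he, mul_comm]
    exact_mod_cast hq t j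
  have hmem0 : ∀ t j, mo (μ0 t j) (x0 t j) ∈ S t := fun t j => by
    rw [← hvx]; exact (v t j).2
  have hmem : ∀ t j, mo (μ t j) (x t j) ∈ S t := fun t j => by
    change mo (q t j • μ0 t j) (x0 t j ^ q t j) ∈ S t
    rw [← mo_pow]
    exact (S t).pow_mem (hmem0 t j) _
  have hxne : ∀ t j, x t j ≠ 0 := fun t j => pow_ne_zero _ (hx0 t j)
  have hxi : ∀ t j γ, ρ γ (x t j) = x t j := fun t j γ => by
    change ρ γ (x0 t j ^ q t j) = x0 t j ^ q t j
    rw [map_pow, hxi0]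
  have hrad : ∀ t i, 0 < τ (d t i) → (⟨mo (d t i) (c t i), hdS t i⟩ : S t) ∈
      (Ideal.span (Set.range fun j => (⟨mo (μ t j) (x t j), hmem t j⟩ : S t))).radical := by
    intro t i hi
    have h1 := rad_pow (v t) (q t) (hrad0 t ⟨i, hi⟩)
    have h2 : (fun j => v t j ^ q t j) =
        fun j => (⟨mo (μ t j) (x t j), hmem t j⟩ : S t) := by
      funext j
      apply Subtype.ext
      change ((v t j : S t) : ML K G) ^ q t j = mo (q t j • μ0 t j) (x0 t j ^ q t j)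
      rw [hvx, mo_pow]
    rwa [h2] at h1
  have hexp : ∀ t i, 0 < τ (d t i) → ∃ (n : ℕ) (s : J t → ML K G), (∀ j, s j ∈ S t) ∧
      mo (d t i) (c t i) ^ n = ∑ᶠ j, s j * mo (μ t j) (x t j) := fun t i hi =>
    rad_expand (hmem t) (hdS t i) (hrad t i hi)
  have hJne : ∀ t, Nonempty (J t) := by
    intro t
    obtain ⟨d', a', ha', hd', hS'⟩ := hpos t
    obtain ⟨i, hi⟩ := exists_pos_gen (k := k) τ (d t) (c t) ha' hd' (by rw [hcS t]; exact hS')
    by_contra hcon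
    rw [not_nonempty_iff] at hcon
    obtain ⟨n, s, -, hs'⟩ := hexp t i hi
    rw [finsum_of_isEmpty, mo_pow] at hs'
    exact mo_ne_zero (pow_ne_zero n (hc0 t i)) hs'
  have hfxS : ∀ t j, mo (μ t j) (x t j) ∈ S t ⊓ FX ρ G := fun t j =>
    ⟨hmem t j, (mo_mem_FX ρ).2 (hxi t j)⟩
  obtain ⟨N', u, -, hpa⟩ := Pool.Agent.W333.Et.modif k K G 𝒱 Kf 𝒜 W (FX ρ G) E T C H h τ S hle
    (fun t => gr_inf (hgr t) (gr_FX ρ)) hneg hgl J x μ L hL0 hxne hfxS hμ
    (by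
      intro t V E' ψ' hN'
      have := hJne t
      have := hI t
      exact nrm_adjust hN' (hle t) τ (d t) (c t) (hc0 t) (hcS t) (x t) (μ t)
        (hxne t) (hmem t) (fun j => by rw [hμ]; exact_mod_cast hL0) (hexp t))
  exact ⟨J, hJ, μ, x, hmem, L, N', u, hL0, hxne, hxi, hμ, hpa⟩

end Pool.Agent.U197.GQ
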