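import Pool.Agent.U197.GQ.M1
import Pool.Agent.W559.Mg.A7
import Pool.Agent.H920R2.We2

/-!
The extended Rees algebra of a filtration of a subalgebra of a group algebra.
-/

set_option autoImplicit false
set_option linter.unusedSectionVars false

namespace Pool.Agent.U197.GQ

open Pool.Agent.W559.Mg Pool.Agent.H920R2

section ins

variable {k K : Type} [Field k] [Field K] [Algebra k K] {G : Type} [AddCommGroup G]
  [IsDomain (ML K G)]

/-- The element of first degree `d` with the coefficient `b`. -/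
noncomputable def ins (k : Type) {K : Type} [Field k] [Field K] [Algebra k K] {G : Type}
    [AddCommGroup G] (d : ℤ) (b : ML K G) : ML K (ℤ × G) := mo (d, 0) 1 * inc k b

lemma ins_mo (d : ℤ) (m : G) (a : K) : ins k d (mo m a) = mo (d, m) a := by
  unfold ins
  rw [inc_mo, mo_mul, one_mul, Prod.mk_add_mk, add_zero, zero_add]

lemma ins_mul (d e : ℤ) (b c : ML K G) : ins k d b * ins k e c = ins k (d + e) (b * c) := by
  unfold ins
  have h1 : (mo (d + e, (0 : G)) (1 : K) : ML K (ℤ × G)) = mo (d, 0) 1 * mo (e, 0) 1 := by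
    rw [mo_mul, one_mul, Prod.mk_add_mk, add_zero]
  rw [h1, map_mul]
  ring

lemma ins_add (d : ℤ) (b c : ML K G) : ins k d (b + c) = ins k d b + ins k d c := by
  unfold ins
  rw [map_add, mul_add]

lemma ins_sub (d : ℤ) (b c : ML K G) : ins k d (b - c) = ins k d b - ins k d c := by
  unfold ins
  rw [map_sub, mul_sub]

lemma ins_zero (d : ℤ) : ins k d (0 : ML K G) = 0 := by
  unfold ins
  rw [map_zero, mul_zero]

lemma ins_zero_one : ins k 0 (1 : ML K G) = 1 := by
  rw [← mo_one, ins_mo]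
  rfl

lemma ins_pow (d : ℤ) (b : ML K G) (n : ℕ) : ins k d b ^ n = ins k (n * d) (b ^ n) := by
  induction n with
  | zero => rw [pow_zero, pow_zero, Nat.cast_zero, zero_mul, ins_zero_one]
  | succ n ih =>
    rw [pow_succ, ih, ins_mul, pow_succ]
    congr 1
    push_cast
    ring

lemma slc_add (d : ℤ) (f g : ML K (ℤ × G)) : slc d (f + g) = slc d f + slc d g := by
  apply ml_ext
  intro m
  rw [coeff_slc, coeff_add', coeff_add', coeff_slc, coeff_slc]

lemma slc_sub (d : ℤ) (f g : ML K (ℤ × G)) : slc d (f - g) = slc d f - slc d g := by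
  apply ml_ext
  intro m
  rw [coeff_slc, coeff_sub', coeff_sub', coeff_slc, coeff_slc]

lemma slc_mo_mul (e d : ℤ) (m : G) (a : K) (f : ML K (ℤ × G)) :
    slc e (mo (d, m) a * f) = mo m a * slc (e - d) f := by
  apply ml_ext
  intro μ
  rw [coeff_slc, coeff_mo_mul, coeff_mo_mul, coeff_slc]
  rfl

lemma slc_ins_mul (e d : ℤ) (b : ML K G) (f : ML K (ℤ × G)) :
    slc e (ins k d b * f) = b * slc (e - d) f := by
  have h1 : ∀ s : Finset G, slc e (ins k d (∑ m ∈ s, mo m (b.coeff m)) * f) =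
      (∑ m ∈ s, mo m (b.coeff m)) * slc (e - d) f := by
    classical
    intro s
    induction s using Finset.induction_on with
    | empty =>
      rw [Finset.sum_empty, ins_zero, zero_mul, zero_mul]
      apply ml_ext
      intro m
      rw [coeff_slc]
      rfl
    | insert i s hi ih =>
      rw [Finset.sum_insert hi, ins_add, add_mul, slc_add, ih, ins_mo, slc_mo_mul, add_mul]
  have h2 := h1 b.coeff.support
  rwa [← eq_sum_mo b] at h2

lemma slc_one (e : ℤ) : slc e (1 : ML K (ℤ × G)) = if e = 0 then 1 else 0 := by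
  classical
  apply ml_ext
  intro m
  rw [coeff_slc, ← mo_one, coeff_mo]
  split_ifs with h1 h2 h2
  · rw [← mo_one, coeff_mo]
    rw [if_pos (by rw [Prod.ext_iff] at h1; exact h1.2)]
  · exact absurd (by rw [Prod.ext_iff] at h1; exact h1.1.symm) h2
  · rw [← mo_one, coeff_mo_ne]
    rintro rfl
    apply h1
    rw [h2]
    rfl
  · rfl

lemma slc_ins (e d : ℤ) (b : ML K G) : slc e (ins k d b) = if e = d then b else 0 := by
  have h1 := slc_ins_mul (k := k) e d b 1
  rw [mul_one, slc_one] at h1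
  rw [h1]
  by_cases h : e = d
  · rw [if_pos (by omega), if_pos h, mul_one]
  · rw [if_neg (by omega), if_neg h, mul_zero]

lemma slc_ins_same (d : ℤ) (b : ML K G) : slc d (ins k d b) = b := by rw [slc_ins, if_pos rfl]

lemma slc_mo (e d : ℤ) (m : G) (a : K) : slc e (mo (d, m) a) = if e = d then mo m a else 0 := by
  rw [← ins_mo (k := K), slc_ins]

lemma slc_gr {R : Subalgebra k (ML K G)} (hR : Gr R) {f : ML K (ℤ × G)} {d : ℤ}
    (h : slc d f ∈ R) (m : G) : mo m (f.coeff (d, m)) ∈ R := by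
  rw [← coeff_slc]
  exact hR _ h m

variable {Γ : Type} [Group Γ] (ρ : Γ →* (K ≃ₐ[k] K))

lemma slc_ga (d : ℤ) (γ : Γ) (f : ML K (ℤ × G)) :
    slc d (ga ρ (ℤ × G) γ f) = ga ρ G γ (slc d f) := by
  apply ml_ext
  intro m
  rw [coeff_slc, ga_coeff, ga_coeff, coeff_slc]

lemma ga_ins (γ : Γ) (d : ℤ) (b : ML K G) :
    ga ρ (ℤ × G) γ (ins k d b) = ins k d (ga ρ G γ b) := by
  apply ml_ext
  rintro ⟨e, m⟩
  rw [← coeff_slc, ← coeff_slc, slc_ga, slc_ins, slc_ins]
  split_ifs
  · rfl
  · rw [map_zero]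

end ins

section rees

variable {k K : Type} [Field k] [Field K] [Algebra k K] {G : Type} [AddCommGroup G]
  [IsDomain (ML K G)]

/-- The embedding into the field. -/
noncomputable def gR (R : Subalgebra k (ML K G)) : R →ₐ[k] FM K G :=
  ((IsScalarTower.toAlgHom K (ML K G) (FM K G)).restrictScalars k).comp R.val

lemma gR_apply (R : Subalgebra k (ML K G)) (b : R) :
    gR R b = algebraMap (ML K G) (FM K G) (b : ML K G) := rfl

lemma gR_inj (R : Subalgebra k (ML K G)) : Function.Injective (gR R) := by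
  intro a b h
  apply Subtype.ext
  exact IsFractionRing.injective (ML K G) (FM K G) h

variable {R : Subalgebra k (ML K G)} {F : ℕ → Ideal R} (hF : RegularWeightedCentre k F)

/-- The extended Rees algebra. -/
noncomputable def rs (hF : RegularWeightedCentre k F) : Subalgebra k (ML K (ℤ × G)) :=
  (reesF (gR R) hF).comap (emb k)

lemma mem_rs {f : ML K (ℤ × G)} :
    f ∈ rs hF ↔ ∀ d : ℤ, ∃ b ∈ F d.toNat, (b : ML K G) = slc d f := by
  change emb k f ∈ reesF (gR R) hF ↔ _
  rw [mem_reesF]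
  refine forall_congr' fun d => exists_congr fun b => and_congr Iff.rfl ?_
  rw [coeff_emb, gR_apply]
  exact ⟨fun h => IsFractionRing.injective (ML K G) (FM K G) h, fun h => by rw [h]⟩

lemma ins_mem_rs {d : ℤ} {b : R} (hb : b ∈ F d.toNat) : ins k d (b : ML K G) ∈ rs hF := by
  rw [mem_rs]
  intro e
  rw [slc_ins]
  split_ifs with h
  · subst h
    exact ⟨b, hb, rfl⟩
  · exact ⟨0, Ideal.zero_mem _, rfl⟩

lemma mo_mem_rs {d : ℤ} {m : G} {a : K} :
    mo (d, m) a ∈ rs hF ↔ ∃ b ∈ F d.toNat, (b : ML K G) = mo m a := by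
  constructor
  · intro h
    obtain ⟨b, hb, hb'⟩ := (mem_rs hF).1 h d
    rw [slc_mo, if_pos rfl] at hb'
    exact ⟨b, hb, hb'⟩
  · rintro ⟨b, hb, hb'⟩
    have h1 := ins_mem_rs hF hb
    rwa [hb', ins_mo] at h1

lemma gr_rs (hh : ∀ d, ∀ b ∈ F d, ∀ m, ∃ c ∈ F d, (c : ML K G) = mo m ((b : ML K G).coeff m)) :
    Gr (rs hF) := by
  rintro f hf ⟨d, m⟩
  obtain ⟨b, hb, hb'⟩ := (mem_rs hF).1 hf d
  obtain ⟨c, hc, hc'⟩ := hh _ b hb m
  rw [mo_mem_rs]
  refine ⟨c, hc, ?_⟩
  rw [hc', hb', coeff_slc]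

lemma hm_mem_range (d : ℤ) (b : ML K G) :
    hm d (algebraMap (ML K G) (FM K G) b) ∈ (emb k : ML K (ℤ × G) →ₐ[k] LP (FM K G)).range := by
  have h1 : ∀ s : Finset G, hm d (algebraMap (ML K G) (FM K G) (∑ m ∈ s, mo m (b.coeff m))) ∈
      (emb k : ML K (ℤ × G) →ₐ[k] LP (FM K G)).range := by
    intro s
    rw [map_sum, hm_sum]
    refine Subalgebra.sum_mem _ fun m _ => ⟨mo (d, m) (b.coeff m), emb_mo _ _ _⟩
  have h2 := h1 b.coeff.support
  rwa [← eq_sum_mo b] at h2

lemma map_rs : (rs hF).map (emb k) = reesF (gR R) hF := by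
  apply le_antisymm
  · rintro _ ⟨f, hf, rfl⟩
    exact hf
  · intro g hg
    have h1 : g ∈ (emb k : ML K (ℤ × G) →ₐ[k] LP (FM K G)).range := by
      rw [eq_sum_hm g]
      refine Subalgebra.sum_mem _ fun d _ => ?_
      obtain ⟨b, -, hb⟩ := (mem_reesF (gR R) hF).1 hg d
      rw [← hb, gR_apply]
      exact hm_mem_range d _
    obtain ⟨f, rfl⟩ := h1
    exact ⟨f, hg, rfl⟩

/-- The extended Rees algebra of a regular weighted centre is smooth. -/
theorem smooth_rs (hsm : Algebra.Smooth k R) : Algebra.Smooth k (rs hF) := by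
  have h1 : Algebra.Smooth k (reesF (gR R) hF) := smooth_reesF (gR R) (gR_inj R) hF hsm
  let e1 : rs hF ≃ₐ[k] (rs hF).map (emb k) :=
    Subalgebra.equivMapOfInjective (rs hF) (emb k) emb_injective
  rw [← map_rs hF] at h1
  exact Algebra.Smooth.of_equiv e1.symm

end rees

end Pool.Agent.U197.GQ
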