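import Pool.Agent.U197.GQ.M3
import Pool.Agent.Y824.G4.DESCG
import Pool.Agent.N864.GT.Sm
import Pool.Agent.H920R2.Sr1

/-!
Smoothness of the charts of the quotient: descent of regularity.
-/

set_option autoImplicit false
set_option linter.unusedSectionVars false

namespace Pool.Agent.U197.GQ

open Pool.Agent.W559.Mg Pool.Agent.H920R2

/-- A smooth algebra over a field is regular. -/
theorem regular_of_smooth' {K B : Type} [Field K] [CommRing B] [Algebra K B]
    [Algebra.Smooth K B] : IsRegularRing B := by
  have hnoeth : IsNoetherianRing B := Algebra.FiniteType.isNoetherianRing K B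
  rw [isRegularRing_iff]
  intro Q hQp
  have h0 : Algebra.IsSmoothAt K Q := by
    have := Algebra.smoothLocus_eq_univ (R := K) (A := B)
    have h : (⟨Q, inferInstance⟩ : PrimeSpectrum B) ∈ Algebra.smoothLocus K B := by
      rw [this]
      trivial
    exact h
  obtain ⟨f, hf, hs⟩ := Algebra.IsSmoothAt.exists_notMem_isStandardSmooth K Q
  obtain ⟨n, g, -, hg⟩ := (RingHom.isStandardSmooth_algebraMap.mpr hs).exists_etale_mvPolynomial
  algebraize [g]
  have hd : Disjoint (Submonoid.powers f : Set B) (Q : Set B) :=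
    (Ideal.disjoint_powers_iff_notMem_of_isPrime f).mpr hf
  have hq : (Ideal.map (algebraMap B (Localization.Away f)) Q).IsPrime :=
    IsLocalization.isPrime_of_isPrime_disjoint (.powers f) _ _ ‹_› hd
  have hc : (Ideal.map (algebraMap B (Localization.Away f)) Q).comap
      (algebraMap B (Localization.Away f)) = Q :=
    IsLocalization.under_map_of_isPrime_disjoint (.powers f) _ ‹_› hd
  have h1 := IsLocalization.isLocalization_isLocalization_atPrime_isLocalization
    (Submonoid.powers f)
    (Localization.AtPrime (Ideal.map (algebraMap B (Localization.Away f)) Q))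
    (Ideal.map (algebraMap B (Localization.Away f)) Q)
  have h2 := Pool.Agent.H920R2.regular_of_etale (P := MvPolynomial (Fin n) K)
    (B := Localization.Away f) (Ideal.map (algebraMap B (Localization.Away f)) Q)
  have h3 : IsLocalization.AtPrime
      (Localization.AtPrime (Ideal.map (algebraMap B (Localization.Away f)) Q)) Q := by
    simpa only [hc] using h1
  exact IsRegularLocalRing.of_ringEquiv (IsLocalization.algEquiv Q.primeCompl
    (Localization.AtPrime (Ideal.map (algebraMap B (Localization.Away f)) Q))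
    (Localization.AtPrime Q)).toRingEquiv

section inv

variable {k D : Type} [Field k] [CommRing D] [IsDomain D] [Algebra k D] {Γ : Type} [Group Γ]
  [Finite Γ]

/-- The ring of invariants of a finite group, with the principality condition at the primes with
nontrivial inertia group, is smooth. -/
theorem smooth_inv [PerfectField k] (a : Γ → D →ₐ[k] D) (a1 : ∀ f, a 1 f = f)
    (am : ∀ γ γ' f, a (γ * γ') f = a γ (a γ' f)) (T : Subalgebra k D)
    (hT : ∀ γ, ∀ f ∈ T, a γ f ∈ T) (hsm : Algebra.Smooth k T)
    (hfaith : ∀ γ, (∀ f ∈ T, a γ f = f) → γ = 1)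
    (hQ : ∀ Q : Ideal T, Q.IsPrime →
      (∀ γ, (∀ f : T, (⟨a γ f, hT γ f f.2⟩ - f : T) ∈ Q) → γ = 1) ∨
      ∃ (p : ℕ) (τ : Γ), p.Prime ∧ τ ^ p = 1 ∧
        (∀ γ, (∀ f : T, (⟨a γ f, hT γ f f.2⟩ - f : T) ∈ Q) → γ ∈ Subgroup.zpowers τ) ∧
        ∃ b : T, ∀ c : T, ∃ s : T, s ∉ Q ∧ (⟨a τ b, hT τ b b.2⟩ - b : T) ∣
          s * (⟨a τ c, hT τ c c.2⟩ - c : T))
    (A : Subalgebra k D) (hA : ∀ f, f ∈ A ↔ f ∈ T ∧ ∀ γ, a γ f = f) : Algebra.Smooth k A := by
  classical
  let r : Γ → T →+* T := fun γ => ((a γ).toRingHom.comp T.val.toRingHom).codRestrict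
    T.toSubring fun f => hT γ f f.2
  have hr : ∀ γ f, ((r γ f : T) : D) = a γ f := fun γ f => rfl
  let ρ : Γ →* (T ≃+* T) :=
    { toFun := fun γ =>
        { toFun := r γ
          invFun := r γ⁻¹
          left_inv := fun f => Subtype.ext (by
            rw [hr, hr, ← am, inv_mul_cancel, a1])
          right_inv := fun f => Subtype.ext (by
            rw [hr, hr, ← am, mul_inv_cancel, a1])
          map_mul' := fun x y => map_mul (r γ) x y
          map_add' := fun x y => map_add (r γ) x y }
      map_one' := RingEquiv.ext fun f => Subtype.ext (by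
        change a 1 f = f
        rw [a1])
      map_mul' := fun γ γ' => RingEquiv.ext fun f => Subtype.ext (by
        change a (γ * γ') f = a γ (a γ' f)
        rw [am]) }
  have hρ : ∀ γ (f : T), (ρ γ f : T) = ⟨a γ f, hT γ f f.2⟩ := fun γ f => rfl
  have hAT : A ≤ T := fun f hf => ((hA f).1 hf).1
  let j : A →ₐ[k] T := Subalgebra.inclusion hAT
  have hjc : ∀ x : A, ((j x : T) : D) = x := fun x => rfl
  have hjinj : Function.Injective j := Subalgebra.inclusion_injective hAT
  have hfix : ∀ b : T, (∀ γ, ρ γ b = b) ↔ ∃ x, j x = b := by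
    intro b
    constructor
    · intro h
      refine ⟨⟨b, (hA _).2 ⟨b.2, fun γ => ?_⟩⟩, rfl⟩
      exact congrArg Subtype.val (h γ)
    · rintro ⟨x, rfl⟩ γ
      apply Subtype.ext
      change a γ (x : D) = x
      exact ((hA _).1 x.2).2 γ
  -- finiteness
  let _ : Algebra A T := j.toRingHom.toAlgebra
  have htower : IsScalarTower k A T := IsScalarTower.of_algebraMap_eq fun x => rfl
  let _ : MulSemiringAction Γ T := MulSemiringAction.compHom T (ρ : Γ →* RingAut T)
  have hsmul : ∀ (γ : Γ) (f : T), γ • f = ρ γ f := fun γ f => rfl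
  have hcomm : SMulCommClass Γ A T := ⟨fun γ x f => by
    rw [Algebra.smul_def, Algebra.smul_def, hsmul, hsmul, map_mul]
    congr 1
    exact (hfix _).2 ⟨x, rfl⟩ γ⟩
  have hinv : Algebra.IsInvariant A T Γ := ⟨fun b hb => (hfix b).1 hb⟩
  have hint : Algebra.IsIntegral A T := Algebra.IsInvariant.isIntegral A T Γ
  have hftT : Algebra.FiniteType k T := inferInstance
  have hftAT : Algebra.FiniteType A T := Algebra.FiniteType.of_restrictScalars_finiteType k A T
  have hfin : Module.Finite A T := Algebra.IsIntegral.finite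
  have hftA : Algebra.FiniteType k A := ⟨fg_of_fg_of_fg k A T hftT.out hfin.1 hjinj⟩
  have hnoeth : IsNoetherianRing A := Algebra.FiniteType.isNoetherianRing k A
  have hregT : IsRegularRing T := regular_of_smooth' (K := k)
  have hreg : IsRegularRing A := by
    refine Pool.Agent.Y824.G4.t_DESCG T Γ ρ (fun γ h => hfaith γ fun f hf => ?_) A j.toRingHom
      hjinj hfix (fun Q hQp => ?_)
    · exact congrArg Subtype.val (h ⟨f, hf⟩)
    · exact hQ Q hQp
  exact Pool.Agent.N864.GT.smooth_of_regular

end inv

end Pool.Agent.U197.GQ
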