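import Pool.Agent.U197.GQ.M4

/-!
The charts of the quotient of the weighted blowup by a finite group are smooth.
-/

set_option autoImplicit false
set_option linter.unusedSectionVars false

namespace Pool.Agent.U197.GQ

open Pool.Agent.W559.Mg Pool.Agent.H920R2

section chart

variable {k K : Type} [Field k] [Field K] [Algebra k K] {G : Type} [AddCommGroup G]
  [IsDomain (ML K G)] {Γ : Type} [Group Γ] (ρ : Γ →* (K ≃ₐ[k] K)) (R : Subalgebra k (ML K G))

/-- The inertia group of the prime `P` is trivial, or it is generated by an element `τ` of prime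
order, and locally at `P` the map `τ - 1` raises the orders with respect to `F` by some `l > 0`,
its zeros are contained in the centre, and its leading form is nondegenerate. -/
def LocalCond (hR : ∀ γ, ∀ f ∈ R, ga ρ G γ f ∈ R) (F : ℕ → Ideal R) (P : Ideal R) : Prop :=
  (∀ γ, (∀ f : R, (⟨ga ρ G γ f, hR γ f f.2⟩ - f : R) ∈ P) → γ = 1) ∨
    ∃ (p : ℕ) (τ : Γ), p.Prime ∧ τ ^ p = 1 ∧
      (∀ γ, (∀ f : R, (⟨ga ρ G γ f, hR γ f f.2⟩ - f : R) ∈ P) → γ ∈ Subgroup.zpowers τ) ∧
      ∃ (l : ℕ) (s : R), 0 < l ∧ s ∉ P ∧
        (∀ d, ∀ a ∈ F d, s * (⟨ga ρ G τ a, hR τ a a.2⟩ - a : R) ∈ F (d + l)) ∧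
        (∀ a ∈ F 1, ∃ M : ℕ, ∃ s' : R, s' ∉ P ∧ s' * a ^ M ∈
          Ideal.span (Set.range fun b : R => (⟨ga ρ G τ b, hR τ b b.2⟩ - b : R))) ∧
        ∀ d, 1 ≤ d → ∀ a ∈ F d, ∃ N : ℕ, ∃ s' : R, s' ∉ P ∧ s' * a ^ N ∈ F (N * d + 1) ⊔
          Ideal.span {y | ∃ e, ∃ c ∈ F e, ∃ b ∈ F (N * d - (e + l)),
            y = b * (⟨ga ρ G τ c, hR τ c c.2⟩ - c : R)}

variable {R} {F : ℕ → Ideal R} (hF : RegularWeightedCentre k F)

lemma ga_mem_rs (hR : ∀ γ, ∀ f ∈ R, ga ρ G γ f ∈ R)
    (hFs : ∀ γ d, ∀ a ∈ F d, (⟨ga ρ G γ a, hR γ a a.2⟩ : R) ∈ F d) (γ : Γ)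
    {f : ML K (ℤ × G)} (hf : f ∈ rs hF) : ga ρ (ℤ × G) γ f ∈ rs hF := by
  rw [mem_rs] at hf ⊢
  intro d
  obtain ⟨b, hb, hb'⟩ := hf d
  exact ⟨_, hFs γ _ b hb, by rw [slc_ga, ← hb']⟩

lemma ins0_mem (b : R) : ins k 0 (b : ML K G) ∈ rs hF := by
  refine ins_mem_rs hF ?_
  change b ∈ F 0
  rw [hF.zero]
  trivial

/-- The inclusion of the ring of coefficients. -/
noncomputable def i0R : R →+* rs hF where
  toFun b := ⟨ins k 0 (b : ML K G), ins0_mem hF b⟩
  map_one' := Subtype.ext ins_zero_one
  map_mul' a b := Subtype.ext (by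
    change ins k 0 ((a * b : R) : ML K G) = ins k 0 (a : ML K G) * ins k 0 (b : ML K G)
    rw [ins_mul, add_zero]
    rfl)
  map_zero' := Subtype.ext (ins_zero 0)
  map_add' a b := Subtype.ext (ins_add 0 _ _)

/-- **The chart lemma.** -/
theorem chart_smoothG [PerfectField k] [Finite Γ] [IsDomain (ML K (ℤ × G))]
    (hR : ∀ γ, ∀ f ∈ R, ga ρ G γ f ∈ R) (hsm : Algebra.Smooth k R)
    (hfaith : ∀ γ, (∀ f ∈ R, ga ρ G γ f = f) → γ = 1)
    (hFs : ∀ γ d, ∀ a ∈ F d, (⟨ga ρ G γ a, hR γ a a.2⟩ : R) ∈ F d)
    (hloc : ∀ P : Ideal R, P.IsPrime → LocalCond ρ R hR F P)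
    {m : ℤ × G} {x : K} (hx0 : x ≠ 0) (hxi : ∀ γ, ρ γ x = x) (hx : mo m x ∈ rs hF)
    (hm : 0 < m.1) : Algebra.Smooth k ↥(lc (rs hF) (mo m x) hx ⊓ FX ρ (ℤ × G)) := by
  classical
  set S := rs hF with hSdef
  set X : ML K (ℤ × G) := mo m x with hX
  have hXi : ∀ γ, ga ρ (ℤ × G) γ X = X := fun γ => by rw [hX, ga_mo, hxi]
  have hST : S ≤ lc S X hx := le_lc _ _ _
  have hS : ∀ γ, ∀ f ∈ S, ga ρ (ℤ × G) γ f ∈ S := fun γ f hf => ga_mem_rs ρ hF hR hFs γ hf
  have hT : ∀ γ, ∀ f ∈ lc S X hx, ga ρ (ℤ × G) γ f ∈ lc S X hx := by
    rintro γ f ⟨n, hn⟩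
    refine ⟨n, ?_⟩
    have h1 := hS γ _ hn
    rwa [map_mul, map_pow, hXi] at h1
  have hXT : ∃ y ∈ lc S X hx, X * y = 1 :=
    ⟨mo (-m) x⁻¹, inv_mem_lc S X _ hx (mo_inv hx0), mo_inv hx0⟩
  have hinsT : ∀ {d : ℤ} {b : R}, b ∈ F d.toNat → ins k d (b : ML K G) ∈ lc S X hx :=
    fun hb => hST (ins_mem_rs hF hb)
  have hn0 : ∀ (n : ℕ), ((n : ℤ)).toNat = n := fun n => Int.toNat_natCast n
  refine smooth_inv (ga ρ (ℤ × G)) (ga_one ρ) (ga_mul ρ) (lc S X hx) hT
    (smooth_lc (smooth_rs hF hsm) hx (isUnit_mo hx0)) ?_ ?_ _ ?_
  · intro γ hγ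
    refine hfaith γ fun f hf => ?_
    have h1 := hγ _ (hST (ins0_mem hF ⟨f, hf⟩))
    rw [ga_ins] at h1
    have h2 := congrArg (slc 0) h1
    rwa [slc_ins_same, slc_ins_same] at h2
  · intro Q hQ
    -- the prime of the ring of coefficients
    let i : R →+* lc S X hx := (Subalgebra.inclusion hST).toRingHom.comp (i0R hF)
    have hi : ∀ b : R, ((i b : lc S X hx) : ML K (ℤ × G)) = ins k 0 (b : ML K G) := fun b => rfl
    have hP : (Q.comap i).IsPrime := hQ.comap _
    have hin : ∀ γ, (∀ f : lc S X hx, (⟨ga ρ (ℤ × G) γ f, hT γ f f.2⟩ - f : lc S X hx) ∈ Q) →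
        ∀ f : R, (⟨ga ρ G γ f, hR γ f f.2⟩ - f : R) ∈ Q.comap i := by
      intro γ hγ f
      have h1 := hγ (i f)
      have h2 : (⟨ga ρ (ℤ × G) γ (i f), hT γ _ (i f).2⟩ - i f : lc S X hx) =
          i (⟨ga ρ G γ f, hR γ f f.2⟩ - f : R) := by
        apply Subtype.ext
        change ga ρ (ℤ × G) γ (ins k 0 (f : ML K G)) - ins k 0 (f : ML K G) =
          ins k 0 (ga ρ G γ (f : ML K G) - (f : ML K G))
        rw [ga_ins, ins_sub]
      rw [h2] at h1
      exact h1
    rcases hloc _ hP with h1 | ⟨p, τ, hp, hτ, h2, l, s, hl, hs, hraise, hzero, hlead⟩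
    · exact Or.inl fun γ hγ => h1 γ (hin γ hγ)
    · refine Or.inr ⟨p, τ, hp, hτ, fun γ hγ => h2 γ (hin γ hγ), ?_⟩
      -- the differences
      let δ : R → R := fun a => ⟨ga ρ G τ a, hR τ a a.2⟩ - a
      have hδ : ∀ a : R, ((δ a : R) : ML K G) = ga ρ G τ a - a := fun a => rfl
      have hw : ∀ (e : ℕ) (c : R), c ∈ F e → s * δ c ∈ F ((e : ℤ) + l).toNat := by
        intro e c hc
        have : ((e : ℤ) + l).toNat = e + l := by omega
        rw [this]
        exact hraise e c hc
      have key : ∃ (e : ℕ) (c : R) (hc : c ∈ F e),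
          (⟨ins k ((e : ℤ) + l) ((s * δ c : R) : ML K G), hinsT (hw e c hc)⟩ : lc S X hx) ∉ Q := by
        by_contra hcon
        push Not at hcon
        -- all elements of positive degree are in `Q`
        have hall : ∀ (d : ℕ), 1 ≤ d → ∀ a (ha : a ∈ F (d : ℤ).toNat),
            (⟨ins k d (a : ML K G), hinsT ha⟩ : lc S X hx) ∈ Q := by
          intro d hd a ha
          have ha' : a ∈ F d := by rwa [hn0] at ha
          have hTm : ins k (-1) ((1 : R) : ML K G) ∈ lc S X hx := hinsT (by
            change (1 : R) ∈ F 0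
            rw [hF.zero]; trivial)
          by_cases hc : (⟨ins k (-1) ((1 : R) : ML K G), hTm⟩ : lc S X hx) ∈ Q
          · obtain ⟨N, s', hs', hmem⟩ := hlead d hd a ha'
            -- the power is in `Q`
            have hgen : ∀ y ∈ F (N * d + 1) ⊔ Ideal.span {y | ∃ e, ∃ c ∈ F e,
                ∃ b ∈ F (N * d - (e + l)), y = b * δ c},
                ∃ hy : ins k ((N * d : ℕ) : ℤ) ((s * y : R) : ML K G) ∈ lc S X hx,
                  (⟨_, hy⟩ : lc S X hx) ∈ Q := by
              intro y hy
              obtain ⟨f, hf, g, hg, rfl⟩ := Submodule.mem_sup.1 hy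
              clear hy
              have hf' : s * f ∈ F ((((N * d : ℕ) : ℤ) + 1)).toNat := by
                have : ((((N * d : ℕ) : ℤ) + 1)).toNat = N * d + 1 := by omega
                rw [this]
                exact Ideal.mul_mem_left _ _ hf
              have e1 : ∃ hy : ins k ((N * d : ℕ) : ℤ) ((s * f : R) : ML K G) ∈ lc S X hx,
                  (⟨_, hy⟩ : lc S X hx) ∈ Q := by
                have h3 : ins k ((N * d : ℕ) : ℤ) ((s * f : R) : ML K G) =
                    ins k (-1) ((1 : R) : ML K G) *
                      ins k (((N * d : ℕ) : ℤ) + 1) ((s * f : R) : ML K G) := by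
                  rw [ins_mul]
                  congr 1
                  · ring
                  · exact (one_mul _).symm
                have h4 : ins k ((N * d : ℕ) : ℤ) ((s * f : R) : ML K G) ∈ lc S X hx := by
                  rw [h3]
                  exact Subalgebra.mul_mem _ hTm (hinsT hf')
                refine ⟨h4, ?_⟩
                have h5 : (⟨_, h4⟩ : lc S X hx) = ⟨_, hTm⟩ * ⟨_, hinsT hf'⟩ := Subtype.ext h3
                rw [h5]
                exact Q.mul_mem_right _ hc
              have e2 : ∃ hy : ins k ((N * d : ℕ) : ℤ) ((s * g : R) : ML K G) ∈ lc S X hx,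
                  (⟨_, hy⟩ : lc S X hx) ∈ Q := by
                induction hg using Submodule.span_induction with
                | mem y hy =>
                  obtain ⟨e, c, hc, b, hb, rfl⟩ := hy
                  have hb' : b ∈ F ((((N * d : ℕ) : ℤ) - (e + l))).toNat := by
                    have : ((((N * d : ℕ) : ℤ) - (e + l))).toNat = N * d - (e + l) := by omega
                    rw [this]
                    exact hb
                  have h3 : ins k ((N * d : ℕ) : ℤ) ((s * (b * δ c) : R) : ML K G) =
                      ins k (((N * d : ℕ) : ℤ) - (e + l)) (b : ML K G) *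
                        ins k ((e : ℤ) + l) ((s * δ c : R) : ML K G) := by
                    rw [ins_mul]
                    congr 1
                    · ring
                    · change _ = ((b * (s * δ c) : R) : ML K G)
                      rw [mul_left_comm]
                  have h4 : ins k ((N * d : ℕ) : ℤ) ((s * (b * δ c) : R) : ML K G) ∈
                      lc S X hx := by
                    rw [h3]
                    exact Subalgebra.mul_mem _ (hinsT hb') (hinsT (hw e c hc))
                  refine ⟨h4, ?_⟩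
                  have h5 : (⟨_, h4⟩ : lc S X hx) = ⟨_, hinsT hb'⟩ * ⟨_, hinsT (hw e c hc)⟩ :=
                    Subtype.ext h3
                  rw [h5]
                  exact Q.mul_mem_left _ (hcon e c hc)
                | zero =>
                  have h3 : ins k ((N * d : ℕ) : ℤ) ((s * 0 : R) : ML K G) = 0 := by
                    rw [mul_zero]
                    exact ins_zero _
                  have h4 : ins k ((N * d : ℕ) : ℤ) ((s * 0 : R) : ML K G) ∈ lc S X hx := by
                    rw [h3]; exact Subalgebra.zero_mem _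
                  refine ⟨h4, ?_⟩
                  have h5 : (⟨_, h4⟩ : lc S X hx) = 0 := Subtype.ext h3
                  rw [h5]
                  exact Q.zero_mem
                | add y z _ _ hy hz =>
                  obtain ⟨h4, h5⟩ := hy
                  obtain ⟨h6, h7⟩ := hz
                  have h3 : ins k ((N * d : ℕ) : ℤ) ((s * (y + z) : R) : ML K G) =
                      ins k ((N * d : ℕ) : ℤ) ((s * y : R) : ML K G) +
                        ins k ((N * d : ℕ) : ℤ) ((s * z : R) : ML K G) := by
                    rw [mul_add, ← ins_add]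
                    rfl
                  have h8 : ins k ((N * d : ℕ) : ℤ) ((s * (y + z) : R) : ML K G) ∈
                      lc S X hx := by
                    rw [h3]
                    exact Subalgebra.add_mem _ h4 h6
                  refine ⟨h8, ?_⟩
                  have h9 : (⟨_, h8⟩ : lc S X hx) = ⟨_, h4⟩ + ⟨_, h6⟩ := Subtype.ext h3
                  rw [h9]
                  exact Q.add_mem h5 h7
                | smul r y _ hy =>
                  obtain ⟨h4, h5⟩ := hy
                  have h3 : ins k ((N * d : ℕ) : ℤ) ((s * (r • y) : R) : ML K G) =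
                      ins k 0 (r : ML K G) *
                        ins k ((N * d : ℕ) : ℤ) ((s * y : R) : ML K G) := by
                    rw [ins_mul, zero_add, smul_eq_mul, mul_left_comm]
                    rfl
                  have h8 : ins k ((N * d : ℕ) : ℤ) ((s * (r • y) : R) : ML K G) ∈
                      lc S X hx := by
                    rw [h3]
                    exact Subalgebra.mul_mem _ (hST (ins0_mem hF r)) h4
                  refine ⟨h8, ?_⟩
                  have h9 : (⟨_, h8⟩ : lc S X hx) = i r * ⟨_, h4⟩ := Subtype.ext h3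
                  rw [h9]
                  exact Q.mul_mem_left _ h5
              obtain ⟨a1, a2⟩ := e1
              obtain ⟨a3, a4⟩ := e2
              have h3 : ins k ((N * d : ℕ) : ℤ) ((s * (f + g) : R) : ML K G) =
                  ins k ((N * d : ℕ) : ℤ) ((s * f : R) : ML K G) +
                    ins k ((N * d : ℕ) : ℤ) ((s * g : R) : ML K G) := by
                rw [mul_add, ← ins_add]
                rfl
              have h8 : ins k ((N * d : ℕ) : ℤ) ((s * (f + g) : R) : ML K G) ∈
                  lc S X hx := by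
                rw [h3]
                exact Subalgebra.add_mem _ a1 a3
              refine ⟨h8, ?_⟩
              have h9 : (⟨_, h8⟩ : lc S X hx) = ⟨_, a1⟩ + ⟨_, a3⟩ := Subtype.ext h3
              rw [h9]
              exact Q.add_mem a2 a4
            obtain ⟨h3, h4⟩ := hgen _ hmem
            have h5 : (⟨_, h3⟩ : lc S X hx) = i s * i s' * (⟨ins k d (a : ML K G), hinsT ha⟩) ^ N := by
              apply Subtype.ext
              change ins k ((N * d : ℕ) : ℤ) ((s * (s' * a ^ N) : R) : ML K G) =
                ins k 0 (s : ML K G) * ins k 0 (s' : ML K G) * (ins k d (a : ML K G)) ^ N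
              rw [ins_pow, ins_mul, ins_mul]
              congr 1
              · push_cast
                ring
              · change ((s * (s' * a ^ N) : R) : ML K G) = ((s * s' * a ^ N : R) : ML K G)
                rw [mul_assoc]
            rw [h5] at h4
            rcases hQ.mem_or_mem h4 with h6 | h6
            · rcases hQ.mem_or_mem h6 with h7 | h7
              · exact absurd h7 hs
              · exact absurd h7 hs'
            · exact hQ.mem_of_pow_mem _ h6
          · -- off the exceptional divisor
            have ha1 : a ∈ F 1 := hF.anti _ _ hd ha'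
            obtain ⟨M, s', hs', hmem⟩ := hzero a ha1
            have hgen : ∀ y ∈ Ideal.span (Set.range δ), i (s * y) ∈ Q := by
              intro y hy
              induction hy using Submodule.span_induction with
              | mem y hy =>
                obtain ⟨b, rfl⟩ := hy
                have hb0 : b ∈ F 0 := by rw [hF.zero]; trivial
                have h3 := hcon 0 b hb0
                have hpow : ins k (-(l : ℤ)) ((1 : R) : ML K G) ∈ lc S X hx := hinsT (by
                  have : (-(l : ℤ)).toNat = 0 := by omega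
                  rw [this, hF.zero]; trivial)
                have h4 : i (s * δ b) = ⟨ins k (-(l : ℤ)) ((1 : R) : ML K G), hpow⟩ *
                    ⟨_, hinsT (hw 0 b hb0)⟩ := by
                  apply Subtype.ext
                  change ins k 0 ((s * δ b : R) : ML K G) =
                    ins k (-(l : ℤ)) ((1 : R) : ML K G) *
                      ins k (((0 : ℕ) : ℤ) + l) ((s * δ b : R) : ML K G)
                  rw [ins_mul]
                  congr 1
                  · push_cast
                    ring
                  · exact (one_mul _).symm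
                rw [h4]
                exact Q.mul_mem_left _ h3
              | zero =>
                rw [mul_zero, map_zero]
                exact Q.zero_mem
              | add y z _ _ hy hz =>
                rw [mul_add, map_add]
                exact Q.add_mem hy hz
              | smul r y _ hy =>
                rw [smul_eq_mul, mul_left_comm, map_mul]
                exact Q.mul_mem_left _ hy
            have h3 := hgen _ hmem
            rw [map_mul, map_mul, map_pow] at h3
            have h4 : i a ∈ Q := by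
              rcases hQ.mem_or_mem h3 with h5 | h5
              · exact absurd h5 hs
              · rcases hQ.mem_or_mem h5 with h6 | h6
                · exact absurd h6 hs'
                · exact hQ.mem_of_pow_mem _ h6
            have h5 : i a = (⟨ins k (-1) ((1 : R) : ML K G), hTm⟩ : lc S X hx) ^ d *
                ⟨ins k d (a : ML K G), hinsT ha⟩ := by
              apply Subtype.ext
              change ins k 0 (a : ML K G) = ins k (-1) ((1 : R) : ML K G) ^ d *
                ins k d (a : ML K G)
              rw [ins_pow, ins_mul]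
              congr 1
              · ring
              · change (a : ML K G) = (1 : ML K G) ^ d * a
                rw [one_pow, one_mul]
            rw [h5] at h4
            rcases hQ.mem_or_mem h4 with h6 | h6
            · exact absurd (hQ.mem_of_pow_mem _ h6) hc
            · exact h6
        -- contradiction
        obtain ⟨a, ha, ha'⟩ := (mo_mem_rs hF (d := m.1) (m := m.2) (a := x)).1 hx
        have hm1 : (((m.1.toNat : ℕ)) : ℤ) = m.1 := Int.toNat_of_nonneg hm.le
        have h3 := hall m.1.toNat (by omega) a (by rw [hm1]; exact ha)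
        obtain ⟨y, hy, hXy⟩ := hXT
        have h4 : (⟨X, hST hx⟩ : lc S X hx) ∈ Q := by
          have : (⟨X, hST hx⟩ : lc S X hx) =
              ⟨ins k (((m.1.toNat : ℕ)) : ℤ) (a : ML K G), hinsT (by rw [hm1]; exact ha)⟩ := by
            apply Subtype.ext
            change X = ins k (((m.1.toNat : ℕ)) : ℤ) (a : ML K G)
            rw [ha', ins_mo, hm1]
          rw [this]
          exact h3
        apply hQ.ne_top
        rw [Ideal.eq_top_iff_one]
        have h5 : (1 : lc S X hx) = ⟨X, hST hx⟩ * ⟨y, hy⟩ := Subtype.ext hXy.symm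
        rw [h5]
        exact Q.mul_mem_right _ h4
      obtain ⟨e, c, hc, hw0⟩ := key
      have hce : c ∈ F ((e : ℤ)).toNat := by rwa [hn0]
      refine ⟨⟨ins k e (c : ML K G), hinsT hce⟩, fun f => ⟨_, hw0, ?_⟩⟩
      -- the quotient
      have hquo : ins k l (s : ML K G) * (ga ρ (ℤ × G) τ (f : ML K (ℤ × G)) - f) ∈ lc S X hx := by
        obtain ⟨n, hn⟩ := f.2
        refine ⟨n, ?_⟩
        have h3 : X ^ n * (ins k l (s : ML K G) * (ga ρ (ℤ × G) τ (f : ML K (ℤ × G)) - f)) =
            ins k l (s : ML K G) * (ga ρ (ℤ × G) τ (X ^ n * f) - X ^ n * f) := by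
          rw [map_mul, map_pow, hXi]
          ring
        rw [h3]
        refine (mem_rs hF).2 fun d => ?_
        obtain ⟨b, hb, hb'⟩ := (mem_rs hF).1 hn (d - l)
        refine ⟨s * δ b, ?_, ?_⟩
        · refine hF.anti _ _ ?_ (hraise _ b hb)
          omega
        · rw [slc_ins_mul, slc_sub, slc_ga, ← hb']
          rfl
      refine ⟨⟨_, hquo⟩, ?_⟩
      apply Subtype.ext
      change ins k ((e : ℤ) + l) ((s * δ c : R) : ML K G) *
          (ga ρ (ℤ × G) τ (f : ML K (ℤ × G)) - f) =
        (ga ρ (ℤ × G) τ (ins k e (c : ML K G)) - ins k e (c : ML K G)) *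
          (ins k l (s : ML K G) * (ga ρ (ℤ × G) τ (f : ML K (ℤ × G)) - f))
      rw [ga_ins, ← ins_sub, ← mul_assoc, ins_mul]
      congr 2
      change (s : ML K G) * (ga ρ G τ c - c) = (ga ρ G τ c - c) * s
      rw [mul_comm]
  · intro f
    exact Iff.rfl

end chart

end Pool.Agent.U197.GQ
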