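import Pool.Agent.U197.GQ.M2
import Pool.Agent.U197.GQ.M5

/-!
The atlas of the quotient of the weighted blowup by a finite group.
-/

set_option autoImplicit false
set_option linter.unusedSectionVars false

namespace Pool.Agent.U197.GQ

open Pool.Agent.W559.Mg Pool.Agent.W559.Et Pool.Agent.H920R2

section triv

variable {k B : Type} [Field k] [CommRing B] [Algebra k B]

/-- The empty centre. -/
lemma rwc_top : RegularWeightedCentre k (fun _ => ⊤ : ℕ → Ideal B) where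
  zero := rfl
  anti := fun _ _ _ => le_rfl
  mul := fun _ _ => le_top
  coord := fun _ hP h => absurd (top_le_iff.1 h) hP.ne_top

end triv

section glue

variable {k K : Type} [Field k] [Field K] [Algebra k K] {G : Type} [AddCommGroup G]
  [IsDomain (ML K G)] {R R' : Subalgebra k (ML K G)} {F : ℕ → Ideal R} {F' : ℕ → Ideal R'}
  (hF : RegularWeightedCentre k F) (hF' : RegularWeightedCentre k F')

lemma glue_rs {r : K} (hr : mo 0 r ∈ R)
    (hg : ∀ d, ∀ b ∈ F' d, ∃ n : ℕ, ∃ c ∈ F d, (c : ML K G) = (mo 0 r : ML K G) ^ n * (b : ML K G))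
    {f : ML K (ℤ × G)} (hf : f ∈ rs hF') : ∃ n : ℕ, mo 0 r ^ n * f ∈ rs hF := by
  classical
  have h1 : ∀ d : ℤ, ∃ n : ℕ, ∃ c ∈ F d.toNat, (c : ML K G) = mo 0 r ^ n * slc d f := by
    intro d
    obtain ⟨b, hb, hb'⟩ := (mem_rs hF').1 hf d
    obtain ⟨n, c, hc, hc'⟩ := hg _ b hb
    exact ⟨n, c, hc, by rw [hc', hb']⟩
  choose n c hc hc' using h1
  obtain ⟨N, hN⟩ : ∃ N : ℕ, N = ∑ m ∈ f.coeff.support, n m.1 := ⟨_, rfl⟩
  refine ⟨N, (mem_rs hF).2 fun d => ?_⟩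
  have h2 : slc d (mo 0 r ^ N * f) = mo 0 r ^ N * slc d f := by
    rw [mo_pow, smul_zero, mo_pow, smul_zero]
    have := slc_mo_mul d 0 (0 : G) (r ^ N) f
    rw [sub_zero] at this
    exact this
  rw [h2]
  by_cases hd : ∃ m ∈ f.coeff.support, m.1 = d
  · obtain ⟨m, hm, rfl⟩ := hd
    have h3 : n m.1 ≤ N := by
      rw [hN]
      exact Finset.single_le_sum (f := fun m : ℤ × G => n m.1) (fun _ _ => Nat.zero_le _) hm
    refine ⟨⟨mo 0 r, hr⟩ ^ (N - n m.1) * c m.1, Ideal.mul_mem_left _ _ (hc _), ?_⟩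
    change mo 0 r ^ (N - n m.1) * ((c m.1 : R) : ML K G) = _
    rw [hc', ← mul_assoc, ← pow_add, Nat.sub_add_cancel h3]
  · refine ⟨0, Ideal.zero_mem _, ?_⟩
    have h3 : slc d f = 0 := by
      apply ml_ext
      intro μ
      rw [coeff_slc]
      by_contra hcon
      exact hd ⟨(d, μ), Finsupp.mem_support_iff.2 hcon, rfl⟩
    rw [h3, mul_zero]
    rfl

end glue

section main

variable {k K : Type} [Field k] [Field K] [Algebra k K] {G : Type} [AddCommGroup G]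
  [IsDomain (ML K G)] {Γ : Type} [Group Γ] (ρ : Γ →* (K ≃ₐ[k] K))

lemma mo_mem_top {R : Subalgebra k (ML K G)} {d : ℤ} {m : G} {a : K} :
    mo (d, m) a ∈ rs (rwc_top (k := k) (B := R)) ↔ mo m a ∈ R := by
  rw [mo_mem_rs]
  constructor
  · rintro ⟨b, -, hb⟩
    rw [← hb]
    exact b.2
  · intro h
    exact ⟨⟨_, h⟩, trivial, rfl⟩

lemma FX_prod {d : ℤ} {m : G} {a : K} : mo (d, m) a ∈ FX ρ (ℤ × G) ↔ mo m a ∈ FX ρ G := by
  rw [mo_mem_FX, mo_mem_FX]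

/-- The atlas with an additional trivial grading. -/
theorem pb_top {𝒱 : Set (ValuationSubring K)} {Kf : Subfield K} {𝒜 : Type} {W : 𝒜 → Set K}
    {E : ℕ} {T : Type} {R : T → Subalgebra k (ML K G)} {H : T → K}
    (h : PB 𝒱 Kf W (FX ρ G) E R H) (hgr : ∀ t, Gr (R t)) :
    PB 𝒱 Kf W (FX ρ (ℤ × G)) E (fun t => rs (rwc_top (k := k) (B := R t))) H := by
  have hz : ((0 : ℤ), (0 : G)) = 0 := rfl
  have hmem : ∀ t d m a, mo (d, m) a ∈ rs (rwc_top (k := k) (B := R t)) ⊓ FX ρ (ℤ × G) ↔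
      mo m a ∈ R t ⊓ FX ρ G := fun t d m a => and_congr mo_mem_top (FX_prod ρ)
  have hgrt : ∀ t, Gr (rs (rwc_top (k := k) (B := R t))) := fun t => gr_rs _ fun d b _ m =>
    ⟨⟨_, hgr t _ b.2 m⟩, trivial, rfl⟩
  refine ⟨h.H0, h.HK, fun t => gr_inf (hgrt t) (gr_FX ρ), fun t => ?_, fun t x hx => ?_,
    fun m a ha hm => ?_, fun t t' => ?_, fun t t' f hf => ?_, fun V hV => ?_, h.E0,
    fun t m => ?_, fun t => ?_⟩
  · obtain ⟨a, ha⟩ := h.aa t
    exact ⟨a, fun x hx => (hmem t 0 0 x).2 (ha x hx)⟩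
  · exact h.inF t x ((hmem t 0 0 x).1 hx)
  · rw [mo_mem_FX] at hm ⊢
    intro γ
    rw [map_inv₀, hm γ]
  · exact (hmem t 0 0 _).2 (h.rt t t')
  · refine glue_rs _ _ (h.rt t t').1 (fun d b _ => ?_) hf
    obtain ⟨n, hn⟩ := h.gl t t' b b.2
    exact ⟨n, ⟨_, hn⟩, trivial, rfl⟩
  · obtain ⟨t, E', ψ, h1, h2, h3, h4⟩ := h.cv V hV
    refine ⟨t, E', fun m => ψ m.2, h1, fun m => h2 _, fun m m' => h3 _ _, fun f hf m => ?_⟩
    obtain ⟨b, -, hb⟩ := (mem_rs _).1 hf m.1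
    have := h4 b b.2 m.2
    rw [hb, coeff_slc] at this
    exact this
  · obtain ⟨u, hu, h1, h2⟩ := h.un t m.2
    exact ⟨u, hu, (hmem t (E • m.1) _ _).2 h1, (hmem t (-(E • m.1)) _ _).2 h2⟩
  · rw [eq_top_iff]
    intro m _
    set Λ := AddSubgroup.closure {m : ℤ × G | ∃ a : K, a ≠ 0 ∧
      mo m a ∈ rs (rwc_top (k := k) (B := R t)) ⊓ FX ρ (ℤ × G)} with hΛ
    have h1 : ∀ m : G, ((0 : ℤ), m) ∈ Λ := by
      intro m
      have h2 : AddSubgroup.closure {m : G | ∃ a : K, a ≠ 0 ∧ mo m a ∈ R t ⊓ FX ρ G} ≤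
          Λ.comap (AddMonoidHom.inr ℤ G) := by
        rw [AddSubgroup.closure_le]
        rintro m ⟨a, ha, hm⟩
        exact AddSubgroup.subset_closure ⟨a, ha, (hmem t 0 m a).2 hm⟩
      rw [h.gen t] at h2
      exact h2 trivial
    have h2 : ((1 : ℤ), (0 : G)) ∈ Λ := AddSubgroup.subset_closure ⟨1, one_ne_zero,
      (hmem t 1 0 1).2 (by rw [mo_one]; exact Subalgebra.one_mem _)⟩
    have h3 : m = m.1 • ((1 : ℤ), (0 : G)) + ((0 : ℤ), m.2) := by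
      ext
      · simp
      · simp
    rw [h3]
    exact Λ.add_mem (Λ.zsmul_mem h2 _) (h1 _)

/-- **The smooth atlas of the quotient of the weighted blowup.** -/
theorem mb_of_centre [PerfectField k] [Fintype Γ] [IsDomain (ML K (ℤ × G))]
    {𝒱 : Set (ValuationSubring K)} {Kf : Subfield K} {𝒜 : Type} {W : 𝒜 → Set K}
    {E : ℕ} {T : Type} [Finite T] {R : T → Subalgebra k (ML K G)} {H : T → K}
    (h : PB 𝒱 Kf W (FX ρ G) E R H) (hgr : ∀ t, Gr (R t))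
    (hR : ∀ t γ, ∀ f ∈ R t, ga ρ G γ f ∈ R t) (hsm : ∀ t, Algebra.Smooth k (R t))
    (hfaith : ∀ t γ, (∀ f ∈ R t, ga ρ G γ f = f) → γ = 1)
    (F : ∀ t, ℕ → Ideal (R t)) (hF : ∀ t, RegularWeightedCentre k (F t))
    (hFs : ∀ t γ d, ∀ a ∈ F t d, (⟨ga ρ G γ a, hR t γ a a.2⟩ : R t) ∈ F t d)
    (hh : ∀ t d, ∀ b ∈ F t d, ∀ m, ∃ c ∈ F t d, (c : ML K G) = mo m ((b : ML K G).coeff m))
    (hglue : ∀ t t' d, ∀ b ∈ F t' d, ∃ n : ℕ, ∃ c ∈ F t d,
      (c : ML K G) = (mo 0 (H t' / H t) : ML K G) ^ n * (b : ML K G))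
    (hpos : ∀ t, ∃ b ∈ F t 1, b ≠ 0)
    (hloc : ∀ t, ∀ P : Ideal (R t), P.IsPrime → LocalCond ρ (R t) (hR t) (F t) P) :
    ∃ (T' : Type) (_ : Finite T') (E' : ℕ) (C' : T' → Subalgebra k (ML K (ℤ × G)))
      (H' : T' → K), MB 𝒱 Kf W E' C' H' := by
  classical
  have hpb := pb_top ρ h hgr
  have hsmr : ∀ t, Algebra.Smooth k (rs (hF t)) := fun t => smooth_rs (hF t) (hsm t)
  obtain ⟨J, hJ, μ, x, hx, L, N, u, hL, hx0, hxi, hμ, hpa⟩ := levelG ρ hpb (fs G)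
    (fun t => rs (hF t)) (fun t f hf => by
      rw [mem_rs] at hf ⊢
      intro d
      obtain ⟨b, -, hb⟩ := hf d
      exact ⟨b, trivial, hb⟩)
    (fun t => gr_rs (hF t) (hh t))
    (fun t m a hm hma => by
      obtain ⟨d, m⟩ := m
      have hd : d ≤ 0 := hm
      have h1 : mo m a ∈ R t := mo_mem_top.1 hma.1
      refine (mo_mem_rs (hF t)).2 ⟨⟨_, h1⟩, ?_, rfl⟩
      rw [Int.toNat_of_nonpos hd, (hF t).zero]
      trivial)
    (fun t t' f hf => glue_rs (hF t) (hF t') (h.rt t t').1 (hglue t t') hf)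
    (fun t γ f hf => ga_mem_rs ρ (hF t) (hR t) (hFs t) γ hf)
    (fun t => by
      have h1 := hsmr t
      have h2 : Algebra.FiniteType k (rs (hF t)) := inferInstance
      exact (rs (hF t)).fg_iff_finiteType.2 h2)
    (fun t => by
      obtain ⟨b, hb, hb0⟩ := hpos t
      have h1 : ∃ m, (b : ML K G).coeff m ≠ 0 := by
        by_contra hcon
        push Not at hcon
        apply hb0
        apply Subtype.ext
        apply ml_ext
        intro m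
        rw [hcon m]
        rfl
      obtain ⟨m, hm⟩ := h1
      obtain ⟨c, hc, hc'⟩ := hh t 1 b hb m
      exact ⟨(1, m), _, hm, one_pos, (mo_mem_rs (hF t) (d := 1)).2 ⟨c, hc, hc'⟩⟩)
  refine ⟨Σ t, J t, inferInstance, _, _, _,
    Pool.Agent.W613.Et.ofPb k K (ℤ × G) 𝒱 Kf 𝒜 W _ _ _ _ _ hpa ?_⟩
  rintro ⟨t, j⟩
  refine chart_smoothG ρ (hF t) (hR t) (hsm t) (hfaith t) (hFs t) (hloc t) (hx0 t j) (hxi t j)
    (hx t j) ?_
  have h1 : (μ t j).1 = (L : ℤ) := hμ t j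
  rw [h1]
  exact_mod_cast hL

end main

end Pool.Agent.U197.GQ
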