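import Pool.Agent.U197.GQ.M6
import Pool.Agent.U197.PQ.D1

/-!
The coordinate ring of the torsor over the blowup of the origin of an affine space.
-/

set_option autoImplicit false
set_option linter.unusedSectionVars false

open MvPolynomial

namespace Pool.Agent.U197.GQ

open Pool.Agent.W559.Mg Pool.Agent.H920R2 Pool.Agent.Y177.Ga

section field

variable (k : Type) [Field k] (n : ℕ)

/-- The field of rational functions. -/
abbrev KK : Type := FractionRing (MvPolynomial (Fin n) k)

/-- The embedding of the polynomials. -/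
noncomputable def evk : MvPolynomial (Fin n) k →ₐ[k] KK k n :=
  IsScalarTower.toAlgHom k (MvPolynomial (Fin n) k) (KK k n)

/-- The linear forms as rational functions. -/
noncomputable def el : (Fin n → k) →ₗ[k] KK k n := (evk k n).toLinearMap ∘ₗ ln k n

variable {k n}

lemma evk_inj : Function.Injective (evk k n) :=
  IsFractionRing.injective (MvPolynomial (Fin n) k) (KK k n)

lemma el_single (i : Fin n) : el k n (Pi.single i 1) = evk k n (X i) := by
  change evk k n (ln k n (Pi.single i 1)) = _
  rw [ln_single]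

/-- The coordinates on the torsor. -/
noncomputable def Ph : MvPolynomial (Fin (n + 1)) k →ₐ[k] ML (KK k n) (ℤ × Unit) :=
  aeval (Fin.cons (mo (-1, ()) 1) fun i => mo (1, ()) (evk k n (X i)))

/-- The degree of a monomial. -/
def dgr (m : Fin (n + 1) →₀ ℕ) : ℤ := (∑ i : Fin n, (m i.succ : ℤ)) - m 0

lemma Ph_monomial (m : Fin (n + 1) →₀ ℕ) (c : k) :
    Ph (monomial m c) = mo (dgr m, ()) (evk k n (monomial m.tail c)) := by
  unfold Ph
  rw [aeval_monomial, Finsupp.prod_fintype _ _ (fun i => pow_zero _), Fin.prod_univ_succ]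
  simp only [Fin.cons_zero, Fin.cons_succ]
  have h1 : ∏ x : Fin n, (mo ((1 : ℤ), ()) (evk k n (X x)) : ML (KK k n) (ℤ × Unit)) ^ m x.succ =
      mo (∑ i : Fin n, (m i.succ : ℤ), ()) (evk k n (∏ i, X i ^ m i.succ)) := by
    simp only [mo_pow]
    rw [mo_prod, map_prod]
    congr 1
    · ext
      rw [Prod.fst_sum]
      refine Finset.sum_congr rfl fun i _ => ?_
      simp
    · exact Finset.prod_congr rfl fun i _ => by rw [map_pow]
  have h2 : (mo ((-1 : ℤ), ()) (1 : KK k n) : ML (KK k n) (ℤ × Unit)) ^ m 0 =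
      mo (-(m 0 : ℤ), ()) 1 := by
    rw [mo_pow, one_pow]
    congr 1
    ext
    simp
  rw [h1, h2, algebraMap_ML, mo_mul, mo_mul, monomial_eq, map_mul,
    Finsupp.prod_fintype _ _ (fun i => pow_zero _)]
  congr 1
  · unfold dgr
    ext
    · simp [sub_eq_neg_add]
  · rw [one_mul]
    congr 1

lemma Ph_coeff (P : MvPolynomial (Fin (n + 1)) k) (j : ℤ) :
    (Ph P).coeff (j, ()) = evk k n (∑ m ∈ P.support,
      if dgr m = j then monomial m.tail (coeff m P) else 0) := by
  classical
  conv_lhs => rw [P.as_sum, map_sum]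
  rw [coeff_sum', map_sum]
  refine Finset.sum_congr rfl fun m _ => ?_
  rw [Ph_monomial, coeff_mo]
  by_cases h : dgr m = j
  · rw [if_pos (by rw [h]), if_pos h]
  · rw [if_neg (fun h' => h (congrArg Prod.fst h')), if_neg h, map_zero]

lemma Ph_inj : Function.Injective (Ph : MvPolynomial (Fin (n + 1)) k →ₐ[k] _) := by
  classical
  rw [injective_iff_map_eq_zero]
  intro P hP
  by_contra hne
  obtain ⟨m1, hm1⟩ := MvPolynomial.ne_zero_iff.1 hne
  have h1 := Ph_coeff P (dgr m1)
  rw [hP] at h1
  have h2 : (∑ m ∈ P.support,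
      if dgr m = dgr m1 then monomial m.tail (coeff m P) else 0) = 0 := by
    apply evk_inj
    rw [← h1, map_zero]
    rfl
  have h3 := congrArg (coeff m1.tail) h2
  rw [coeff_sum, coeff_zero, Finset.sum_eq_single m1] at h3
  · rw [if_pos rfl, coeff_monomial, if_pos rfl] at h3
    exact hm1 h3
  · intro m _ hmm
    split_ifs with h4
    · rw [coeff_monomial, if_neg]
      intro h5
      apply hmm
      have h6 : ∀ i : Fin n, m i.succ = m1 i.succ := fun i => by
        have := DFunLike.congr_fun h5 i
        rwa [Finsupp.tail_apply, Finsupp.tail_apply] at this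
      have h7 : m 0 = m1 0 := by
        unfold dgr at h4
        have h8 : (∑ i : Fin n, (m i.succ : ℤ)) = ∑ i : Fin n, (m1 i.succ : ℤ) :=
          Finset.sum_congr rfl fun i _ => by rw [h6]
        rw [h8] at h4
        omega
      ext i
      refine Fin.cases ?_ (fun i => ?_) i
      · exact h7
      · exact h6 i
    · rw [coeff_zero]
  · intro h
    exact absurd (MvPolynomial.mem_support_iff.2 hm1) h

end field

section coord

variable {k : Type} [Field k] {n : ℕ} {B : Type} [CommRing B] [Algebra k B]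

/-- The algebra homomorphism given by an element and a linear map. -/
noncomputable def avL (a : B) (y : (Fin n → k) →ₗ[k] B) : MvPolynomial (Fin (n + 1)) k →ₐ[k] B :=
  aeval (Fin.cons a fun i => y (Pi.single i 1))

/-- The linear forms in the last variables. -/
noncomputable def lS (k : Type) [Field k] (n : ℕ) :
    (Fin n → k) →ₗ[k] MvPolynomial (Fin (n + 1)) k :=
  (rename Fin.succ : MvPolynomial (Fin n) k →ₐ[k] MvPolynomial (Fin (n + 1)) k).toLinearMap ∘ₗ
    ln k n

lemma lS_single (i : Fin n) : lS k n (Pi.single i 1) = X i.succ := by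
  change rename Fin.succ (ln k n (Pi.single i 1)) = _
  rw [ln_single, rename_X]

lemma lin_ext {y z : (Fin n → k) →ₗ[k] B} (h : ∀ i, y (Pi.single i 1) = z (Pi.single i 1)) :
    y = z := by
  apply (Pi.basisFun k (Fin n)).ext
  intro i
  rw [Pi.basisFun_apply]
  exact h i

lemma avL_zero (a : B) (y : (Fin n → k) →ₗ[k] B) : avL a y (X 0) = a := by
  unfold avL
  rw [aeval_X, Fin.cons_zero]

lemma avL_lS (a : B) (y : (Fin n → k) →ₗ[k] B) (v : Fin n → k) : avL a y (lS k n v) = y v := by
  have h1 : (avL a y).toLinearMap ∘ₗ lS k n = y := by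
    apply lin_ext
    intro i
    change avL a y (lS k n (Pi.single i 1)) = _
    rw [lS_single]
    unfold avL
    rw [aeval_X, Fin.cons_succ]
  exact congrArg (fun f => f v) h1

lemma avL_ext {f g : MvPolynomial (Fin (n + 1)) k →ₐ[k] B} (h0 : f (X 0) = g (X 0))
    (h1 : ∀ v, f (lS k n v) = g (lS k n v)) : f = g := by
  apply MvPolynomial.algHom_ext
  intro i
  refine Fin.cases h0 (fun i => ?_) i
  rw [← lS_single]
  exact h1 _

/-- Coordinates given by a basis. -/
lemma avL_basis_bij (a : B) (y : (Fin n → k) →ₗ[k] B)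
    (h : Function.Bijective (avL a y)) (c : Module.Basis (Fin n) k (Fin n → k)) :
    Function.Bijective (aeval (Fin.cons a fun j => y (c j)) :
      MvPolynomial (Fin (n + 1)) k →ₐ[k] B) := by
  let u : (Fin n → k) ≃ₗ[k] (Fin n → k) := c.equivFun.symm
  have hu : ∀ j, u (Pi.single j 1) = c j := fun j => by
    change c.equivFun.symm (Pi.single j 1) = c j
    rw [LinearEquiv.symm_apply_eq]
    funext i
    rw [c.equivFun_self, Pi.single_apply]
    simp only [eq_comm]
  have h1 : (aeval (Fin.cons a fun j => y (c j)) : MvPolynomial (Fin (n + 1)) k →ₐ[k] B) =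
      avL a (y ∘ₗ (u : (Fin n → k) →ₗ[k] (Fin n → k))) := by
    unfold avL
    congr 1
    funext i
    refine Fin.cases rfl (fun i => ?_) i
    rw [Fin.cons_succ, Fin.cons_succ]
    change y (c i) = y (u (Pi.single i 1))
    rw [hu]
  let Lf : MvPolynomial (Fin (n + 1)) k →ₐ[k] MvPolynomial (Fin (n + 1)) k :=
    avL (X 0) (lS k n ∘ₗ (u : (Fin n → k) →ₗ[k] (Fin n → k)))
  let Lg : MvPolynomial (Fin (n + 1)) k →ₐ[k] MvPolynomial (Fin (n + 1)) k :=
    avL (X 0) (lS k n ∘ₗ (u.symm : (Fin n → k) →ₗ[k] (Fin n → k)))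
  have h2 : Lf.comp Lg = AlgHom.id k _ := by
    apply avL_ext
    · change Lf (Lg (X 0)) = X 0
      rw [avL_zero, avL_zero]
    · intro v
      change Lf (Lg (lS k n v)) = lS k n v
      rw [avL_lS]
      change Lf (lS k n (u.symm v)) = lS k n v
      rw [avL_lS]
      change lS k n (u (u.symm v)) = lS k n v
      rw [u.apply_symm_apply]
  have h3 : Lg.comp Lf = AlgHom.id k _ := by
    apply avL_ext
    · change Lg (Lf (X 0)) = X 0
      rw [avL_zero, avL_zero]
    · intro v
      change Lg (Lf (lS k n v)) = lS k n v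
      rw [avL_lS]
      change Lg (lS k n (u v)) = lS k n v
      rw [avL_lS]
      change lS k n (u.symm (u v)) = lS k n v
      rw [u.symm_apply_apply]
  have hLf : Function.Bijective Lf := Function.bijective_iff_has_inverse.2 ⟨Lg,
    fun x => congrArg (fun f => f x) h3, fun x => congrArg (fun f => f x) h2⟩
  have h4 : (aeval (Fin.cons a fun j => y (c j)) : MvPolynomial (Fin (n + 1)) k →ₐ[k] B) =
      (avL a y).comp Lf := by
    rw [h1]
    apply avL_ext
    · change _ = avL a y (Lf (X 0))
      rw [avL_zero, avL_zero, avL_zero]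
    · intro v
      change _ = avL a y (Lf (lS k n v))
      rw [avL_lS, avL_lS]
      change _ = avL a y (lS k n (u v))
      rw [avL_lS]
      rfl
  rw [h4]
  exact h.comp hLf

/-- A bijective algebra homomorphism is etale. -/
lemma etale_of_bij {A : Type} [CommRing A] [Algebra k A] (f : A →ₐ[k] B)
    (h : Function.Bijective f) : ((f : A →ₐ[k] B) : A →+* B).Etale :=
  RingHom.Etale.of_bijective h

end coord

end Pool.Agent.U197.GQ
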