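import Pool.Agent.U197.GQ.M7

/-!
The weighted centre of a finite linear group: intersection of the weighted centres of its elements
of order `p`.
-/

set_option autoImplicit false
set_option linter.unusedSectionVars false

open MvPolynomial

namespace Pool.Agent.U197.GQ

open Pool.Agent.H920R2 Pool.Agent.Y177.Ga Pool.Agent.Y177.Tor Pool.Agent.U197.PQ

section grp

variable {k : Type} [Field k] {n : ℕ} {Γ : Type} [Group Γ]
  (A : Γ →* Module.End k (Fin n → k))

/-- The difference with the identity. -/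
def Nn (γ : Γ) : Module.End k (Fin n → k) := A γ - 1

lemma Nn_apply (γ : Γ) (v : Fin n → k) : Nn A γ v = A γ v - v := rfl

lemma Nn_pow {p : ℕ} [Fact p.Prime] [CharP k p] {σ : Γ} (hσ : σ ^ p = 1) : Nn A σ ^ p = 0 := by
  rcases Nat.eq_zero_or_pos n with h | h
  · subst h
    ext v i
    exact i.elim0
  · have : Nonempty (Fin n) := ⟨⟨0, h⟩⟩
    have hch : CharP (Module.End k (Fin n → k)) p :=
      charP_of_injective_algebraMap (algebraMap k (Module.End k (Fin n → k))).injective p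
    unfold Nn
    rw [sub_pow_char_of_commute _ (Commute.one_right _), one_pow, ← map_pow, hσ, map_one,
      sub_self]

/-- The elements of order `p`. -/
def SP (p : ℕ) (Γ : Type) [Group Γ] : Set Γ := {σ | σ ≠ 1 ∧ σ ^ p = 1}

variable {B : Type} [CommRing B] [Algebra k B] (x : (Fin n → k) →ₗ[k] B)

/-- The generators of the filtration of a nilpotent endomorphism. -/
def Gy (x : (Fin n → k) →ₗ[k] B) (N : Module.End k (Fin n → k)) (y : B) (w : ℕ) : Prop :=
  ∃ v, y = x ((N ^ w) v)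

/-- The filtration of an element. -/
def Fs (σ : Γ) (d : ℕ) : Ideal B := Gf (Gy x (Nn A σ)) d

/-- The filtration of the group. -/
def FF (p : ℕ) (d : ℕ) : Ideal B := ⨅ σ : SP p Γ, Fs A x σ d

lemma mem_FF {p d : ℕ} {b : B} : b ∈ FF A x p d ↔ ∀ σ ∈ SP p Γ, b ∈ Fs A x σ d := by
  unfold FF
  rw [Ideal.mem_iInf]
  exact ⟨fun h σ hσ => h ⟨σ, hσ⟩, fun h σ => h σ.1 σ.2⟩

lemma FF_zero (p : ℕ) : FF A x p 0 = ⊤ := by
  rw [eq_top_iff]
  intro b _
  rw [mem_FF]
  intro σ _
  unfold Fs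
  rw [Gf_zero]
  trivial

lemma FF_anti (p a b : ℕ) (h : a ≤ b) : FF A x p b ≤ FF A x p a := by
  intro y hy
  rw [mem_FF] at hy ⊢
  exact fun σ hσ => Gf_anti _ _ _ h (hy σ hσ)

lemma FF_mul (p a b : ℕ) : FF A x p a * FF A x p b ≤ FF A x p (a + b) := by
  rw [Ideal.mul_le]
  intro y hy z hz
  rw [mem_FF] at hy hz ⊢
  exact fun σ hσ => mul_mem_Gf _ (hy σ hσ) (hz σ hσ)

/-- The filtrations of the generators of a cyclic group. -/
lemma Fs_le {σ σ' : Γ} (h : ∃ j : ℕ, σ ^ j = σ') (d : ℕ) : Fs A x σ' d ≤ Fs A x σ d := by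
  obtain ⟨j, rfl⟩ := h
  have h1 : Nn A (σ ^ j) = Nn A σ * ∑ i ∈ Finset.range j, A σ ^ i := by
    unfold Nn
    rw [mul_geom_sum, map_pow]
  have hc : Commute (Nn A σ) (∑ i ∈ Finset.range j, A σ ^ i) := by
    unfold Nn
    refine Commute.sub_left ?_ (Commute.one_left _)
    exact Commute.sum_right _ _ _ fun i _ => (Commute.refl _).pow_right i
  refine Gf_le _ (Gf_zero _) (Gf_anti _) (Gf_mul _) ?_ d
  rintro _ w ⟨v, rfl⟩
  rw [h1, hc.mul_pow]
  exact gen_mem _ ⟨((∑ i ∈ Finset.range j, A σ ^ i) ^ w) v, rfl⟩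

/-- The elements which fix the linear forms modulo an ideal. -/
def I0 (P : Ideal B) : Subgroup Γ where
  carrier := {γ | ∀ v, x (Nn A γ v) ∈ P}
  one_mem' := fun v => by
    have : Nn A 1 v = 0 := by
      rw [Nn_apply, map_one]
      exact sub_self v
    rw [this, map_zero]
    exact P.zero_mem
  mul_mem' := by
    intro γ γ' h h' v
    have : Nn A (γ * γ') v = Nn A γ (A γ' v) + Nn A γ' v := by
      rw [Nn_apply, Nn_apply, Nn_apply, map_mul]
      change A γ (A γ' v) - v = A γ (A γ' v) - A γ' v + (A γ' v - v)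
      abel
    rw [this, map_add]
    exact P.add_mem (h _) (h' _)
  inv_mem' := by
    intro γ h v
    have h1 : A γ (A γ⁻¹ v) = v := by
      have h2 : (A γ * A γ⁻¹) v = v := by
        rw [← map_mul, mul_inv_cancel, map_one]
        rfl
      exact h2
    have : Nn A γ⁻¹ v = -Nn A γ (A γ⁻¹ v) := by
      rw [Nn_apply, Nn_apply, h1]
      abel
    rw [this, map_neg]
    exact P.neg_mem (h _)

lemma mem_I0 {P : Ideal B} {γ : Γ} : γ ∈ I0 A x P ↔ ∀ v, x (Nn A γ v) ∈ P := Iff.rfl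

/-- The condition on the stabilizers. -/
def StabCond (p : ℕ) : Prop := ∀ H : Subgroup Γ, (∃ W : Submodule k (Fin n → k), W ≠ ⊤ ∧
  ∀ γ ∈ H, ∀ v, Nn A γ v ∈ W) → Nat.card H = 1 ∨ Nat.card H = p

lemma card_I0 {p : ℕ} (hst : StabCond A p) {P : Ideal B} (hP : ∃ v, x v ∉ P) :
    Nat.card (I0 A x P) = 1 ∨ Nat.card (I0 A x P) = p := by
  apply hst
  refine ⟨(P.restrictScalars k).comap x, ?_, fun γ hγ v => hγ v⟩
  obtain ⟨v, hv⟩ := hP
  intro h
  apply hv
  have : v ∈ (P.restrictScalars k).comap x := by rw [h]; trivial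
  exact this

/-- In the case of a group of order `p`. -/
lemma zp_of_card [Finite Γ] {p : ℕ} (hp : p.Prime) {H : Subgroup Γ} (h : Nat.card H = p) {τ : Γ}
    (hτ : τ ∈ H) (h1 : τ ≠ 1) : H = Subgroup.zpowers τ ∧ τ ^ p = 1 := by
  have hle : Subgroup.zpowers τ ≤ H := by
    rw [Subgroup.zpowers_le]
    exact hτ
  have h2 := Subgroup.card_dvd_of_le hle
  rw [h] at h2
  rcases (Nat.dvd_prime hp).1 h2 with h3 | h3
  · exact absurd (Subgroup.zpowers_eq_bot.1 (Subgroup.card_eq_one.1 h3)) h1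
  · refine ⟨(Subgroup.eq_of_le_of_card_ge hle (by rw [h, h3])).symm, ?_⟩
    rw [Nat.card_zpowers] at h3
    rw [← h3]
    exact pow_orderOf_eq_one τ

lemma pow_of_zp [Finite Γ] {τ σ : Γ} (h : σ ∈ Subgroup.zpowers τ) : ∃ j : ℕ, τ ^ j = σ := by
  obtain ⟨j, hj⟩ := mem_powers_iff_mem_zpowers.2 h
  exact ⟨j, hj⟩

/-- A product which separates a point from the fixed points of the other elements. -/
lemma exists_sepf [Finite Γ] (p : ℕ) (P : Ideal B) (hP : P.IsPrime) :
    ∃ f, f ∉ P ∧ ∀ σ ∈ SP p Γ, σ ∉ I0 A x P → f ∈ Fs A x σ 1 := by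
  classical
  have _ : Fintype Γ := Fintype.ofFinite Γ
  have h1 : ∀ σ : Γ, ∃ v, σ ∉ I0 A x P → x (Nn A σ v) ∉ P := by
    intro σ
    by_cases h : σ ∈ I0 A x P
    · exact ⟨0, fun h' => absurd h h'⟩
    · rw [mem_I0] at h
      push Not at h
      obtain ⟨v, hv⟩ := h
      exact ⟨v, fun _ => hv⟩
  choose v hv using h1
  refine ⟨∏ σ ∈ Finset.univ.filter (fun σ => σ ∉ I0 A x P), x (Nn A σ (v σ)), ?_, ?_⟩
  · intro h
    obtain ⟨σ, hσ, h2⟩ := hP.prod_mem_iff.1 h
    exact hv σ (Finset.mem_filter.1 hσ).2 h2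
  · intro σ _ hσ
    have h2 : x (Nn A σ (v σ)) ∈ Fs A x σ 1 := gen_mem _ ⟨v σ, by rw [pow_one]⟩
    exact Ideal.mem_of_dvd _ (Finset.dvd_prod_of_mem (fun σ => x (Nn A σ (v σ)))
      (Finset.mem_filter.2 ⟨Finset.mem_univ σ, hσ⟩)) h2

/-- Multiplication by a power of the separating element. -/
lemma sep_mem [Finite Γ] {p : ℕ} (hp : p.Prime) {P : Ideal B} (hc : Nat.card (I0 A x P) = p)
    {τ : Γ} (hτ : τ ∈ I0 A x P) (hτ1 : τ ≠ 1) {f : B}
    (hf : ∀ σ ∈ SP p Γ, σ ∉ I0 A x P → f ∈ Fs A x σ 1) {d : ℕ} {b : B} (hb : b ∈ Fs A x τ d) :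
    f ^ d * b ∈ FF A x p d := by
  rw [mem_FF]
  intro σ hσ
  by_cases h : σ ∈ I0 A x P
  · refine Ideal.mul_mem_left _ _ (Fs_le A x ?_ d hb)
    obtain ⟨h1, -⟩ := zp_of_card hp hc h hσ.1
    rw [h1] at hτ
    exact pow_of_zp hτ
  · refine Ideal.mul_mem_right _ _ ?_
    have h1 := pow_mem_Gf (Gy x (Nn A σ)) (hf σ hσ h) d
    rwa [mul_one] at h1

lemma FF_le_Fs {p : ℕ} {τ : Γ} (hτ : τ ∈ SP p Γ) (d : ℕ) : FF A x p d ≤ Fs A x τ d :=
  fun _ hb => (mem_FF A x).1 hb τ hτ

/-- The filtration of the group is a regular weighted centre outside the origin. -/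
theorem centre_FF [Finite Γ] {p : ℕ} [hp : Fact p.Prime] [CharP k p] (hst : StabCond A p)
    (hspan : ∀ P : Ideal B, P.IsPrime → ∃ v, x v ∉ P) (a0 : B)
    (het : ∀ c : Module.Basis (Fin n) k (Fin n → k),
      ((aeval (Fin.cons a0 fun j => x (c j)) : MvPolynomial (Fin (n + 1)) k →ₐ[k] B) :
        MvPolynomial (Fin (n + 1)) k →+* B).Etale) :
    RegularWeightedCentre k (FF A x p) where
  zero := FF_zero A x p
  anti := FF_anti A x p
  mul := FF_mul A x p
  coord P hP hFP := by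
    classical
    obtain ⟨f, hfP, hf⟩ := exists_sepf A x p P hP
    have hex : ∃ τ ∈ SP p Γ, τ ∈ I0 A x P := by
      by_contra hcon
      push Not at hcon
      apply hfP
      apply hFP
      rw [mem_FF]
      exact fun σ hσ => hf σ hσ (hcon σ hσ)
    obtain ⟨τ, hτS, hτI⟩ := hex
    have hc : Nat.card (I0 A x P) = p := by
      rcases card_I0 A x hst (hspan P hP) with h | h
      · rw [Subgroup.card_eq_one] at h
        rw [h, Subgroup.mem_bot] at hτI
        exact absurd hτI hτS.1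
      · exact h
    obtain ⟨c, w, hc1, hc2⟩ := exists_linFlag (Nn A τ) (Nn_pow A hτS.2)
    let M := Localization.Away f
    let y : Fin (n + 1) → M := fun i => algebraMap B M ((Fin.cons a0 fun j => x (c j) :
      Fin (n + 1) → B) i)
    let wt : Fin (n + 1) → ℕ := Fin.cons 0 w
    refine ⟨f, n + 1, Fin.cons a0 fun j => x (c j), wt, hfP, etale_away _ (het c) f, ?_⟩
    intro d
    apply le_antisymm
    · rw [Ideal.map_le_iff_le_comap]
      refine (FF_le_Fs A x hτS d).trans ?_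
      change Gf (Gy x (Nn A τ)) d ≤ (mon y wt d).comap (algebraMap B M)
      refine Gf_le (W := fun d => (mon y wt d).comap (algebraMap B M)) _ ?_ ?_ ?_ ?_ d
      · rw [mon_zero, Ideal.comap_top]
      · intro a b hab
        exact Ideal.comap_mono (mon_anti y wt a b hab)
      · intro a b
        exact (Ideal.le_comap_mul _).trans (Ideal.comap_mono (mon_mul y wt a b))
      · rintro _ w0 ⟨v, rfl⟩
        change algebraMap B M (x ((Nn A τ ^ w0) v)) ∈ mon y wt w0
        have h1 := hc2 w0 ⟨v, rfl⟩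
        obtain ⟨v', hv'⟩ : ∃ v', v' = (Nn A τ ^ w0) v := ⟨_, rfl⟩
        rw [← hv'] at h1 ⊢
        clear hv'
        induction h1 using Submodule.span_induction with
        | mem v hv =>
          obtain ⟨i, hi, rfl⟩ := hv
          have hi' : w0 ≤ w i := hi
          exact mon_anti y wt _ _ hi' (mon_single y wt i.succ)
        | zero => rw [map_zero, map_zero]; exact Ideal.zero_mem _
        | add a b _ _ ha hb => rw [map_add, map_add]; exact Ideal.add_mem _ ha hb
        | smul a b _ hb =>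
          rw [map_smul, Algebra.smul_def, map_mul]
          exact Ideal.mul_mem_left _ _ hb
    · rw [Ideal.span_le]
      rintro _ ⟨α, h1, rfl⟩
      have h2 : ∏ i, algebraMap B M ((Fin.cons a0 fun j => x (c j) : Fin (n + 1) → B) i) ^ α i =
          algebraMap B M (∏ i, (Fin.cons a0 fun j => x (c j) : Fin (n + 1) → B) i ^ α i) := by
        rw [map_prod]
        simp only [map_pow]
      change ∏ i, algebraMap B M ((Fin.cons a0 fun j => x (c j) : Fin (n + 1) → B) i) ^ α i ∈ _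
      rw [h2]
      have h3 : ∏ i, (Fin.cons a0 fun j => x (c j) : Fin (n + 1) → B) i ^ α i ∈
          Fs A x τ d := by
        refine Gf_anti _ _ _ h1 (prod_pow_mem_Gf _ _ _ wt ?_ α)
        intro i
        refine Fin.cases ?_ (fun i => ?_) i
        · change _ ∈ Gf _ 0
          rw [Gf_zero]
          trivial
        · obtain ⟨v, hv⟩ := hc1 i
          change x (c i) ∈ Gf _ (w i)
          rw [← hv]
          exact gen_mem _ ⟨v, rfl⟩
      have h4 := Ideal.mem_map_of_mem (algebraMap B M) (sep_mem A x hp.out hc hτI hτS.1 hf h3)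
      rw [map_mul, map_pow] at h4
      have hu : IsUnit (algebraMap B M f ^ d) :=
        (IsLocalization.Away.algebraMap_isUnit f).pow d
      exact (Ideal.unit_mul_mem_iff_mem _ hu).1 h4

end grp

end Pool.Agent.U197.GQ
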