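import Pool.Agent.U197.GQ.M8

/-!
The local condition for the weighted centre of a finite linear group.
-/

set_option autoImplicit false
set_option linter.unusedSectionVars false

open MvPolynomial

namespace Pool.Agent.U197.GQ

open Pool.Agent.H920R2 Pool.Agent.Y177.Ga Pool.Agent.Y177.Tor Pool.Agent.U197.PQ

section act

variable {k : Type} [Field k] {n : ℕ} {Γ : Type} [Group Γ]
  (A : Γ →* Module.End k (Fin n → k)) {B : Type} [CommRing B] [Algebra k B]
  (x : (Fin n → k) →ₗ[k] B) (a : Γ →* (B ≃+* B)) (hax : ∀ γ v, a γ (x v) = x (A γ v))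

include hax in
lemma a_Fs (γ σ : Γ) (d : ℕ) {b : B} (hb : b ∈ Fs A x σ d) :
    a γ b ∈ Fs A x (γ * σ * γ⁻¹) d := by
  have h1 : Fs A x σ d ≤ (Fs A x (γ * σ * γ⁻¹) d).comap (a γ : B →+* B) := by
    refine Gf_le (W := fun d => (Fs A x (γ * σ * γ⁻¹) d).comap (a γ : B →+* B)) _ ?_ ?_ ?_ ?_ d
    · change (Gf _ 0).comap (a γ : B →+* B) = ⊤
      rw [Gf_zero, Ideal.comap_top]
    · intro c e hce
      exact Ideal.comap_mono (Gf_anti _ _ _ hce)
    · intro c e
      exact (Ideal.le_comap_mul _).trans (Ideal.comap_mono (Gf_mul _ _ _))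
    · rintro _ w ⟨v, rfl⟩
      rw [Ideal.mem_comap]
      change a γ (x ((Nn A σ ^ w) v)) ∈ Gf _ w
      have hs : SemiconjBy (A γ) (Nn A σ) (Nn A (γ * σ * γ⁻¹)) := by
        unfold SemiconjBy Nn
        rw [mul_sub, sub_mul, mul_one, one_mul, ← map_mul, ← map_mul, inv_mul_cancel_right]
      have h2 : A γ ((Nn A σ ^ w) v) = (Nn A (γ * σ * γ⁻¹) ^ w) (A γ v) := by
        have h3 := hs.pow_right w
        exact congrArg (fun f : Module.End k (Fin n → k) => f v) h3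
      rw [hax, h2]
      exact gen_mem _ ⟨_, rfl⟩
  exact h1 hb

include hax in
lemma a_FF (p : ℕ) (γ : Γ) (d : ℕ) {b : B} (hb : b ∈ FF A x p d) : a γ b ∈ FF A x p d := by
  rw [mem_FF] at hb ⊢
  intro σ hσ
  have h1 : γ⁻¹ * σ * γ ∈ SP p Γ := by
    refine ⟨fun h => hσ.1 ?_, ?_⟩
    · have h2 : σ = γ * (γ⁻¹ * σ * γ) * γ⁻¹ := by group
      rw [h2, h, mul_one, mul_inv_cancel]
    · have h2 : (γ⁻¹ * σ * γ) = γ⁻¹ * σ * (γ⁻¹)⁻¹ := by rw [inv_inv]
      rw [h2, conj_pow, hσ.2, mul_one, mul_inv_cancel]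
  have h2 := a_Fs A x a hax γ (γ⁻¹ * σ * γ) d (hb _ h1)
  have h3 : γ * (γ⁻¹ * σ * γ) * γ⁻¹ = σ := by group
  rwa [h3] at h2

variable (hgen : ∀ (J : Ideal B) γ, (∀ v, x (Nn A γ v) ∈ J) → ∀ b, a γ b - b ∈ J)

include hax hgen in
lemma raise_Fs (τ : Γ) (d : ℕ) {b : B} (hb : b ∈ Fs A x τ d) :
    a τ b - b ∈ Fs A x τ (d + 1) := by
  refine sigma_raise (Gy x (Nn A τ)) (a τ) ?_ ?_ d b hb
  · refine hgen _ τ fun v => ?_
    exact gen_mem _ ⟨v, by rw [pow_one]⟩
  · rintro _ w ⟨v, rfl⟩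
    rw [hax]
    refine gen_mem _ ⟨v, ?_⟩
    rw [pow_succ', ← map_sub]
    rfl

include hax in
lemma zeros_Fs (τ : Γ) {b : B} (hb : b ∈ Fs A x τ 1) :
    b ∈ Ideal.span (Set.range fun c : B => a τ c - c) := by
  classical
  have h1 : Fs A x τ 1 ≤ (fun d : ℕ => if d = 0 then (⊤ : Ideal B) else
      Ideal.span (Set.range fun c : B => a τ c - c)) 1 := by
    refine Gf_le (W := fun d : ℕ => if d = 0 then (⊤ : Ideal B) else
      Ideal.span (Set.range fun c : B => a τ c - c)) _ ?_ ?_ ?_ ?_ 1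
    · rfl
    · intro c e hce
      split_ifs with h1 h2 h2
      · exact le_rfl
      · omega
      · exact le_top
      · exact le_rfl
    · intro c e
      split_ifs with h1 h2 h3 h4 h5 h6
      all_goals first
        | exact le_top
        | omega
        | exact Ideal.mul_le_left
        | exact Ideal.mul_le_right
    · rintro _ w ⟨v, rfl⟩
      split_ifs with h1
      · trivial
      · obtain ⟨w, rfl⟩ := Nat.exists_eq_succ_of_ne_zero h1
        refine Ideal.subset_span ⟨x ((Nn A τ ^ w) v), ?_⟩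
        change a τ (x ((Nn A τ ^ w) v)) - x ((Nn A τ ^ w) v) = _
        rw [hax, Nat.succ_eq_add_one, pow_succ', ← map_sub]
        rfl
  exact h1 hb

include hax in
lemma lead_Fs (τ : Γ) (d : ℕ) (hd : 1 ≤ d) {b : B} (hb : b ∈ Fs A x τ d) :
    ∃ N : ℕ, b ^ N ∈ ldI (Gy x (Nn A τ)) (a τ) (N * d) := by
  refine lead_of_gens (Gy x (Nn A τ)) (a τ) ?_ d hd b hb
  rintro _ w ⟨v, rfl⟩ hw
  refine ⟨1, ?_⟩
  obtain ⟨w, rfl⟩ := Nat.exists_eq_succ_of_ne_zero (by omega : w ≠ 0)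
  rw [pow_one, one_mul]
  have h1 : x ((Nn A τ ^ w.succ) v) = 1 * (a τ (x ((Nn A τ ^ w) v)) - x ((Nn A τ ^ w) v)) := by
    rw [one_mul, hax, Nat.succ_eq_add_one, pow_succ', ← map_sub]
    rfl
  rw [h1]
  refine ldI_gen (G := Gy x (Nn A τ)) (σ := a τ) (gen_mem _ ⟨v, rfl⟩) ?_
  rw [Nat.succ_eq_add_one, Nat.sub_self, Gf_zero]
  trivial

include hax hgen in
/-- The local condition. -/
theorem local_FF [Finite Γ] {p : ℕ} [hp : Fact p.Prime] (hst : StabCond A p)
    (P : Ideal B) (hP : P.IsPrime) (hsp : ∃ v, x v ∉ P) :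
    (∀ γ, (∀ b, a γ b - b ∈ P) → γ = 1) ∨
    ∃ (q : ℕ) (τ : Γ), q.Prime ∧ τ ^ q = 1 ∧
      (∀ γ, (∀ b, a γ b - b ∈ P) → γ ∈ Subgroup.zpowers τ) ∧
      ∃ (l : ℕ) (s : B), 0 < l ∧ s ∉ P ∧
        (∀ d, ∀ b ∈ FF A x p d, s * (a τ b - b) ∈ FF A x p (d + l)) ∧
        (∀ b ∈ FF A x p 1, ∃ M : ℕ, ∃ s' : B, s' ∉ P ∧ s' * b ^ M ∈
          Ideal.span (Set.range fun c : B => a τ c - c)) ∧
        ∀ d, 1 ≤ d → ∀ b ∈ FF A x p d, ∃ N : ℕ, ∃ s' : B, s' ∉ P ∧
          s' * b ^ N ∈ FF A x p (N * d + 1) ⊔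
          Ideal.span {y | ∃ e, ∃ c ∈ FF A x p e, ∃ b ∈ FF A x p (N * d - (e + l)),
            y = b * (a τ c - c)} := by
  classical
  have hI : ∀ γ, (∀ b, a γ b - b ∈ P) → γ ∈ I0 A x P := by
    intro γ hγ v
    have h1 := hγ (x v)
    rw [hax, ← map_sub] at h1
    exact h1
  rcases card_I0 A x hst hsp with hc | hc
  · left
    intro γ hγ
    have h1 := hI γ hγ
    rw [Subgroup.card_eq_one] at hc
    rwa [hc, Subgroup.mem_bot] at h1
  · right
    have hnb : ∃ τ ∈ I0 A x P, τ ≠ 1 := by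
      by_contra hcon
      push Not at hcon
      have h1 : I0 A x P = ⊥ := (Subgroup.eq_bot_iff_forall _).2 hcon
      rw [h1, Subgroup.card_bot] at hc
      exact hp.out.one_lt.ne hc
    obtain ⟨τ, hτI, hτ1⟩ := hnb
    obtain ⟨hz, hτp⟩ := zp_of_card hp.out hc hτI hτ1
    have hτS : τ ∈ SP p Γ := ⟨hτ1, hτp⟩
    obtain ⟨f, hfP, hf⟩ := exists_sepf A x p P hP
    have _ : Fintype (I0 A x P) := Fintype.ofFinite _
    -- the invariant separating element
    obtain ⟨s, hsdef⟩ : ∃ s : B, s = ∏ g : I0 A x P, a g f := ⟨_, rfl⟩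
    have hfs : f ∣ s := by
      have h1 : a (1 : I0 A x P) f = f := by
        rw [OneMemClass.coe_one, map_one]
        rfl
      rw [hsdef]
      conv_lhs => rw [← h1]
      exact Finset.dvd_prod_of_mem (fun g : I0 A x P => a g f) (Finset.mem_univ 1)
    have hsP : s ∉ P := by
      rw [hsdef]
      intro h
      obtain ⟨g, -, hg⟩ := hP.prod_mem_iff.1 h
      apply hfP
      have h1 := hgen P g g.2 f
      have h2 := P.sub_mem hg h1
      rwa [sub_sub_cancel] at h2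
    have hsτ : a τ s = s := by
      rw [hsdef, map_prod]
      refine Fintype.prod_equiv (Equiv.mulLeft (⟨τ, hτI⟩ : I0 A x P)) _ _ fun g => ?_
      change a τ (a g f) = a ((⟨τ, hτI⟩ * g : I0 A x P) : Γ) f
      rw [Subgroup.coe_mul, map_mul]
      rfl
    have hs : ∀ σ ∈ SP p Γ, σ ∉ I0 A x P → s ∈ Fs A x σ 1 := fun σ h1 h2 =>
      Ideal.mem_of_dvd _ hfs (hf σ h1 h2)
    have hsep : ∀ {d : ℕ} {b : B}, b ∈ Fs A x τ d → s ^ d * b ∈ FF A x p d := fun hb =>
      sep_mem A x hp.out hc hτI hτ1 hs hb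
    refine ⟨p, τ, hp.out, hτp, fun γ hγ => ?_, 1, s, one_pos, hsP, ?_, ?_, ?_⟩
    · rw [← hz]
      exact hI γ hγ
    · intro d b hb
      rw [mem_FF]
      intro σ hσ
      by_cases h : σ ∈ I0 A x P
      · obtain ⟨h1, -⟩ := zp_of_card hp.out hc h hσ.1
        refine Ideal.mul_mem_left _ _ (Fs_le A x ?_ (d + 1)
          (raise_Fs A x a hax hgen τ d (FF_le_Fs A x hτS d hb)))
        rw [h1] at hτI
        exact pow_of_zp hτI
      · have h1 : a τ b - b ∈ Fs A x σ d := Ideal.sub_mem _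
          ((mem_FF A x).1 (a_FF A x a hax p τ d hb) σ hσ) ((mem_FF A x).1 hb σ hσ)
        have h2 := mul_mem_Gf _ (hs σ hσ h) h1
        rwa [add_comm 1 d] at h2
    · intro b hb
      refine ⟨1, 1, fun h => hP.ne_top (P.eq_top_iff_one.2 h), ?_⟩
      rw [one_mul, pow_one]
      exact zeros_Fs A x a hax τ (FF_le_Fs A x hτS 1 hb)
    · intro d hd b hb
      obtain ⟨N, hN⟩ := lead_Fs A x a hax τ d hd (FF_le_Fs A x hτS d hb)
      have key : ∀ m, ∀ y ∈ ldI (Gy x (Nn A τ)) (a τ) m, ∃ M : ℕ, s ^ M * y ∈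
          FF A x p (m + 1) ⊔ Ideal.span {y | ∃ e, ∃ c ∈ FF A x p e,
            ∃ b ∈ FF A x p (m - (e + 1)), y = b * (a τ c - c)} := by
        intro m y hy
        obtain ⟨g, hg, z, hz', rfl⟩ := Submodule.mem_sup.1 hy
        clear hy
        have h1 : ∃ M : ℕ, s ^ M * z ∈ Ideal.span {y | ∃ e, ∃ c ∈ FF A x p e,
            ∃ b ∈ FF A x p (m - (e + 1)), y = b * (a τ c - c)} := by
          induction hz' using Submodule.span_induction with
          | mem y hy =>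
            obtain ⟨e, c, hc', b', hb', rfl⟩ := hy
            refine ⟨(m - (e + 1)) + e, Ideal.subset_span ⟨e, s ^ e * c, hsep hc',
              s ^ (m - (e + 1)) * b', hsep hb', ?_⟩⟩
            rw [map_mul, map_pow, hsτ]
            ring
          | zero => exact ⟨0, by rw [mul_zero]; exact Ideal.zero_mem _⟩
          | add y y' _ _ hy hy' =>
            obtain ⟨M, hM⟩ := hy
            obtain ⟨M', hM'⟩ := hy'
            refine ⟨M + M', ?_⟩
            have : s ^ (M + M') * (y + y') = s ^ M' * (s ^ M * y) + s ^ M * (s ^ M' * y') := by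
              ring
            rw [this]
            exact Ideal.add_mem _ (Ideal.mul_mem_left _ _ hM) (Ideal.mul_mem_left _ _ hM')
          | smul r y _ hy =>
            obtain ⟨M, hM⟩ := hy
            refine ⟨M, ?_⟩
            rw [smul_eq_mul, mul_left_comm]
            exact Ideal.mul_mem_left _ _ hM
        obtain ⟨M, hM⟩ := h1
        refine ⟨M + (m + 1), ?_⟩
        have : s ^ (M + (m + 1)) * (g + z) = s ^ M * (s ^ (m + 1) * g) +
            s ^ (m + 1) * (s ^ M * z) := by ring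
        rw [this]
        exact Submodule.add_mem_sup (Ideal.mul_mem_left _ _ (hsep hg))
          (Ideal.mul_mem_left _ _ hM)
      obtain ⟨M, hM⟩ := key _ _ hN
      refine ⟨N, s ^ M, fun h => hsP (hP.mem_of_pow_mem _ h), ?_⟩
      exact hM

end act

end Pool.Agent.U197.GQ
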