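import Pool.Agent.U197.GQ.M8

/-!
Families of weighted centres, indexed by the elements of order `p` of a finite group.
-/

set_option autoImplicit false
set_option linter.unusedSectionVars false

open MvPolynomial

namespace Pool.Agent.U197.GQ

open Pool.Agent.H920R2

section inertia

variable {B Γ : Type} [CommRing B] [Group Γ] (a : Γ →* (B ≃+* B))

/-- The inertia group of an ideal. -/
def In (P : Ideal B) : Subgroup Γ where
  carrier := {γ | ∀ b, a γ b - b ∈ P}
  one_mem' := fun b => by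
    rw [map_one]
    change b - b ∈ P
    rw [sub_self]
    exact P.zero_mem
  mul_mem' := by
    intro γ γ' h h' b
    have h1 : a (γ * γ') b - b = (a γ (a γ' b) - a γ' b) + (a γ' b - b) := by
      rw [map_mul]
      change a γ (a γ' b) - b = _
      ring
    rw [h1]
    exact P.add_mem (h _) (h' _)
  inv_mem' := by
    intro γ h b
    have h1 : a γ (a γ⁻¹ b) = b := by
      have h2 : (a γ * a γ⁻¹) b = b := by
        rw [← map_mul, mul_inv_cancel, map_one]
        rfl
      exact h2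
    have h2 : a γ⁻¹ b - b = -(a γ (a γ⁻¹ b) - a γ⁻¹ b) := by
      rw [h1]
      ring
    rw [h2]
    exact P.neg_mem (h _)

lemma mem_In {P : Ideal B} {γ : Γ} : γ ∈ In a P ↔ ∀ b, a γ b - b ∈ P := Iff.rfl

end inertia

section loc

variable {k B : Type} [Field k] [CommRing B] [Algebra k B]

/-- Étale coordinates on a smaller open set. -/
lemma etale_away_mul {n : ℕ} (x : Fin n → B) (f s : B)
    (h : ((aeval (fun i => algebraMap B (Localization.Away f) (x i)) :
        MvPolynomial (Fin n) k →ₐ[k] Localization.Away f) :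
        MvPolynomial (Fin n) k →+* Localization.Away f).Etale) :
    ((aeval (fun i => algebraMap B (Localization.Away (f * s)) (x i)) :
        MvPolynomial (Fin n) k →ₐ[k] Localization.Away (f * s)) :
        MvPolynomial (Fin n) k →+* Localization.Away (f * s)).Etale ∧
    ∃ φ : Localization.Away f →+* Localization.Away (f * s),
      ∀ b, φ (algebraMap B _ b) = algebraMap B _ b := by
  let M := Localization.Away f
  let T := Localization.Away (algebraMap B M s)
  have hT : IsLocalization.Away (f * s) T := by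
    rw [mul_comm f s]
    exact IsLocalization.Away.mul M T f s
  let e : T ≃ₐ[B] Localization.Away (f * s) :=
    IsLocalization.algEquiv (Submonoid.powers (f * s)) T (Localization.Away (f * s))
  have h1 : Algebra.Etale M T := Algebra.Etale.of_isLocalizationAway (algebraMap B M s)
  have h2 : (algebraMap M T).Etale := RingHom.etale_algebraMap.2 h1
  have h3 := RingHom.Etale.stableUnderComposition _ _ h h2
  have h4 : ((e : T →+* Localization.Away (f * s))).Etale := RingHom.Etale.of_bijective e.bijective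
  have h5 := RingHom.Etale.stableUnderComposition _ _ h3 h4
  have hφ : ∀ b, ((e : T →+* Localization.Away (f * s)).comp (algebraMap M T)) (algebraMap B M b) =
      algebraMap B (Localization.Away (f * s)) b := by
    intro b
    change e (algebraMap M T (algebraMap B M b)) = _
    rw [← IsScalarTower.algebraMap_apply B M T, e.commutes]
  refine ⟨?_, (e : T →+* Localization.Away (f * s)).comp (algebraMap M T), hφ⟩
  have h6 : (((e : T →+* Localization.Away (f * s)).comp (algebraMap M T)).comp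
      ((aeval (fun i => algebraMap B (Localization.Away f) (x i)) :
        MvPolynomial (Fin n) k →ₐ[k] Localization.Away f) :
        MvPolynomial (Fin n) k →+* Localization.Away f)) =
      ((aeval (fun i => algebraMap B (Localization.Away (f * s)) (x i)) :
        MvPolynomial (Fin n) k →ₐ[k] Localization.Away (f * s)) :
        MvPolynomial (Fin n) k →+* Localization.Away (f * s)) := by
    apply MvPolynomial.ringHom_ext
    · intro r
      change ((e : T →+* Localization.Away (f * s)).comp (algebraMap M T))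
        (aeval (fun i => algebraMap B (Localization.Away f) (x i)) (C r)) =
        aeval (fun i => algebraMap B (Localization.Away (f * s)) (x i)) (C r)
      rw [← MvPolynomial.algebraMap_eq, AlgHom.commutes, AlgHom.commutes,
        IsScalarTower.algebraMap_apply k B (Localization.Away f), hφ,
        ← IsScalarTower.algebraMap_apply]
    · intro i
      change ((e : T →+* Localization.Away (f * s)).comp (algebraMap M T))
        (aeval (fun i => algebraMap B (Localization.Away f) (x i)) (X i)) =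
        aeval (fun i => algebraMap B (Localization.Away (f * s)) (x i)) (X i)
      rw [aeval_X, aeval_X, hφ]
  rw [← h6]
  exact h5

end loc

section fam

variable {B Γ : Type} [CommRing B] [Group Γ]

/-- The intersection of the filtrations of the elements of order `p`. -/
def FFa (p : ℕ) (F : Γ → ℕ → Ideal B) (d : ℕ) : Ideal B := ⨅ σ : SP p Γ, F σ d

lemma mem_FFa {p : ℕ} {F : Γ → ℕ → Ideal B} {d : ℕ} {b : B} :
    b ∈ FFa p F d ↔ ∀ σ ∈ SP p Γ, b ∈ F σ d := by
  unfold FFa
  rw [Ideal.mem_iInf]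
  exact ⟨fun h σ hσ => h ⟨σ, hσ⟩, fun h σ => h σ.1 σ.2⟩

/-- A compatible family of nondegenerate weighted centres. -/
structure SigFam (k : Type) [Field k] [Algebra k B] (a : Γ →* (B ≃+* B)) (p l : ℕ)
    (F : Γ → ℕ → Ideal B) : Prop where
  centre : ∀ σ ∈ SP p Γ, RegularWeightedCentre k (F σ)
  conj : ∀ γ, ∀ σ ∈ SP p Γ, ∀ d, ∀ b ∈ F σ d, a γ b ∈ F (γ * σ * γ⁻¹) d
  gen : ∀ σ ∈ SP p Γ, ∀ j : ℕ, σ ^ j ∈ SP p Γ → ∀ d, F (σ ^ j) d ≤ F σ d
  raise : ∀ σ ∈ SP p Γ, ∀ d, ∀ b ∈ F σ d, a σ b - b ∈ F σ (d + l)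
  zeros : ∀ σ ∈ SP p Γ, ∀ b ∈ F σ 1, ∃ M : ℕ, b ^ M ∈ Ideal.span (Set.range fun c : B => a σ c - c)
  lead : ∀ σ ∈ SP p Γ, ∀ d, 1 ≤ d → ∀ b ∈ F σ d, ∃ N : ℕ, b ^ N ∈ F σ (N * d + 1) ⊔
    Ideal.span {y | ∃ e, ∃ c ∈ F σ e, ∃ b ∈ F σ (N * d - (e + l)), y = b * (a σ c - c)}
  inert : ∀ P : Ideal B, P.IsPrime → Nat.card (In a P) = 1 ∨ Nat.card (In a P) = p
  sep : ∀ σ ∈ SP p Γ, ∀ P : Ideal B, P.IsPrime → F σ 1 ≤ P → σ ∈ In a P

variable {k : Type} [Field k] [Algebra k B] {a : Γ →* (B ≃+* B)} {p l : ℕ}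
  {F : Γ → ℕ → Ideal B}

lemma SigFam.pow_mem (h : SigFam k a p l F) {σ : Γ} (hσ : σ ∈ SP p Γ) {f : B} (hf : f ∈ F σ 1)
    (d : ℕ) : f ^ d ∈ F σ d := by
  induction d with
  | zero => rw [(h.centre σ hσ).zero]; trivial
  | succ d ih =>
    rw [pow_succ]
    exact (h.centre σ hσ).mul d 1 (Ideal.mul_mem_mul ih hf)

lemma SigFam.mulr (h : SigFam k a p l F) {σ : Γ} (hσ : σ ∈ SP p Γ) {c d : ℕ} {x y : B}
    (hx : x ∈ F σ c) (hy : y ∈ F σ d) : x * y ∈ F σ (c + d) :=
  (h.centre σ hσ).mul c d (Ideal.mul_mem_mul hx hy)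

/-- A function which separates a point from the fixed points of the other elements. -/
lemma SigFam.exists_sep (h : SigFam k a p l F) [Finite Γ] (P : Ideal B) (hP : P.IsPrime) :
    ∃ f, f ∉ P ∧ ∀ σ ∈ SP p Γ, σ ∉ In a P → f ∈ F σ 1 := by
  classical
  have _ : Fintype Γ := Fintype.ofFinite Γ
  have h1 : ∀ σ : Γ, ∃ v, v ∉ P ∧ (σ ∈ SP p Γ → σ ∉ In a P → v ∈ F σ 1) := by
    intro σ
    by_cases hσ : σ ∈ SP p Γ ∧ σ ∉ In a P
    · have h2 : ¬ F σ 1 ≤ P := fun h3 => hσ.2 (h.sep σ hσ.1 P hP h3)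
      obtain ⟨v, hv, hvP⟩ := SetLike.not_le_iff_exists.1 h2
      exact ⟨v, hvP, fun _ _ => hv⟩
    · refine ⟨1, fun h2 => hP.ne_top ((Ideal.eq_top_iff_one P).2 h2), fun h2 h3 => ?_⟩
      exact absurd ⟨h2, h3⟩ hσ
  choose v hv hv' using h1
  refine ⟨∏ σ : Γ, v σ, fun h2 => ?_, fun σ hσ hσP => ?_⟩
  · obtain ⟨σ, -, h3⟩ := hP.prod_mem_iff.1 h2
    exact hv σ h3
  · exact Ideal.mem_of_dvd _ (Finset.dvd_prod_of_mem v (Finset.mem_univ σ)) (hv' σ hσ hσP)

lemma SigFam.sep_mem (h : SigFam k a p l F) [Finite Γ] (hp : p.Prime) {P : Ideal B}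
    (hc : Nat.card (In a P) = p) {τ : Γ} (hτ : τ ∈ In a P) (hτS : τ ∈ SP p Γ) {f : B}
    (hf : ∀ σ ∈ SP p Γ, σ ∉ In a P → f ∈ F σ 1) {d : ℕ} {b : B} (hb : b ∈ F τ d) :
    f ^ d * b ∈ FFa p F d := by
  rw [mem_FFa]
  intro σ hσ
  by_cases h1 : σ ∈ In a P
  · refine Ideal.mul_mem_left _ _ ?_
    obtain ⟨h2, -⟩ := zp_of_card hp hc h1 hσ.1
    rw [h2] at hτ
    obtain ⟨j, rfl⟩ := pow_of_zp hτ
    exact h.gen σ hσ j hτS d hb
  · exact Ideal.mul_mem_right _ _ (h.pow_mem hσ (hf σ hσ h1) d)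

lemma FFa_le {τ : Γ} (hτ : τ ∈ SP p Γ) (d : ℕ) : FFa p F d ≤ F τ d :=
  fun _ hb => mem_FFa.1 hb τ hτ

/-- The intersection is stable under the group. -/
lemma SigFam.stab (h : SigFam k a p l F) (γ : Γ) (d : ℕ) {b : B} (hb : b ∈ FFa p F d) :
    a γ b ∈ FFa p F d := by
  rw [mem_FFa] at hb ⊢
  intro σ hσ
  have h1 : γ⁻¹ * σ * γ ∈ SP p Γ := by
    refine ⟨fun h => hσ.1 ?_, ?_⟩
    · have h2 : σ = γ * (γ⁻¹ * σ * γ) * γ⁻¹ := by group
      rw [h2, h, mul_one, mul_inv_cancel]
    · have h2 : (γ⁻¹ * σ * γ) = γ⁻¹ * σ * (γ⁻¹)⁻¹ := by rw [inv_inv]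
      rw [h2, conj_pow, hσ.2, mul_one, mul_inv_cancel]
  have h2 := h.conj γ (γ⁻¹ * σ * γ) h1 d b (hb _ h1)
  have h3 : γ * (γ⁻¹ * σ * γ) * γ⁻¹ = σ := by group
  rwa [h3] at h2

/-- The intersection is a regular weighted centre. -/
theorem SigFam.rwc (h : SigFam k a p l F) [Finite Γ] (hp : p.Prime) :
    RegularWeightedCentre k (FFa p F) where
  zero := by
    rw [eq_top_iff]
    intro b _
    rw [mem_FFa]
    intro σ hσ
    rw [(h.centre σ hσ).zero]
    trivial
  anti c d hcd := by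
    intro b hb
    rw [mem_FFa] at hb ⊢
    exact fun σ hσ => (h.centre σ hσ).anti _ _ hcd (hb σ hσ)
  mul c d := by
    rw [Ideal.mul_le]
    intro y hy z hz
    rw [mem_FFa] at hy hz ⊢
    exact fun σ hσ => h.mulr hσ (hy σ hσ) (hz σ hσ)
  coord P hP hFP := by
    classical
    obtain ⟨s, hsP, hs⟩ := h.exists_sep P hP
    have hex : ∃ τ ∈ SP p Γ, τ ∈ In a P := by
      by_contra hcon
      push Not at hcon
      apply hsP
      apply hFP
      rw [mem_FFa]
      exact fun σ hσ => hs σ hσ (hcon σ hσ)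
    obtain ⟨τ, hτS, hτI⟩ := hex
    have hc : Nat.card (In a P) = p := by
      rcases h.inert P hP with h1 | h1
      · rw [Subgroup.card_eq_one] at h1
        rw [h1, Subgroup.mem_bot] at hτI
        exact absurd hτI hτS.1
      · exact h1
    have hτP : F τ 1 ≤ P := by
      intro b hb
      have h1 := hFP (h.sep_mem hp hc hτI hτS hs hb)
      rw [pow_one] at h1
      exact (hP.mem_or_mem h1).resolve_left hsP
    obtain ⟨f, n, x, w, hfP, het, hmon⟩ := (h.centre τ hτS).coord P hP hτP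
    obtain ⟨het', φ, hφ⟩ := etale_away_mul x f s het
    refine ⟨f * s, n, x, w, fun h1 => ?_, het', fun d => ?_⟩
    · rcases hP.mem_or_mem h1 with h2 | h2
      · exact hfP h2
      · exact hsP h2
    · have h1 : (F τ d).map (algebraMap B (Localization.Away (f * s))) =
          Ideal.span {y | ∃ α : Fin n → ℕ, d ≤ ∑ i, α i * w i ∧
            y = ∏ i, algebraMap B (Localization.Away (f * s)) (x i) ^ α i} := by
        have h2 : algebraMap B (Localization.Away (f * s)) =
            φ.comp (algebraMap B (Localization.Away f)) := RingHom.ext fun b => (hφ b).symm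
        conv_lhs => rw [h2, ← Ideal.map_map, hmon d, Ideal.map_span]
        congr 1
        ext y
        constructor
        · rintro ⟨_, ⟨α, hα, rfl⟩, rfl⟩
          refine ⟨α, hα, ?_⟩
          rw [map_prod]
          exact Finset.prod_congr rfl fun i _ => by rw [map_pow, hφ]
        · rintro ⟨α, hα, rfl⟩
          refine ⟨_, ⟨α, hα, rfl⟩, ?_⟩
          rw [map_prod]
          exact Finset.prod_congr rfl fun i _ => by rw [map_pow, hφ]
      rw [← h1]
      apply le_antisymm
      · exact Ideal.map_mono (FFa_le hτS d)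
      · rw [Ideal.map_le_iff_le_comap]
        intro b hb
        have h2 := Ideal.mem_map_of_mem (algebraMap B (Localization.Away (f * s)))
          (h.sep_mem hp hc hτI hτS hs hb)
        rw [map_mul, map_pow] at h2
        have hu : IsUnit (algebraMap B (Localization.Away (f * s)) s ^ d) := by
          have h3 := IsLocalization.Away.algebraMap_isUnit (S := Localization.Away (f * s)) (f * s)
          rw [map_mul] at h3
          exact (isUnit_of_mul_isUnit_right h3).pow d
        exact (Ideal.unit_mul_mem_iff_mem _ hu).1 h2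

/-- The local condition. -/
theorem SigFam.loc (h : SigFam k a p l F) [Finite Γ] (hp : p.Prime) (hl : 0 < l)
    (P : Ideal B) (hP : P.IsPrime) :
    (∀ γ, (∀ b, a γ b - b ∈ P) → γ = 1) ∨
    ∃ (q : ℕ) (τ : Γ), q.Prime ∧ τ ^ q = 1 ∧
      (∀ γ, (∀ b, a γ b - b ∈ P) → γ ∈ Subgroup.zpowers τ) ∧
      ∃ (l : ℕ) (s : B), 0 < l ∧ s ∉ P ∧
        (∀ d, ∀ b ∈ FFa p F d, s * (a τ b - b) ∈ FFa p F (d + l)) ∧
        (∀ b ∈ FFa p F 1, ∃ M : ℕ, ∃ s' : B, s' ∉ P ∧ s' * b ^ M ∈
          Ideal.span (Set.range fun c : B => a τ c - c)) ∧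
        ∀ d, 1 ≤ d → ∀ b ∈ FFa p F d, ∃ N : ℕ, ∃ s' : B, s' ∉ P ∧
          s' * b ^ N ∈ FFa p F (N * d + 1) ⊔
          Ideal.span {y | ∃ e, ∃ c ∈ FFa p F e, ∃ b ∈ FFa p F (N * d - (e + l)),
            y = b * (a τ c - c)} := by
  classical
  rcases h.inert P hP with hc | hc
  · left
    intro γ hγ
    have h1 : γ ∈ In a P := hγ
    rw [Subgroup.card_eq_one] at hc
    rwa [hc, Subgroup.mem_bot] at h1
  · right
    have hnb : ∃ τ ∈ In a P, τ ≠ 1 := by
      by_contra hcon
      push Not at hcon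
      have h1 : In a P = ⊥ := (Subgroup.eq_bot_iff_forall _).2 hcon
      rw [h1, Subgroup.card_bot] at hc
      exact hp.one_lt.ne hc
    obtain ⟨τ, hτI, hτ1⟩ := hnb
    obtain ⟨hz, hτp⟩ := zp_of_card hp hc hτI hτ1
    have hτS : τ ∈ SP p Γ := ⟨hτ1, hτp⟩
    obtain ⟨f, hfP, hf⟩ := h.exists_sep P hP
    have _ : Fintype (In a P) := Fintype.ofFinite _
    obtain ⟨s, hsdef⟩ : ∃ s : B, s = ∏ g : In a P, a g f := ⟨_, rfl⟩
    have hfs : f ∣ s := by
      have h1 : a (1 : In a P) f = f := by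
        rw [OneMemClass.coe_one, map_one]
        rfl
      rw [hsdef]
      conv_lhs => rw [← h1]
      exact Finset.dvd_prod_of_mem (fun g : In a P => a g f) (Finset.mem_univ 1)
    have hsP : s ∉ P := by
      rw [hsdef]
      intro h
      obtain ⟨g, -, hg⟩ := hP.prod_mem_iff.1 h
      apply hfP
      have h1 := g.2 f
      have h2 := P.sub_mem hg h1
      rwa [sub_sub_cancel] at h2
    have hsτ : a τ s = s := by
      rw [hsdef, map_prod]
      refine Fintype.prod_equiv (Equiv.mulLeft (⟨τ, hτI⟩ : In a P)) _ _ fun g => ?_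
      change a τ (a g f) = a ((⟨τ, hτI⟩ * g : In a P) : Γ) f
      rw [Subgroup.coe_mul, map_mul]
      rfl
    have hs : ∀ σ ∈ SP p Γ, σ ∉ In a P → s ∈ F σ 1 := fun σ h1 h2 =>
      Ideal.mem_of_dvd _ hfs (hf σ h1 h2)
    have hsep : ∀ {d : ℕ} {b : B}, b ∈ F τ d → s ^ d * b ∈ FFa p F d := fun hb =>
      h.sep_mem hp hc hτI hτS hs hb
    refine ⟨p, τ, hp, hτp, fun γ hγ => ?_, l, s ^ l, hl,
      fun h1 => hsP (hP.mem_of_pow_mem _ h1), ?_, ?_, ?_⟩
    · rw [← hz]
      exact hγ
    · intro d b hb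
      rw [mem_FFa]
      intro σ hσ
      by_cases h1 : σ ∈ In a P
      · obtain ⟨h2, -⟩ := zp_of_card hp hc h1 hσ.1
        refine Ideal.mul_mem_left _ _ ?_
        rw [h2] at hτI
        obtain ⟨j, hj⟩ := pow_of_zp hτI
        have h3 := h.raise τ hτS d b (FFa_le hτS d hb)
        rw [← hj] at h3
        have h4 := h.gen σ hσ j (by rw [hj]; exact hτS) (d + l) h3
        rwa [hj] at h4
      · have h2 : a τ b - b ∈ F σ d := Ideal.sub_mem _
          (mem_FFa.1 (h.stab τ d hb) σ hσ) (mem_FFa.1 hb σ hσ)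
        have h3 := h.mulr hσ (h.pow_mem hσ (hs σ hσ h1) l) h2
        rwa [add_comm l d] at h3
    · intro b hb
      obtain ⟨M, hM⟩ := h.zeros τ hτS b (FFa_le hτS 1 hb)
      refine ⟨M, 1, fun h => hP.ne_top ((Ideal.eq_top_iff_one P).2 h), ?_⟩
      rwa [one_mul]
    · intro d hd b hb
      obtain ⟨N, hN⟩ := h.lead τ hτS d hd b (FFa_le hτS d hb)
      have key : ∀ m, ∀ y ∈ F τ (m + 1) ⊔ Ideal.span {y | ∃ e, ∃ c ∈ F τ e,
          ∃ b ∈ F τ (m - (e + l)), y = b * (a τ c - c)}, ∃ M : ℕ, s ^ M * y ∈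
          FFa p F (m + 1) ⊔ Ideal.span {y | ∃ e, ∃ c ∈ FFa p F e,
            ∃ b ∈ FFa p F (m - (e + l)), y = b * (a τ c - c)} := by
        intro m y hy
        obtain ⟨g, hg, z, hz', rfl⟩ := Submodule.mem_sup.1 hy
        clear hy
        have h1 : ∃ M : ℕ, s ^ M * z ∈ Ideal.span {y | ∃ e, ∃ c ∈ FFa p F e,
            ∃ b ∈ FFa p F (m - (e + l)), y = b * (a τ c - c)} := by
          induction hz' using Submodule.span_induction with
          | mem y hy =>
            obtain ⟨e, c, hc', b', hb', rfl⟩ := hy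
            refine ⟨(m - (e + l)) + e, Ideal.subset_span ⟨e, s ^ e * c, hsep hc',
              s ^ (m - (e + l)) * b', hsep hb', ?_⟩⟩
            rw [map_mul, map_pow, hsτ]
            ring
          | zero => exact ⟨0, by rw [mul_zero]; exact Ideal.zero_mem _⟩
          | add y y' _ _ hy hy' =>
            obtain ⟨M, hM⟩ := hy
            obtain ⟨M', hM'⟩ := hy'
            refine ⟨M + M', ?_⟩
            have : s ^ (M + M') * (y + y') = s ^ M' * (s ^ M * y) + s ^ M * (s ^ M' * y') := by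
              ring
            rw [this]
            exact Ideal.add_mem _ (Ideal.mul_mem_left _ _ hM) (Ideal.mul_mem_left _ _ hM')
          | smul r y _ hy =>
            obtain ⟨M, hM⟩ := hy
            refine ⟨M, ?_⟩
            rw [smul_eq_mul, mul_left_comm]
            exact Ideal.mul_mem_left _ _ hM
        obtain ⟨M, hM⟩ := h1
        refine ⟨M + (m + 1), ?_⟩
        have : s ^ (M + (m + 1)) * (g + z) = s ^ M * (s ^ (m + 1) * g) +
            s ^ (m + 1) * (s ^ M * z) := by ring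
        rw [this]
        exact Submodule.add_mem_sup (Ideal.mul_mem_left _ _ (hsep hg))
          (Ideal.mul_mem_left _ _ hM)
      obtain ⟨M, hM⟩ := key _ _ hN
      exact ⟨N, s ^ M, fun h => hsP (hP.mem_of_pow_mem _ h), hM⟩

end fam

end Pool.Agent.U197.GQ
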