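import Pool.Agent.U197.GQ.N9

/-!
The charts of the punctured cone over a smooth projective variety are smooth.
-/

set_option autoImplicit false
set_option linter.unusedSectionVars false

namespace Pool.Agent.U197.GQ

open AlgebraicGeometry CategoryTheory
open Pool.Agent.W559.Mg Pool.Agent.W559.Et Pool.Agent.H920R2 Pool.Agent.U197.SF
open Pool.Agent.H519R3.RS Pool.Agent.N98.PJ Pool.Agent.U197.PQ

section torsor

variable {k S : Type} [Field k] [CommRing S] [IsDomain S] [Algebra k S] {𝒜 : ℕ → Submodule k S}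
  [GradedAlgebra 𝒜] {z : S} {D : ℕ} (hz : z ∈ 𝒜 D) (z0 : z ≠ 0) (hD : 0 < D)

/-- The elements of degree zero are the functions on the chart. -/
lemma ch_of_Hz {x : FractionRing S} (h : Hz 𝒜 z D 0 x) : x ∈ ch 𝒜 z D hz z0 := by
  obtain ⟨N, n, hn, s, hs, hx⟩ := h
  have h1 : n = N * D := by
    have : (n : ℤ) = ((N * D : ℕ) : ℤ) := by rw [hn]; push_cast; ring
    exact_mod_cast this
  subst h1
  exact ⟨N, s, hs, hx⟩

lemma ch_le_Cz : ch 𝒜 z D hz z0 ≤ (Cz z0 : Subalgebra k (FractionRing S)) := by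
  intro x hx
  exact (hz_ch hz z0 hx).mem_Cz z0

lemma Hz.pow {d : ℤ} {x : FractionRing S} (h : Hz 𝒜 z D d x) (n : ℕ) :
    Hz 𝒜 z D (n * d) (x ^ n) := by
  induction n with
  | zero =>
    rw [pow_zero, Nat.cast_zero, zero_mul]
    have h1 : Hz 𝒜 z D ((0 : ℕ) : ℤ) (ev k S 1) := Hz.of_mem (SetLike.one_mem_graded 𝒜)
    rwa [map_one] at h1
  | succ n ih =>
    have h1 := ih.mul h
    rw [pow_succ]
    have h2 : (n : ℤ) * d + d = ((n + 1 : ℕ) : ℤ) * d := by push_cast; ring
    rwa [h2] at h1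

lemma Hz.zpow {u : FractionRing S} (hu : Hz 𝒜 z D 1 u) (hu' : Hz 𝒜 z D (-1) u⁻¹) (j : ℤ) :
    Hz 𝒜 z D j (u ^ j) := by
  obtain ⟨n, rfl | rfl⟩ := j.eq_nat_or_neg
  · have h := hu.pow n
    rwa [mul_one, ← zpow_natCast] at h
  · have h := hu'.pow n
    rwa [mul_neg, mul_one, inv_pow, ← zpow_natCast, ← zpow_neg] at h

variable {u : FractionRing S}

include hD in
/-- The cone over a chart with a unit of degree one. -/
theorem smooth_Cz_unit (u0 : u ≠ 0) (hu : Hz 𝒜 z D 1 u) (hu' : Hz 𝒜 z D (-1) u⁻¹)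
    (hB : Algebra.Smooth k (ch 𝒜 z D hz z0)) :
    Algebra.Smooth k (Cz z0 : Subalgebra k (FractionRing S)) := by
  classical
  let B := ch 𝒜 z D hz z0
  let C := (Cz z0 : Subalgebra k (FractionRing S))
  let uC : C := ⟨u, hu.mem_Cz z0⟩
  let _ : Algebra B C := (Subalgebra.inclusion (ch_le_Cz hz z0)).toRingHom.toAlgebra
  have hBC : ∀ r : B, ((algebraMap B C r : C) : FractionRing S) = r := fun r => rfl
  let φ : Polynomial B →ₐ[B] C := Polynomial.aeval uC
  let _ : Algebra (Polynomial B) C := φ.toRingHom.toAlgebra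
  have hφ : ∀ P : Polynomial B, algebraMap (Polynomial B) C P = φ P := fun P => rfl
  have htow : IsScalarTower k (Polynomial B) C := by
    refine IsScalarTower.of_algebraMap_eq fun r => ?_
    rw [hφ, IsScalarTower.algebraMap_apply k B (Polynomial B), AlgHom.commutes]
    rfl
  have hφX : φ Polynomial.X = uC := Polynomial.aeval_X uC
  have hval : ∀ P : Polynomial B, ((φ P : C) : FractionRing S) =
      ∑ i ∈ Finset.range (P.natDegree + 1), (P.coeff i : FractionRing S) * u ^ i := by
    intro P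
    change ((Polynomial.aeval uC P : C) : FractionRing S) = _
    rw [Polynomial.aeval_eq_sum_range, AddSubmonoidClass.coe_finsetSum]
    refine Finset.sum_congr rfl fun i _ => ?_
    rw [Algebra.smul_def]
    rfl
  have hloc : IsLocalization.Away (Polynomial.X : Polynomial B) C := by
    refine IsLocalization.Away.mk _ ?_ ?_ ?_
    · rw [hφ, hφX]
      refine IsUnit.of_mul_eq_one ⟨u⁻¹, hu'.mem_Cz z0⟩ ?_
      apply Subtype.ext
      exact mul_inv_cancel₀ u0
    · rintro ⟨y, hy⟩
      obtain ⟨f, hf, hfy⟩ := aug_surj hz z0 hD hy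
      have hc : ∀ m : ℤ × Unit, f.coeff m * u ^ (-m.1) ∈ B := by
        intro m
        apply ch_of_Hz hz z0
        have h1 := (hf m).mul (Hz.zpow hu hu' (-m.1))
        rwa [add_neg_cancel] at h1
      let n : ℕ := ∑ m ∈ f.coeff.support, m.1.natAbs
      have hn : ∀ m ∈ f.coeff.support, 0 ≤ m.1 + n := by
        intro m hm
        have h1 : m.1.natAbs ≤ n :=
          Finset.single_le_sum (f := fun m : ℤ × Unit => m.1.natAbs)
            (fun _ _ => Nat.zero_le _) hm
        omega
      refine ⟨n, ∑ m ∈ f.coeff.support, Polynomial.monomial (m.1 + n).toNat ⟨_, hc m⟩, ?_⟩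
      rw [hφ, hφ, hφX, map_sum]
      apply Subtype.ext
      rw [AddSubmonoidClass.coe_finsetSum]
      change y * u ^ n = _
      have h1 : y = ∑ m ∈ f.coeff.support, f.coeff m := by rw [← hfy, aug_eq]
      rw [h1, Finset.sum_mul]
      refine Finset.sum_congr rfl fun m hm => ?_
      change _ = ((Polynomial.aeval uC (Polynomial.monomial (m.1 + n).toNat
        (⟨_, hc m⟩ : B)) : C) : FractionRing S)
      rw [Polynomial.aeval_monomial]
      change _ = f.coeff m * u ^ (-m.1) * u ^ (m.1 + n).toNat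
      have h2 : u ^ (m.1 + n).toNat = u ^ (m.1 + n) := by
        rw [← zpow_natCast, Int.toNat_of_nonneg (hn m hm)]
      rw [h2, mul_assoc, ← zpow_add₀ u0, ← zpow_natCast u n]
      congr 2
      ring
    · intro P Q hPQ
      refine ⟨0, ?_⟩
      rw [pow_zero, one_mul, one_mul]
      rw [← sub_eq_zero] at hPQ ⊢
      rw [← map_sub, hφ] at hPQ
      generalize P - Q = R at hPQ
      have h1 : ∑ i ∈ Finset.range (R.natDegree + 1), (R.coeff i : FractionRing S) * u ^ i = 0 := by
        rw [← hval, hPQ]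
        rfl
      let g : ML (FractionRing S) (ℤ × Unit) :=
        ∑ i ∈ Finset.range (R.natDegree + 1), mo ((i : ℤ), ()) ((R.coeff i : FractionRing S) * u ^ i)
      have hg : g ∈ CR hz z0 hD := by
        refine Subalgebra.sum_mem _ fun i _ => (mo_mem_CR hz z0 hD).2 ?_
        have h2 := (hz_ch hz z0 (R.coeff i).2).mul (hu.pow i)
        rwa [zero_add, mul_one] at h2
      have hg0 : g = 0 := by
        refine aug_inj hz z0 hD hg ?_
        rw [map_sum, ← h1]
        exact Finset.sum_congr rfl fun i _ => aug_mo k _ _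
      ext i
      by_cases hi : i ∈ Finset.range (R.natDegree + 1)
      · have h2 : g.coeff ((i : ℤ), ()) = (R.coeff i : FractionRing S) * u ^ i := by
          change (∑ i ∈ Finset.range (R.natDegree + 1),
            mo ((i : ℤ), ()) ((R.coeff i : FractionRing S) * u ^ i) :
              ML (FractionRing S) (ℤ × Unit)).coeff ((i : ℤ), ()) = _
          rw [coeff_sum', Finset.sum_eq_single_of_mem i hi]
          · exact coeff_mo_same _ _
          · intro j _ hji
            rw [coeff_mo, if_neg]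
            intro h3
            apply hji
            have h4 : (j : ℤ) = i := congrArg Prod.fst h3
            exact_mod_cast h4
        rw [hg0] at h2
        have h3 : (R.coeff i : FractionRing S) * u ^ i = 0 := h2.symm
        rcases mul_eq_zero.1 h3 with h4 | h4
        · rw [h4]
          rfl
        · exact absurd h4 (pow_ne_zero _ u0)
      · rw [Polynomial.coeff_eq_zero_of_natDegree_lt (by
          rw [Finset.mem_range] at hi
          omega)]
        rfl
  have h1 : Algebra.Smooth (Polynomial B) C := Algebra.Smooth.of_isLocalization_Away Polynomial.X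
  have h2 : Algebra.Smooth B (Polynomial B) := ⟨inferInstance, inferInstance⟩
  have h3 : Algebra.Smooth k (Polynomial B) := Algebra.Smooth.comp k B (Polynomial B)
  exact Algebra.Smooth.comp k (Polynomial B) C

end torsor

section all

variable {k S : Type} [Field k] [CommRing S] [IsDomain S] [Algebra k S] {𝒜 : ℕ → Submodule k S}
  [GradedAlgebra 𝒜] {z : S} {D : ℕ} (hz : z ∈ 𝒜 D) (z0 : z ≠ 0) (hD : 0 < D)

lemma lc_Cz {c : S} (c0 : c ≠ 0) (hc : ev k S c ∈ (Cz z0 : Subalgebra k (FractionRing S))) :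
    lc (Cz z0 : Subalgebra k (FractionRing S)) (ev k S c) hc = Cz (mul_ne_zero z0 c0) := by
  have h1 : ev k S z ≠ 0 := ev_ne z0
  have h2 : ev k S c ≠ 0 := ev_ne c0
  ext x
  constructor
  · rintro ⟨n, N, s, h⟩
    refine ⟨N + n, s * z ^ n * c ^ N, ?_⟩
    have h3 : x = ev k S s / ev k S z ^ N / ev k S c ^ n := by
      rw [← h]
      field_simp
    rw [h3, map_mul, map_mul, map_mul, map_pow, map_pow]
    field_simp
    ring
  · rintro ⟨N, s, rfl⟩
    refine ⟨N, N, s, ?_⟩
    rw [map_mul, mul_pow]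
    field_simp

variable {m : ℕ} (b : Fin (m + 1) → S) (hb : ∀ i, b i ∈ 𝒜 1) (hb0 : ∀ i, b i ≠ 0)
  (hbg : Algebra.adjoin k (Set.range b) = ⊤)

include hb hbg in
/-- Elements of positive degree lie in the ideal of the coordinates. -/
lemma mem_of_pos {I : Ideal S} (hI : ∀ i, b i ∈ I) {d : ℕ} (hd : 0 < d) {s : S} (hs : s ∈ 𝒜 d) :
    s ∈ I := by
  classical
  obtain ⟨P, hP, hPf⟩ := exists_form 𝒜 b hb hbg d _ hs
  rw [← hPf, MvPolynomial.aeval_def, MvPolynomial.eval₂_eq]
  refine Ideal.sum_mem _ fun u hu => Ideal.mul_mem_left _ _ ?_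
  have h2 := hP (MvPolynomial.mem_support_iff.1 hu)
  obtain ⟨i, hi⟩ : ∃ i, u i ≠ 0 := by
    by_contra hcon'
    push Not at hcon'
    have h3 : u = 0 := Finsupp.ext hcon'
    rw [h3, map_zero] at h2
    omega
  have hi' : i ∈ u.support := Finsupp.mem_support_iff.2 hi
  exact Ideal.mem_of_dvd _ (Finset.dvd_prod_of_mem _ hi')
    (Ideal.pow_mem_of_mem _ (hI i) _ (Nat.pos_of_ne_zero hi))

include hz hD hb hb0 hbg in
/-- The charts of the punctured cone are smooth. -/
theorem smooth_Cz (hX : AlgebraicGeometry.Smooth (str 𝒜)) :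
    Algebra.Smooth k (Cz z0 : Subalgebra k (FractionRing S)) := by
  classical
  refine smooth_of_lc _ fun Q hQ => ?_
  have h1 : ∃ i, (⟨ev k S (b i), ev_mem_Cz z0 (b i)⟩ : (Cz z0 : Subalgebra k (FractionRing S))) ∉
      Q := by
    by_contra hcon
    push Not at hcon
    let ι : S →+* (Cz z0 : Subalgebra k (FractionRing S)) :=
      (ev k S : S →+* FractionRing S).codRestrict (Cz z0 : Subalgebra k (FractionRing S)).toSubring
        fun s => ev_mem_Cz z0 s
    have h2 : z ∈ Q.comap ι := mem_of_pos b hb hbg (I := Q.comap ι) hcon hD hz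
    apply hQ.ne_top
    rw [Ideal.eq_top_iff_one]
    have h3 : (1 : (Cz z0 : Subalgebra k (FractionRing S))) =
        ⟨(ev k S z)⁻¹, ⟨1, 1, by rw [map_one, pow_one, one_div]⟩⟩ * ι z := by
      apply Subtype.ext
      change (1 : FractionRing S) = (ev k S z)⁻¹ * ev k S z
      rw [inv_mul_cancel₀ (ev_ne z0)]
    rw [h3]
    exact Ideal.mul_mem_left _ _ h2
  obtain ⟨i, hi⟩ := h1
  have h4 : ev k S (b i) ≠ 0 := ev_ne (hb0 i)
  refine ⟨ev k S (b i), ev_mem_Cz z0 (b i), h4.isUnit, hi, ?_⟩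
  rw [lc_Cz z0 (hb0 i)]
  have h2 : z * b i ∈ 𝒜 (D + 1) := SetLike.mul_mem_graded hz (hb i)
  have h3 : ev k S z ≠ 0 := ev_ne z0
  refine smooth_Cz_unit h2 _ (Nat.succ_pos D) h4 ?_ ?_
    (smooth_ch 𝒜 hX (Nat.succ_pos D) _ h2 (mul_ne_zero z0 (hb0 i)))
  · have h5 : Hz 𝒜 (z * b i) (D + 1) ((1 : ℕ) : ℤ) (ev k S (b i)) := Hz.of_mem (hb i)
    exact_mod_cast h5
  · refine ⟨1, D, by push_cast; ring, z, hz, ?_⟩
    rw [pow_one, map_mul]
    field_simp

end all

end Pool.Agent.U197.GQ
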