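import Pool.Agent.U197.GQ.N10
import Pool.Agent.U197.SF.D14

/-!
Change of étale coordinates by `p`-th powers of units, and coordinates on localizations inside a
field.
-/

set_option autoImplicit false
set_option linter.unusedSectionVars false

open KaehlerDifferential TensorProduct

namespace Pool.Agent.U197.GQ

open Pool.Agent.H920R2 Pool.Agent.U197.SF
open Pool.Agent.H519R3.RS Pool.Agent.N98.PJ

section scale

/-- Multiplication of étale coordinates by `p`-th powers of units. -/
theorem etale_scale {k T ι : Type} [Field k] [CommRing T] [Algebra k T] [Algebra.Smooth k T]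
    [Finite ι] {p : ℕ} (hpk : (p : k) = 0) (x : ι → T)
    (h : ((MvPolynomial.aeval x : MvPolynomial ι k →ₐ[k] T) : MvPolynomial ι k →+* T).Etale)
    (v : ι → Tˣ) :
    ((MvPolynomial.aeval (fun i => (v i : T) ^ p * x i) : MvPolynomial ι k →ₐ[k] T) :
      MvPolynomial ι k →+* T).Etale := by
  let φ : MvPolynomial ι k →ₐ[k] T := MvPolynomial.aeval x
  let _ : Algebra (MvPolynomial ι k) T := φ.toRingHom.toAlgebra
  have _ : IsScalarTower k (MvPolynomial ι k) T :=
    IsScalarTower.of_algebraMap_eq' φ.comp_algebraMap.symm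
  have hE : Algebra.Etale (MvPolynomial ι k) T := RingHom.etale_algebraMap.1 h
  let b : Module.Basis ι T (Ω[T⁄k]) :=
    ((KaehlerDifferential.mvPolynomialBasis k ι).baseChange T).map
      (KaehlerDifferential.tensorKaehlerEquivOfFormallyEtale k (MvPolynomial ι k) T)
  have hb : ∀ i, b i = D k T (x i) := by
    intro i
    simp only [b]
    rw [Module.Basis.map_apply, Module.Basis.baseChange_apply,
      KaehlerDifferential.mvPolynomialBasis_apply,
      KaehlerDifferential.tensorKaehlerEquivOfFormallyEtale_apply, mapBaseChange_tmul, one_smul,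
      map_D]
    congr 1
    exact MvPolynomial.aeval_X x i
  refine etale_of_basis _ (b.unitsSMul fun i => v i ^ p) fun i => ?_
  rw [Module.Basis.unitsSMul_apply, hb, Derivation.leibniz, Derivation.leibniz_pow]
  have h1 : p • ((v i : T) ^ (p - 1) • D k T (v i : T)) = 0 := by
    rw [← Nat.cast_smul_eq_nsmul k, hpk, zero_smul]
  rw [h1, smul_zero, add_zero, Units.smul_def, Units.val_pow_eq_pow_val]

/-- Étale coordinates and isomorphisms. -/
lemma etale_equiv {k T T' ι : Type} [Field k] [CommRing T] [Algebra k T] [CommRing T']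
    [Algebra k T'] (e : T ≃ₐ[k] T') (x : ι → T)
    (h : ((MvPolynomial.aeval x : MvPolynomial ι k →ₐ[k] T) : MvPolynomial ι k →+* T).Etale) :
    ((MvPolynomial.aeval (fun i => e (x i)) : MvPolynomial ι k →ₐ[k] T') :
      MvPolynomial ι k →+* T').Etale := by
  have h2 : (e : T →+* T').Etale := RingHom.Etale.of_bijective e.bijective
  have h3 := RingHom.Etale.stableUnderComposition _ _ h h2
  have h4 : (e : T →+* T').comp
      ((MvPolynomial.aeval x : MvPolynomial ι k →ₐ[k] T) : MvPolynomial ι k →+* T) =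
      ((MvPolynomial.aeval (fun i => e (x i)) : MvPolynomial ι k →ₐ[k] T') :
      MvPolynomial ι k →+* T') := by
    apply MvPolynomial.ringHom_ext
    · intro r
      change e (MvPolynomial.aeval _ (MvPolynomial.C r)) = MvPolynomial.aeval _ (MvPolynomial.C r)
      rw [MvPolynomial.aeval_C, MvPolynomial.aeval_C, e.commutes]
    · intro i
      change e (MvPolynomial.aeval _ (MvPolynomial.X i)) = MvPolynomial.aeval _ (MvPolynomial.X i)
      rw [MvPolynomial.aeval_X, MvPolynomial.aeval_X]
  rw [← h4]
  exact h3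

/-- Monomial ideals and isomorphisms. -/
lemma mono_equiv {T T' : Type} [CommRing T] [CommRing T'] (e : T →+* T') {n : ℕ}
    (x : Fin n → T) (w : Fin n → ℕ) (d : ℕ) :
    (monoF x w d).map e = monoF (fun i => e (x i)) w d := by
  unfold monoF
  rw [Ideal.map_span]
  congr 1
  ext y
  constructor
  · rintro ⟨_, ⟨α, hα, rfl⟩, rfl⟩
    exact ⟨α, hα, by rw [map_prod]; exact Finset.prod_congr rfl fun i _ => by rw [map_pow]⟩
  · rintro ⟨α, hα, rfl⟩
    exact ⟨_, ⟨α, hα, rfl⟩, by rw [map_prod]; exact Finset.prod_congr rfl fun i _ => by rw [map_pow]⟩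

/-- Multiplication of the coordinates by units does not change the monomial ideals. -/
lemma mono_scale {T : Type} [CommRing T] {n : ℕ} (x : Fin n → T) (w : Fin n → ℕ) (v : Fin n → Tˣ)
    (d : ℕ) : monoF (fun i => (v i : T) * x i) w d = monoF x w d := by
  have key : ∀ (x : Fin n → T) (v : Fin n → Tˣ), monoF (fun i => (v i : T) * x i) w d ≤
      monoF x w d := by
    intro x v
    conv_lhs => unfold monoF
    rw [Ideal.span_le]
    rintro y ⟨α, hα, rfl⟩
    have h1 : ∏ i, ((v i : T) * x i) ^ α i = (∏ i, (v i : T) ^ α i) * ∏ i, x i ^ α i := by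
      rw [← Finset.prod_mul_distrib]
      exact Finset.prod_congr rfl fun i _ => mul_pow _ _ _
    rw [h1]
    exact Ideal.mul_mem_left _ _ (mono_mem x w α hα)
  apply le_antisymm (key x v)
  have h1 := key (fun i => (v i : T) * x i) fun i => (v i)⁻¹
  simpa using h1

end scale

section K

variable {k K : Type} [Field k] [Field K] [Algebra k K]

/-- The coordinates on the larger ring `E` describe the filtration of the subalgebra `C`. -/
def Crd {C E : Subalgebra k K} (hle : C ≤ E) (F : ℕ → Ideal C) {n : ℕ} (x : Fin n → K)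
    (w : Fin n → ℕ) : Prop :=
  ∃ hx : ∀ i, x i ∈ E, EtC E x hx ∧
    ∀ d, (F d).map (Subalgebra.inclusion hle : C →+* E) = monoF (fun i => (⟨x i, hx i⟩ : E)) w d

variable {C : Subalgebra k K} (f : C) (hf0 : (f : K) ≠ 0)

/-- The localization inside the field. -/
noncomputable def eqL (hf0 : (f : K) ≠ 0) : Localization.Away f ≃ₐ[k] locAt C (f : K) f.2 := by
  let _ : Algebra C (locAt C (f : K) f.2) :=
    (Subalgebra.inclusion (le_locAt C (f : K) f.2)).toRingHom.toAlgebra
  have _ : IsScalarTower k C (locAt C (f : K) f.2) := IsScalarTower.of_algebraMap_eq fun r => rfl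
  have hloc : IsLocalization (Submonoid.powers f) (locAt C (f : K) f.2) :=
    locAt_isLocalization C (f : K) f.2 hf0
  exact (IsLocalization.algEquiv (Submonoid.powers f) (Localization.Away f)
    (locAt C (f : K) f.2)).restrictScalars k

lemma eqL_apply (c : C) : eqL f hf0 (algebraMap C (Localization.Away f) c) =
    Subalgebra.inclusion (le_locAt C (f : K) f.2) c := by
  let _ : Algebra C (locAt C (f : K) f.2) :=
    (Subalgebra.inclusion (le_locAt C (f : K) f.2)).toRingHom.toAlgebra
  have _ : IsScalarTower k C (locAt C (f : K) f.2) := IsScalarTower.of_algebraMap_eq fun r => rfl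
  have hloc : IsLocalization (Submonoid.powers f) (locAt C (f : K) f.2) :=
    locAt_isLocalization C (f : K) f.2 hf0
  exact (IsLocalization.algEquiv (Submonoid.powers f) (Localization.Away f)
    (locAt C (f : K) f.2)).commutes c

lemma eqL_symm (c : C) : (eqL f hf0).symm (Subalgebra.inclusion (le_locAt C (f : K) f.2) c) =
    algebraMap C (Localization.Away f) c := by
  rw [AlgEquiv.symm_apply_eq, eqL_apply]

include hf0 in
/-- The coordinates on the localization inside the field. -/
theorem crd_of_away {F : ℕ → Ideal C} {n : ℕ} {x : Fin n → C} {w : Fin n → ℕ}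
    (het : ((MvPolynomial.aeval (fun i => algebraMap C (Localization.Away f) (x i)) :
        MvPolynomial (Fin n) k →ₐ[k] Localization.Away f) :
        MvPolynomial (Fin n) k →+* Localization.Away f).Etale)
    (hF : ∀ d, (F d).map (algebraMap C (Localization.Away f)) =
      Ideal.span {y | ∃ α : Fin n → ℕ, d ≤ ∑ i, α i * w i ∧
        y = ∏ i, algebraMap C (Localization.Away f) (x i) ^ α i}) :
    Crd (le_locAt C (f : K) f.2) F (fun i => (x i : K)) w := by
  refine ⟨fun i => le_locAt C (f : K) f.2 (x i).2, ?_, fun d => ?_⟩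
  · have h1 := etale_equiv (eqL f hf0) _ het
    unfold EtC
    convert h1 using 3
    congr 1
    funext i
    rw [eqL_apply]
    rfl
  · have h1 := congrArg (Ideal.map (eqL f hf0 : Localization.Away f →+* locAt C (f : K) f.2)) (hF d)
    have h2 : (eqL f hf0 : Localization.Away f →+* locAt C (f : K) f.2).comp
        (algebraMap C (Localization.Away f)) =
        (Subalgebra.inclusion (le_locAt C (f : K) f.2) : C →+* locAt C (f : K) f.2) :=
      RingHom.ext fun c => eqL_apply f hf0 c
    rw [Ideal.map_map, h2] at h1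
    rw [h1]
    refine (mono_equiv _ _ w d).trans ?_
    congr 1
    funext i
    change eqL f hf0 _ = _
    rw [eqL_apply]
    rfl

include hf0 in
/-- The coordinates on the abstract localization. -/
theorem away_of_crd {F : ℕ → Ideal C} {n : ℕ} {x : Fin n → C} {w : Fin n → ℕ}
    (h : Crd (le_locAt C (f : K) f.2) F (fun i => (x i : K)) w) :
    ((MvPolynomial.aeval (fun i => algebraMap C (Localization.Away f) (x i)) :
        MvPolynomial (Fin n) k →ₐ[k] Localization.Away f) :
        MvPolynomial (Fin n) k →+* Localization.Away f).Etale ∧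
    ∀ d, (F d).map (algebraMap C (Localization.Away f)) =
      Ideal.span {y | ∃ α : Fin n → ℕ, d ≤ ∑ i, α i * w i ∧
        y = ∏ i, algebraMap C (Localization.Away f) (x i) ^ α i} := by
  obtain ⟨hx, het, hF⟩ := h
  have h0 : ∀ i, (eqL f hf0).symm ⟨(x i : K), hx i⟩ = algebraMap C (Localization.Away f) (x i) :=
    fun i => eqL_symm f hf0 (x i)
  refine ⟨?_, fun d => ?_⟩
  · have h1 := etale_equiv (eqL f hf0).symm _ het
    convert h1 using 3
    congr 1
    funext i
    rw [h0]
  · have h1 := congrArg (Ideal.map ((eqL f hf0).symm :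
      locAt C (f : K) f.2 →+* Localization.Away f)) (hF d)
    have h2 : ((eqL f hf0).symm : locAt C (f : K) f.2 →+* Localization.Away f).comp
        (Subalgebra.inclusion (le_locAt C (f : K) f.2) : C →+* locAt C (f : K) f.2) =
        algebraMap C (Localization.Away f) :=
      RingHom.ext fun c => eqL_symm f hf0 c
    rw [Ideal.map_map, h2] at h1
    rw [h1]
    refine (mono_equiv _ _ w d).trans ?_
    change monoF _ w d = monoF (fun i => algebraMap C (Localization.Away f) (x i)) w d
    congr 1
    funext i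
    exact h0 i

include hf0 in
/-- Elements of the extended ideal. -/
lemma mem_map_locAt (I : Ideal C) (y : locAt C (f : K) f.2) :
    y ∈ I.map (Subalgebra.inclusion (le_locAt C (f : K) f.2) : C →+* locAt C (f : K) f.2) ↔
      ∃ n : ℕ, ∃ g ∈ I, (g : K) = (f : K) ^ n * y := by
  let _ : Algebra C (locAt C (f : K) f.2) :=
    (Subalgebra.inclusion (le_locAt C (f : K) f.2)).toRingHom.toAlgebra
  have hloc : IsLocalization (Submonoid.powers f) (locAt C (f : K) f.2) :=
    locAt_isLocalization C (f : K) f.2 hf0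
  change y ∈ I.map (algebraMap C (locAt C (f : K) f.2)) ↔ _
  rw [IsLocalization.mem_map_algebraMap_iff (Submonoid.powers f)]
  constructor
  · rintro ⟨⟨⟨a, ha⟩, ⟨_, n, rfl⟩⟩, h⟩
    refine ⟨n, a, ha, ?_⟩
    have h1 := congrArg Subtype.val h
    change (y : K) * ((f ^ n : C) : K) = (a : K) at h1
    rw [← h1, mul_comm]
    rfl
  · rintro ⟨n, g, hg, h⟩
    refine ⟨⟨⟨g, hg⟩, ⟨f ^ n, n, rfl⟩⟩, ?_⟩
    apply Subtype.ext
    change (y : K) * ((f ^ n : C) : K) = (g : K)
    rw [h, mul_comm]
    rfl

/-- Change of the subalgebra and scaling. -/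
theorem Crd.change {A C E : Subalgebra k K} {hA : A ≤ E} {hC : C ≤ E} [Algebra.Smooth k E]
    {p : ℕ} (hpk : (p : k) = 0) {F : ℕ → Ideal A} {G : ℕ → Ideal C} {n : ℕ} {x : Fin n → K}
    {w : Fin n → ℕ} (h : Crd hA F x w)
    (hFG : ∀ d, (F d).map (Subalgebra.inclusion hA : A →+* E) =
      (G d).map (Subalgebra.inclusion hC : C →+* E)) (v : Fin n → K) (hv0 : ∀ i, v i ≠ 0)
    (hv : ∀ i, v i ∈ E) (hv' : ∀ i, (v i)⁻¹ ∈ E) :
    Crd hC G (fun i => v i ^ p * x i) w := by
  obtain ⟨hx, het, hF⟩ := h
  let u : Fin n → Eˣ := fun i => ⟨⟨v i, hv i⟩, ⟨(v i)⁻¹, hv' i⟩,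
    Subtype.ext (mul_inv_cancel₀ (hv0 i)), Subtype.ext (inv_mul_cancel₀ (hv0 i))⟩
  refine ⟨fun i => E.mul_mem (E.pow_mem (hv i) p) (hx i), ?_, fun d => ?_⟩
  · exact etale_scale hpk _ het u
  · rw [← hFG, hF]
    have h1 := mono_scale (fun i => (⟨x i, hx i⟩ : E)) w (fun i => u i ^ p) d
    rw [← h1]
    congr 1

end K

end Pool.Agent.U197.GQ
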