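import Pool.Agent.U197.GQ.N11

/-!
Gluing of weighted centres on the charts of the punctured cone.
-/

set_option autoImplicit false
set_option linter.unusedSectionVars false

namespace Pool.Agent.U197.GQ

open AlgebraicGeometry CategoryTheory
open Pool.Agent.W559.Mg Pool.Agent.W559.Et Pool.Agent.H920R2 Pool.Agent.U197.SF
open Pool.Agent.H519R3.RS Pool.Agent.N98.PJ

section K

variable {k K : Type} [Field k] [Field K] [Algebra k K]

lemma smooth_locAt (C : Subalgebra k K) [Algebra.Smooth k C] (f : K) (hf : f ∈ C) (hf0 : f ≠ 0) :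
    Algebra.Smooth k (locAt C f hf) := by
  let _ : Algebra C (locAt C f hf) :=
    (Subalgebra.inclusion (le_locAt C f hf)).toRingHom.toAlgebra
  have _ : IsScalarTower k C (locAt C f hf) := IsScalarTower.of_algebraMap_eq fun r => rfl
  have hloc : IsLocalization.Away (⟨f, hf⟩ : C) (locAt C f hf) :=
    locAt_isLocalization C f hf hf0
  have h2 : Algebra.Smooth C (locAt C f hf) :=
    Algebra.Smooth.of_isLocalization_Away (⟨f, hf⟩ : C)
  exact Algebra.Smooth.comp k C (locAt C f hf)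

lemma Crd.cast {A E E' : Subalgebra k K} (h : E = E') {hle : A ≤ E} (hle' : A ≤ E')
    {F : ℕ → Ideal A} {n : ℕ} {x : Fin n → K} {w : Fin n → ℕ} (hc : Crd hle F x w) :
    Crd hle' F x w := by
  subst h
  exact hc

lemma Crd.loc {A E : Subalgebra k K} {hle : A ≤ E} {F : ℕ → Ideal A} {n : ℕ} {x : Fin n → K}
    {w : Fin n → ℕ} (hc : Crd hle F x w) (g : K) (hg : g ∈ E) (hg0 : g ≠ 0) :
    Crd (hle.trans (le_locAt E g hg)) F x w := by
  obtain ⟨hx, het, hF⟩ := hc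
  refine ⟨fun i => le_locAt E g hg (hx i), het.locAt g hg hg0, fun d => ?_⟩
  have h1 := congrArg (Ideal.map (Subalgebra.inclusion (le_locAt E g hg) : E →+* locAt E g hg))
    (hF d)
  rw [Ideal.map_map, mono_equiv] at h1
  exact h1

end K

section glue

variable {k S : Type} [Field k] [CommRing S] [IsDomain S] [Algebra k S] {z : S} (z0 : z ≠ 0)
  {ι : Type} (za : ι → S) (za0 : ∀ a, za a ≠ 0)
  (F : ∀ a, ℕ → Ideal (Cz (za0 a) : Subalgebra k (FractionRing S)))

/-- The glued filtration. -/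
def GF (d : ℕ) : Ideal (Cz z0 : Subalgebra k (FractionRing S)) where
  carrier := {y | ∀ a, ∃ n : ℕ, ∃ g ∈ F a d, (g : FractionRing S) = ev k S z ^ n * y}
  add_mem' := by
    intro x y hx hy a
    obtain ⟨n, g, hg, hgx⟩ := hx a
    obtain ⟨m, g', hg', hgy⟩ := hy a
    refine ⟨n + m, ⟨ev k S z, ev_mem_Cz _ z⟩ ^ m * g + ⟨ev k S z, ev_mem_Cz _ z⟩ ^ n * g',
      Ideal.add_mem _ (Ideal.mul_mem_left _ _ hg) (Ideal.mul_mem_left _ _ hg'), ?_⟩
    change ev k S z ^ m * (g : FractionRing S) + ev k S z ^ n * (g' : FractionRing S) =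
      ev k S z ^ (n + m) * ((x : FractionRing S) + y)
    rw [hgx, hgy, pow_add]
    ring
  zero_mem' := fun a => ⟨0, 0, Ideal.zero_mem _, by simp⟩
  smul_mem' := by
    rintro ⟨c, N, s, hc⟩ y hy a
    obtain ⟨n, g, hg, hgy⟩ := hy a
    refine ⟨N + n, ⟨ev k S s, ev_mem_Cz _ s⟩ * g, Ideal.mul_mem_left _ _ hg, ?_⟩
    change ev k S s * (g : FractionRing S) = ev k S z ^ (N + n) * (c * (y : FractionRing S))
    have hz' : ev k S z ≠ 0 := ev_ne z0
    rw [hgy, hc, pow_add]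
    field_simp

variable {z0 za za0 F}

lemma mem_GF {d : ℕ} {y : (Cz z0 : Subalgebra k (FractionRing S))} :
    y ∈ GF z0 za za0 F d ↔
      ∀ a, ∃ n : ℕ, ∃ g ∈ F a d, (g : FractionRing S) = ev k S z ^ n * y := Iff.rfl

variable [Finite ι] {τ : FractionRing S ≃ₐ[k] FractionRing S} {τS : S → S}
  (hτ : ∀ s, τ (ev k S s) = ev k S (τS s)) (hτz : τS z = z) (hτa : ∀ a, τS (za a) = za a)

include hτ hτz in
lemma tau_Cz (x : FractionRing S) (hx : x ∈ (Cz z0 : Subalgebra k (FractionRing S))) :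
    τ x ∈ (Cz z0 : Subalgebra k (FractionRing S)) := by
  obtain ⟨N, s, rfl⟩ := hx
  refine ⟨N, τS s, ?_⟩
  rw [map_div₀, map_pow, hτ, hτ, hτz]

include hτ hτz in
lemma del_Cz (x : FractionRing S) (hx : x ∈ (Cz z0 : Subalgebra k (FractionRing S))) :
    (fun x => τ x - x) x ∈ (Cz z0 : Subalgebra k (FractionRing S)) :=
  Subalgebra.sub_mem _ (tau_Cz hτ hτz x hx) hx

include hτ in
lemma del_mul {c : S} (hc : τS c = c) (n : ℕ) (x : FractionRing S) :
    (fun x => τ x - x) (ev k S c ^ n * x) = ev k S c ^ n * (fun x => τ x - x) x := by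
  change τ (ev k S c ^ n * x) - ev k S c ^ n * x = ev k S c ^ n * (τ x - x)
  rw [map_mul, map_pow, hτ, hc, mul_sub]

/-- Denominators. -/
lemma exists_ev (x : (Cz z0 : Subalgebra k (FractionRing S))) :
    ∃ (n : ℕ) (s : S), ev k S z ^ n * (x : FractionRing S) = ev k S s := by
  obtain ⟨x, N, s, rfl⟩ := x
  refine ⟨N, s, ?_⟩
  have hz' : ev k S z ≠ 0 := ev_ne z0
  field_simp

variable {l : ℕ} (hl : 0 < l)
  (hN : ∀ a, NWC (Cz (za0 a) : Subalgebra k (FractionRing S)) (fun x => τ x - x) l (F a))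
  (hsm : ∀ a, Algebra.Smooth k (Cz (za0 a) : Subalgebra k (FractionRing S)))

include hτ hτa hl hN hsm in
/-- The local filtrations come from the glued one. -/
theorem GF_up (a : ι) (d : ℕ) (g : (Cz (za0 a) : Subalgebra k (FractionRing S)))
    (hg : g ∈ F a d) : ∃ n : ℕ, ∃ y ∈ GF z0 za za0 F d,
      (y : FractionRing S) = ev k S (za a) ^ n * g := by
  classical
  have _ : Fintype ι := Fintype.ofFinite ι
  have key : ∀ b, ∃ n : ℕ, ∃ g' ∈ F b d, (g' : FractionRing S) = ev k S (za a) ^ n * g := by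
    intro b
    have _ := hsm a
    have _ := hsm b
    refine glue_nwc (u := 1) (n0 := 0) (ev_mem_Cz (za0 b) (za a)) ?_
      (del_Cz hτ (hτa b)) (del_Cz hτ (hτa a)) ?_
      (by rw [pow_zero, one_mul]; exact Subalgebra.one_mem _)
      (fun x => by rw [one_mul]) hl (hN b) (hN a) d g hg
    · intro x hx
      obtain ⟨n, s, hs⟩ := exists_ev ⟨x, hx⟩
      exact ⟨n, by rw [hs]; exact ev_mem_Cz _ s⟩
    · intro x
      have h1 := del_mul (k := k) hτ (hτa a) 1 x
      rwa [pow_one] at h1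
  choose N g' hg' hgN using key
  obtain ⟨n0, s, hs⟩ := exists_ev g
  have h1 : ev k S (za a) ^ (n0 + ∑ b, N b) * (g : FractionRing S) =
      ev k S (za a ^ (∑ b, N b) * s) := by
    rw [map_mul, map_pow, ← hs, pow_add]
    ring
  refine ⟨n0 + ∑ b, N b, ⟨_, h1 ▸ ev_mem_Cz z0 _⟩, fun b => ?_, rfl⟩
  have h3 : N b ≤ n0 + ∑ b, N b :=
    (Finset.single_le_sum (fun _ _ => Nat.zero_le _) (Finset.mem_univ b)).trans
      (Nat.le_add_left _ _)
  obtain ⟨e, he⟩ := Nat.exists_eq_add_of_le h3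
  refine ⟨0, ⟨ev k S (za a), ev_mem_Cz _ _⟩ ^ e * g' b, Ideal.mul_mem_left _ _ (hg' b), ?_⟩
  change ev k S (za a) ^ e * (g' b : FractionRing S) = ev k S z ^ 0 *
    (ev k S (za a) ^ (n0 + ∑ b, N b) * (g : FractionRing S))
  rw [hgN, he, pow_zero, one_mul, pow_add]
  ring

include hN in
lemma GF_zero : GF z0 za za0 F 0 = ⊤ := by
  rw [eq_top_iff]
  intro y _ a
  obtain ⟨n, s, hs⟩ := exists_ev y
  refine ⟨n, ⟨ev k S s, ev_mem_Cz _ s⟩, ?_, hs.symm⟩
  rw [(hN a).centre.zero]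
  trivial

include hN in
lemma GF_anti {c d : ℕ} (h : c ≤ d) : GF z0 za za0 F d ≤ GF z0 za za0 F c := by
  intro y hy a
  obtain ⟨n, g, hg, hgy⟩ := hy a
  exact ⟨n, g, (hN a).centre.anti _ _ h hg, hgy⟩

include hN in
lemma GF_mul {c d : ℕ} {x y : (Cz z0 : Subalgebra k (FractionRing S))}
    (hx : x ∈ GF z0 za za0 F c) (hy : y ∈ GF z0 za za0 F d) : x * y ∈ GF z0 za za0 F (c + d) := by
  intro a
  obtain ⟨n, g, hg, hgx⟩ := hx a
  obtain ⟨m, g', hg', hgy⟩ := hy a
  refine ⟨n + m, g * g', (hN a).centre.mul _ _ (Ideal.mul_mem_mul hg hg'), ?_⟩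
  rw [Subalgebra.coe_mul, hgx, hgy, Subalgebra.coe_mul, pow_add]
  ring

include hτ hτz hτa hN in
lemma GF_raise {d : ℕ} {y : (Cz z0 : Subalgebra k (FractionRing S))}
    (hy : y ∈ GF z0 za za0 F d) (y' : (Cz z0 : Subalgebra k (FractionRing S)))
    (h : (y' : FractionRing S) = τ y - y) : y' ∈ GF z0 za za0 F (d + l) := by
  intro a
  obtain ⟨n, g, hg, hgy⟩ := hy a
  refine ⟨n, ⟨_, del_Cz hτ (hτa a) g g.2⟩, (hN a).raise d g hg _ rfl, ?_⟩
  change (fun x => τ x - x) (g : FractionRing S) = _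
  rw [hgy, del_mul hτ hτz, h]

include hτ hτz hτa hN hl in
/-- The zeros are contained in the glued centre. -/
lemma zI_le : zI (Cz z0 : Subalgebra k (FractionRing S)) (fun x => τ x - x) ≤
    GF z0 za za0 F 1 := by
  unfold zI
  rw [Ideal.span_le]
  rintro y ⟨c, hc⟩
  have h1 : c ∈ GF z0 za za0 F 0 := by
    rw [GF_zero hN]
    trivial
  have h2 := GF_raise hτ hτz hτa hN h1 y hc
  exact GF_anti hN (by omega) h2

variable (hcov : ∀ P : Ideal (Cz z0 : Subalgebra k (FractionRing S)), P.IsPrime →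
  zI (Cz z0 : Subalgebra k (FractionRing S)) (fun x => τ x - x) ≤ P →
    ∃ a, (⟨ev k S (za a), ev_mem_Cz z0 (za a)⟩ :
      (Cz z0 : Subalgebra k (FractionRing S))) ∉ P)

/-- The inverse of `z` is a function on the chart. -/
lemma inv_mem_Cz' : (ev k S z)⁻¹ ∈ (Cz z0 : Subalgebra k (FractionRing S)) :=
  ⟨1, 1, by rw [map_one, pow_one, one_div]⟩

lemma z_notMem {P : Ideal (Cz z0 : Subalgebra k (FractionRing S))} (hP : P.IsPrime) (n : ℕ) :
    (⟨ev k S z, ev_mem_Cz z0 z⟩ : (Cz z0 : Subalgebra k (FractionRing S))) ^ n ∉ P := by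
  intro h
  have h1 := hP.mem_of_pow_mem _ h
  apply hP.ne_top
  rw [Ideal.eq_top_iff_one]
  have h3 : (1 : (Cz z0 : Subalgebra k (FractionRing S))) =
      ⟨(ev k S z)⁻¹, inv_mem_Cz'⟩ * ⟨ev k S z, ev_mem_Cz z0 z⟩ := by
    apply Subtype.ext
    change (1 : FractionRing S) = (ev k S z)⁻¹ * ev k S z
    rw [inv_mul_cancel₀ (ev_ne z0)]
  rw [h3]
  exact Ideal.mul_mem_left _ _ h1

include hτ hτz hτa hN hcov in
/-- The glued centre is contained in the zeros. -/
lemma GF_zeros : GF z0 za za0 F 1 ≤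
    (zI (Cz z0 : Subalgebra k (FractionRing S)) (fun x => τ x - x)).radical := by
  intro y hy
  rw [Ideal.radical_eq_sInf]
  refine Submodule.mem_sInf.2 ?_
  rintro P ⟨hle, hP⟩
  obtain ⟨a, ha⟩ := hcov P hP hle
  obtain ⟨n, g, hg, hgy⟩ := hy a
  obtain ⟨M, hM⟩ := (hN a).zeros hg
  obtain ⟨N, g', hg', hgg⟩ := glue_zI (u := 1) (n0 := 0) (ev_mem_Cz z0 (za a)) (by
      intro x hx
      obtain ⟨n, s, hs⟩ := exists_ev ⟨x, hx⟩
      exact ⟨n, by rw [hs]; exact ev_mem_Cz _ s⟩)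
    (by
      intro x
      have h1 := del_mul (k := k) hτ (hτa a) 1 x
      rwa [pow_one] at h1)
    (by rw [pow_zero, one_mul]; exact Subalgebra.one_mem _)
    (fun x => by rw [one_mul]) (del_Cz hτ hτz) _ hM
  have h1 : g' = ⟨ev k S (za a), ev_mem_Cz z0 (za a)⟩ ^ N *
      (⟨ev k S z, ev_mem_Cz z0 z⟩ ^ (n * M) * y ^ M) := by
    apply Subtype.ext
    rw [hgg]
    change ev k S (za a) ^ N * (g : FractionRing S) ^ M = ev k S (za a) ^ N *
      (ev k S z ^ (n * M) * (y : FractionRing S) ^ M)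
    rw [hgy, mul_pow, ← pow_mul]
  have h2 := hle hg'
  rw [h1] at h2
  rcases hP.mem_or_mem h2 with h3 | h3
  · exact absurd (hP.mem_of_pow_mem _ h3) ha
  · rcases hP.mem_or_mem h3 with h4 | h4
    · exact absurd h4 (z_notMem hP _)
    · exact hP.mem_of_pow_mem _ h4

end glue

end Pool.Agent.U197.GQ
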