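import Pool.Agent.U197.GQ.N12

/-!
Gluing of weighted centres on the charts of the punctured cone: leading forms.
-/

set_option autoImplicit false
set_option linter.unusedSectionVars false

namespace Pool.Agent.U197.GQ

open AlgebraicGeometry CategoryTheory
open Pool.Agent.W559.Mg Pool.Agent.W559.Et Pool.Agent.H920R2 Pool.Agent.U197.SF
open Pool.Agent.H519R3.RS Pool.Agent.N98.PJ

section up

variable {k S : Type} [Field k] [CommRing S] [IsDomain S] [Algebra k S] {z : S} {z0 : z ≠ 0}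
  {c : S} {c0 : c ≠ 0}

lemma up_add {I : Ideal (Cz z0 : Subalgebra k (FractionRing S))} {x y : FractionRing S}
    (hx : ∃ n : ℕ, ∃ g ∈ I, (g : FractionRing S) = ev k S c ^ n * x)
    (hy : ∃ n : ℕ, ∃ g ∈ I, (g : FractionRing S) = ev k S c ^ n * y) :
    ∃ n : ℕ, ∃ g ∈ I, (g : FractionRing S) = ev k S c ^ n * (x + y) := by
  obtain ⟨n, g, hg, hgx⟩ := hx
  obtain ⟨m, g', hg', hgy⟩ := hy
  refine ⟨n + m, ⟨ev k S c, ev_mem_Cz _ c⟩ ^ m * g + ⟨ev k S c, ev_mem_Cz _ c⟩ ^ n * g',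
    Ideal.add_mem _ (Ideal.mul_mem_left _ _ hg) (Ideal.mul_mem_left _ _ hg'), ?_⟩
  change ev k S c ^ m * (g : FractionRing S) + ev k S c ^ n * (g' : FractionRing S) =
    ev k S c ^ (n + m) * (x + y)
  rw [hgx, hgy, pow_add]
  ring

lemma up_span {I : Ideal (Cz z0 : Subalgebra k (FractionRing S))}
    {T : Set (Cz c0 : Subalgebra k (FractionRing S))}
    (h : ∀ t ∈ T, ∃ n : ℕ, ∃ g ∈ I, (g : FractionRing S) = ev k S c ^ n * t)
    (x : (Cz c0 : Subalgebra k (FractionRing S))) (hx : x ∈ Ideal.span T) :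
    ∃ n : ℕ, ∃ g ∈ I, (g : FractionRing S) = ev k S c ^ n * x := by
  induction hx using Submodule.span_induction with
  | mem t ht => exact h t ht
  | zero => exact ⟨0, 0, Ideal.zero_mem _, by simp⟩
  | add x y _ _ hx hy => exact up_add hx hy
  | smul r x _ hx =>
    obtain ⟨n, g, hg, hgx⟩ := hx
    obtain ⟨m, s, hs⟩ := exists_ev r
    refine ⟨m + n, ⟨ev k S s, ev_mem_Cz _ s⟩ * g, Ideal.mul_mem_left _ _ hg, ?_⟩
    change ev k S s * (g : FractionRing S) = ev k S c ^ (m + n) * ((r : FractionRing S) * x)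
    rw [hgx, ← hs, pow_add]
    ring

end up

section glue

variable {k S : Type} [Field k] [CommRing S] [IsDomain S] [Algebra k S] {z : S} (z0 : z ≠ 0)
  {ι : Type} (za : ι → S) (za0 : ∀ a, za a ≠ 0)
  (F : ∀ a, ℕ → Ideal (Cz (za0 a) : Subalgebra k (FractionRing S)))
  (τ : FractionRing S ≃ₐ[k] FractionRing S) (l : ℕ)

/-- The leading ideal of the glued filtration. -/
noncomputable def LG (m : ℕ) : Ideal (Cz z0 : Subalgebra k (FractionRing S)) :=
  GF z0 za za0 F (m + 1) ⊔ Ideal.span {y | ∃ e, ∃ c ∈ GF z0 za za0 F e,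
    ∃ b ∈ GF z0 za za0 F (m - (e + l)),
      ∃ x : (Cz z0 : Subalgebra k (FractionRing S)), (x : FractionRing S) = τ c - c ∧ y = b * x}

variable {z0 za za0 F τ l} {τS : S → S} [Finite ι]
  (hτ : ∀ s, τ (ev k S s) = ev k S (τS s)) (hτz : τS z = z) (hτa : ∀ a, τS (za a) = za a)
  (hl : 0 < l)
  (hN : ∀ a, NWC (Cz (za0 a) : Subalgebra k (FractionRing S)) (fun x => τ x - x) l (F a))
  (hsm : ∀ a, Algebra.Smooth k (Cz (za0 a) : Subalgebra k (FractionRing S)))
  (hcov : ∀ P : Ideal (Cz z0 : Subalgebra k (FractionRing S)), P.IsPrime →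
    zI (Cz z0 : Subalgebra k (FractionRing S)) (fun x => τ x - x) ≤ P →
      ∃ a, (⟨ev k S (za a), ev_mem_Cz z0 (za a)⟩ :
        (Cz z0 : Subalgebra k (FractionRing S))) ∉ P)

include hN in
lemma LG_mul {m e : ℕ} {x y : (Cz z0 : Subalgebra k (FractionRing S))}
    (hx : x ∈ LG z0 za za0 F τ l m) (hy : y ∈ GF z0 za za0 F e) :
    x * y ∈ LG z0 za za0 F τ l (m + e) := by
  obtain ⟨x1, hx1, x2, hx2, rfl⟩ := Submodule.mem_sup.1 hx
  rw [add_mul]
  refine Ideal.add_mem _ (Ideal.mem_sup_left ?_) ?_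
  · have h1 := GF_mul hN hx1 hy
    rwa [show m + 1 + e = m + e + 1 by ring] at h1
  · refine Ideal.mem_sup_right ?_
    clear hx
    induction hx2 using Submodule.span_induction with
    | mem t ht =>
      obtain ⟨e', c, hc, b, hb, x, hx, rfl⟩ := ht
      refine Ideal.subset_span ⟨e', c, hc, b * y, ?_, x, hx, by ring⟩
      exact GF_anti hN (by omega) (GF_mul hN hb hy)
    | zero => rw [zero_mul]; exact Ideal.zero_mem _
    | add u v _ _ hu hv => rw [add_mul]; exact Ideal.add_mem _ hu hv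
    | smul r u _ hu =>
      rw [smul_eq_mul, mul_assoc]
      exact Ideal.mul_mem_left _ _ hu

include hτ hτz hτa hl hN hsm in
lemma LG_up (a : ι) (m : ℕ) (x : (Cz (za0 a) : Subalgebra k (FractionRing S)))
    (hx : x ∈ F a (m + 1) ⊔ Ideal.span {y | ∃ e, ∃ c ∈ F a e, ∃ b ∈ F a (m - (e + l)),
      ∃ x : (Cz (za0 a) : Subalgebra k (FractionRing S)), (x : FractionRing S) =
        (fun x => τ x - x) (c : FractionRing S) ∧ y = b * x}) :
    ∃ n : ℕ, ∃ y ∈ LG z0 za za0 F τ l m, (y : FractionRing S) = ev k S (za a) ^ n * x := by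
  obtain ⟨x1, hx1, x2, hx2, rfl⟩ := Submodule.mem_sup.1 hx
  refine up_add (I := LG z0 za za0 F τ l m) ?_ ?_
  · obtain ⟨n, y, hy, hyx⟩ := GF_up (z0 := z0) hτ hτa hl hN hsm a _ _ hx1
    exact ⟨n, y, Ideal.mem_sup_left hy, hyx⟩
  · refine up_span (c0 := za0 a) ?_ x2 hx2
    rintro t ⟨e, c, hc, b, hb, x, hx, rfl⟩
    obtain ⟨n1, c', hc', hcc⟩ := GF_up (z0 := z0) hτ hτa hl hN hsm a _ _ hc
    obtain ⟨n2, b', hb', hbb⟩ := GF_up (z0 := z0) hτ hτa hl hN hsm a _ _ hb
    refine ⟨n2 + n1, b' * ⟨_, del_Cz hτ hτz c' c'.2⟩, Ideal.mem_sup_right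
      (Ideal.subset_span ⟨e, c', hc', b', hb', _, rfl, rfl⟩), ?_⟩
    change (b' : FractionRing S) * (fun x => τ x - x) (c' : FractionRing S) =
      ev k S (za a) ^ (n2 + n1) * ((b : FractionRing S) * x)
    rw [hcc, hbb, del_mul hτ (hτa a), hx, pow_add]
    ring

include hN in
lemma GF_pow {d : ℕ} {y : (Cz z0 : Subalgebra k (FractionRing S))}
    (hy : y ∈ GF z0 za za0 F d) (n : ℕ) : y ^ n ∈ GF z0 za za0 F (n * d) := by
  induction n with
  | zero =>
    rw [zero_mul, GF_zero hN]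
    trivial
  | succ n ih =>
    rw [pow_succ, show (n + 1) * d = n * d + d by ring]
    exact GF_mul hN ih hy

include hτ hτz hτa hl hN hsm hcov in
/-- The leading form of the glued centre. -/
theorem GF_lead (d : ℕ) (y : (Cz z0 : Subalgebra k (FractionRing S)))
    (hy : y ∈ GF z0 za za0 F d) (hd : 1 ≤ d) :
    ∃ N : ℕ, y ^ N ∈ LG z0 za za0 F τ l (N * d) := by
  classical
  have _ : Fintype ι := Fintype.ofFinite ι
  have key : ∀ a, ∃ N m : ℕ, (⟨ev k S (za a), ev_mem_Cz z0 (za a)⟩ :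
      (Cz z0 : Subalgebra k (FractionRing S))) ^ m * y ^ N ∈ LG z0 za za0 F τ l (N * d) := by
    intro a
    obtain ⟨n, g, hg, hgy⟩ := hy a
    obtain ⟨N, hNN⟩ := (hN a).lead d hd g hg
    obtain ⟨m, y', hy', hyy⟩ := LG_up (z0 := z0) hτ hτz hτa hl hN hsm a _ _ hNN
    refine ⟨N, m, ?_⟩
    have hz' : ev k S z ≠ 0 := ev_ne z0
    have h1 : (⟨ev k S (za a), ev_mem_Cz z0 (za a)⟩ :
        (Cz z0 : Subalgebra k (FractionRing S))) ^ m * y ^ N =
        ⟨(ev k S z)⁻¹, inv_mem_Cz'⟩ ^ (n * N) * y' := by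
      apply Subtype.ext
      change ev k S (za a) ^ m * (y : FractionRing S) ^ N = (ev k S z)⁻¹ ^ (n * N) *
        (y' : FractionRing S)
      have h2 : (ev k S z)⁻¹ ^ (n * N) * ev k S z ^ (n * N) = 1 := by
        rw [← mul_pow, inv_mul_cancel₀ hz', one_pow]
      rw [hyy, Subalgebra.coe_pow, hgy, mul_pow, ← pow_mul]
      linear_combination (-(ev k S (za a) ^ m * (y : FractionRing S) ^ N)) * h2
    rw [h1]
    exact Ideal.mul_mem_left _ _ hy'
  choose N m hNm using key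
  refine ⟨∑ a, N a, ?_⟩
  have h1 : ∀ a, (⟨ev k S (za a), ev_mem_Cz z0 (za a)⟩ :
      (Cz z0 : Subalgebra k (FractionRing S))) ^ m a * y ^ (∑ a, N a) ∈
        LG z0 za za0 F τ l ((∑ a, N a) * d) := by
    intro a
    obtain ⟨e, he⟩ := Nat.exists_eq_add_of_le
      (Finset.single_le_sum (f := N) (fun _ _ => Nat.zero_le _) (Finset.mem_univ a))
    rw [he, pow_add, ← mul_assoc, add_mul]
    exact LG_mul hN (hNm a) (GF_pow hN hy e)
  let I : Ideal (Cz z0 : Subalgebra k (FractionRing S)) :=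
    { carrier := {r | r * y ^ (∑ a, N a) ∈ LG z0 za za0 F τ l ((∑ a, N a) * d)}
      add_mem' := fun {r r'} hr hr' => by
        change (r + r') * y ^ (∑ a, N a) ∈ LG z0 za za0 F τ l ((∑ a, N a) * d)
        rw [add_mul]
        exact Ideal.add_mem _ hr hr'
      zero_mem' := by
        change 0 * y ^ (∑ a, N a) ∈ LG z0 za za0 F τ l ((∑ a, N a) * d)
        rw [zero_mul]
        exact Ideal.zero_mem _
      smul_mem' := fun r x hx => by
        change (r * x) * y ^ (∑ a, N a) ∈ LG z0 za za0 F τ l ((∑ a, N a) * d)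
        rw [mul_assoc]
        exact Ideal.mul_mem_left _ _ hx }
  have hI : I = ⊤ := by
    by_contra hcon
    obtain ⟨P, hP, hle⟩ := Ideal.exists_le_maximal _ hcon
    obtain ⟨a, ha⟩ := hcov P hP.isPrime (by
      unfold zI
      rw [Ideal.span_le]
      intro x hx
      have h2 : x ∈ GF z0 za za0 F 1 := zI_le hτ hτz hτa hl hN (Ideal.subset_span hx)
      have h3 := GF_pow hN h2 ((∑ a, N a) * d + 1)
      rw [mul_one] at h3
      have h4 : x ^ ((∑ a, N a) * d + 1) ∈ I := by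
        change x ^ ((∑ a, N a) * d + 1) * y ^ (∑ a, N a) ∈
          LG z0 za za0 F τ l ((∑ a, N a) * d)
        exact Ideal.mul_mem_right _ _ (Ideal.mem_sup_left h3)
      exact hP.isPrime.mem_of_pow_mem _ (hle h4))
    exact ha (hP.isPrime.mem_of_pow_mem _ (hle (show _ ∈ I from h1 a)))
  have h2 : (1 : (Cz z0 : Subalgebra k (FractionRing S))) ∈ I := by rw [hI]; trivial
  change 1 * y ^ (∑ a, N a) ∈ LG z0 za za0 F τ l ((∑ a, N a) * d) at h2
  rwa [one_mul] at h2

end glue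

end Pool.Agent.U197.GQ
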