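import Pool.Agent.U197.GQ.N13

/-!
Gluing of weighted centres on the charts of the punctured cone: coordinates and homogeneity.
-/

set_option autoImplicit false
set_option linter.unusedSectionVars false

namespace Pool.Agent.U197.GQ

open AlgebraicGeometry CategoryTheory
open Pool.Agent.W559.Mg Pool.Agent.W559.Et Pool.Agent.H920R2 Pool.Agent.U197.SF
open Pool.Agent.H519R3.RS Pool.Agent.N98.PJ

section coord

variable {k S : Type} [Field k] [CommRing S] [IsDomain S] [Algebra k S] {z : S} {z0 : z ≠ 0}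
  {ι : Type} {za : ι → S} {za0 : ∀ a, za a ≠ 0}
  {F : ∀ a, ℕ → Ideal (Cz (za0 a) : Subalgebra k (FractionRing S))}
  {τ : FractionRing S ≃ₐ[k] FractionRing S} {l : ℕ} {τS : S → S} [Finite ι]
  (hτ : ∀ s, τ (ev k S s) = ev k S (τS s)) (hτz : τS z = z) (hτa : ∀ a, τS (za a) = za a)
  (hl : 0 < l)
  (hN : ∀ a, NWC (Cz (za0 a) : Subalgebra k (FractionRing S)) (fun x => τ x - x) l (F a))
  (hsm : ∀ a, Algebra.Smooth k (Cz (za0 a) : Subalgebra k (FractionRing S)))
  (hcov : ∀ P : Ideal (Cz z0 : Subalgebra k (FractionRing S)), P.IsPrime →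
    zI (Cz z0 : Subalgebra k (FractionRing S)) (fun x => τ x - x) ≤ P →
      ∃ a, (⟨ev k S (za a), ev_mem_Cz z0 (za a)⟩ :
        (Cz z0 : Subalgebra k (FractionRing S))) ∉ P)

/-- The intersection of charts. -/
lemma locAt_eq (a : ι) (f' : (Cz (za0 a) : Subalgebra k (FractionRing S)))
    (hf'0 : (f' : FractionRing S) ≠ 0) {M : ℕ} {s' : S}
    (hs' : ev k S (za a) ^ M * (f' : FractionRing S) = ev k S s')
    (hzE : ev k S z ∈ locAt (Cz (za0 a) : Subalgebra k (FractionRing S))
      (f' : FractionRing S) f'.2) (hf : ev k S (za a * s') ∈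
        (Cz z0 : Subalgebra k (FractionRing S))) :
    locAt (locAt (Cz (za0 a) : Subalgebra k (FractionRing S)) (f' : FractionRing S) f'.2)
      (ev k S z) hzE = locAt (Cz z0 : Subalgebra k (FractionRing S)) (ev k S (za a * s')) hf := by
  have hza : ev k S (za a) ≠ 0 := ev_ne (za0 a)
  have hzz : ev k S z ≠ 0 := ev_ne z0
  have hs0 : ev k S s' ≠ 0 := by
    rw [← hs']
    exact mul_ne_zero (pow_ne_zero _ hza) hf'0
  have hf'e : (f' : FractionRing S) = ev k S s' / ev k S (za a) ^ M := by
    rw [← hs']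
    field_simp
  ext y
  constructor
  · rintro ⟨n, m, N, s, hs⟩
    rw [hf'e, div_pow] at hs
    refine ⟨N + m, n, s * za a ^ (M * m) * za a ^ m * s' ^ N, ?_⟩
    have h1 : y = ev k S s * (ev k S (za a) ^ M) ^ m / (ev k S (za a) ^ N * ev k S z ^ n *
        ev k S s' ^ m) := by
      field_simp at hs ⊢
      linear_combination hs
    rw [h1]
    simp only [map_mul, map_pow]
    field_simp
    ring
  · rintro ⟨n, N, s, hs⟩
    refine ⟨N, n, M * n + n, s, ?_⟩
    have h1 : y = ev k S s / (ev k S z ^ N * (ev k S (za a) * ev k S s') ^ n) := by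
      rw [map_mul] at hs
      field_simp at hs ⊢
      linear_combination hs
    rw [h1, hf'e, div_pow, ← pow_mul, mul_pow, pow_add]
    field_simp

include hτ hτz hτa hl hN hsm hcov in
/-- The glued filtration is a regular weighted centre. -/
theorem GF_rwc [Algebra.Smooth k (Cz z0 : Subalgebra k (FractionRing S))] {p : ℕ} (hp : 0 < p)
    (hpk : (p : k) = 0) : RegularWeightedCentre k (GF z0 za za0 F) where
  zero := GF_zero hN
  anti a b h := GF_anti hN h
  mul a b := by
    rw [Ideal.mul_le]
    exact fun x hx y hy => GF_mul hN hx hy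
  coord P hP hP1 := by
    obtain ⟨a, ha⟩ := hcov P hP ((zI_le hτ hτz hτa hl hN).trans hP1)
    have hza : ev k S (za a) ≠ 0 := ev_ne (za0 a)
    have hzz : ev k S z ≠ 0 := ev_ne z0
    let C := (Cz z0 : Subalgebra k (FractionRing S))
    let A := (Cz (za0 a) : Subalgebra k (FractionRing S))
    let fa : C := ⟨ev k S (za a), ev_mem_Cz z0 (za a)⟩
    let E := locAt C (fa : FractionRing S) fa.2
    have hAE : A ≤ E := by
      intro x hx
      obtain ⟨n, s, hs⟩ := exists_ev ⟨x, hx⟩
      refine ⟨n, ?_⟩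
      change x * ev k S (za a) ^ n ∈ C
      rw [mul_comm]
      change ev k S (za a) ^ n * x = ev k S s at hs
      rw [hs]
      exact ev_mem_Cz z0 s
    let PE : Ideal E := P.map (Subalgebra.inclusion (le_locAt C _ fa.2) : C →+* E)
    have hPE : PE.IsPrime := by
      let _ : Algebra C E := (Subalgebra.inclusion (le_locAt C _ fa.2)).toRingHom.toAlgebra
      have hloc : IsLocalization (Submonoid.powers fa) E := locAt_isLocalization C _ fa.2 hza
      refine IsLocalization.isPrime_of_isPrime_disjoint (Submonoid.powers fa) E P hP ?_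
      rw [Set.disjoint_left]
      rintro _ ⟨n, rfl⟩ h
      exact ha (hP.mem_of_pow_mem _ h)
    let P' : Ideal A := PE.comap (Subalgebra.inclusion hAE : A →+* E)
    have hP' : P'.IsPrime := Ideal.comap_isPrime _ _
    have hFP' : F a 1 ≤ P' := by
      intro g hg
      obtain ⟨n, y, hy, hyg⟩ := GF_up (z0 := z0) hτ hτa hl hN hsm a _ _ hg
      exact (mem_map_locAt fa hza P (Subalgebra.inclusion hAE g)).2 ⟨n, y, hP1 hy, hyg⟩
    obtain ⟨f', n, x', w, hf', het, hmon⟩ := (hN a).centre.coord P' hP' hFP'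
    have hf'0 : (f' : FractionRing S) ≠ 0 := by
      intro h
      apply hf'
      have h1 : f' = 0 := Subtype.ext h
      rw [h1]
      exact Ideal.zero_mem _
    have hc1 := crd_of_away f' hf'0 het hmon
    have hzA : ev k S z ∈ locAt A (f' : FractionRing S) f'.2 :=
      le_locAt _ _ _ (ev_mem_Cz _ z)
    have hc2 := hc1.loc (ev k S z) hzA hzz
    obtain ⟨M, s', hs'⟩ := exists_ev f'
    have hs0 : ev k S s' ≠ 0 := by
      rw [← hs']
      exact mul_ne_zero (pow_ne_zero _ hza) hf'0
    let f : C := ⟨ev k S (za a * s'), ev_mem_Cz z0 _⟩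
    have hfe : (f : FractionRing S) = ev k S (za a) * ev k S s' := map_mul _ _ _
    have hf0 : (f : FractionRing S) ≠ 0 := by
      rw [hfe]
      exact mul_ne_zero hza hs0
    have hfP : f ∉ P := by
      intro h
      have h1 : fa * ⟨ev k S s', ev_mem_Cz z0 s'⟩ ∈ P := by
        have h2 : f = fa * ⟨ev k S s', ev_mem_Cz z0 s'⟩ := Subtype.ext hfe
        rwa [h2] at h
      rcases hP.mem_or_mem h1 with h2 | h2
      · exact ha h2
      · apply hf'
        exact (mem_map_locAt fa hza P (Subalgebra.inclusion hAE f')).2 ⟨M, _, h2, hs'.symm⟩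
    have hE : locAt (locAt A (f' : FractionRing S) f'.2) (ev k S z) hzA =
        locAt C (f : FractionRing S) f.2 := locAt_eq a f' hf'0 hs' hzA _
    have hAf : A ≤ locAt C (f : FractionRing S) f.2 := by
      rw [← hE]
      exact (le_locAt A _ f'.2).trans (le_locAt _ _ hzA)
    have hc3 := Crd.cast hE hAf hc2
    have hinvz : (ev k S z)⁻¹ ∈ locAt C (f : FractionRing S) f.2 := le_locAt _ _ _ inv_mem_Cz'
    have hinva : (ev k S (za a))⁻¹ ∈ locAt C (f : FractionRing S) f.2 := by
      refine ⟨1, ?_⟩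
      rw [pow_one, hfe, ← mul_assoc, inv_mul_cancel₀ hza, one_mul]
      exact ev_mem_Cz z0 s'
    have hmema : ev k S (za a) ∈ locAt C (f : FractionRing S) f.2 :=
      le_locAt _ _ _ (ev_mem_Cz z0 (za a))
    have hFG : ∀ d, (F a d).map (Subalgebra.inclusion hAf : A →+* locAt C (f : FractionRing S) f.2) =
        (GF z0 za za0 F d).map (Subalgebra.inclusion (le_locAt C (f : FractionRing S) f.2) :
          C →+* locAt C (f : FractionRing S) f.2) := by
      intro d
      apply le_antisymm
      · rw [Ideal.map_le_iff_le_comap]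
        intro g hg
        obtain ⟨n, y, hy, hyg⟩ := GF_up (z0 := z0) hτ hτa hl hN hsm a _ _ hg
        rw [Ideal.mem_comap]
        have h1 : (Subalgebra.inclusion hAf g : locAt C (f : FractionRing S) f.2) =
            ⟨(ev k S (za a))⁻¹, hinva⟩ ^ n * Subalgebra.inclusion (le_locAt C _ f.2) y := by
          apply Subtype.ext
          change (g : FractionRing S) = (ev k S (za a))⁻¹ ^ n * (y : FractionRing S)
          rw [hyg, ← mul_assoc, ← mul_pow, inv_mul_cancel₀ hza, one_pow, one_mul]
        change (Subalgebra.inclusion hAf g : locAt C (f : FractionRing S) f.2) ∈ _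
        rw [h1]
        exact Ideal.mul_mem_left _ _ (Ideal.mem_map_of_mem _ hy)
      · rw [Ideal.map_le_iff_le_comap]
        intro y hy
        obtain ⟨n, g, hg, hgy⟩ := hy a
        rw [Ideal.mem_comap]
        have h1 : (Subalgebra.inclusion (le_locAt C _ f.2) y : locAt C (f : FractionRing S) f.2) =
            ⟨(ev k S z)⁻¹, hinvz⟩ ^ n * Subalgebra.inclusion hAf g := by
          apply Subtype.ext
          change (y : FractionRing S) = (ev k S z)⁻¹ ^ n * (g : FractionRing S)
          rw [hgy, ← mul_assoc, ← mul_pow, inv_mul_cancel₀ hzz, one_pow, one_mul]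
        change (Subalgebra.inclusion (le_locAt C _ f.2) y : locAt C (f : FractionRing S) f.2) ∈ _
        rw [h1]
        exact Ideal.mul_mem_left _ _ (Ideal.mem_map_of_mem _ hg)
    choose Mi si hsi using fun i => exists_ev (x' i)
    have _ : Algebra.Smooth k (locAt C (f : FractionRing S) f.2) := smooth_locAt C _ f.2 hf0
    have hc4 := hc3.change (hC := le_locAt C _ f.2) hpk hFG (fun i => ev k S (za a) ^ Mi i)
      (fun i => pow_ne_zero _ hza) (fun i => Subalgebra.pow_mem _ hmema _)
      (fun i => by rw [← inv_pow]; exact Subalgebra.pow_mem _ hinva _)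
    have hx : ∀ i, (ev k S (za a) ^ Mi i) ^ p * (x' i : FractionRing S) =
        ev k S (za a ^ (Mi i * (p - 1)) * si i) := by
      intro i
      obtain ⟨q, rfl⟩ : ∃ q, p = q + 1 := ⟨p - 1, by omega⟩
      rw [map_mul, map_pow, ← hsi, Nat.add_sub_cancel, ← pow_mul, Nat.mul_succ, pow_add]
      ring
    have hc5 : Crd (le_locAt C (f : FractionRing S) f.2) (GF z0 za za0 F)
        (fun i => (((⟨ev k S (za a ^ (Mi i * (p - 1)) * si i), ev_mem_Cz z0 _⟩ : C)) :
          FractionRing S)) w := by
      have h1 : (fun i => (((⟨ev k S (za a ^ (Mi i * (p - 1)) * si i), ev_mem_Cz z0 _⟩ : C)) :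
          FractionRing S)) = fun i => (ev k S (za a) ^ Mi i) ^ p * (x' i : FractionRing S) :=
        funext fun i => (hx i).symm
      rw [h1]
      exact hc4
    obtain ⟨h1, h2⟩ := away_of_crd f hf0 hc5
    exact ⟨f, n, _, w, hfP, h1, h2⟩

end coord

end Pool.Agent.U197.GQ
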