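import Pool.Agent.U197.GQ.N14

/-!
Gluing of weighted centres on the charts of the punctured cone: homogeneity and compactness.
-/

set_option autoImplicit false
set_option linter.unusedSectionVars false

namespace Pool.Agent.U197.GQ

open AlgebraicGeometry CategoryTheory
open Pool.Agent.W559.Mg Pool.Agent.W559.Et Pool.Agent.H920R2 Pool.Agent.U197.SF
open Pool.Agent.H519R3.RS Pool.Agent.N98.PJ

section hom

variable {k S : Type} [Field k] [CommRing S] [IsDomain S] [Algebra k S] {𝒜 : ℕ → Submodule k S}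
  [GradedAlgebra 𝒜] {z : S} {D : ℕ} (hz : z ∈ 𝒜 D) {z0 : z ≠ 0} (hD : 0 < D)
  {ι : Type} {za : ι → S} {Da : ι → ℕ} (hza : ∀ a, za a ∈ 𝒜 (Da a)) {za0 : ∀ a, za a ≠ 0}
  (hDa : ∀ a, 0 < Da a)
  {F : ∀ a, ℕ → Ideal (Cz (za0 a) : Subalgebra k (FractionRing S))}

include hz hD hza hDa in
/-- The glued filtration is homogeneous. -/
theorem GF_hom (hH : ∀ a d, F a d = Ideal.span {y | y ∈ F a d ∧ ∃ m : ℤ, Hz 𝒜 (za a) (Da a) m y})
    (d : ℕ) : GF z0 za za0 F d =
      Ideal.span {y | y ∈ GF z0 za za0 F d ∧ ∃ m : ℤ, Hz 𝒜 z D m y} := by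
  classical
  have hzz : ev k S z ≠ 0 := ev_ne z0
  refine le_antisymm ?_ (Ideal.span_le.2 fun y hy => hy.1)
  intro y hy
  obtain ⟨f, hf⟩ : ∃ f : CR hz z0 hD, eC hz z0 hD f = y :=
    ⟨(eC hz z0 hD).symm y, AlgEquiv.apply_symm_apply _ _⟩
  have hfy : aug k (f : ML (FractionRing S) (ℤ × Unit)) = (y : FractionRing S) := by
    rw [← eC_coe, hf]
  have key : ∀ m : ℤ × Unit, (⟨(f : ML (FractionRing S) (ℤ × Unit)).coeff m,
      (f.2 m).mem_Cz z0⟩ : (Cz z0 : Subalgebra k (FractionRing S))) ∈ GF z0 za za0 F d := by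
    intro m a
    obtain ⟨n, g, hg, hgy⟩ := hy a
    choose N j hj s hs hx using f.2
    let n' : ℕ := n + ∑ m ∈ (f : ML (FractionRing S) (ℤ × Unit)).coeff.support, N m
    have hN : ∀ m ∈ (f : ML (FractionRing S) (ℤ × Unit)).coeff.support, N m ≤ n' := fun m hm =>
      (Finset.single_le_sum (f := N) (fun _ _ => Nat.zero_le _) hm).trans (Nat.le_add_left _ _)
    have hhom : ∀ m ∈ (f : ML (FractionRing S) (ℤ × Unit)).coeff.support,
        Hz 𝒜 (za a) (Da a) (m.1 + n' * D)
          (ev k S z ^ n' * (f : ML (FractionRing S) (ℤ × Unit)).coeff m) := by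
      intro m hm
      obtain ⟨e, he⟩ := Nat.exists_eq_add_of_le (hN m hm)
      have h1 : ev k S z ^ n' * (f : ML (FractionRing S) (ℤ × Unit)).coeff m =
          ev k S (s m * z ^ e) := by
        rw [hx m, he, pow_add, map_mul, map_pow]
        field_simp
      have h2 : s m * z ^ e ∈ 𝒜 (j m + e * D) :=
        SetLike.mul_mem_graded (hs m) (SetLike.pow_mem_graded e hz)
      have h3 : Hz 𝒜 (za a) (Da a) ((j m + e * D : ℕ) : ℤ) (ev k S (s m * z ^ e)) := Hz.of_mem h2
      have h4 : ((j m + e * D : ℕ) : ℤ) = m.1 + n' * D := by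
        rw [he]
        push_cast
        rw [hj m]
        ring
      rw [h4] at h3
      rw [h1]
      exact h3
    let f' : ML (FractionRing S) (ℤ × Unit) := mo ((n' * D : ℤ), ()) (ev k S z ^ n') *
      (f : ML (FractionRing S) (ℤ × Unit))
    have hcf : ∀ m : ℤ × Unit, f'.coeff ((m.1 + n' * D : ℤ), ()) = ev k S z ^ n' *
        (f : ML (FractionRing S) (ℤ × Unit)).coeff m := by
      intro m
      change (mo ((n' * D : ℤ), ()) (ev k S z ^ n') *
        (f : ML (FractionRing S) (ℤ × Unit))).coeff ((m.1 + n' * D : ℤ), ()) = _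
      rw [coeff_mo_mul]
      congr 2
      ext
      simp
    have hf' : f' ∈ CR (hza a) (za0 a) (hDa a) := by
      intro e
      have h1 := hcf (e - ((n' * D : ℤ), ()))
      have h2 : ((((e - ((n' * D : ℤ), ())).1 + n' * D : ℤ), ()) : ℤ × Unit) = e := by
        ext
        simp
      rw [h2] at h1
      rw [h1]
      by_cases hm : e - ((n' * D : ℤ), ()) ∈
          (f : ML (FractionRing S) (ℤ × Unit)).coeff.support
      · have h3 := hhom _ hm
        have h4 : ((e - ((n' * D : ℤ), ())).1 + n' * D : ℤ) = e.1 := by simp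
        rwa [h4] at h3
      · rw [Finsupp.notMem_support_iff.1 hm, mul_zero]
        exact Hz.zero (hDa a) _
    have haug : aug k f' = ev k S z ^ n' * (y : FractionRing S) := by
      rw [map_mul, aug_mo, hfy]
    obtain ⟨e, he⟩ := Nat.exists_eq_add_of_le
      (Nat.le_add_right n (∑ m ∈ (f : ML (FractionRing S) (ℤ × Unit)).coeff.support, N m))
    have he' : n' = n + e := he
    have hFR : (⟨f', hf'⟩ : CR (hza a) (za0 a) (hDa a)) ∈
        FR (hza a) (za0 a) (hDa a) (fun _ : Unit => F a) () d := by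
      rw [mem_FR]
      have h1 : eC (hza a) (za0 a) (hDa a) ⟨f', hf'⟩ =
          (⟨ev k S z, ev_mem_Cz _ z⟩ : (Cz (za0 a) : Subalgebra k (FractionRing S))) ^ e * g := by
        apply Subtype.ext
        rw [eC_coe]
        change aug k f' = ev k S z ^ e * (g : FractionRing S)
        rw [haug, hgy, he', pow_add]
        ring
      rw [h1]
      exact Ideal.mul_mem_left _ _ hg
    have h5 := hom_FR (hza a) (za0 a) (hDa a) (F := fun _ : Unit => F a) (σ := ()) (hH a d) hFR
      ((m.1 + n' * D : ℤ), ())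
    rw [mem_FR] at h5
    refine ⟨n', _, h5, ?_⟩
    rw [eC_coe]
    change aug k (mo _ (f'.coeff ((m.1 + n' * D : ℤ), ()))) = _
    rw [aug_mo, hcf]
  have h1 : y = ∑ m ∈ (f : ML (FractionRing S) (ℤ × Unit)).coeff.support,
      (⟨(f : ML (FractionRing S) (ℤ × Unit)).coeff m, (f.2 m).mem_Cz z0⟩ :
        (Cz z0 : Subalgebra k (FractionRing S))) := by
    apply Subtype.ext
    rw [AddSubmonoidClass.coe_finsetSum, ← hfy, aug_eq]
  rw [h1]
  exact Ideal.sum_mem _ fun m _ => Ideal.subset_span ⟨key m, m.1, f.2 m⟩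

end hom

end Pool.Agent.U197.GQ
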