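import Pool.Agent.U197.GQ.N15

/-!
Pointwise existence of weighted centres on the punctured cone, and quotients.
-/

set_option autoImplicit false
set_option linter.unusedSectionVars false

namespace Pool.Agent.U197.GQ

open AlgebraicGeometry CategoryTheory
open Pool.Agent.W559.Mg Pool.Agent.W559.Et Pool.Agent.H920R2 Pool.Agent.U197.SF
open Pool.Agent.H519R3.RS Pool.Agent.N98.PJ

section compact

variable {k S : Type} [Field k] [CommRing S] [IsDomain S] [Algebra k S] {𝒜 : ℕ → Submodule k S}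
  [GradedAlgebra 𝒜] {Γ : Type} [Group Γ] [Fintype Γ] (ρS : Γ →* (S ≃ₐ[k] S))
  (ρ : Γ →* (FractionRing S ≃ₐ[k] FractionRing S))
  (hρ : ∀ γ s, ρ γ (ev k S s) = ev k S (ρS γ s))
  (hgr : ∀ γ n, ∀ s ∈ 𝒜 n, ρS γ s ∈ 𝒜 n)
  {m : ℕ} (b : Fin (m + 1) → S) (hb : ∀ i, b i ∈ 𝒜 1) (hb0 : ∀ i, b i ≠ 0)
  (hbg : Algebra.adjoin k (Set.range b) = ⊤)

/-- A homogeneous nondegenerate weighted centre for `σ` on the chart of `z`. -/
def NiceC (𝒜 : ℕ → Submodule k S) [GradedAlgebra 𝒜] (σ : Γ) (z : S) : Prop :=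
  ∃ (D : ℕ) (_ : z ∈ 𝒜 D) (z0 : z ≠ 0) (l : ℕ)
    (F : ℕ → Ideal (Cz z0 : Subalgebra k (FractionRing S))),
      0 < D ∧ ρS σ z = z ∧ 0 < l ∧ HomC 𝒜 D z0 (ρ σ) l F

include hρ hgr hb hb0 hbg in
/-- Gluing of the local centres. -/
theorem glued (hX : AlgebraicGeometry.Smooth (str 𝒜)) {p : ℕ} (hp : 0 < p) (hpk : (p : k) = 0)
    (σ : Γ) (hpt : ∀ x : ProjectiveSpectrum 𝒜, σ ∈ InS ρS x.asHomogeneousIdeal.toIdeal →
      ∃ z, NiceC ρS ρ 𝒜 σ z ∧ z ∉ x.asHomogeneousIdeal)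
    {z : S} {D : ℕ} (hz : z ∈ 𝒜 D) (z0 : z ≠ 0) (hD : 0 < D) (hσz : ρS σ z = z) :
    ∃ l, 0 < l ∧ ∃ F, HomC 𝒜 D z0 (ρ σ) l F := by
  classical
  have hft : Algebra.FiniteType k S := by
    refine ⟨Finset.univ.image b, ?_⟩
    rw [Finset.coe_image, Finset.coe_univ, Set.image_univ]
    exact hbg
  have hnoe : IsNoetherianRing S := Algebra.FiniteType.isNoetherianRing k S
  let X : Set S := {y | NiceC ρS ρ 𝒜 σ y} ∪ {y | ∃ n, ∃ s ∈ 𝒜 n, y = ρS σ s - s}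
  have hcovX : ∀ x : ProjectiveSpectrum 𝒜, ∃ y ∈ X, y ∉ x.asHomogeneousIdeal := by
    intro x
    by_cases hx : σ ∈ InS ρS x.asHomogeneousIdeal.toIdeal
    · obtain ⟨y, hy, hyx⟩ := hpt x hx
      exact ⟨y, Or.inl hy, hyx⟩
    · by_contra hcon
      push Not at hcon
      apply hx
      intro s
      rw [← DirectSum.sum_support_decompose 𝒜 s, map_sum, ← Finset.sum_sub_distrib]
      exact Ideal.sum_mem _ fun i _ => hcon _ (Or.inr ⟨i, _, (DirectSum.decompose 𝒜 s i).2, rfl⟩)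
  obtain ⟨Y, hYX, hYcov⟩ := exists_finite_cover 𝒜 X hcovX
  let ι : Type := {y : Y // NiceC ρS ρ 𝒜 σ (y : S)}
  have hι : ∀ a : ι, NiceC ρS ρ 𝒜 σ ((a : Y) : S) := fun a => a.2
  choose Da hza za0 la Fa hDa hσa hla hHa using hι
  have _ : Fintype ι := Fintype.ofFinite ι
  let L : ℕ := ∏ a, la a
  have hL : 0 < L := Finset.prod_pos fun a _ => hla a
  have hF' : ∀ a, ∃ F', HomC 𝒜 (Da a) (za0 a) (ρ σ) L F' := fun a =>
    (hHa a).scale (Finset.dvd_prod_of_mem la (Finset.mem_univ a)) hL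
  choose F hF using hF'
  have hsmC : ∀ {z : S} {D : ℕ} (_ : z ∈ 𝒜 D) (z0 : z ≠ 0) (_ : 0 < D),
      Algebra.Smooth k (Cz z0 : Subalgebra k (FractionRing S)) := fun hz z0 hD =>
    smooth_Cz hz z0 hD b hb hb0 hbg hX
  have _ := hsmC hz z0 hD
  have hsm : ∀ a, Algebra.Smooth k (Cz (za0 a) : Subalgebra k (FractionRing S)) := fun a =>
    hsmC (hza a) (za0 a) (hDa a)
  have hN : ∀ a, NWC (Cz (za0 a) : Subalgebra k (FractionRing S)) (fun x => ρ σ x - x) L (F a) :=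
    fun a => (hF a).1
  have hτ : ∀ s, ρ σ (ev k S s) = ev k S ((fun s => ρS σ s) s) := fun s => hρ σ s
  have hcov : ∀ P : Ideal (Cz z0 : Subalgebra k (FractionRing S)), P.IsPrime →
      zI (Cz z0 : Subalgebra k (FractionRing S)) (fun x => ρ σ x - x) ≤ P →
      ∃ a : ι, (⟨ev k S ((a : Y) : S), ev_mem_Cz z0 _⟩ :
        (Cz z0 : Subalgebra k (FractionRing S))) ∉ P := by
    intro P hP hle
    let j : S →+* (Cz z0 : Subalgebra k (FractionRing S)) :=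
      (ev k S : S →+* FractionRing S).codRestrict (Cz z0 : Subalgebra k (FractionRing S)).toSubring
        fun s => ev_mem_Cz z0 s
    have hQ : (P.comap j).IsPrime := Ideal.comap_isPrime _ _
    let x : ProjectiveSpectrum 𝒜 := ⟨(P.comap j).homogeneousCore 𝒜, hQ.homogeneousCore, by
      intro hle
      have h1 : z ∈ HomogeneousIdeal.irrelevant 𝒜 := by
        rw [HomogeneousIdeal.mem_irrelevant_iff, GradedRing.proj_apply,
          DirectSum.decompose_of_mem_ne 𝒜 hz hD.ne']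
      have h2 : z ∈ P.comap j := (P.comap j).toIdeal_homogeneousCore_le 𝒜 (hle h1)
      have h3 := z_notMem hP 1
      rw [pow_one] at h3
      exact h3 h2⟩
    have hx : ∀ (n : ℕ) (s : S), s ∈ 𝒜 n → s ∉ x.asHomogeneousIdeal → j s ∉ P := by
      intro n s hs hsx h
      exact hsx (Ideal.mem_homogeneousCore_of_homogeneous_of_mem ⟨n, hs⟩ h)
    obtain ⟨y, hyY, hyx⟩ := hYcov x
    rcases hYX hyY with hy | ⟨n, s, hs, rfl⟩
    · exact ⟨⟨⟨y, hyY⟩, hy⟩, hx _ _ (hza ⟨⟨y, hyY⟩, hy⟩) hyx⟩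
    · refine absurd (hle ?_) (hx n _ (Submodule.sub_mem _ (hgr σ n s hs) hs) hyx)
      refine Ideal.subset_span ⟨j s, ?_⟩
      change ev k S (ρS σ s - s) = ρ σ (ev k S s) - ev k S s
      rw [map_sub, hρ]
  refine ⟨L, hL, GF z0 (fun a : ι => ((a : Y) : S)) za0 F,
    ⟨GF_rwc hτ hσz hσa hL hN hsm hcov hp hpk, ?_, GF_zeros hτ hσz hσa hN hcov, ?_⟩,
    GF_hom hz hD hza hDa fun a => (hF a).2⟩
  · intro d y hy y' h
    exact GF_raise hτ hσz hσa hN hy y' h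
  · intro d hd y hy
    exact GF_lead hτ hσz hσa hL hN hsm hcov d y hy hd

include hρ hb hb0 hbg hgr in
/-- **Smooth projective models of the quotients**, pointwise hypotheses. -/
theorem modelX [PerfectField k] {p : ℕ} (hp : p.Prime) (hpk : (p : k) = 0)
    (hX : AlgebraicGeometry.Smooth (str 𝒜))
    (hfX : ∀ γ, (∀ n, ∀ s ∈ 𝒜 n, ∀ t ∈ 𝒜 n, ρS γ s * t = s * ρS γ t) → γ = 1)
    (hin : ∀ x : ProjectiveSpectrum 𝒜, Nat.card (InS ρS x.asHomogeneousIdeal.toIdeal) = 1 ∨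
      Nat.card (InS ρS x.asHomogeneousIdeal.toIdeal) = p)
    (hpt : ∀ σ ∈ SP p Γ, ∀ x : ProjectiveSpectrum 𝒜,
      σ ∈ InS ρS x.asHomogeneousIdeal.toIdeal →
        ∃ z, NiceC ρS ρ 𝒜 σ z ∧ z ∉ x.asHomogeneousIdeal) :
    ∃ (I : Type) (_ : Finite I) (z : I → FractionRing S) (J : Set I),
      ModelG k (WS ρS ρ b 𝒜) (KfS ρ 𝒜).toSubfield z J :=
  modelS ρS ρ hρ hgr b hb hb0 hbg hp
    (fun t => smooth_Cz (zS_mem ρS hgr b hb t) (zS_ne ρS b t) (DD_pos Γ) b hb hb0 hbg hX)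
    hfX hin fun t σ hσ => glued ρS ρ hρ hgr b hb hb0 hbg hX hp.pos hpk σ (hpt σ hσ)
      (zS_mem ρS hgr b hb t) (zS_ne ρS b t) (DD_pos Γ) (zS_inv ρS ρ hρ b t σ)

end compact

end Pool.Agent.U197.GQ
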