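import Pool.Agent.U197.GQ.N16

/-!
Étale coordinates on the punctured cone from étale coordinates on the projective variety.
-/

set_option autoImplicit false
set_option linter.unusedSectionVars false

namespace Pool.Agent.U197.GQ

open AlgebraicGeometry CategoryTheory
open Pool.Agent.W559.Mg Pool.Agent.W559.Et Pool.Agent.H920R2 Pool.Agent.U197.SF
open Pool.Agent.H519R3.RS Pool.Agent.N98.PJ

open Polynomial in
/-- Étale ring homomorphisms and polynomial rings. -/
theorem et_poly {R T : Type} [CommRing R] [CommRing T] (f : R →+* T) (h : f.Etale) :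
    RingHom.Etale (R := Polynomial R) (S := Polynomial T) (Polynomial.mapRingHom f) := by
  let _ : Algebra R T := f.toAlgebra
  let _ : Algebra R[X] T[X] := Polynomial.algebra R T
  have _ : IsScalarTower R R[X] T[X] := IsScalarTower.of_algebraMap_eq fun r => by
    change _ = Polynomial.map f (Polynomial.C r)
    rw [Polynomial.map_C]
    rfl
  exact RingHom.Etale.isStableUnderBaseChange R T R[X] T[X] h

section torsor

variable {k S : Type} [Field k] [CommRing S] [IsDomain S] [Algebra k S] {𝒜 : ℕ → Submodule k S}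
  [GradedAlgebra 𝒜] {z : S} {D : ℕ} (hz : z ∈ 𝒜 D) (z0 : z ≠ 0) (hD : 0 < D)
  {u : FractionRing S}

include hD in
/-- The cone over a chart with a unit of degree one is étale over the affine line. -/
theorem torsor_etale (u0 : u ≠ 0) (hu : Hz 𝒜 z D 1 u) (hu' : Hz 𝒜 z D (-1) u⁻¹) :
    RingHom.Etale (R := Polynomial (ch 𝒜 z D hz z0)) (S := (Cz z0 : Subalgebra k (FractionRing S)))
      (Polynomial.eval₂RingHom (Subalgebra.inclusion (ch_le_Cz hz z0) :
        ch 𝒜 z D hz z0 →+* (Cz z0 : Subalgebra k (FractionRing S)))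
      (⟨u, hu.mem_Cz z0⟩ : (Cz z0 : Subalgebra k (FractionRing S)))) := by
  classical
  let B := ch 𝒜 z D hz z0
  let C := (Cz z0 : Subalgebra k (FractionRing S))
  let uC : C := ⟨u, hu.mem_Cz z0⟩
  let i : B →+* C := (Subalgebra.inclusion (ch_le_Cz hz z0) : B →+* C)
  let φ : Polynomial B →+* C := Polynomial.eval₂RingHom i uC
  let _ : Algebra (Polynomial B) C := φ.toAlgebra
  have hφ : ∀ P : Polynomial B, algebraMap (Polynomial B) C P = φ P := fun P => rfl
  have hφX : φ Polynomial.X = uC := Polynomial.eval₂_X i uC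
  have hval : ∀ P : Polynomial B, ((φ P : C) : FractionRing S) =
      ∑ j ∈ Finset.range (P.natDegree + 1), (P.coeff j : FractionRing S) * u ^ j := by
    intro P
    change ((Polynomial.eval₂ i uC P : C) : FractionRing S) = _
    rw [Polynomial.eval₂_eq_sum_range, AddSubmonoidClass.coe_finsetSum]
    exact Finset.sum_congr rfl fun j _ => rfl
  have hloc : IsLocalization.Away (Polynomial.X : Polynomial B) C := by
    refine IsLocalization.Away.mk _ ?_ ?_ ?_
    · rw [hφ, hφX]
      refine IsUnit.of_mul_eq_one ⟨u⁻¹, hu'.mem_Cz z0⟩ ?_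
      apply Subtype.ext
      exact mul_inv_cancel₀ u0
    · rintro ⟨y, hy⟩
      obtain ⟨f, hf, hfy⟩ := aug_surj hz z0 hD hy
      have hc : ∀ m : ℤ × Unit, f.coeff m * u ^ (-m.1) ∈ B := by
        intro m
        apply ch_of_Hz hz z0
        have h1 := (hf m).mul (Hz.zpow hu hu' (-m.1))
        rwa [add_neg_cancel] at h1
      let n : ℕ := ∑ m ∈ f.coeff.support, m.1.natAbs
      have hn : ∀ m ∈ f.coeff.support, 0 ≤ m.1 + n := by
        intro m hm
        have h1 : m.1.natAbs ≤ n :=
          Finset.single_le_sum (f := fun m : ℤ × Unit => m.1.natAbs)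
            (fun _ _ => Nat.zero_le _) hm
        omega
      refine ⟨n, ∑ m ∈ f.coeff.support, Polynomial.monomial (m.1 + n).toNat ⟨_, hc m⟩, ?_⟩
      rw [hφ, hφ, hφX, map_sum]
      apply Subtype.ext
      rw [AddSubmonoidClass.coe_finsetSum]
      change y * u ^ n = _
      have h1 : y = ∑ m ∈ f.coeff.support, f.coeff m := by rw [← hfy, aug_eq]
      rw [h1, Finset.sum_mul]
      refine Finset.sum_congr rfl fun m hm => ?_
      change _ = ((Polynomial.eval₂ i uC (Polynomial.monomial (m.1 + n).toNat
        (⟨_, hc m⟩ : B)) : C) : FractionRing S)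
      rw [Polynomial.eval₂_monomial]
      change _ = f.coeff m * u ^ (-m.1) * u ^ (m.1 + n).toNat
      have h2 : u ^ (m.1 + n).toNat = u ^ (m.1 + n) := by
        rw [← zpow_natCast, Int.toNat_of_nonneg (hn m hm)]
      rw [h2, mul_assoc, ← zpow_add₀ u0, ← zpow_natCast u n]
      congr 2
      ring
    · intro P Q hPQ
      refine ⟨0, ?_⟩
      rw [pow_zero, one_mul, one_mul]
      rw [← sub_eq_zero] at hPQ ⊢
      rw [← map_sub, hφ] at hPQ
      generalize P - Q = R at hPQ
      have h1 : ∑ j ∈ Finset.range (R.natDegree + 1), (R.coeff j : FractionRing S) * u ^ j = 0 := by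
        rw [← hval, hPQ]
        rfl
      let g : ML (FractionRing S) (ℤ × Unit) :=
        ∑ j ∈ Finset.range (R.natDegree + 1), mo ((j : ℤ), ()) ((R.coeff j : FractionRing S) * u ^ j)
      have hg : g ∈ CR hz z0 hD := by
        refine Subalgebra.sum_mem _ fun j _ => (mo_mem_CR hz z0 hD).2 ?_
        have h2 := (hz_ch hz z0 (R.coeff j).2).mul (hu.pow j)
        rwa [zero_add, mul_one] at h2
      have hg0 : g = 0 := by
        refine aug_inj hz z0 hD hg ?_
        rw [map_sum, ← h1]
        exact Finset.sum_congr rfl fun j _ => aug_mo k _ _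
      ext j
      by_cases hj : j ∈ Finset.range (R.natDegree + 1)
      · have h2 : g.coeff ((j : ℤ), ()) = (R.coeff j : FractionRing S) * u ^ j := by
          change (∑ j ∈ Finset.range (R.natDegree + 1),
            mo ((j : ℤ), ()) ((R.coeff j : FractionRing S) * u ^ j) :
              ML (FractionRing S) (ℤ × Unit)).coeff ((j : ℤ), ()) = _
          rw [coeff_sum', Finset.sum_eq_single_of_mem j hj]
          · exact coeff_mo_same _ _
          · intro j' _ hji
            rw [coeff_mo, if_neg]
            intro h3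
            apply hji
            have h4 : (j' : ℤ) = j := congrArg Prod.fst h3
            exact_mod_cast h4
        rw [hg0] at h2
        have h3 : (R.coeff j : FractionRing S) * u ^ j = 0 := h2.symm
        rcases mul_eq_zero.1 h3 with h4 | h4
        · rw [h4]
          rfl
        · exact absurd h4 (pow_ne_zero _ u0)
      · rw [Polynomial.coeff_eq_zero_of_natDegree_lt (by
          rw [Finset.mem_range] at hj
          omega)]
        rfl
  exact RingHom.etale_algebraMap.2 (Algebra.Etale.of_isLocalizationAway (Polynomial.X : Polynomial B))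

include hD in
/-- Étale coordinates on the cone. -/
theorem etC_cons (u0 : u ≠ 0) (hu : Hz 𝒜 z D 1 u) (hu' : Hz 𝒜 z D (-1) u⁻¹) {n : ℕ}
    {y : Fin n → FractionRing S} (hy : ∀ i, y i ∈ ch 𝒜 z D hz z0)
    (het : EtC (ch 𝒜 z D hz z0) y hy)
    (hx : ∀ i, (Fin.cons u y : Fin (n + 1) → FractionRing S) i ∈
      (Cz z0 : Subalgebra k (FractionRing S))) :
    EtC (Cz z0 : Subalgebra k (FractionRing S)) (Fin.cons u y : Fin (n + 1) → FractionRing S)
      hx := by
  let B := ch 𝒜 z D hz z0
  let C := (Cz z0 : Subalgebra k (FractionRing S))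
  let uC : C := ⟨u, hu.mem_Cz z0⟩
  let i : B →+* C := (Subalgebra.inclusion (ch_le_Cz hz z0) : B →+* C)
  let φ : Polynomial B →+* C := Polynomial.eval₂RingHom i uC
  let ψ : MvPolynomial (Fin n) k →+* B :=
    ((MvPolynomial.aeval (fun i => (⟨y i, hy i⟩ : B)) : MvPolynomial (Fin n) k →ₐ[k] B) :
      MvPolynomial (Fin n) k →+* B)
  let e : MvPolynomial (Fin (n + 1)) k →+* Polynomial (MvPolynomial (Fin n) k) :=
    ((MvPolynomial.finSuccEquiv k n : _ ≃ₐ[k] _) : _ →+* _)
  have h1 : e.Etale := RingHom.Etale.of_bijective (MvPolynomial.finSuccEquiv k n).bijective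
  have h2 : RingHom.Etale (R := Polynomial (MvPolynomial (Fin n) k)) (S := Polynomial B)
      (Polynomial.mapRingHom ψ) := et_poly ψ het
  have h3 : RingHom.Etale (R := Polynomial B) (S := C) φ := torsor_etale hz z0 hD u0 hu hu'
  have h4 := RingHom.Etale.stableUnderComposition _ _
    (RingHom.Etale.stableUnderComposition _ _ h1 h2) h3
  have h5 : φ.comp ((Polynomial.mapRingHom ψ).comp e) =
      ((MvPolynomial.aeval (fun i => (⟨(Fin.cons u y : Fin (n + 1) → FractionRing S) i, hx i⟩ :
        C)) : MvPolynomial (Fin (n + 1)) k →ₐ[k] C) : MvPolynomial (Fin (n + 1)) k →+* C) := by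
    apply MvPolynomial.ringHom_ext
    · intro r
      change φ (Polynomial.map ψ (MvPolynomial.finSuccEquiv k n (MvPolynomial.C r))) =
        MvPolynomial.aeval _ (MvPolynomial.C r)
      rw [MvPolynomial.aeval_C, ← MvPolynomial.algebraMap_eq, AlgEquiv.commutes]
      have h6 : algebraMap k (Polynomial (MvPolynomial (Fin n) k)) r =
          Polynomial.C (MvPolynomial.C r) := rfl
      rw [h6, Polynomial.map_C]
      change Polynomial.eval₂ i uC (Polynomial.C (ψ (MvPolynomial.C r))) = _
      rw [Polynomial.eval₂_C]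
      have h7 : ψ (MvPolynomial.C r) = algebraMap k B r := MvPolynomial.aeval_C _ _
      rw [h7]
      rfl
    · intro j
      change φ (Polynomial.map ψ (MvPolynomial.finSuccEquiv k n (MvPolynomial.X j))) =
        MvPolynomial.aeval _ (MvPolynomial.X j)
      rw [MvPolynomial.aeval_X]
      refine Fin.cases ?_ (fun j => ?_) j
      · rw [MvPolynomial.finSuccEquiv_X_zero, Polynomial.map_X]
        exact Polynomial.eval₂_X i uC
      · rw [MvPolynomial.finSuccEquiv_X_succ, Polynomial.map_C]
        change Polynomial.eval₂ i uC (Polynomial.C (ψ (MvPolynomial.X j))) = _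
        rw [Polynomial.eval₂_C]
        have h7 : ψ (MvPolynomial.X j) = ⟨y j, hy j⟩ := MvPolynomial.aeval_X _ _
        rw [h7]
        rfl
  unfold EtC
  rw [← h5]
  exact h4

end torsor

end Pool.Agent.U197.GQ
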