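import Pool.Agent.U197.GQ.N17

/-!
Weighted centres on the punctured cone from weighted coordinates in the local rings.
-/

set_option autoImplicit false
set_option linter.unusedSectionVars false

namespace Pool.Agent.U197.GQ

open AlgebraicGeometry CategoryTheory
open Pool.Agent.W559.Mg Pool.Agent.W559.Et Pool.Agent.H920R2 Pool.Agent.U197.SF
open Pool.Agent.H519R3.RS Pool.Agent.N98.PJ
open KaehlerDifferential TensorProduct

section spread

variable {k K : Type} [Field k] [Field K] [Algebra k K] {O : Subalgebra k K} {τ : K ≃ₐ[k] K}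
  {𝒞 : Subalgebra k K → Prop}
  (h𝒞 : ChartFam O τ 𝒞) {p : ℕ} (hp : 0 < p) (hτp : ∀ x, τ^[p] x = x)
  (hτO : ∀ x ∈ O, τ x ∈ O) {n : ℕ} {x : Fin n → K} {w : Fin n → ℕ} {l : ℕ}

include h𝒞 hp hτp hτO in
/-- **Spreading out.** -/
theorem spread2 [IsLocalRing O] (hx : ∀ i, x i ∈ O) (hxΩ : ∃ b : Module.Basis (Fin n) O (Ω[O⁄k]),
    ∀ i, b i = D k O ⟨x i, hx i⟩) (h : NDk x w (fun y => τ y - y) l O) {c : K}
    (hc : c ∈ Fk x w O l) :
    ∃ R, 𝒞 R ∧ ∃ hx' : ∀ i, x i ∈ R, EtC R x hx' ∧ NDk x w (fun y => τ y - y) l R ∧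
      c ∈ Fk x w R l := by
  classical
  obtain ⟨R', hR'⟩ := h𝒞.nonempty
  -- the coordinates are defined on the neighbourhood
  obtain ⟨R0, hR0, hx0⟩ : ∃ R, 𝒞 R ∧ ∀ i, x i ∈ R := by
    obtain ⟨g, hg, hτ, hg0, hgO, hgE⟩ := exists_enlarge h𝒞 hp hτp hτO hR' (Finset.univ.image x)
      (fun e he => by
        obtain ⟨i, -, rfl⟩ := Finset.mem_image.1 he
        exact hx i)
    exact ⟨_, h𝒞.loc R' hR' g hg hτ hg0 hgO, fun i =>
      hgE _ (Finset.mem_image_of_mem x (Finset.mem_univ i))⟩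
  -- étale coordinates
  obtain ⟨R1, hR1, hx1, het1⟩ : ∃ R, 𝒞 R ∧ ∃ hx1 : ∀ i, x i ∈ R, EtC R x hx1 := by
    let _ : Algebra R0 O := (Subalgebra.inclusion (h𝒞.le R0 hR0)).toRingHom.toAlgebra
    have _ : IsScalarTower k R0 O := IsScalarTower.of_algebraMap_eq fun r => rfl
    have _ := h𝒞.sm R0 hR0
    let P : Ideal R0 := (IsLocalRing.maximalIdeal O).comap (algebraMap R0 O)
    have hP : ∀ (g : K) (hg : g ∈ R0), (⟨g, hg⟩ : R0) ∉ P ↔ g ≠ 0 ∧ g⁻¹ ∈ O := by
      intro g hg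
      rw [Ideal.mem_comap, IsLocalRing.mem_maximalIdeal, mem_nonunits_iff, not_not]
      constructor
      · intro hu
        obtain ⟨y, hy⟩ := hu.exists_right_inv
        have h1 : g * (y : K) = 1 := congrArg Subtype.val hy
        have h2 : g ≠ 0 := left_ne_zero_of_mul_eq_one h1
        refine ⟨h2, ?_⟩
        rw [inv_eq_of_mul_eq_one_right h1]
        exact y.2
      · rintro ⟨h1, h2⟩
        exact IsUnit.of_mul_eq_one ⟨g⁻¹, h2⟩ (Subtype.ext (mul_inv_cancel₀ h1))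
    have hloc : IsLocalization.AtPrime O P := by
      refine ⟨?_, ?_, ?_⟩
      · rintro ⟨⟨g, hg⟩, hgP⟩
        obtain ⟨h1, h2⟩ := (hP g hg).1 hgP
        exact IsUnit.of_mul_eq_one ⟨g⁻¹, h2⟩ (Subtype.ext (mul_inv_cancel₀ h1))
      · intro y
        obtain ⟨g, hg, hg0, hgO, hyg⟩ := h𝒞.frac R0 hR0 y y.2
        exact ⟨⟨⟨y * g, hyg⟩, ⟨g, hg⟩, (hP g hg).2 ⟨hg0, hgO⟩⟩, Subtype.ext rfl⟩
      · intro a b hab
        refine ⟨1, ?_⟩
        have h3 : (a : K) = b := congrArg (fun z : O => (z : K)) hab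
        rw [Subtype.ext h3]
    obtain ⟨b, hb⟩ := hxΩ
    obtain ⟨⟨g, hg⟩, hgP, het⟩ := exists_etale' (fun i => (⟨x i, hx0 i⟩ : R0)) P b hb
    obtain ⟨hg0, hgO⟩ := (hP g hg).1 hgP
    obtain ⟨g', hg', hτ, h0, hinv⟩ := exists_norm hp hτp hτO (h𝒞.st R0 hR0) g hg hg0 hgO
    have h1 := etale_mul _ _ (⟨g', hg'⟩ : R0) het
    exact ⟨_, h𝒞.loc R0 hR0 (g * g') (R0.mul_mem hg hg') hτ h0 hinv,
      fun i => le_locAt _ _ _ (hx0 i), etC_of_away hx0 (g * g') (R0.mul_mem hg hg') h0 h1⟩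
  -- the generators
  have _ := h𝒞.sm R1 hR1
  have hft : Algebra.FiniteType k R1 := inferInstance
  obtain ⟨T, hT⟩ := hft.1
  have hFC := (fc_ndk h (T.image Subtype.val) (fun b hb => by
    obtain ⟨b, -, rfl⟩ := Finset.mem_image.1 hb
    exact h𝒞.le R1 hR1 b.2)).and
    (FC.span (O := O) (Q := fun R : Subalgebra k K => ∀ i, x i ∈ R) (fun _ => MS x w l)
      (fun t ht => FC.triv fun _ _ => ht) hc)
  obtain ⟨E, hE, hER⟩ := hFC
  obtain ⟨g, hg, hτ, hg0, hgO, hgE⟩ := exists_enlarge h𝒞 hp hτp hτO hR1 E hE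
  have hR2 := h𝒞.loc R1 hR1 g hg hτ hg0 hgO
  have hx2 : ∀ i, x i ∈ locAt R1 g hg := fun i => le_locAt _ _ _ (hx1 i)
  obtain ⟨⟨hT2, hc2, hz2, hl2⟩, hcl⟩ := hER _ hx2 hgE
  have hmul : ∀ a b : K, τ (a * b) - a * b = a * (τ b - b) + b * (τ a - a) +
      (1 : k) • ((τ a - a) * (τ b - b)) := by
    intro a b
    rw [map_mul, one_smul]
    ring
  have ho1 : ∀ a ∈ R1, τ a - a ∈ Fk x w (locAt R1 g hg) l := by
    have h1 : ∀ a : R1, τ (a : K) - a ∈ Fk x w (locAt R1 g hg) l := by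
      intro a
      have ha : a ∈ Algebra.adjoin k (T : Set R1) := by rw [hT]; trivial
      induction ha using Algebra.adjoin_induction with
      | mem b hb => exact hT2 b (Finset.mem_image_of_mem _ hb)
      | algebraMap r =>
        have h2 : τ ((algebraMap k R1 r : R1) : K) = ((algebraMap k R1 r : R1) : K) := τ.commutes r
        rw [h2, sub_self]
        exact Submodule.zero_mem _
      | add a b _ _ ha hb =>
        have h2 : τ ((a + b : R1) : K) - ((a + b : R1) : K) = (τ (a : K) - a) + (τ (b : K) - b) := by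
          rw [Subalgebra.coe_add, map_add]
          ring
        rw [h2]
        exact Submodule.add_mem _ ha hb
      | mul a b _ _ ha hb =>
        rw [Subalgebra.coe_mul, hmul, one_smul]
        have hle := le_locAt R1 g hg
        refine Submodule.add_mem _ (Submodule.add_mem _ ?_ ?_) ?_
        · exact Submodule.smul_mem _ (⟨a, hle a.2⟩ : locAt R1 g hg) hb
        · exact Submodule.smul_mem _ (⟨b, hle b.2⟩ : locAt R1 g hg) ha
        · exact Submodule.smul_mem _ (⟨τ (a : K) - a, hle (R1.sub_mem (h𝒞.st R1 hR1 a a.2) a.2)⟩ :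
            locAt R1 g hg) hb
    exact fun a ha => h1 ⟨a, ha⟩
  have ho2 : ∀ a ∈ locAt R1 g hg, τ a - a ∈ Fk x w (locAt R1 g hg) l := by
    rintro a ⟨m, hm⟩
    have h1 := ho1 _ hm
    have h2 : τ (a * g ^ m) - a * g ^ m = g ^ m * (τ a - a) := by
      rw [map_mul, map_pow, hτ]
      ring
    rw [h2] at h1
    have h3 : τ a - a = (g⁻¹) ^ m * (g ^ m * (τ a - a)) := by
      rw [← mul_assoc, ← mul_pow, inv_mul_cancel₀ hg0, one_pow, one_mul]
    rw [h3]
    exact Submodule.smul_mem _ (⟨(g⁻¹) ^ m, Subalgebra.pow_mem _ (inv_mem_locAt R1 g hg hg0) m⟩ :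
      locAt R1 g hg) h1
  exact ⟨_, hR2, hx2, EtC.locAt het1 g hg hg0, ⟨ho2, hc2, hz2, hl2⟩, hcl⟩

end spread

section ndk

variable {k K : Type} [Field k] [Field K] [Algebra k K] {R C : Subalgebra k K} (hle : R ≤ C)
  {n : ℕ} {y : Fin n → K} {w : Fin n → ℕ} {u : K} {l : ℕ}

include hle in
lemma span_up {T T' : Set K} (hT : T ⊆ T') {v : K} (hv : v ∈ Submodule.span R T) :
    v ∈ Submodule.span C T' := by
  induction hv using Submodule.span_induction with
  | mem v hv => exact Submodule.subset_span (hT hv)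
  | zero => exact Submodule.zero_mem _
  | add v v' _ _ h h' => exact Submodule.add_mem _ h h'
  | smul r v _ h => exact Submodule.smul_mem _ (⟨r, hle r.2⟩ : C) h

include hle in
lemma Fk_up {d : ℕ} {v : K} (hv : v ∈ Fk y w R d) :
    v ∈ Fk (Fin.cons u y : Fin (n + 1) → K) (Fin.cons 0 w : Fin (n + 1) → ℕ) C d := by
  refine span_up hle ?_ hv
  rintro t ⟨α, hα, rfl⟩
  refine ⟨Fin.cons 0 α, ?_, ?_⟩
  · rw [Fin.sum_univ_succ]
    simpa using hα
  · rw [Fin.prod_univ_succ]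
    simp

variable {τ : K ≃ₐ[k] K}

include hle in
/-- The nondegeneracy conditions on the cone. -/
theorem ndk_cons (h : NDk y w (fun x => τ x - x) l R)
    (ho : ∀ a ∈ C, τ a - a ∈ Fk (Fin.cons u y : Fin (n + 1) → K)
      (Fin.cons 0 w : Fin (n + 1) → ℕ) C l) (hu : u ∈ C) :
    NDk (Fin.cons u y : Fin (n + 1) → K) (Fin.cons 0 w : Fin (n + 1) → ℕ)
      (fun x => τ x - x) l C where
  order := ho
  order_coord := by
    intro i
    refine Fin.cases ?_ (fun j => ?_) i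
    · have h1 := ho u hu
      simpa using h1
    · have h1 := Fk_up (C := C) hle (u := u) (h.order_coord j)
      simpa using h1
  zeros := by
    intro i
    refine Fin.cases ?_ (fun j => ?_) i
    · intro h1
      simp at h1
    · intro hj
      have hj' : 0 < w j := by simpa using hj
      obtain ⟨M, hM⟩ := h.zeros j hj'
      refine ⟨M, ?_⟩
      have h1 : y j ^ M ∈ Zk (fun x => τ x - x) C := by
        refine span_up hle ?_ hM
        rintro t ⟨b, hb, rfl⟩
        exact ⟨b, hle hb, rfl⟩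
      simpa using h1
  lead := by
    intro i
    refine Fin.cases ?_ (fun j => ?_) i
    · intro h1
      simp at h1
    · intro hj
      have hj' : 0 < w j := by simpa using hj
      obtain ⟨N, hN⟩ := h.lead j hj'
      refine ⟨N, ?_⟩
      have h1 : y j ^ N ∈ Submodule.span C (LS (Fin.cons u y : Fin (n + 1) → K)
          (Fin.cons 0 w : Fin (n + 1) → ℕ) (fun x => τ x - x) l C (N * w j)) := by
        refine span_up hle ?_ hN
        rintro t (ht | ⟨e, c, hc, b, hb, rfl⟩)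
        · exact Or.inl (Fk_up hle ht)
        · exact Or.inr ⟨e, c, Fk_up hle hc, b, Fk_up hle hb, rfl⟩
      simpa using h1

end ndk

end Pool.Agent.U197.GQ
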