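import Pool.Agent.U197.GQ.N18

/-!
Weighted centres on the punctured cone from weighted coordinates in the local rings: charts.
-/

set_option autoImplicit false
set_option linter.unusedSectionVars false

namespace Pool.Agent.U197.GQ

open AlgebraicGeometry CategoryTheory
open Pool.Agent.W559.Mg Pool.Agent.W559.Et Pool.Agent.H920R2 Pool.Agent.U197.SF
open Pool.Agent.H519R3.RS Pool.Agent.N98.PJ
open KaehlerDifferential TensorProduct

section order

variable {k S : Type} [Field k] [CommRing S] [IsDomain S] [Algebra k S] {𝒜 : ℕ → Submodule k S}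
  [GradedAlgebra 𝒜] {z : S} {D : ℕ} (hz : z ∈ 𝒜 D) (z0 : z ≠ 0) (hD : 0 < D)
  {u : FractionRing S} {n : ℕ} {y : Fin n → FractionRing S} {w : Fin n → ℕ} {l : ℕ}
  {τ : FractionRing S ≃ₐ[k] FractionRing S}

include hz hD in
/-- The order on the cone. -/
theorem order_Cz (u0 : u ≠ 0) (hu : Hz 𝒜 z D 1 u) (hu' : Hz 𝒜 z D (-1) u⁻¹)
    (hst : ∀ x ∈ (Cz z0 : Subalgebra k (FractionRing S)),
      τ x ∈ (Cz z0 : Subalgebra k (FractionRing S)))
    (h : ∀ a ∈ ch 𝒜 z D hz z0, τ a - a ∈ Fk y w (ch 𝒜 z D hz z0) l)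
    (hc : (τ u - u) / u ∈ Fk y w (ch 𝒜 z D hz z0) l) :
    ∀ a ∈ (Cz z0 : Subalgebra k (FractionRing S)), τ a - a ∈
      Fk (Fin.cons u y : Fin (n + 1) → FractionRing S) (Fin.cons 0 w : Fin (n + 1) → ℕ)
        (Cz z0 : Subalgebra k (FractionRing S)) l := by
  classical
  let C := (Cz z0 : Subalgebra k (FractionRing S))
  let M : Submodule C (FractionRing S) :=
    Fk (Fin.cons u y : Fin (n + 1) → FractionRing S) (Fin.cons 0 w : Fin (n + 1) → ℕ) C l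
  have hle := ch_le_Cz hz z0
  have huC : u ∈ C := hu.mem_Cz z0
  have huC' : u⁻¹ ∈ C := hu'.mem_Cz z0
  have hc' : (τ u - u) / u ∈ M := Fk_up hle hc
  have hτu : τ u ≠ 0 := fun h => u0 ((map_eq_zero_iff τ τ.injective).1 h)
  have hmul : ∀ a b, a ∈ C → b ∈ C → τ a - a ∈ M → τ b - b ∈ M → τ (a * b) - a * b ∈ M := by
    intro a b ha hb hma hmb
    have h1 : τ (a * b) - a * b = a * (τ b - b) + (τ b) * (τ a - a) := by
      rw [map_mul]
      ring
    rw [h1]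
    exact Submodule.add_mem _ (Submodule.smul_mem _ (⟨a, ha⟩ : C) hmb)
      (Submodule.smul_mem _ (⟨τ b, hst b hb⟩ : C) hma)
  have h1 : τ u - u ∈ M := by
    have h2 : τ u - u = u * ((τ u - u) / u) := by field_simp
    rw [h2]
    exact Submodule.smul_mem _ (⟨u, huC⟩ : C) hc'
  have h1' : τ u⁻¹ - u⁻¹ ∈ M := by
    have h2 : τ u⁻¹ - u⁻¹ = (-(τ u⁻¹)) * ((τ u - u) / u) := by
      rw [map_inv₀]
      field_simp
      ring
    rw [h2]
    exact Submodule.smul_mem _ (⟨-(τ u⁻¹), C.neg_mem (hst _ huC')⟩ : C) hc'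
  have hpow : ∀ (v : FractionRing S), v ∈ C → τ v - v ∈ M → ∀ j : ℕ, τ (v ^ j) - v ^ j ∈ M := by
    intro v hv hm j
    induction j with
    | zero => rw [pow_zero, map_one, sub_self]; exact Submodule.zero_mem _
    | succ j ih => rw [pow_succ]; exact hmul _ _ (C.pow_mem hv j) hv ih hm
  have hzpow : ∀ j : ℤ, u ^ j ∈ C ∧ τ (u ^ j) - u ^ j ∈ M := by
    intro j
    obtain ⟨i, rfl | rfl⟩ := j.eq_nat_or_neg
    · rw [zpow_natCast]
      exact ⟨C.pow_mem huC i, hpow u huC h1 i⟩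
    · rw [zpow_neg, zpow_natCast, ← inv_pow]
      exact ⟨C.pow_mem huC' i, hpow _ huC' h1' i⟩
  intro a ha
  obtain ⟨f, hf, hfa⟩ := aug_surj hz z0 hD ha
  have h2 : ∀ m : ℤ × Unit, τ (f.coeff m) - f.coeff m ∈ M := by
    intro m
    have h3 : f.coeff m * u ^ (-m.1) ∈ ch 𝒜 z D hz z0 := by
      apply ch_of_Hz hz z0
      have h4 := (hf m).mul (Hz.zpow hu hu' (-m.1))
      rwa [add_neg_cancel] at h4
    have h4 : f.coeff m = (f.coeff m * u ^ (-m.1)) * u ^ m.1 := by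
      rw [mul_assoc, ← zpow_add₀ u0, neg_add_cancel, zpow_zero, mul_one]
    rw [h4]
    exact hmul _ _ (hle h3) (hzpow m.1).1 (Fk_up hle (h _ h3)) (hzpow m.1).2
  rw [← hfa, aug_eq, map_sum, ← Finset.sum_sub_distrib]
  exact Submodule.sum_mem _ fun m _ => h2 m

/-- The monomial filtration in homogeneous coordinates is homogeneous. -/
lemma mono_hom {N : ℕ} (x : Fin N → (Cz z0 : Subalgebra k (FractionRing S))) (W : Fin N → ℕ)
    (hx : ∀ i, ∃ m : ℤ, Hz 𝒜 z D m (x i)) (d : ℕ) :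
    monoF x W d = Ideal.span {v | v ∈ monoF x W d ∧ ∃ m : ℤ, Hz 𝒜 z D m v} := by
  refine le_antisymm ?_ (Ideal.span_le.2 fun y hy => hy.1)
  conv_lhs => unfold monoF
  rw [Ideal.span_le]
  rintro v ⟨α, hα, rfl⟩
  refine Ideal.subset_span ⟨mono_mem x W α hα, ?_⟩
  have h1 : ∀ A : Finset (Fin N), ∃ m : ℤ, Hz 𝒜 z D m ((∏ i ∈ A, x i ^ α i :
      (Cz z0 : Subalgebra k (FractionRing S))) : FractionRing S) := by
    classical
    intro A
    induction A using Finset.induction_on with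
    | empty =>
      refine ⟨((0 : ℕ) : ℤ), ?_⟩
      rw [Finset.prod_empty]
      have h2 : Hz 𝒜 z D ((0 : ℕ) : ℤ) (ev k S 1) := Hz.of_mem (SetLike.one_mem_graded 𝒜)
      rwa [map_one] at h2
    | insert i A hi ih =>
      obtain ⟨m, hm⟩ := ih
      obtain ⟨e, he⟩ := hx i
      refine ⟨α i * e + m, ?_⟩
      rw [Finset.prod_insert hi]
      exact (he.pow (α i)).mul hm
  exact h1 Finset.univ

end order

section points

variable {k S : Type} [Field k] [CommRing S] [IsDomain S] [Algebra k S] (𝒜 : ℕ → Submodule k S)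
  [GradedAlgebra 𝒜] {p : ℕ} [hp : Fact p.Prime] (σ : S ≃ₐ[k] S)
  (hσh : ∀ n, ∀ s ∈ 𝒜 n, σ s ∈ 𝒜 n) (hσp : ∀ s, σ^[p] s = s) (t : S)
  (x : ProjectiveSpectrum 𝒜)

/-- The invariant charts around the point on which `t` is invertible. -/
def InvChU (R : Subalgebra k (FractionRing S)) : Prop :=
  ∃ (e : ℕ) (q : S) (z : S) (_ : q ∈ 𝒜 e) (hz : z ∈ 𝒜 (e + 1)) (z0 : z ≠ 0), z = t * q ∧
    σ z = z ∧ z ∉ x.asHomogeneousIdeal ∧ R = ch 𝒜 z (e + 1) hz z0

variable {𝒜 σ t x}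

lemma InvChU.inv {R : Subalgebra k (FractionRing S)} (h : InvChU 𝒜 σ t x R) :
    InvCh 𝒜 σ x R := by
  obtain ⟨e, q, z, hq, hz, z0, -, hσz, hzx, hR⟩ := h
  exact ⟨e + 1, z, hz, z0, Nat.succ_pos e, hσz, hzx, hR⟩

lemma InvChU.loc {R : Subalgebra k (FractionRing S)} (hR : InvChU 𝒜 σ t x R) (g : FractionRing S)
    (hg : g ∈ R) (hτ : tauS σ g = g) (hg0 : g ≠ 0) (hgO : g⁻¹ ∈ lrx 𝒜 x) :
    InvChU 𝒜 σ t x (locAt R g hg) := by
  obtain ⟨e, q, z, hq, hz, z0, hzt, hσz, hzx, rfl⟩ := hR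
  have hg' := hg
  obtain ⟨i, s, hs, rfl⟩ := hg'
  have hz1 := ev_ne (k := k) z0
  have hs0 : s ≠ 0 := by
    rintro rfl
    rw [map_zero, zero_div] at hg0
    exact hg0 rfl
  have hσs : σ s = s := by
    rw [map_div₀, map_pow, tauS_ev, tauS_ev, hσz, div_left_inj' (pow_ne_zero i hz1)] at hτ
    exact ev_inj (k := k) hτ
  have hzi : z ^ i ∈ 𝒜 (i * (e + 1)) := SetLike.pow_mem_graded i hz
  have hsx : s ∉ x.asHomogeneousIdeal := by
    refine (inv_mem_iff 𝒜 x hs hzi (pow_notMem 𝒜 x hzx i) hs0).1 ?_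
    rwa [map_pow]
  have hz' : z * s ∈ 𝒜 (e + 1 + i * (e + 1)) := SetLike.mul_mem_graded hz hs
  have hq' : q * s ∈ 𝒜 (e + i * (e + 1)) := SetLike.mul_mem_graded hq hs
  have hdeg : e + 1 + i * (e + 1) = e + i * (e + 1) + 1 := by ring
  have hz'' : z * s ∈ 𝒜 (e + i * (e + 1) + 1) := hdeg ▸ hz'
  refine ⟨e + i * (e + 1), q * s, z * s, hq', hz'', mul_ne_zero z0 hs0, ?_,
    by rw [map_mul, hσz, hσs], mul_notMem 𝒜 x hzx hsx, ?_⟩
  · rw [hzt]
    ring
  · rw [locAt_ch 𝒜 z hz z0 i s hs hs0 hg hz']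
    congr 1

include hσh hσp in
/-- The invariant charts around a fixed point. -/
theorem chartFamU (hX : AlgebraicGeometry.Smooth (str 𝒜)) (hx : FixedPt 𝒜 σ x) (ht : t ∈ 𝒜 1)
    (htx : t ∉ x.asHomogeneousIdeal) :
    ChartFam (lrx 𝒜 x) (tauS σ) (InvChU 𝒜 σ t x) where
  le := by
    rintro R ⟨e, q, z, hq, hz, z0, -, hσz, hzx, rfl⟩
    exact ch_le_lrx 𝒜 x z hz z0 hzx
  sm := by
    rintro R ⟨e, q, z, hq, hz, z0, -, hσz, hzx, rfl⟩
    exact smooth_ch 𝒜 hX (Nat.succ_pos e) z hz z0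
  st := by
    rintro R ⟨e, q, z, hq, hz, z0, -, hσz, hzx, rfl⟩ _ ⟨i, s, hs, rfl⟩
    refine ⟨i, σ s, hσh _ _ hs, ?_⟩
    rw [map_div₀, map_pow, tauS_ev, tauS_ev, hσz]
  loc R hR g hg hτ hg0 hgO := hR.loc g hg hτ hg0 hgO
  frac R hR y hy := hR.inv.frac 𝒜 σ y hy
  nonempty := by
    have ht0 : t ≠ 0 := ne_zero_of_notMem 𝒜 x htx
    have h1 : ∀ j, σ^[j] t ∉ x.asHomogeneousIdeal := by
      intro j
      induction j with
      | zero => exact htx
      | succ j ih =>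
        rw [Function.iterate_succ_apply']
        have h2 := iter_mem 𝒜 σ hσh j 1 _ ht
        exact (hx 1 _ h2 _ h2 ih).1
    obtain ⟨r, hr⟩ : ∃ r, p = r + 1 := ⟨p - 1, by have := hp.out.pos; omega⟩
    have h2 : nrm σ p t ∈ 𝒜 (r + 1) := by
      unfold H920R2.nrm
      have h3 := SetLike.prod_mem_graded 𝒜 (fun _ => 1)
        (fun j => σ^[j] t) (F := Finset.range p) (fun j _ => iter_mem 𝒜 σ hσh j 1 _ ht)
      rw [Finset.sum_const, Finset.card_range, smul_eq_mul, mul_one] at h3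
      rw [← hr]
      exact h3
    have h3 : (∏ j ∈ Finset.range r, σ^[j + 1] t) ∈ 𝒜 r := by
      have h3 := SetLike.prod_mem_graded 𝒜 (fun _ => 1)
        (fun j => σ^[j + 1] t) (F := Finset.range r) (fun j _ => iter_mem 𝒜 σ hσh (j + 1) 1 _ ht)
      rwa [Finset.sum_const, Finset.card_range, smul_eq_mul, mul_one] at h3
    refine ⟨_, r, _, nrm σ p t, h3, h2, ?_, ?_, map_nrm σ p hσp _, ?_, rfl⟩
    · unfold H920R2.nrm
      exact Finset.prod_ne_zero_iff.2 fun j _ => iter_ne σ j _ ht0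
    · unfold H920R2.nrm
      rw [hr, Finset.prod_range_succ']
      exact mul_comm _ _
    · unfold H920R2.nrm
      intro hcon
      obtain ⟨j, -, hj⟩ := (Ideal.IsPrime.prod_mem_iff (hp := x.isPrime)).1 hcon
      exact h1 j hj

end points

end Pool.Agent.U197.GQ
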