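import Pool.Agent.U197.GQ.N19

/-!
Quotients of projective varieties: conditions at the closed points.
-/

set_option autoImplicit false
set_option linter.unusedSectionVars false

namespace Pool.Agent.U197.GQ

open AlgebraicGeometry CategoryTheory
open Pool.Agent.W559.Mg Pool.Agent.W559.Et Pool.Agent.H920R2 Pool.Agent.U197.SF
open Pool.Agent.H519R3.RS Pool.Agent.N98.PJ
open KaehlerDifferential TensorProduct

section action

variable {k S : Type} [Field k] [CommRing S] [IsDomain S] [Algebra k S] {Γ : Type} [Group Γ]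
  (ρS : Γ →* (S ≃ₐ[k] S))

/-- The action on the field of fractions. -/
noncomputable def rhoF : Γ →* (FractionRing S ≃ₐ[k] FractionRing S) :=
  (IsFractionRing.fieldEquivOfAlgEquivHom k (FractionRing S)).comp ρS

lemma rhoF_eq (γ : Γ) : rhoF ρS γ = tauS (ρS γ) := rfl

lemma rhoF_ev (γ : Γ) (s : S) : rhoF ρS γ (ev k S s) = ev k S (ρS γ s) := by
  rw [rhoF_eq, tauS_ev]

lemma iter_rho (σ : Γ) (j : ℕ) (s : S) : (ρS σ)^[j] s = ρS (σ ^ j) s := by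
  induction j generalizing s with
  | zero =>
    rw [pow_zero, map_one]
    rfl
  | succ j ih =>
    rw [Function.iterate_succ_apply, ih, pow_succ, map_mul]
    rfl

variable {𝒜 : ℕ → Submodule k S} [GradedAlgebra 𝒜]

/-- The elements of the inertia group fix the point. -/
lemma fixed_of_InS {σ : Γ} {x : ProjectiveSpectrum 𝒜}
    (h : σ ∈ InS ρS x.asHomogeneousIdeal.toIdeal) : FixedPt 𝒜 (ρS σ) x := by
  intro n s hs t ht htx
  have h1 : ∀ s, ρS σ s - s ∈ x.asHomogeneousIdeal.toIdeal := h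
  refine ⟨fun h2 => htx ?_, ?_⟩
  · have h3 := Ideal.sub_mem _ h2 (h1 t)
    rwa [sub_sub_cancel] at h3
  · have h2 : ρS σ s * t - s * ρS σ t = t * (ρS σ s - s) - s * (ρS σ t - t) := by ring
    rw [h2]
    exact Ideal.sub_mem _ (Ideal.mul_mem_left _ _ (h1 s)) (Ideal.mul_mem_left _ _ (h1 t))

/-- Weighted coordinates in the local ring of a point which are adapted to `σ`. -/
def LocC (𝒜 : ℕ → Submodule k S) [GradedAlgebra 𝒜] (σ : S ≃ₐ[k] S) (x : ProjectiveSpectrum 𝒜) :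
    Prop :=
  ∃ (n : ℕ) (y : Fin n → FractionRing S) (w : Fin n → ℕ) (l : ℕ) (hy : ∀ i, y i ∈ lrx 𝒜 x),
    0 < l ∧ (∃ b : Module.Basis (Fin n) (lrx 𝒜 x) (Ω[lrx 𝒜 x⁄k]),
      ∀ i, b i = KaehlerDifferential.D k (lrx 𝒜 x) ⟨y i, hy i⟩) ∧
    NDk y w (fun z => tauS σ z - z) l (lrx 𝒜 x) ∧
    ∃ t ∈ 𝒜 1, t ∉ x.asHomogeneousIdeal ∧
      (tauS σ (ev k S t) - ev k S t) / ev k S t ∈ Fk y w (lrx 𝒜 x) l

variable (hgr : ∀ γ n, ∀ s ∈ 𝒜 n, ρS γ s ∈ 𝒜 n)

include hgr in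
/-- **Local coordinates give centres on the punctured cone.** -/
theorem niceC_of_local (hX : AlgebraicGeometry.Smooth (str 𝒜)) {p : ℕ} [hp : Fact p.Prime]
    {σ : Γ} (hσ : σ ^ p = 1) {x : ProjectiveSpectrum 𝒜}
    (hσx : σ ∈ InS ρS x.asHomogeneousIdeal.toIdeal) (h : LocC 𝒜 (ρS σ) x) :
    ∃ z, NiceC ρS (rhoF ρS) 𝒜 σ z ∧ z ∉ x.asHomogeneousIdeal := by
  obtain ⟨n, y, w, l, hy, hl, hyΩ, hnd, t, ht, htx, hc⟩ := h
  have hfix := fixed_of_InS ρS hσx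
  have hσh : ∀ n, ∀ s ∈ 𝒜 n, ρS σ s ∈ 𝒜 n := hgr σ
  have hσp : ∀ s, (ρS σ)^[p] s = s := by
    intro s
    rw [iter_rho, hσ, map_one]
    rfl
  have ht0 : t ≠ 0 := ne_zero_of_notMem 𝒜 x htx
  have u0 : ev k S t ≠ 0 := ev_ne ht0
  obtain ⟨R, hR, hyR, het, hndR, hcR⟩ := spread2 (chartFamU hσh hσp hX hfix ht htx)
    hp.out.pos (tauS_iter (ρS σ) hσp) (tau_mem_lrx 𝒜 (ρS σ) hσh hfix) hy hyΩ hnd hc
  obtain ⟨e, q, z, hq, hz, z0, hzt, hσz, hzx, rfl⟩ := hR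
  have hzz : ev k S z ≠ 0 := ev_ne z0
  have hu : Hz 𝒜 z (e + 1) 1 (ev k S t) := by
    have h1 : Hz 𝒜 z (e + 1) ((1 : ℕ) : ℤ) (ev k S t) := Hz.of_mem ht
    exact_mod_cast h1
  have hu' : Hz 𝒜 z (e + 1) (-1) (ev k S t)⁻¹ := by
    refine ⟨1, e, by push_cast; ring, q, hq, ?_⟩
    have h1 : ev k S z = ev k S t * ev k S q := by rw [hzt, map_mul]
    have hq0 : ev k S q ≠ 0 := by
      intro h2
      apply hzz
      rw [h1, h2, mul_zero]
    rw [pow_one, h1]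
    field_simp
  have hst : ∀ v ∈ (Cz z0 : Subalgebra k (FractionRing S)),
      rhoF ρS σ v ∈ (Cz z0 : Subalgebra k (FractionRing S)) :=
    tau_Cz (τS := fun s => ρS σ s) (fun s => rhoF_ev ρS σ s) hσz
  have hxC : ∀ i, (Fin.cons (ev k S t) y : Fin (n + 1) → FractionRing S) i ∈
      (Cz z0 : Subalgebra k (FractionRing S)) := by
    intro i
    refine Fin.cases ?_ (fun j => ?_) i
    · exact ev_mem_Cz z0 t
    · exact ch_le_Cz hz z0 (hyR j)
  have hord := order_Cz hz z0 (Nat.succ_pos e) (τ := rhoF ρS σ) u0 hu hu' hst hndR.order hcR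
  have hndC := ndk_cons (ch_le_Cz hz z0) (u := ev k S t) hndR hord (ev_mem_Cz z0 t)
  have hetC := etC_cons hz z0 (Nat.succ_pos e) u0 hu hu' hyR het hxC
  refine ⟨z, ⟨e + 1, hz, z0, l, _, Nat.succ_pos e, hσz, hl,
    nwc_of_ndk hxC (fun a ha => Subalgebra.sub_mem _ (hst a ha) ha)
      (fun a b => by rw [map_add]; ring) (fun a b => ⟨1, by
        rw [map_mul, one_smul]
        ring⟩) hndC hetC, fun d => mono_hom z0 _ _ (fun i => ?_) d⟩, hzx⟩
  refine Fin.cases ?_ (fun j => ?_) i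
  · exact ⟨1, hu⟩
  · exact ⟨0, hz_ch hz z0 (hyR j)⟩

variable {m : ℕ} (b : Fin (m + 1) → S) (hb : ∀ i, b i ∈ 𝒜 1) (hb0 : ∀ i, b i ≠ 0)
  (hbg : Algebra.adjoin k (Set.range b) = ⊤)

include hb hb0 hbg hgr in
/-- **Smooth projective models of the quotients**, conditions at the closed points. -/
theorem modelL [Fintype Γ] [PerfectField k] {p : ℕ} (hp : p.Prime) (hpk : (p : k) = 0)
    (hX : AlgebraicGeometry.Smooth (str 𝒜))
    (hfX : ∀ γ, (∀ n, ∀ s ∈ 𝒜 n, ∀ t ∈ 𝒜 n, ρS γ s * t = s * ρS γ t) → γ = 1)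
    (hin : ∀ x : ProjectiveSpectrum 𝒜, IsClosed ({x} : Set (ProjectiveSpectrum 𝒜)) →
      Nat.card (InS ρS x.asHomogeneousIdeal.toIdeal) = 1 ∨
      Nat.card (InS ρS x.asHomogeneousIdeal.toIdeal) = p)
    (hpt : ∀ σ : Γ, σ ≠ 1 → σ ^ p = 1 → ∀ x : ProjectiveSpectrum 𝒜,
      IsClosed ({x} : Set (ProjectiveSpectrum 𝒜)) → σ ∈ InS ρS x.asHomogeneousIdeal.toIdeal →
        LocC 𝒜 (ρS σ) x) :
    ∃ (I : Type) (_ : Finite I) (z : I → FractionRing S) (J : Set I),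
      ModelG k (WS ρS (rhoF ρS) b 𝒜) (KfS (rhoF ρS) 𝒜).toSubfield z J := by
  have _ : Fact p.Prime := ⟨hp⟩
  have hftS : Algebra.FiniteType k S := by
    refine ⟨⟨(Set.finite_range b).toFinset, ?_⟩⟩
    rw [Set.Finite.coe_toFinset, hbg]
  have hnoe : IsNoetherianRing S := Algebra.FiniteType.isNoetherianRing k S
  refine modelX ρS (rhoF ρS) (rhoF_ev ρS) hgr b hb hb0 hbg hp hpk hX hfX ?_ ?_
  · intro x
    obtain ⟨y, hxy, hcl⟩ := exists_closed 𝒜 x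
    have hle : InS ρS x.asHomogeneousIdeal.toIdeal ≤ InS ρS y.asHomogeneousIdeal.toIdeal :=
      fun γ hγ s => hxy (hγ s)
    have hdvd := Subgroup.card_dvd_of_le hle
    rcases hin y hcl with h | h
    · left
      rw [h] at hdvd
      exact Nat.dvd_one.1 hdvd
    · rw [h] at hdvd
      exact (Nat.dvd_prime hp).1 hdvd
  · intro σ hσ x hx
    obtain ⟨y, hxy, hcl⟩ := exists_closed 𝒜 x
    have hy : σ ∈ InS ρS y.asHomogeneousIdeal.toIdeal := fun s => hxy (hx s)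
    obtain ⟨z, hz, hzy⟩ := niceC_of_local ρS hgr hX hσ.2 hy (hpt σ hσ.1 hσ.2 y hcl hy)
    exact ⟨z, hz, fun h => hzy (hxy h)⟩

end action

end Pool.Agent.U197.GQ
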