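import Pool.Agent.U197.GQ.N20
import Pool.Agent.H920R2.Gl4

/-!
Regular models of the fields of invariant functions.
-/

set_option autoImplicit false
set_option linter.unusedSectionVars false

namespace Pool.Agent.U197.GQ

open AlgebraicGeometry CategoryTheory
open Pool.Agent.W559.Mg Pool.Agent.W559.Et Pool.Agent.H920R2 Pool.Agent.U197.SF
open Pool.Agent.H519R3.RS Pool.Agent.N98.PJ

section frac

variable {k S : Type} [Field k] [CommRing S] [IsDomain S] [Algebra k S] {𝒜 : ℕ → Submodule k S}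
  [GradedAlgebra 𝒜] {Γ : Type} [Group Γ] [Fintype Γ] (ρS : Γ →* (S ≃ₐ[k] S))
  (ρ : Γ →* (FractionRing S ≃ₐ[k] FractionRing S))
  (hρ : ∀ γ s, ρ γ (ev k S s) = ev k S (ρS γ s))
  (hgr : ∀ γ n, ∀ s ∈ 𝒜 n, ρS γ s ∈ 𝒜 n)
  {m : ℕ} (b : Fin (m + 1) → S) (hb : ∀ i, b i ∈ 𝒜 1)

include hρ hgr hb in
/-- The invariant functions are fractions of invariant functions on the charts. -/
lemma hW_S (t : TS ρS b) (x : FractionRing S) (hx : x ∈ KfS ρ 𝒜) :
    ∃ y ∈ WS ρS ρ b 𝒜 t, ∃ y' ∈ WS ρS ρ b 𝒜 t, y' ≠ 0 ∧ x = y / y' := by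
  classical
  obtain ⟨⟨d, s1, s2, hs1, hs2, hs20, hxs⟩, hinv⟩ := hx
  have hz := zS_mem ρS hgr b hb t
  have hz0 := zS_ne ρS b t
  have hzz : ev k S (zS ρS b t) ≠ 0 := ev_ne hz0
  have hD := DD_pos Γ
  let c := Fintype.card Γ
  let N : S := ∏ γ : Γ, ρS γ s2
  have hN : N ∈ 𝒜 (c * d) := by
    have h1 := SetLike.prod_mem_graded 𝒜 (fun _ => d) (fun γ => ρS γ s2) (F := Finset.univ)
      fun γ _ => hgr γ d s2 hs2
    rwa [Finset.sum_const, Finset.card_univ, smul_eq_mul] at h1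
  have hN0 : N ≠ 0 := Finset.prod_ne_zero_iff.2 fun γ _ => by
    rw [Ne, map_eq_zero_iff _ (ρS γ).injective]
    exact hs20
  have hNN : ev k S N ≠ 0 := ev_ne hN0
  have hNinv : ∀ γ, ρS γ N = N := by
    intro γ
    change ρS γ (∏ δ : Γ, ρS δ s2) = _
    rw [map_prod]
    refine Fintype.prod_equiv (Equiv.mulLeft γ) _ _ fun δ => ?_
    change ρS γ (ρS δ s2) = ρS (γ * δ) s2
    rw [map_mul]
    rfl
  let a : S := s1 * ∏ γ ∈ Finset.univ.erase (1 : Γ), ρS γ s2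
  have ha : a ∈ 𝒜 (c * d) := by
    have h1 := SetLike.prod_mem_graded 𝒜 (fun _ => d) (fun γ => ρS γ s2)
      (F := Finset.univ.erase (1 : Γ)) fun γ _ => hgr γ d s2 hs2
    rw [Finset.sum_const, Finset.card_erase_of_mem (Finset.mem_univ _), Finset.card_univ,
      smul_eq_mul] at h1
    have h2 := SetLike.mul_mem_graded hs1 h1
    have h3 : d + (Fintype.card Γ - 1) * d = c * d := by
      have h4 : 0 < Fintype.card Γ := Fintype.card_pos
      obtain ⟨e, he⟩ : ∃ e, Fintype.card Γ = e + 1 := ⟨Fintype.card Γ - 1, by omega⟩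
      change d + (Fintype.card Γ - 1) * d = Fintype.card Γ * d
      rw [he, Nat.add_sub_cancel]
      ring
    rwa [h3] at h2
  have hNs : N = s2 * ∏ γ ∈ Finset.univ.erase (1 : Γ), ρS γ s2 := by
    change ∏ γ : Γ, ρS γ s2 = _
    rw [← Finset.mul_prod_erase Finset.univ _ (Finset.mem_univ (1 : Γ)), map_one]
    rfl
  have hs2' : ev k S s2 ≠ 0 := ev_ne hs20
  have hax : ev k S a = x * ev k S N := by
    rw [hxs, hNs, map_mul, map_mul]
    field_simp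
  have hzD : zS ρS b t ^ (c * d) ∈ 𝒜 (c * d * DD Γ) := SetLike.pow_mem_graded (c * d) hz
  obtain ⟨q, hq⟩ : ∃ q, DD Γ = q + 1 := ⟨DD Γ - 1, by omega⟩
  have hNq : N ^ (q + 1) ∈ 𝒜 (c * d * DD Γ) := by
    have h1 := SetLike.pow_mem_graded (q + 1) hN
    have h2 : (q + 1) • (c * d) = c * d * DD Γ := by
      rw [hq, smul_eq_mul]
      ring
    rwa [h2] at h1
  have haq : a * N ^ q ∈ 𝒜 (c * d * DD Γ) := by
    have h1 := SetLike.mul_mem_graded ha (SetLike.pow_mem_graded q hN)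
    have h2 : c * d + q • (c * d) = c * d * DD Γ := by
      rw [hq, smul_eq_mul]
      ring
    rwa [h2] at h1
  have hcast : ((c * d * DD Γ : ℕ) : ℤ) = 0 + ((c * d : ℕ) : ℤ) * DD Γ := by
    push_cast
    ring
  have hNe : ∀ γ, ρ γ (ev k S N) = ev k S N := fun γ => by rw [hρ, hNinv]
  have hze : ∀ γ, ρ γ (ev k S (zS ρS b t)) = ev k S (zS ρS b t) := fun γ => by
    rw [hρ, zS_inv ρS ρ hρ b t]
  refine ⟨ev k S (a * N ^ q) / ev k S (zS ρS b t) ^ (c * d),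
    ⟨⟨c * d, c * d * DD Γ, hcast, _, haq, rfl⟩, fun γ => ?_⟩,
    ev k S (N ^ (q + 1)) / ev k S (zS ρS b t) ^ (c * d),
    ⟨⟨c * d, c * d * DD Γ, hcast, _, hNq, rfl⟩, fun γ => ?_⟩, ?_, ?_⟩
  · rw [map_mul, map_pow, hax, map_div₀, map_mul, map_mul, map_pow, map_pow, hinv γ, hNe, hze]
  · rw [map_pow, map_div₀, map_pow, map_pow, hNe, hze]
  · rw [map_pow]
    exact div_ne_zero (pow_ne_zero _ hNN) (pow_ne_zero _ hzz)
  · rw [map_mul, map_pow, map_pow, hax]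
    field_simp
    ring

end frac

/-- **Regular models over the integers.** -/
theorem regL (p : ℕ) [Fact p.Prime] {k S : Type} [Field k] [Finite k] (hpk : (p : k) = 0)
    [CommRing S] [IsDomain S] [Algebra k S] {𝒜 : ℕ → Submodule k S} [GradedAlgebra 𝒜]
    {Γ : Type} [Group Γ] [Finite Γ] (ρS : Γ →* (S ≃ₐ[k] S))
    (hgr : ∀ γ n, ∀ s ∈ 𝒜 n, ρS γ s ∈ 𝒜 n)
    (hgen : Algebra.adjoin k (𝒜 1 : Set S) = ⊤) (hone : ∃ s ∈ 𝒜 1, s ≠ 0)
    (hfin : Module.Finite k (𝒜 1))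
    (hX : AlgebraicGeometry.Smooth (str 𝒜))
    (hfX : ∀ γ, (∀ n, ∀ s ∈ 𝒜 n, ∀ t ∈ 𝒜 n, ρS γ s * t = s * ρS γ t) → γ = 1)
    (hin : ∀ x : ProjectiveSpectrum 𝒜, IsClosed ({x} : Set (ProjectiveSpectrum 𝒜)) →
      Nat.card (InS ρS x.asHomogeneousIdeal.toIdeal) = 1 ∨
      Nat.card (InS ρS x.asHomogeneousIdeal.toIdeal) = p)
    (hpt : ∀ σ : Γ, σ ≠ 1 → σ ^ p = 1 → ∀ x : ProjectiveSpectrum 𝒜,
      IsClosed ({x} : Set (ProjectiveSpectrum 𝒜)) → σ ∈ InS ρS x.asHomogeneousIdeal.toIdeal →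
        LocC 𝒜 (ρS σ) x) :
    ∃ (X' : Scheme.{0}) (_ : IsIntegral X') (g : X' ⟶ Spec (CommRingCat.of ℤ)),
      IsProper g ∧
      (∀ x : X',
        (((Module.finrank (IsLocalRing.ResidueField (X'.presheaf.stalk x))
            (IsLocalRing.CotangentSpace (X'.presheaf.stalk x)) : ℕ∞)) : WithBot ℕ∞)
          = ringKrullDim (X'.presheaf.stalk x)) ∧
      Nonempty (X'.functionField ≃+* KfS (rhoF ρS) 𝒜) := by
  classical
  have _ : Fintype Γ := Fintype.ofFinite Γ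
  have _ := hfin
  obtain ⟨m, b, hb, hb0, hbg⟩ := exists_basis 𝒜 hgen hone
  obtain ⟨I, _, z, J, hmod⟩ := modelL ρS hgr b hb hb0 hbg (Fact.out : p.Prime) hpk hX hfX hin hpt
  exact exists_regular_model (KfS (rhoF ρS) 𝒜) hmod
    (fun t x hx => hW_S ρS (rhoF ρS) (rhoF_ev ρS) hgr b hb t x hx)

end Pool.Agent.U197.GQ
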