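import Pool.Agent.U197.GQ.N2
import Pool.Agent.U197.GQ.M13

/-!
The charts of the punctured cone over a projective variety.
-/

set_option autoImplicit false
set_option linter.unusedSectionVars false

open MvPolynomial

namespace Pool.Agent.U197.GQ

open Pool.Agent.W559.Mg Pool.Agent.H920R2 Pool.Agent.U197.SF

section aug

variable (k : Type) {K : Type} [Field k] [Field K] [Algebra k K] {M : Type} [AddCommGroup M]

/-- The sum of the coefficients. -/
noncomputable def aug : ML K M →ₐ[k] K :=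
  (AddMonoidAlgebra.lift K K M (1 : Multiplicative M →* K)).restrictScalars k

lemma aug_mo (m : M) (a : K) : aug k (mo m a) = a := by
  change (AddMonoidAlgebra.lift K K M (1 : Multiplicative M →* K)) (mo m a) = a
  unfold mo
  rw [AddMonoidAlgebra.lift_single]
  exact mul_one a

lemma aug_eq (f : ML K M) : aug k f = ∑ d ∈ f.coeff.support, f.coeff d := by
  conv_lhs => rw [eq_sum_mo f]
  rw [map_sum]
  exact Finset.sum_congr rfl fun d _ => aug_mo k d _

variable {k} {Γ : Type} [Group Γ] (ρ : Γ →* (K ≃ₐ[k] K))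

lemma aug_ga (γ : Γ) (f : ML K M) : aug k (ga ρ M γ f) = ρ γ (aug k f) := by
  conv_lhs => rw [eq_sum_mo f]
  rw [map_sum, map_sum, aug_eq k f, map_sum]
  exact Finset.sum_congr rfl fun d _ => by rw [ga_mo, aug_mo]

end aug

section cone

variable {k S : Type} [Field k] [CommRing S] [IsDomain S] [Algebra k S] (𝒜 : ℕ → Submodule k S)
  [GradedAlgebra 𝒜]

/-- The homogeneous fractions of degree `d` whose denominators are powers of `z`. -/
def Hz (z : S) (D : ℕ) (d : ℤ) (x : FractionRing S) : Prop :=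
  ∃ N n : ℕ, (n : ℤ) = d + N * D ∧ ∃ s ∈ 𝒜 n, x = ev k S s / ev k S z ^ N

variable {𝒜} {z : S} {D : ℕ} (hz : z ∈ 𝒜 D) (z0 : z ≠ 0)

include hz z0 in
lemma hz_up {d : ℤ} {x : FractionRing S} {N n : ℕ} {s : S} (h : (n : ℤ) = d + N * D)
    (hs : s ∈ 𝒜 n) (hx : x = ev k S s / ev k S z ^ N) {N' : ℕ} (hN : N ≤ N') :
    ∃ n' : ℕ, (n' : ℤ) = d + N' * D ∧ ∃ s ∈ 𝒜 n', x = ev k S s / ev k S z ^ N' := by
  obtain ⟨e, rfl⟩ := Nat.exists_eq_add_of_le hN
  refine ⟨n + e * D, by push_cast; rw [h]; ring, s * z ^ e, ?_, ?_⟩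
  · exact SetLike.mul_mem_graded hs (SetLike.pow_mem_graded e hz)
  · have hz' : ev k S z ≠ 0 := ev_ne z0
    rw [hx, map_mul, map_pow, pow_add]
    field_simp

include hz z0 in
lemma Hz.add {d : ℤ} {x y : FractionRing S} (hx : Hz 𝒜 z D d x) (hy : Hz 𝒜 z D d y) :
    Hz 𝒜 z D d (x + y) := by
  obtain ⟨N, n, hn, s, hs, hxs⟩ := hx
  obtain ⟨M, m, hm, t, ht, hyt⟩ := hy
  obtain ⟨n', hn', s', hs', hxs'⟩ := hz_up hz z0 hn hs hxs (Nat.le_add_right N M)
  obtain ⟨m', hm', t', ht', hyt'⟩ := hz_up hz z0 hm ht hyt (Nat.le_add_left M N)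
  have hnm : m' = n' := by
    have h := hm'.trans hn'.symm
    exact_mod_cast h
  subst hnm
  refine ⟨N + M, m', hn', s' + t', Submodule.add_mem _ hs' ht', ?_⟩
  rw [hxs', hyt', map_add, add_div]

lemma Hz.mul {d e : ℤ} {x y : FractionRing S} (hx : Hz 𝒜 z D d x) (hy : Hz 𝒜 z D e y) :
    Hz 𝒜 z D (d + e) (x * y) := by
  obtain ⟨N, n, hn, s, hs, hxs⟩ := hx
  obtain ⟨M, m, hm, t, ht, hyt⟩ := hy
  refine ⟨N + M, n + m, by push_cast; rw [hn, hm]; ring, s * t, SetLike.mul_mem_graded hs ht, ?_⟩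
  rw [hxs, hyt, map_mul, div_mul_div_comm, pow_add]

lemma Hz.zero (hD : 0 < D) (d : ℤ) : Hz 𝒜 z D d 0 := by
  refine ⟨d.natAbs, (d + d.natAbs * D).toNat, ?_, 0, Submodule.zero_mem _, ?_⟩
  · rw [Int.toNat_of_nonneg]
    have h1 : (1 : ℤ) ≤ D := by exact_mod_cast hD
    have h2 : -d ≤ d.natAbs := by omega
    have h3 : (0 : ℤ) ≤ d.natAbs := by positivity
    nlinarith
  · rw [map_zero, zero_div]

include hz z0 in
lemma Hz.sum (hD : 0 < D) {ι : Type} (A : Finset ι) (f : ι → FractionRing S) {d : ℤ}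
    (h : ∀ i ∈ A, Hz 𝒜 z D d (f i)) : Hz 𝒜 z D d (∑ i ∈ A, f i) := by
  classical
  induction A using Finset.induction_on with
  | empty =>
    rw [Finset.sum_empty]
    exact Hz.zero hD d
  | insert i A hi ih =>
    rw [Finset.sum_insert hi]
    exact Hz.add hz z0 (h i (Finset.mem_insert_self i A))
      (ih fun j hj => h j (Finset.mem_insert_of_mem hj))

lemma Hz.of_mem {n : ℕ} {s : S} (hs : s ∈ 𝒜 n) : Hz 𝒜 z D (n : ℤ) (ev k S s) :=
  ⟨0, n, by simp, s, hs, by rw [pow_zero, div_one]⟩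

/-- The chart of the cone, as a graded ring. -/
noncomputable def CR (hz : z ∈ 𝒜 D) (z0 : z ≠ 0) (hD : 0 < D) :
    Subalgebra k (ML (FractionRing S) (ℤ × Unit)) where
  carrier := {f | ∀ m, Hz 𝒜 z D m.1 (f.coeff m)}
  mul_mem' := by
    intro f g hf hg m
    rw [coeff_mul_sum]
    refine Hz.sum hz z0 hD _ _ fun a _ => ?_
    have h := (hf a).mul (hg (m - a))
    rwa [Prod.fst_sub, add_sub_cancel] at h
  add_mem' := by
    intro f g hf hg m
    rw [coeff_add']
    exact Hz.add hz z0 (hf m) (hg m)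
  algebraMap_mem' := by
    classical
    intro r m
    rw [algebraMap_ML, coeff_mo]
    split_ifs with h
    · rw [← h]
      have h1 : Hz 𝒜 z D ((0 : ℕ) : ℤ) (ev k S (algebraMap k S r)) :=
        Hz.of_mem (SetLike.algebraMap_mem_graded 𝒜 r)
      rwa [AlgHom.commutes] at h1
    · exact Hz.zero hD _

variable (hD : 0 < D)

lemma mem_CR {f : ML (FractionRing S) (ℤ × Unit)} :
    f ∈ CR hz z0 hD ↔ ∀ m, Hz 𝒜 z D m.1 (f.coeff m) := Iff.rfl

lemma mo_mem_CR {m : ℤ × Unit} {x : FractionRing S} :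
    mo m x ∈ CR hz z0 hD ↔ Hz 𝒜 z D m.1 x := by
  classical
  constructor
  · intro h
    have h1 := h m
    rwa [coeff_mo_same] at h1
  · intro h m'
    rw [coeff_mo]
    split_ifs with h1
    · rw [← h1]
      exact h
    · exact Hz.zero hD _

lemma gr_CR : Gr (CR hz z0 hD) := fun _ hf m => (mo_mem_CR hz z0 hD).2 (hf m)

/-- The chart of the cone, in the field of fractions. -/
noncomputable def Cz (z0 : z ≠ 0) : Subalgebra k (FractionRing S) where
  carrier := {x | ∃ (N : ℕ) (s : S), x = ev k S s / ev k S z ^ N}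
  mul_mem' := by
    rintro x y ⟨N, s, rfl⟩ ⟨M, t, rfl⟩
    refine ⟨N + M, s * t, ?_⟩
    rw [map_mul, div_mul_div_comm, pow_add]
  add_mem' := by
    rintro x y ⟨N, s, rfl⟩ ⟨M, t, rfl⟩
    refine ⟨N + M, s * z ^ M + t * z ^ N, ?_⟩
    have hz' : ev k S z ≠ 0 := ev_ne z0
    rw [map_add, map_mul, map_mul, map_pow, map_pow, pow_add]
    field_simp
  algebraMap_mem' r := ⟨0, algebraMap k S r, by
    rw [pow_zero, div_one]
    exact ((ev k S).commutes r).symm⟩

lemma ev_mem_Cz (s : S) : ev k S s ∈ (Cz z0 : Subalgebra k (FractionRing S)) :=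
  ⟨0, s, by rw [pow_zero, div_one]⟩

lemma Hz.mem_Cz {d : ℤ} {x : FractionRing S} (h : Hz 𝒜 z D d x) :
    x ∈ (Cz z0 : Subalgebra k (FractionRing S)) := by
  obtain ⟨N, n, -, s, -, h⟩ := h
  exact ⟨N, s, h⟩

lemma aug_mem {f : ML (FractionRing S) (ℤ × Unit)} (hf : f ∈ CR hz z0 hD) :
    aug k f ∈ (Cz z0 : Subalgebra k (FractionRing S)) := by
  rw [aug_eq]
  exact Subalgebra.sum_mem _ fun d _ => (hf d).mem_Cz z0

lemma aug_inj {f : ML (FractionRing S) (ℤ × Unit)} (hf : f ∈ CR hz z0 hD) (h : aug k f = 0) :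
    f = 0 := by
  classical
  have hz' : ev k S z ≠ 0 := ev_ne z0
  choose N n hn s hs hx using hf
  let M : ℕ := ∑ d ∈ f.coeff.support, N d
  have h1 : ∀ d ∈ f.coeff.support, ∃ n' : ℕ, (n' : ℤ) = d.1 + M * D ∧ ∃ s ∈ 𝒜 n',
      f.coeff d = ev k S s / ev k S z ^ M := fun d hd =>
    hz_up hz z0 (hn d) (hs d) (hx d) (Finset.single_le_sum (fun _ _ => Nat.zero_le _) hd)
  choose! n' hn' s' hs' hx' using h1
  have h2 : ∑ d ∈ f.coeff.support, s' d = 0 := by
    apply ev_inj (k := k)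
    rw [map_zero, map_sum]
    have h3 : (∑ d ∈ f.coeff.support, ev k S (s' d)) / ev k S z ^ M = 0 := by
      rw [Finset.sum_div, ← h, aug_eq]
      exact Finset.sum_congr rfl fun d hd => (hx' d hd).symm
    rcases div_eq_zero_iff.1 h3 with h4 | h4
    · exact h4
    · exact absurd h4 (pow_ne_zero _ hz')
  apply ml_ext
  intro d
  by_cases hd : d ∈ f.coeff.support
  · have h3 := congrArg (GradedAlgebra.proj 𝒜 (n' d)) h2
    rw [map_sum, map_zero, Finset.sum_eq_single_of_mem d hd] at h3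
    · rw [GradedAlgebra.proj_apply, DirectSum.decompose_of_mem_same 𝒜 (hs' d hd)] at h3
      rw [hx' d hd, h3, map_zero, zero_div]
      rfl
    · intro e he hed
      rw [GradedAlgebra.proj_apply]
      refine DirectSum.decompose_of_mem_ne 𝒜 (hs' e he) ?_
      intro h4
      apply hed
      have h5 : (n' e : ℤ) = n' d := by exact_mod_cast h4
      rw [hn' e he, hn' d hd] at h5
      exact Prod.ext (by linarith) rfl
  · rw [Finsupp.notMem_support_iff.1 hd]
    rfl

lemma aug_surj {x : FractionRing S} (hx : x ∈ (Cz z0 : Subalgebra k (FractionRing S))) :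
    ∃ f ∈ CR hz z0 hD, aug k f = x := by
  classical
  obtain ⟨N, s, rfl⟩ := hx
  refine ⟨∑ d ∈ (DirectSum.decompose 𝒜 s).support,
    mo ((d : ℤ) - N * D, ()) (ev k S (DirectSum.decompose 𝒜 s d) / ev k S z ^ N), ?_, ?_⟩
  · refine Subalgebra.sum_mem _ fun d _ => (mo_mem_CR hz z0 hD).2 ?_
    exact ⟨N, d, by ring, _, SetLike.coe_mem _, rfl⟩
  · rw [map_sum]
    have h1 : ∀ d ∈ (DirectSum.decompose 𝒜 s).support,
        aug k (mo ((d : ℤ) - N * D, ()) (ev k S (DirectSum.decompose 𝒜 s d : S) /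
          ev k S z ^ N) : ML (FractionRing S) (ℤ × Unit)) =
        ev k S (DirectSum.decompose 𝒜 s d : S) / ev k S z ^ N := fun d _ => aug_mo k _ _
    rw [Finset.sum_congr rfl h1, ← Finset.sum_div, ← map_sum,
      DirectSum.sum_support_decompose 𝒜 s]

/-- The two descriptions of the chart. -/
noncomputable def eC : CR hz z0 hD ≃ₐ[k] (Cz z0 : Subalgebra k (FractionRing S)) :=
  AlgEquiv.ofBijective (((aug k).comp (CR hz z0 hD).val).codRestrict (Cz z0)
    fun f => aug_mem hz z0 hD f.2) ⟨by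
      rw [injective_iff_map_eq_zero]
      intro f hf
      exact Subtype.ext (aug_inj hz z0 hD f.2 (congrArg Subtype.val hf)), by
      rintro ⟨x, hx⟩
      obtain ⟨f, hf, hfx⟩ := aug_surj hz z0 hD hx
      exact ⟨⟨f, hf⟩, Subtype.ext hfx⟩⟩

lemma eC_coe (f : CR hz z0 hD) : ((eC hz z0 hD f : (Cz z0 : Subalgebra k (FractionRing S))) :
    FractionRing S) = aug k (f : ML (FractionRing S) (ℤ × Unit)) := rfl

end cone

end Pool.Agent.U197.GQ
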