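import Pool.Agent.U197.GQ.N3

/-!
Finite groups acting on the charts of the cone, and families of weighted centres.
-/

set_option autoImplicit false
set_option linter.unusedSectionVars false

open MvPolynomial

namespace Pool.Agent.U197.GQ

open Pool.Agent.W559.Mg Pool.Agent.H920R2 Pool.Agent.U197.SF

section act

variable {k S : Type} [Field k] [CommRing S] [IsDomain S] [Algebra k S] {𝒜 : ℕ → Submodule k S}
  [GradedAlgebra 𝒜] {z : S} {D : ℕ} (hz : z ∈ 𝒜 D) (z0 : z ≠ 0) (hD : 0 < D)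
  {Γ : Type} [Group Γ] (ρS : Γ →* (S ≃ₐ[k] S))
  (ρ : Γ →* (FractionRing S ≃ₐ[k] FractionRing S))
  (hρ : ∀ γ s, ρ γ (ev k S s) = ev k S (ρS γ s))
  (hgr : ∀ γ n, ∀ s ∈ 𝒜 n, ρS γ s ∈ 𝒜 n) (hi : ∀ γ, ρS γ z = z)

include hρ hi in
lemma rho_div (γ : Γ) (s : S) (N : ℕ) : ρ γ (ev k S s / ev k S z ^ N) =
    ev k S (ρS γ s) / ev k S z ^ N := by
  rw [map_div₀, map_pow, hρ, hρ, hi]

include hρ hi hgr in
lemma ga_CR (γ : Γ) (f : ML (FractionRing S) (ℤ × Unit)) (hf : f ∈ CR hz z0 hD) :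
    ga ρ (ℤ × Unit) γ f ∈ CR hz z0 hD := by
  intro m
  rw [ga_coeff]
  obtain ⟨N, n, hn, s, hs, hx⟩ := hf m
  exact ⟨N, n, hn, ρS γ s, hgr γ n s hs, by rw [hx, rho_div ρS ρ hρ hi]⟩

include hρ hi in
lemma rho_Cz (γ : Γ) (x : FractionRing S) (hx : x ∈ (Cz z0 : Subalgebra k (FractionRing S))) :
    ρ γ x ∈ (Cz z0 : Subalgebra k (FractionRing S)) := by
  obtain ⟨N, s, rfl⟩ := hx
  exact ⟨N, ρS γ s, rho_div ρS ρ hρ hi γ s N⟩

/-- The action on the chart. -/
noncomputable def aC : Γ →* (CR hz z0 hD ≃+* CR hz z0 hD) where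
  toFun γ :=
    { toFun := fun f => ⟨ga ρ (ℤ × Unit) γ f, ga_CR hz z0 hD ρS ρ hρ hgr hi γ f f.2⟩
      invFun := fun f => ⟨ga ρ (ℤ × Unit) γ⁻¹ f, ga_CR hz z0 hD ρS ρ hρ hgr hi γ⁻¹ f f.2⟩
      left_inv := fun f => Subtype.ext (by
        change ga ρ (ℤ × Unit) γ⁻¹ (ga ρ (ℤ × Unit) γ
          (f : ML (FractionRing S) (ℤ × Unit))) = f
        rw [← ga_mul, inv_mul_cancel, ga_one])
      right_inv := fun f => Subtype.ext (by
        change ga ρ (ℤ × Unit) γ (ga ρ (ℤ × Unit) γ⁻¹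
          (f : ML (FractionRing S) (ℤ × Unit))) = f
        rw [← ga_mul, mul_inv_cancel, ga_one])
      map_mul' := fun f g => Subtype.ext (map_mul (ga ρ (ℤ × Unit) γ) _ _)
      map_add' := fun f g => Subtype.ext (map_add (ga ρ (ℤ × Unit) γ) _ _) }
  map_one' := RingEquiv.ext fun f => Subtype.ext (ga_one ρ _)
  map_mul' γ γ' := RingEquiv.ext fun f => Subtype.ext (ga_mul ρ γ γ' _)

lemma eC_aC (γ : Γ) (f : CR hz z0 hD) :
    ((eC hz z0 hD (aC hz z0 hD ρS ρ hρ hgr hi γ f) :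
      (Cz z0 : Subalgebra k (FractionRing S))) : FractionRing S) =
      ρ γ (eC hz z0 hD f : (Cz z0 : Subalgebra k (FractionRing S))) :=
  aug_ga ρ γ _

/-- The inertia group of an ideal of the cone. -/
def InS (I : Ideal S) : Subgroup Γ where
  carrier := {γ | ∀ s, ρS γ s - s ∈ I}
  one_mem' := fun s => by
    rw [map_one]
    change s - s ∈ I
    rw [sub_self]
    exact I.zero_mem
  mul_mem' := by
    intro γ γ' h h' s
    have h1 : ρS (γ * γ') s - s = (ρS γ (ρS γ' s) - ρS γ' s) + (ρS γ' s - s) := by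
      rw [map_mul]
      change ρS γ (ρS γ' s) - s = _
      ring
    rw [h1]
    exact I.add_mem (h _) (h' _)
  inv_mem' := by
    intro γ h s
    have h1 : ρS γ (ρS γ⁻¹ s) = s := by
      have h2 : (ρS γ * ρS γ⁻¹) s = s := by
        rw [← map_mul, mul_inv_cancel, map_one]
        rfl
      exact h2
    have h2 : ρS γ⁻¹ s - s = -(ρS γ (ρS γ⁻¹ s) - ρS γ⁻¹ s) := by
      rw [h1]
      ring
    rw [h2]
    exact I.neg_mem (h _)

/-- The functions on the cone as functions on the chart. -/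
noncomputable def iC : S →+* CR hz z0 hD :=
  ((eC hz z0 hD).symm : (Cz z0 : Subalgebra k (FractionRing S)) →+* CR hz z0 hD).comp
    (((ev k S).codRestrict (Cz z0) fun s => ev_mem_Cz z0 s :
      S →ₐ[k] (Cz z0 : Subalgebra k (FractionRing S))) : S →+* _)

lemma eC_iC (s : S) : ((eC hz z0 hD (iC hz z0 hD s) :
    (Cz z0 : Subalgebra k (FractionRing S))) : FractionRing S) = ev k S s := by
  unfold iC
  change ((eC hz z0 hD ((eC hz z0 hD).symm _) :
    (Cz z0 : Subalgebra k (FractionRing S))) : FractionRing S) = ev k S s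
  rw [AlgEquiv.apply_symm_apply]
  rfl

lemma eC_ext {f g : CR hz z0 hD} (h : ((eC hz z0 hD f :
    (Cz z0 : Subalgebra k (FractionRing S))) : FractionRing S) = eC hz z0 hD g) : f = g :=
  (eC hz z0 hD).injective (Subtype.ext h)

lemma aC_iC (γ : Γ) (s : S) : aC hz z0 hD ρS ρ hρ hgr hi γ (iC hz z0 hD s) =
    iC hz z0 hD (ρS γ s) := by
  apply eC_ext
  rw [eC_aC, eC_iC, eC_iC, hρ]

lemma inv_mem_Cz : (ev k S z)⁻¹ ∈ (Cz z0 : Subalgebra k (FractionRing S)) :=
  ⟨1, 1, by rw [map_one, pow_one, one_div]⟩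

lemma unit_iC : ∃ y, iC hz z0 hD z * y = 1 := by
  have hz' : ev k S z ≠ 0 := ev_ne z0
  refine ⟨(eC hz z0 hD).symm ⟨(ev k S z)⁻¹, inv_mem_Cz z0⟩, ?_⟩
  apply (eC hz z0 hD).injective
  rw [map_mul, AlgEquiv.apply_symm_apply, map_one]
  apply Subtype.ext
  change ((eC hz z0 hD (iC hz z0 hD z) : (Cz z0 : Subalgebra k (FractionRing S))) :
    FractionRing S) * (ev k S z)⁻¹ = 1
  rw [eC_iC, mul_inv_cancel₀ hz']

include hD in
/-- Inertia groups on the chart are inertia groups of homogeneous primes. -/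
theorem In_eq (P : Ideal (CR hz z0 hD)) (hP : P.IsPrime) : ∃ x : ProjectiveSpectrum 𝒜,
    In (aC hz z0 hD ρS ρ hρ hgr hi) P = InS ρS x.asHomogeneousIdeal.toIdeal := by
  classical
  have hzP : iC hz z0 hD z ∉ P := by
    intro h
    obtain ⟨y, hy⟩ := unit_iC hz z0 hD
    apply hP.ne_top
    rw [Ideal.eq_top_iff_one, ← hy]
    exact P.mul_mem_right _ h
  let PS : Ideal S := P.comap (iC hz z0 hD)
  have hPS : PS.IsPrime := Ideal.comap_isPrime _ _
  have hcp : (PS.homogeneousCore 𝒜).toIdeal.IsPrime := hPS.homogeneousCore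
  have hle : (PS.homogeneousCore 𝒜).toIdeal ≤ PS := Ideal.toIdeal_homogeneousCore_le 𝒜 PS
  refine ⟨⟨PS.homogeneousCore 𝒜, hcp, ?_⟩, ?_⟩
  · intro hirr
    have h1 : z ∈ (HomogeneousIdeal.irrelevant 𝒜) := by
      rw [HomogeneousIdeal.mem_irrelevant_iff, GradedRing.proj_apply]
      exact DirectSum.decompose_of_mem_ne 𝒜 hz hD.ne'
    exact hzP (hle (hirr h1))
  · ext γ
    constructor
    · intro hγ s
      change ρS γ s - s ∈ (PS.homogeneousCore 𝒜).toIdeal
      have key : ∀ n, ∀ t ∈ 𝒜 n, ρS γ t - t ∈ (PS.homogeneousCore 𝒜).toIdeal := by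
        intro n t ht
        have h2 : ρS γ t - t ∈ 𝒜 n := Submodule.sub_mem _ (hgr γ n t ht) ht
        refine Ideal.mem_homogeneousCore_of_homogeneous_of_mem ⟨n, h2⟩ ?_
        change iC hz z0 hD (ρS γ t - t) ∈ P
        have h3 := hγ (iC hz z0 hD t)
        rwa [aC_iC, ← map_sub] at h3
      have h1 : ρS γ s - s = ∑ n ∈ (DirectSum.decompose 𝒜 s).support,
          (ρS γ (DirectSum.decompose 𝒜 s n : S) - (DirectSum.decompose 𝒜 s n : S)) := by
        rw [Finset.sum_sub_distrib, ← map_sum, DirectSum.sum_support_decompose 𝒜 s]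
      rw [h1]
      exact Ideal.sum_mem _ fun n _ => key n _ (SetLike.coe_mem _)
    · intro hγ f
      obtain ⟨N, s, hx⟩ : ((eC hz z0 hD f : (Cz z0 : Subalgebra k (FractionRing S))) :
        FractionRing S) ∈ (Cz z0 : Subalgebra k (FractionRing S)) := SetLike.coe_mem _
      have hz' : ev k S z ≠ 0 := ev_ne z0
      have h1 : iC hz z0 hD z ^ N * f = iC hz z0 hD s := by
        apply eC_ext
        rw [map_mul, map_pow, eC_iC]
        change ((eC hz z0 hD (iC hz z0 hD z) : (Cz z0 : Subalgebra k (FractionRing S))) :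
          FractionRing S) ^ N * _ = _
        rw [eC_iC, hx]
        field_simp
      have h2 : iC hz z0 hD z ^ N * (aC hz z0 hD ρS ρ hρ hgr hi γ f - f) =
          iC hz z0 hD (ρS γ s - s) := by
        rw [map_sub, ← aC_iC hz z0 hD ρS ρ hρ hgr hi, ← h1, map_mul, map_pow, aC_iC, hi]
        ring
      have h3 : iC hz z0 hD z ^ N * (aC hz z0 hD ρS ρ hρ hgr hi γ f - f) ∈ P := by
        rw [h2]
        exact hle (hγ s)
      rcases hP.mem_or_mem h3 with h4 | h4
      · exact absurd (hP.mem_of_pow_mem _ h4) hzP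
      · exact h4

end act

end Pool.Agent.U197.GQ
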