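import Pool.Agent.U197.GQ.N4

/-!
Families of nondegenerate weighted centres on the charts of the cone.
-/

set_option autoImplicit false
set_option linter.unusedSectionVars false

open MvPolynomial

namespace Pool.Agent.U197.GQ

open Pool.Agent.W559.Mg Pool.Agent.H920R2 Pool.Agent.U197.SF

section fam

variable {k S : Type} [Field k] [CommRing S] [IsDomain S] [Algebra k S] {𝒜 : ℕ → Submodule k S}
  [GradedAlgebra 𝒜] {z : S} {D : ℕ} (hz : z ∈ 𝒜 D) (z0 : z ≠ 0) (hD : 0 < D)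
  {Γ : Type} [Group Γ] (ρS : Γ →* (S ≃ₐ[k] S))
  (ρ : Γ →* (FractionRing S ≃ₐ[k] FractionRing S))
  (hρ : ∀ γ s, ρ γ (ev k S s) = ev k S (ρS γ s))
  (hgr : ∀ γ n, ∀ s ∈ 𝒜 n, ρS γ s ∈ 𝒜 n) (hi : ∀ γ, ρS γ z = z)

/-- The filtrations on the graded chart. -/
noncomputable def FR (F : Γ → ℕ → Ideal (Cz z0 : Subalgebra k (FractionRing S))) (σ : Γ) (d : ℕ) :
    Ideal (CR hz z0 hD) :=
  (F σ d).comap (eC hz z0 hD : CR hz z0 hD →+* (Cz z0 : Subalgebra k (FractionRing S)))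

variable {F : Γ → ℕ → Ideal (Cz z0 : Subalgebra k (FractionRing S))}

lemma mem_FR {σ : Γ} {d : ℕ} {b : CR hz z0 hD} : b ∈ FR hz z0 hD F σ d ↔
    eC hz z0 hD b ∈ F σ d := Iff.rfl

/-- Powers of an element of order `p`. -/
lemma exists_inv_pow {p : ℕ} (hp : p.Prime) {σ : Γ} (hσ : σ ∈ SP p Γ) {j : ℕ}
    (hj : σ ^ j ∈ SP p Γ) : ∃ i : ℕ, (σ ^ j) ^ i = σ := by
  have h1 : ¬ p ∣ j := by
    rintro ⟨c, rfl⟩
    apply hj.1
    rw [pow_mul, hσ.2, one_pow]
  have h2 : Nat.Coprime j p := ((hp.coprime_iff_not_dvd).2 h1).symm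
  obtain ⟨i, -, hi⟩ := Nat.exists_mul_mod_eq_one_of_coprime h2 hp.one_lt
  refine ⟨i, ?_⟩
  have h3 : j * i = p * (j * i / p) + 1 := by
    have := Nat.div_add_mod (j * i) p
    rw [hi] at this
    exact this.symm
  rw [← pow_mul, h3, pow_add, pow_mul, hσ.2, one_pow, one_mul, pow_one]

variable {p l : ℕ}
  (hN : ∀ σ ∈ SP p Γ, NWC (Cz z0 : Subalgebra k (FractionRing S)) (fun x => ρ σ x - x) l (F σ))

include hN hρ hi in
/-- The compatible family. -/
theorem sigFam [Algebra.Smooth k (Cz z0 : Subalgebra k (FractionRing S))] (hp : p.Prime)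
    (hl : 0 < l)
    (hin : ∀ x : ProjectiveSpectrum 𝒜, Nat.card (InS ρS x.asHomogeneousIdeal.toIdeal) = 1 ∨
      Nat.card (InS ρS x.asHomogeneousIdeal.toIdeal) = p) :
    SigFam k (aC hz z0 hD ρS ρ hρ hgr hi) p l (FR hz z0 hD F) where
  centre σ hσ := rwc_comap (eC hz z0 hD) (hN σ hσ).centre
  conj := by
    intro γ σ hσ d b hb
    rw [mem_FR] at hb ⊢
    have hγ : ∀ x ∈ (Cz z0 : Subalgebra k (FractionRing S)),
        ρ γ x ∈ (Cz z0 : Subalgebra k (FractionRing S)) := rho_Cz z0 ρS ρ hρ hi γ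
    have hsy : ∀ x, (ρ γ).symm x = ρ γ⁻¹ x := by
      intro x
      rw [AlgEquiv.symm_apply_eq]
      have h2 : (ρ γ * ρ γ⁻¹) x = x := by
        rw [← map_mul, mul_inv_cancel, map_one]
        rfl
      exact h2.symm
    have hγ' : ∀ x ∈ (Cz z0 : Subalgebra k (FractionRing S)),
        (ρ γ).symm x ∈ (Cz z0 : Subalgebra k (FractionRing S)) := by
      intro x hx
      rw [hsy]
      exact rho_Cz z0 ρS ρ hρ hi γ⁻¹ x hx
    have hσ' : γ * σ * γ⁻¹ ∈ SP p Γ := by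
      refine ⟨fun h => hσ.1 ?_, ?_⟩
      · have h2 : σ = γ⁻¹ * (γ * σ * γ⁻¹) * γ := by group
        rw [h2, h, mul_one, inv_mul_cancel]
      · rw [conj_pow, hσ.2, mul_one, mul_inv_cancel]
    have h1 := NWC.conj (ρ σ) (hN σ hσ) (ρ γ) hγ hγ' (ρ (γ * σ * γ⁻¹)) (by
      intro x
      have h2 : (ρ (γ * σ * γ⁻¹) * ρ γ) x = (ρ γ * ρ σ) x := by
        rw [← map_mul, ← map_mul]
        congr 2
        group
      exact h2)
    have h2 := nwc_le (ρ (γ * σ * γ⁻¹)) (rho_Cz z0 ρS ρ hρ hi _) hl (hN _ hσ') h1 d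
    apply h2
    rw [Ideal.mem_comap]
    have h3 : ((resE (ρ γ) hγ hγ').symm : (Cz z0 : Subalgebra k (FractionRing S)) →+* _)
        (eC hz z0 hD (aC hz z0 hD ρS ρ hρ hgr hi γ b)) = eC hz z0 hD b := by
      change (resE (ρ γ) hγ hγ').symm _ = _
      rw [AlgEquiv.symm_apply_eq]
      exact Subtype.ext (eC_aC hz z0 hD ρS ρ hρ hgr hi γ b)
    rw [h3]
    exact hb
  gen := by
    intro σ hσ j hj d
    obtain ⟨i, hi'⟩ := exists_inv_pow hp hσ hj
    have h1 := NWC.pow (ρ σ) (hN σ hσ) (rho_Cz z0 ρS ρ hρ hi σ) (j := j) (i := i) (by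
      rw [← map_pow, ← map_pow, hi'])
    have h2 := hN _ hj
    have h3 : ρ (σ ^ j) = ρ σ ^ j := map_pow _ _ _
    rw [← h3] at h1
    exact Ideal.comap_mono (nwc_le (ρ (σ ^ j)) (rho_Cz z0 ρS ρ hρ hi _) hl h1 h2 d)
  raise := by
    intro σ hσ d b hb
    rw [mem_FR] at hb ⊢
    refine (hN σ hσ).raise d _ hb _ ?_
    rw [map_sub]
    change _ - _ = _
    rw [← eC_aC hz z0 hD ρS ρ hρ hgr hi]
  zeros := by
    intro σ hσ b hb
    rw [mem_FR] at hb
    obtain ⟨M, hM⟩ := (hN σ hσ).zeros hb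
    refine ⟨M, ?_⟩
    unfold zI at hM
    have h1 := Ideal.mem_map_of_mem
      ((eC hz z0 hD).symm : (Cz z0 : Subalgebra k (FractionRing S)) →+* CR hz z0 hD) hM
    have h2 : ((eC hz z0 hD).symm : (Cz z0 : Subalgebra k (FractionRing S)) →+* CR hz z0 hD)
        (eC hz z0 hD b ^ M) = b ^ M := by
      change (eC hz z0 hD).symm _ = _
      rw [map_pow, AlgEquiv.symm_apply_apply]
    rw [h2, Ideal.map_span] at h1
    refine Ideal.span_mono ?_ h1
    rintro _ ⟨y, ⟨c, hc⟩, rfl⟩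
    refine ⟨(eC hz z0 hD).symm c, ?_⟩
    apply eC_ext
    change _ = ((eC hz z0 hD ((eC hz z0 hD).symm y) :
      (Cz z0 : Subalgebra k (FractionRing S))) : FractionRing S)
    rw [AlgEquiv.apply_symm_apply, hc, map_sub]
    change ((eC hz z0 hD (aC hz z0 hD ρS ρ hρ hgr hi σ ((eC hz z0 hD).symm c)) :
      (Cz z0 : Subalgebra k (FractionRing S))) : FractionRing S) -
      ((eC hz z0 hD ((eC hz z0 hD).symm c) : (Cz z0 : Subalgebra k (FractionRing S))) :
        FractionRing S) = _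
    rw [eC_aC, AlgEquiv.apply_symm_apply]
  lead := by
    intro σ hσ d hd b hb
    rw [mem_FR] at hb
    obtain ⟨N, hN'⟩ := (hN σ hσ).lead d hd _ hb
    refine ⟨N, ?_⟩
    have h1 := Ideal.mem_map_of_mem
      ((eC hz z0 hD).symm : (Cz z0 : Subalgebra k (FractionRing S)) →+* CR hz z0 hD) hN'
    have h2 : ((eC hz z0 hD).symm : (Cz z0 : Subalgebra k (FractionRing S)) →+* CR hz z0 hD)
        (eC hz z0 hD b ^ N) = b ^ N := by
      change (eC hz z0 hD).symm _ = _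
      rw [map_pow, AlgEquiv.symm_apply_apply]
    rw [h2, Ideal.map_sup, Ideal.map_span] at h1
    have hsy : ∀ (e : ℕ) (c : (Cz z0 : Subalgebra k (FractionRing S))), c ∈ F σ e →
        (eC hz z0 hD).symm c ∈ FR hz z0 hD F σ e := by
      intro e c hc
      rw [mem_FR, AlgEquiv.apply_symm_apply]
      exact hc
    refine SetLike.le_def.1 (sup_le (le_trans ?_ le_sup_left) (le_trans (Ideal.span_mono ?_)
      le_sup_right)) h1
    · rw [Ideal.map_le_iff_le_comap]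
      exact fun x hx => hsy _ x hx
    · rintro _ ⟨y, ⟨e, c, hc, b', hb', z', hz', rfl⟩, rfl⟩
      refine ⟨e, (eC hz z0 hD).symm c, hsy e c hc, (eC hz z0 hD).symm b', hsy _ b' hb', ?_⟩
      have h3 : (eC hz z0 hD).symm z' = aC hz z0 hD ρS ρ hρ hgr hi σ ((eC hz z0 hD).symm c) -
          (eC hz z0 hD).symm c := by
        apply eC_ext
        rw [AlgEquiv.apply_symm_apply, hz', map_sub]
        change _ = ((eC hz z0 hD (aC hz z0 hD ρS ρ hρ hgr hi σ ((eC hz z0 hD).symm c)) :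
          (Cz z0 : Subalgebra k (FractionRing S))) : FractionRing S) -
          ((eC hz z0 hD ((eC hz z0 hD).symm c) : (Cz z0 : Subalgebra k (FractionRing S))) :
            FractionRing S)
        rw [eC_aC, AlgEquiv.apply_symm_apply]
      rw [← h3]
      exact map_mul (eC hz z0 hD).symm b' z'
  inert := by
    intro P hP
    obtain ⟨x, hx⟩ := In_eq hz z0 hD ρS ρ hρ hgr hi P hP
    rw [hx]
    exact hin x
  sep := by
    intro σ hσ P hP hle b
    apply hle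
    rw [mem_FR]
    have h0 : eC hz z0 hD b ∈ F σ 0 := by
      rw [(hN σ hσ).centre.zero]
      trivial
    have h1 := (hN σ hσ).raise 0 _ h0 (eC hz z0 hD (aC hz z0 hD ρS ρ hρ hgr hi σ b - b)) (by
      rw [map_sub]
      change _ - _ = _
      rw [← eC_aC hz z0 hD ρS ρ hρ hgr hi])
    exact (hN σ hσ).centre.anti _ _ (by omega) h1

include hρ in
/-- The action is faithful on the chart. -/
lemma faith_CR (hf : ∀ γ, (∀ s, ρS γ s = s) → γ = 1) (γ : Γ)
    (h : ∀ f ∈ CR hz z0 hD, ga ρ (ℤ × Unit) γ f = f) : γ = 1 := by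
  apply hf
  intro s
  have h1 := h _ (iC hz z0 hD s).2
  have h2 := congrArg (aug k) h1
  rw [aug_ga] at h2
  have h3 : aug k ((iC hz z0 hD s : CR hz z0 hD) : ML (FractionRing S) (ℤ × Unit)) = ev k S s :=
    eC_iC hz z0 hD s
  rw [h3] at h2
  have h4 : ev k S (ρS γ s) = ev k S s := by rw [← hρ, h2]
  exact ev_inj h4

end fam

end Pool.Agent.U197.GQ
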