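import Pool.Agent.U197.GQ.N5

/-!
Homogeneity, gluing and the atlas of the quotient of a projective variety by a finite group.
-/

set_option autoImplicit false
set_option linter.unusedSectionVars false

open MvPolynomial

namespace Pool.Agent.U197.GQ

open Pool.Agent.W559.Mg Pool.Agent.W559.Et Pool.Agent.H920R2 Pool.Agent.U197.SF

section hom

variable {k S : Type} [Field k] [CommRing S] [IsDomain S] [Algebra k S] {𝒜 : ℕ → Submodule k S}
  [GradedAlgebra 𝒜] {z : S} {D : ℕ} (hz : z ∈ 𝒜 D) (z0 : z ≠ 0) (hD : 0 < D)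
  {Γ : Type} [Group Γ] {p : ℕ} {F : Γ → ℕ → Ideal (Cz z0 : Subalgebra k (FractionRing S))}

/-- Homogeneous filtrations. -/
lemma hom_FR {σ : Γ} {d : ℕ} (h : F σ d = Ideal.span {y | y ∈ F σ d ∧ ∃ m : ℤ, Hz 𝒜 z D m y})
    {b : CR hz z0 hD} (hb : b ∈ FR hz z0 hD F σ d) (m : ℤ × Unit) :
    (⟨mo m ((b : ML (FractionRing S) (ℤ × Unit)).coeff m), gr_CR hz z0 hD b b.2 m⟩ :
      CR hz z0 hD) ∈ FR hz z0 hD F σ d := by
  have h1 : b ∈ Ideal.span (((eC hz z0 hD).symm :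
      (Cz z0 : Subalgebra k (FractionRing S)) →+* CR hz z0 hD) ''
      {y | y ∈ F σ d ∧ ∃ m : ℤ, Hz 𝒜 z D m y}) := by
    rw [← Ideal.map_span, ← h]
    have h2 := Ideal.mem_map_of_mem ((eC hz z0 hD).symm :
      (Cz z0 : Subalgebra k (FractionRing S)) →+* CR hz z0 hD) ((mem_FR hz z0 hD).1 hb)
    have h3 : ((eC hz z0 hD).symm : (Cz z0 : Subalgebra k (FractionRing S)) →+* CR hz z0 hD)
        (eC hz z0 hD b) = b := (eC hz z0 hD).symm_apply_apply b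
    rwa [h3] at h2
  have h4 := hom_span (gr_CR hz z0 hD) _ (by
    rintro _ ⟨y, ⟨-, e, he⟩, rfl⟩
    refine ⟨(e, ()), (y : FractionRing S), ?_⟩
    have h5 : mo (e, ()) (y : FractionRing S) ∈ CR hz z0 hD := (mo_mem_CR hz z0 hD).2 he
    have h6 : (eC hz z0 hD).symm y = ⟨_, h5⟩ := by
      rw [AlgEquiv.symm_apply_eq]
      apply Subtype.ext
      rw [eC_coe]
      exact (aug_mo k _ _).symm
    change (((eC hz z0 hD).symm y : CR hz z0 hD) : ML (FractionRing S) (ℤ × Unit)) = _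
    rw [h6]) h1 m
  have h7 : Ideal.span (((eC hz z0 hD).symm :
      (Cz z0 : Subalgebra k (FractionRing S)) →+* CR hz z0 hD) ''
      {y | y ∈ F σ d ∧ ∃ m : ℤ, Hz 𝒜 z D m y}) ≤ FR hz z0 hD F σ d := by
    rw [Ideal.span_le]
    rintro _ ⟨y, ⟨hy, -⟩, rfl⟩
    change (eC hz z0 hD).symm y ∈ FR hz z0 hD F σ d
    rw [mem_FR, AlgEquiv.apply_symm_apply]
    exact hy
  exact h7 h4

lemma hom_FFa (h : ∀ σ ∈ SP p Γ, ∀ d,
    F σ d = Ideal.span {y | y ∈ F σ d ∧ ∃ m : ℤ, Hz 𝒜 z D m y}) (d : ℕ)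
    (b : CR hz z0 hD) (hb : b ∈ FFa p (FR hz z0 hD F) d) (m : ℤ × Unit) :
    ∃ c ∈ FFa p (FR hz z0 hD F) d, (c : ML (FractionRing S) (ℤ × Unit)) =
      mo m ((b : ML (FractionRing S) (ℤ × Unit)).coeff m) := by
  refine ⟨⟨_, gr_CR hz z0 hD b b.2 m⟩, ?_, rfl⟩
  rw [mem_FFa] at hb ⊢
  exact fun σ hσ => hom_FR hz z0 hD (h σ hσ d) (hb σ hσ) m

end hom

section glue

variable {k S : Type} [Field k] [CommRing S] [IsDomain S] [Algebra k S] {𝒜 : ℕ → Submodule k S}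
  [GradedAlgebra 𝒜] {z z' : S} {D : ℕ} (hz : z ∈ 𝒜 D) (z0 : z ≠ 0) (hD : 0 < D)
  (hz' : z' ∈ 𝒜 D) (z0' : z' ≠ 0)

include hz' z0' z0 in
lemma hz_change {d : ℤ} {x : FractionRing S} (h : Hz 𝒜 z' D d x) :
    ∃ n0 : ℕ, ∀ n, n0 ≤ n → Hz 𝒜 z D d ((ev k S z' / ev k S z) ^ n * x) := by
  obtain ⟨N, m, hm, s, hs, rfl⟩ := h
  refine ⟨N, fun n hn => ?_⟩
  obtain ⟨e, rfl⟩ := Nat.exists_eq_add_of_le hn
  refine ⟨N + e, m + e * D, by push_cast; rw [hm]; ring, s * z' ^ e,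
    SetLike.mul_mem_graded hs (SetLike.pow_mem_graded e hz'), ?_⟩
  have h1 : ev k S z ≠ 0 := ev_ne z0
  have h2 : ev k S z' ≠ 0 := ev_ne z0'
  rw [map_mul, map_pow, div_pow, pow_add, pow_add]
  field_simp

lemma coeff_mo_zero_pow {K : Type} [Field K] {M : Type} [AddCommGroup M] (c : K) (n : ℕ)
    (f : ML K M) (m : M) : ((mo 0 c ^ n * f : ML K M)).coeff m = c ^ n * f.coeff m := by
  rw [mo_pow, smul_zero, coeff_mo_mul, sub_zero]

lemma gl_CR {f : ML (FractionRing S) (ℤ × Unit)} (hf : f ∈ CR hz' z0' hD) :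
    ∃ n0 : ℕ, ∀ n, n0 ≤ n → mo 0 (ev k S z' / ev k S z) ^ n * f ∈ CR hz z0 hD := by
  classical
  choose N hN using fun m => hz_change z0 hz' z0' (hf m)
  refine ⟨∑ m ∈ f.coeff.support, N m, fun n hn m => ?_⟩
  rw [coeff_mo_zero_pow]
  by_cases hm : m ∈ f.coeff.support
  · exact hN m n ((Finset.single_le_sum (fun _ _ => Nat.zero_le _) hm).trans hn)
  · rw [Finsupp.notMem_support_iff.1 hm, mul_zero]
    exact Hz.zero hD _

variable {Γ : Type} [Group Γ] [Finite Γ] (ρS : Γ →* (S ≃ₐ[k] S))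
  (ρ : Γ →* (FractionRing S ≃ₐ[k] FractionRing S))
  (hρ : ∀ γ s, ρ γ (ev k S s) = ev k S (ρS γ s))
  (hgr : ∀ γ n, ∀ s ∈ 𝒜 n, ρS γ s ∈ 𝒜 n) (hi : ∀ γ, ρS γ z = z) (hi' : ∀ γ, ρS γ z' = z')
  {p l : ℕ} {F : Γ → ℕ → Ideal (Cz z0 : Subalgebra k (FractionRing S))}
  {F' : Γ → ℕ → Ideal (Cz z0' : Subalgebra k (FractionRing S))}
  (hN : ∀ σ ∈ SP p Γ, NWC (Cz z0 : Subalgebra k (FractionRing S)) (fun x => ρ σ x - x) l (F σ))
  (hN' : ∀ σ ∈ SP p Γ, NWC (Cz z0' : Subalgebra k (FractionRing S)) (fun x => ρ σ x - x) l (F' σ))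

include hρ hi hi' hN hN' in
/-- Gluing. -/
theorem glue_FFa [Algebra.Smooth k (Cz z0 : Subalgebra k (FractionRing S))]
    [Algebra.Smooth k (Cz z0' : Subalgebra k (FractionRing S))] (hl : 0 < l) (d : ℕ)
    (b : CR hz' z0' hD) (hb : b ∈ FFa p (FR hz' z0' hD F') d) :
    ∃ n : ℕ, ∃ c ∈ FFa p (FR hz z0 hD F) d, (c : ML (FractionRing S) (ℤ × Unit)) =
      (mo 0 (ev k S z' / ev k S z)) ^ n * (b : ML (FractionRing S) (ℤ × Unit)) := by
  classical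
  have _ : Fintype Γ := Fintype.ofFinite Γ
  have h1 : ev k S z ≠ 0 := ev_ne z0
  have h2 : ev k S z' ≠ 0 := ev_ne z0'
  have hc : ev k S z' / ev k S z ∈ (Cz z0 : Subalgebra k (FractionRing S)) :=
    ⟨1, z', by rw [pow_one]⟩
  have key : ∀ σ : Γ, ∃ n : ℕ, σ ∈ SP p Γ → ∃ g ∈ F σ d, (g : FractionRing S) =
      (ev k S z' / ev k S z) ^ n *
        ((eC hz' z0' hD b : (Cz z0' : Subalgebra k (FractionRing S))) : FractionRing S) := by
    intro σ
    by_cases hσ : σ ∈ SP p Γ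
    · have hst : ∀ x ∈ (Cz z0 : Subalgebra k (FractionRing S)), (fun x => ρ σ x - x) x ∈
          (Cz z0 : Subalgebra k (FractionRing S)) := fun x hx =>
        Subalgebra.sub_mem _ (rho_Cz z0 ρS ρ hρ hi σ x hx) hx
      have hst' : ∀ x ∈ (Cz z0' : Subalgebra k (FractionRing S)), (fun x => ρ σ x - x) x ∈
          (Cz z0' : Subalgebra k (FractionRing S)) := fun x hx =>
        Subalgebra.sub_mem _ (rho_Cz z0' ρS ρ hρ hi' σ x hx) hx
      obtain ⟨n, g, hg, hgf⟩ := glue_nwc (u := 1) (n0 := 0) hc (by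
          rintro x ⟨N, s, rfl⟩
          refine ⟨N, N, s, ?_⟩
          rw [div_pow]
          field_simp) hst hst' (by
          intro x
          have h3 : ρ σ (ev k S z' / ev k S z) = ev k S z' / ev k S z := by
            rw [map_div₀, hρ, hρ, hi, hi']
          change ρ σ (ev k S z' / ev k S z * x) - ev k S z' / ev k S z * x =
            ev k S z' / ev k S z * (ρ σ x - x)
          rw [map_mul, h3, mul_sub])
        (by rw [pow_zero, one_mul]; exact Subalgebra.one_mem _)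
        (fun x => by rw [one_mul]) hl (hN σ hσ) (hN' σ hσ) d (eC hz' z0' hD b)
        ((mem_FFa.1 hb) σ hσ)
      exact ⟨n, fun _ => ⟨g, hg, hgf⟩⟩
    · exact ⟨0, fun h => absurd h hσ⟩
  choose N hNσ using key
  obtain ⟨n0, hn0⟩ := gl_CR hz z0 hD hz' z0' b.2
  have hle : n0 ≤ n0 + ∑ σ : Γ, N σ := Nat.le_add_right _ _
  refine ⟨n0 + ∑ σ : Γ, N σ, ⟨_, hn0 _ hle⟩, ?_, rfl⟩
  rw [mem_FFa]
  intro σ hσ
  rw [mem_FR]
  obtain ⟨g, hg, hgf⟩ := hNσ σ hσ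
  have h3 : N σ ≤ n0 + ∑ σ : Γ, N σ :=
    (Finset.single_le_sum (fun _ _ => Nat.zero_le _) (Finset.mem_univ σ)).trans
      (Nat.le_add_left _ _)
  obtain ⟨e, he⟩ := Nat.exists_eq_add_of_le h3
  have h4 : eC hz z0 hD ⟨_, hn0 _ hle⟩ = (⟨_, hc⟩ : (Cz z0 : Subalgebra k (FractionRing S))) ^ e *
      g := by
    apply Subtype.ext
    rw [eC_coe]
    change aug k (mo 0 (ev k S z' / ev k S z) ^ (n0 + ∑ σ : Γ, N σ) *
      (b : ML (FractionRing S) (ℤ × Unit))) = (ev k S z' / ev k S z) ^ e * (g : FractionRing S)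
    rw [map_mul, map_pow, aug_mo, hgf, he, pow_add, eC_coe]
    ring
  rw [h4]
  exact Ideal.mul_mem_left _ _ hg

include hρ hi hN in
/-- The centre is not empty. -/
theorem pos_FFa (hf : ∀ γ, (∀ s, ρS γ s = s) → γ = 1) (hl : 0 < l) :
    ∃ b ∈ FFa p (FR hz z0 hD F) 1, b ≠ 0 := by
  classical
  have _ : Fintype Γ := Fintype.ofFinite Γ
  have key : ∀ σ : Γ, ∃ y : (Cz z0 : Subalgebra k (FractionRing S)), y ≠ 0 ∧
      (σ ∈ SP p Γ → y ∈ F σ 1) := by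
    intro σ
    by_cases hσ : σ ∈ SP p Γ
    · have h1 : ∃ s, ρS σ s ≠ s := by
        by_contra hcon
        push Not at hcon
        exact hσ.1 (hf σ hcon)
      obtain ⟨s, hs⟩ := h1
      have h2 : ev k S (ρS σ s - s) ∈ (Cz z0 : Subalgebra k (FractionRing S)) := ev_mem_Cz z0 _
      refine ⟨⟨_, h2⟩, ?_, fun _ => ?_⟩
      · intro h3
        have h4 : ev k S (ρS σ s - s) = 0 := congrArg Subtype.val h3
        rw [map_eq_zero_iff _ (ev_inj (k := k))] at h4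
        exact hs (sub_eq_zero.1 h4)
      · have h3 : (⟨ev k S s, ev_mem_Cz z0 s⟩ : (Cz z0 : Subalgebra k (FractionRing S))) ∈
            F σ 0 := by
          rw [(hN σ hσ).centre.zero]
          trivial
        have h4 := (hN σ hσ).raise 0 _ h3 ⟨_, h2⟩ (by
          change ev k S (ρS σ s - s) = ρ σ (ev k S s) - ev k S s
          rw [hρ, map_sub])
        exact (hN σ hσ).centre.anti _ _ (by omega) h4
    · exact ⟨1, one_ne_zero, fun h => absurd h hσ⟩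
  choose y hy0 hy using key
  refine ⟨(eC hz z0 hD).symm (∏ σ : Γ, y σ), ?_, ?_⟩
  · rw [mem_FFa]
    intro σ hσ
    rw [mem_FR, AlgEquiv.apply_symm_apply]
    exact Ideal.mem_of_dvd _ (Finset.dvd_prod_of_mem y (Finset.mem_univ σ)) (hy σ hσ)
  · intro h
    have h1 : (∏ σ : Γ, y σ) = 0 := by
      have h2 := congrArg (eC hz z0 hD) h
      rwa [AlgEquiv.apply_symm_apply, map_zero] at h2
    rw [Finset.prod_eq_zero_iff] at h1
    obtain ⟨σ, -, h3⟩ := h1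
    exact hy0 σ h3

end glue

end Pool.Agent.U197.GQ
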