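import Pool.Agent.U197.GQ.N6

/-!
The atlas of the quotient of a projective variety by a finite group.
-/

set_option autoImplicit false
set_option linter.unusedSectionVars false

open MvPolynomial

namespace Pool.Agent.U197.GQ

open Pool.Agent.W559.Mg Pool.Agent.W559.Et Pool.Agent.H920R2 Pool.Agent.U197.SF

section es

variable {k S : Type} [Field k] [CommRing S] [IsDomain S] [Algebra k S] {𝒜 : ℕ → Submodule k S}
  [GradedAlgebra 𝒜] {Γ : Type} [Group Γ] [Fintype Γ] (ρS : Γ →* (S ≃ₐ[k] S))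
  (ρ : Γ →* (FractionRing S ≃ₐ[k] FractionRing S))
  (hρ : ∀ γ s, ρ γ (ev k S s) = ev k S (ρS γ s))
  (hgr : ∀ γ n, ∀ s ∈ 𝒜 n, ρS γ s ∈ 𝒜 n)

/-- Elementary symmetric functions of the conjugates. -/
noncomputable def esS (c : S) (l : ℕ) : S :=
  ∑ A ∈ (Finset.univ : Finset Γ).powersetCard l, ∏ γ ∈ A, ρS γ c

include hρ in
lemma ev_esS (c : S) (l : ℕ) : ev k S (esS ρS c l) = es ρ (ev k S c) l := by
  unfold esS es
  rw [map_sum]
  refine Finset.sum_congr rfl fun A _ => ?_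
  rw [map_prod]
  exact Finset.prod_congr rfl fun γ _ => (hρ γ c).symm

include hρ in
lemma esS_inv (c : S) (l : ℕ) (γ : Γ) : ρS γ (esS ρS c l) = esS ρS c l := by
  apply ev_inj (k := k)
  rw [← hρ, ev_esS ρS ρ hρ, es_inv]

include hgr in
lemma esS_mem {c : S} (hc : c ∈ 𝒜 1) (l : ℕ) : esS ρS c l ∈ 𝒜 l := by
  unfold esS
  refine Submodule.sum_mem _ fun A hA => ?_
  have h1 : ∏ γ ∈ A, ρS γ c ∈ 𝒜 (∑ _γ ∈ A, 1) :=
    SetLike.prod_mem_graded 𝒜 (fun _ => 1) (fun γ => ρS γ c) fun γ _ => hgr γ 1 c hc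
  rwa [Finset.sum_const, (Finset.mem_powersetCard.1 hA).2, smul_eq_mul, mul_one] at h1

variable {m : ℕ} (b : Fin (m + 1) → S) (hb : ∀ i, b i ∈ 𝒜 1) (hb0 : ∀ i, b i ≠ 0)
  (hbg : Algebra.adjoin k (Set.range b) = ⊤)

/-- The index set of the charts. -/
def TS : Type := {q : Fin (m + 1) × Fin (Fintype.card Γ) // esS ρS (b q.1) (q.2 + 1) ≠ 0}

noncomputable instance : Finite (TS ρS b) := by unfold TS; infer_instance

/-- The elements of the charts. -/
noncomputable def zS (t : TS ρS b) : S := esS ρS (b t.1.1) (t.1.2 + 1) ^ (DD Γ / (t.1.2 + 1))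

include hb hgr in
lemma zS_mem (t : TS ρS b) : zS ρS b t ∈ 𝒜 (DD Γ) := by
  have h1 := SetLike.pow_mem_graded (DD Γ / (t.1.2 + 1)) (esS_mem ρS hgr (hb t.1.1) (t.1.2 + 1))
  rwa [smul_eq_mul, Nat.div_mul_cancel (dvd_DD t.1.2)] at h1

lemma zS_ne (t : TS ρS b) : zS ρS b t ≠ 0 := pow_ne_zero _ t.2

include hρ in
lemma zS_inv (t : TS ρS b) (γ : Γ) : ρS γ (zS ρS b t) = zS ρS b t := by
  unfold zS
  rw [map_pow, esS_inv ρS ρ hρ]

include hρ in
lemma ev_zS (t : TS ρS b) : ev k S (zS ρS b t) =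
    es ρ (ev k S (b t.1.1)) (t.1.2 + 1) ^ (DD Γ / (t.1.2 + 1)) := by
  unfold zS
  rw [map_pow, ev_esS ρS ρ hρ]

include hρ hb0 in
/-- The coordinates are dominated by the elements of the charts. -/
lemma exists_TS (V : ValuationSubring (FractionRing S)) (i : Fin (m + 1)) : ∃ t : TS ρS b,
    V.valuation (ev k S (b i)) ^ DD Γ ≤ V.valuation (ev k S (zS ρS b t)) := by
  have hi0 : ev k S (b i) ≠ 0 := ev_ne (hb0 i)
  obtain ⟨l, hl, h⟩ := exists_es ρ V hi0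
  have hes : es ρ (ev k S (b i)) (l + 1) ≠ 0 := by
    intro h1
    rw [h1, map_zero] at h
    exact pow_ne_zero _ ((Valuation.ne_zero_iff _).2 hi0) (le_antisymm h zero_le)
  have hes' : esS ρS (b i) (l + 1) ≠ 0 := by
    intro h1
    apply hes
    rw [← ev_esS ρS ρ hρ, h1, map_zero]
  let t : TS ρS b := ⟨(i, ⟨l, hl⟩), hes'⟩
  have ht : ev k S (zS ρS b t) = es ρ (ev k S (b i)) (l + 1) ^ (DD Γ / (l + 1)) :=
    ev_zS ρS ρ hρ b t
  refine ⟨t, ?_⟩
  rw [ht, map_pow]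
  calc V.valuation (ev k S (b i)) ^ DD Γ =
      (V.valuation (ev k S (b i)) ^ (l + 1)) ^ (DD Γ / (l + 1)) := by
        rw [← pow_mul, Nat.mul_div_cancel' (dvd_DD (⟨l, hl⟩ : Fin (Fintype.card Γ)))]
    _ ≤ _ := pow_le_pow_left' h _

include hρ hb hb0 hbg hgr in
/-- A valuation has a chart. -/
lemma cv_CR (V : ValuationSubring (FractionRing S))
    (hV : ∀ c : k, algebraMap k (FractionRing S) c ∈ V) :
    ∃ t E' ψ, Nrm V E' ψ (CR (zS_mem ρS hgr b hb t) (zS_ne ρS b t) (DD_pos Γ)) := by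
  classical
  choose tt htt using exists_TS ρS ρ hρ b hb0 V
  obtain ⟨i0, hi0⟩ := Finite.exists_max
    (fun i : Fin (m + 1) => V.valuation (ev k S (zS ρS b (tt i))))
  obtain ⟨i1, hi1⟩ := Finite.exists_max
    (fun i : Fin (m + 1) => V.valuation (ev k S (b i)))
  have hy0 : ev k S (b i1) ≠ 0 := ev_ne (hb0 i1)
  have hz0 : ev k S (zS ρS b (tt i0)) ≠ 0 := ev_ne (zS_ne ρS b (tt i0))
  have hvz : V.valuation (ev k S (zS ρS b (tt i0))) ≠ 0 := (Valuation.ne_zero_iff _).2 hz0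
  have hvy : V.valuation (ev k S (b i1)) ≠ 0 := (Valuation.ne_zero_iff _).2 hy0
  have hle : V.valuation (ev k S (b i1)) ^ DD Γ ≤ V.valuation (ev k S (zS ρS b (tt i0))) :=
    (htt i1).trans (hi0 i1)
  refine ⟨tt i0, DD Γ, fun m => V.valuation (ev k S (zS ρS b (tt i0))) ^ m.1, DD_pos Γ,
    fun m => zpow_ne_zero _ hvz, fun m m' => by
      change _ ^ (m.1 + m'.1) = _
      rw [zpow_add₀ hvz], ?_⟩
  intro f hf e
  obtain ⟨N, n, hn, s, hs, hx⟩ := hf e
  rw [hx, map_div₀, map_pow]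
  have h1 : ev k S s / ev k S (b i1) ^ n ∈ V := div_mem 𝒜 b hb hbg V hV (ev k S (b i1))
    (fun i => by
      rw [← V.valuation_le_one_iff, map_div₀]
      exact div_le_one_of_le₀ (hi1 i) zero_le) n s hs
  rw [← V.valuation_le_one_iff, map_div₀, map_pow] at h1
  have h2 : V.valuation (ev k S s) ≤ V.valuation (ev k S (b i1)) ^ n :=
    (div_le_one₀ (zero_lt_iff.2 (pow_ne_zero _ hvy))).1 h1
  have h3 : V.valuation (ev k S s) ^ DD Γ ≤ V.valuation (ev k S (zS ρS b (tt i0))) ^ n := by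
    calc V.valuation (ev k S s) ^ DD Γ ≤ (V.valuation (ev k S (b i1)) ^ n) ^ DD Γ :=
          pow_le_pow_left' h2 _
      _ = (V.valuation (ev k S (b i1)) ^ DD Γ) ^ n := by rw [← pow_mul, ← pow_mul, mul_comm]
      _ ≤ _ := pow_le_pow_left' hle _
  rw [div_pow, ← pow_mul]
  have h4 : V.valuation (ev k S (zS ρS b (tt i0))) ^ e.1 =
      V.valuation (ev k S (zS ρS b (tt i0))) ^ n /
        V.valuation (ev k S (zS ρS b (tt i0))) ^ (N * DD Γ) := by
    rw [← zpow_natCast, ← zpow_natCast, ← zpow_sub₀ hvz]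
    congr 1
    push_cast
    rw [hn]
    ring
  change _ ≤ V.valuation (ev k S (zS ρS b (tt i0))) ^ e.1
  rw [h4]
  exact div_le_div_of_nonneg_right h3 zero_le

end es

end Pool.Agent.U197.GQ
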