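import Pool.Agent.U197.GQ.N7

/-!
The atlas of the quotient of a projective variety by a finite group: invariants of degree one.
-/

set_option autoImplicit false
set_option linter.unusedSectionVars false

open MvPolynomial

namespace Pool.Agent.U197.GQ

open Pool.Agent.W559.Mg Pool.Agent.W559.Et Pool.Agent.H920R2 Pool.Agent.U197.SF

section one

variable {k S : Type} [Field k] [CommRing S] [IsDomain S] [Algebra k S] {𝒜 : ℕ → Submodule k S}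
  [GradedAlgebra 𝒜] {z : S} {D : ℕ} (hz : z ∈ 𝒜 D) (z0 : z ≠ 0) (hD : 0 < D)
  {Γ : Type} [Group Γ] [Fintype Γ] (ρS : Γ →* (S ≃ₐ[k] S))
  (ρ : Γ →* (FractionRing S ≃ₐ[k] FractionRing S))
  (hρ : ∀ γ s, ρ γ (ev k S s) = ev k S (ρS γ s))
  (hgr : ∀ γ n, ∀ s ∈ 𝒜 n, ρS γ s ∈ 𝒜 n) (hi : ∀ γ, ρS γ z = z)

include hρ hgr hi in
lemma rho_Hz (γ : Γ) {d : ℤ} {x : FractionRing S} (h : Hz 𝒜 z D d x) : Hz 𝒜 z D d (ρ γ x) := by
  obtain ⟨N, n, hn, s, hs, hx⟩ := h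
  exact ⟨N, n, hn, ρS γ s, hgr γ n s hs, by rw [hx, rho_div ρS ρ hρ hi]⟩

/-- The functions on the chart, as a monoid. -/
lemma hz_ch {x : FractionRing S} (h : x ∈ ch 𝒜 z D hz z0) : Hz 𝒜 z D 0 x := by
  obtain ⟨i, s, hs, hx⟩ := h
  exact ⟨i, i * D, by push_cast; ring, s, hs, hx⟩

include hD hρ in
/-- The action on the functions on a chart is faithful. -/
lemma faith_ch (hfX : ∀ γ, (∀ n, ∀ s ∈ 𝒜 n, ∀ t ∈ 𝒜 n, ρS γ s * t = s * ρS γ t) → γ = 1) (γ : Γ)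
    (h : ∀ y ∈ ch 𝒜 z D hz z0, ρ γ y = y) : γ = 1 := by
  apply hfX
  intro n s hs t ht
  by_cases ht0 : t = 0
  · rw [ht0, mul_zero, map_zero, mul_zero]
  obtain ⟨e, rfl⟩ : ∃ e, D = e + 1 := ⟨D - 1, by omega⟩
  have hz' : ev k S z ≠ 0 := ev_ne z0
  have ht' : ev k S t ≠ 0 := ev_ne ht0
  have hdeg : n + e • n = n * (e + 1) := by rw [smul_eq_mul]; ring
  have h1 : ev k S (s * t ^ e) / ev k S z ^ n ∈ ch 𝒜 z (e + 1) hz z0 := by
    refine ⟨n, s * t ^ e, ?_, rfl⟩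
    have := SetLike.mul_mem_graded hs (SetLike.pow_mem_graded e ht)
    rwa [hdeg] at this
  have h2 : ev k S (t * t ^ e) / ev k S z ^ n ∈ ch 𝒜 z (e + 1) hz z0 := by
    refine ⟨n, t * t ^ e, ?_, rfl⟩
    have := SetLike.mul_mem_graded ht (SetLike.pow_mem_graded e ht)
    rwa [hdeg] at this
  have h3 := h _ h1
  have h4 := h _ h2
  set y1 := ev k S (s * t ^ e) / ev k S z ^ n with hy1
  set y2 := ev k S (t * t ^ e) / ev k S z ^ n with hy2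
  have hy20 : y2 ≠ 0 := by
    rw [hy2, map_mul, map_pow]
    exact div_ne_zero (mul_ne_zero ht' (pow_ne_zero _ ht')) (pow_ne_zero _ hz')
  have h5 : ev k S s * y2 = ev k S t * y1 := by
    rw [hy1, hy2, map_mul, map_mul]
    ring
  have h6 := congrArg (ρ γ) h5
  rw [map_mul, map_mul, h3, h4, hρ, hρ] at h6
  apply ev_inj (k := k)
  rw [map_mul, map_mul]
  apply mul_right_cancel₀ hy20
  calc ev k S (ρS γ s) * ev k S t * y2 = (ev k S (ρS γ s) * y2) * ev k S t := by ring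
    _ = (ev k S t * y1) * ev k S (ρS γ t) := by rw [h6]; ring
    _ = ev k S s * ev k S (ρS γ t) * y2 := by rw [← h5]; ring

include hz z0 hD hρ hgr hi in
/-- There are invariants of degree one. -/
theorem exists_one_inv (hfX : ∀ γ, (∀ n, ∀ s ∈ 𝒜 n, ∀ t ∈ 𝒜 n, ρS γ s * t = s * ρS γ t) → γ = 1)
    {c : S} (hc : c ∈ 𝒜 1) (hc0 : c ≠ 0) :
    ∃ a : FractionRing S, a ≠ 0 ∧ Hz 𝒜 z D 1 a ∧ ∀ γ, ρ γ a = a := by
  classical
  let B := ch 𝒜 z D hz z0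
  let f : Γ → (B →* FractionRing S) := fun γ =>
    ((ρ γ : FractionRing S ≃ₐ[k] FractionRing S) : FractionRing S →* FractionRing S).comp
      (B.val : B →* FractionRing S)
  have hf : ∀ γ (y : B), f γ y = ρ γ y := fun γ y => rfl
  have hinj : Function.Injective f := by
    intro γ γ' h
    have h1 : γ'⁻¹ * γ = 1 := by
      apply faith_ch hz z0 hD ρS ρ hρ hfX
      intro y hy
      have h2 : ρ γ y = ρ γ' y := by
        have h3 := congrArg (fun g : B →* FractionRing S => g ⟨y, hy⟩) h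
        exact h3
      have h3 : (ρ γ'⁻¹ * ρ γ') y = y := by
        rw [← map_mul, inv_mul_cancel, map_one]
        rfl
      rw [map_mul]
      change ρ γ'⁻¹ (ρ γ y) = y
      rw [h2]
      exact h3
    have h2 := congrArg (fun g => γ' * g) h1
    simpa using h2
  have hli := (linearIndependent_monoidHom B (FractionRing S)).comp f hinj
  have hex : ∃ y : B, ∑ γ, ρ γ (ev k S c) * ρ γ y ≠ 0 := by
    by_contra hcon
    push Not at hcon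
    have h1 := Fintype.linearIndependent_iff.1 hli (fun γ => ρ γ (ev k S c)) (by
      funext y
      rw [Finset.sum_apply]
      exact hcon y) 1
    rw [map_eq_zero] at h1
    exact ev_ne hc0 h1
  obtain ⟨y, hy⟩ := hex
  refine ⟨∑ γ, ρ γ (ev k S c) * ρ γ y, hy, ?_, fun δ => ?_⟩
  · refine Hz.sum hz z0 hD _ _ fun γ _ => ?_
    rw [← map_mul]
    apply rho_Hz ρS ρ hρ hgr hi
    have h1 : Hz 𝒜 z D ((1 : ℕ) : ℤ) (ev k S c) := Hz.of_mem hc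
    have h2 := h1.mul (hz_ch hz z0 y.2)
    rwa [Nat.cast_one, add_zero] at h2
  · rw [map_sum]
    refine Fintype.sum_equiv (Equiv.mulLeft δ) _ _ fun γ => ?_
    have h1 : ∀ x, ρ δ (ρ γ x) = ρ (δ * γ) x := by
      intro x
      rw [map_mul]
      rfl
    rw [map_mul, h1, h1]
    rfl

end one

section pb

variable {k S : Type} [Field k] [CommRing S] [IsDomain S] [Algebra k S] {𝒜 : ℕ → Submodule k S}
  [GradedAlgebra 𝒜] {Γ : Type} [Group Γ] [Fintype Γ] (ρS : Γ →* (S ≃ₐ[k] S))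
  (ρ : Γ →* (FractionRing S ≃ₐ[k] FractionRing S))
  (hρ : ∀ γ s, ρ γ (ev k S s) = ev k S (ρS γ s))
  (hgr : ∀ γ n, ∀ s ∈ 𝒜 n, ρS γ s ∈ 𝒜 n)
  {m : ℕ} (b : Fin (m + 1) → S) (hb : ∀ i, b i ∈ 𝒜 1) (hb0 : ∀ i, b i ≠ 0)
  (hbg : Algebra.adjoin k (Set.range b) = ⊤)

/-- The field of invariant rational functions. -/
noncomputable def KfS (𝒜 : ℕ → Submodule k S) [GradedAlgebra 𝒜] :
    IntermediateField k (FractionRing S) where
  carrier := {x | x ∈ L0 𝒜 ∧ ∀ γ, ρ γ x = x}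
  mul_mem' := fun ha hb => ⟨(L0 𝒜).mul_mem ha.1 hb.1, fun γ => by rw [map_mul, ha.2 γ, hb.2 γ]⟩
  add_mem' := fun ha hb => ⟨(L0 𝒜).add_mem ha.1 hb.1, fun γ => by rw [map_add, ha.2 γ, hb.2 γ]⟩
  algebraMap_mem' := fun r => ⟨(L0 𝒜).algebraMap_mem r, fun γ => (ρ γ).commutes r⟩
  inv_mem' := fun x hx => ⟨(L0 𝒜).inv_mem hx.1, fun γ => by rw [map_inv₀, hx.2 γ]⟩

lemma mem_KfS {x : FractionRing S} : x ∈ KfS ρ 𝒜 ↔ x ∈ L0 𝒜 ∧ ∀ γ, ρ γ x = x := Iff.rfl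

/-- The invariant functions on the charts. -/
def WS (𝒜 : ℕ → Submodule k S) [GradedAlgebra 𝒜] (t : TS ρS b) : Set (FractionRing S) :=
  {x | Hz 𝒜 (zS ρS b t) (DD Γ) 0 x ∧ ∀ γ, ρ γ x = x}

lemma hz_L0 {z : S} {D : ℕ} (hz : z ∈ 𝒜 D) (z0 : z ≠ 0) {x : FractionRing S}
    (h : Hz 𝒜 z D 0 x) : x ∈ L0 𝒜 := by
  obtain ⟨N, n, hn, s, hs, rfl⟩ := h
  have h1 : n = N * D := by
    have : (n : ℤ) = ((N * D : ℕ) : ℤ) := by rw [hn]; push_cast; ring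
    exact_mod_cast this
  subst h1
  refine ⟨N * D, s, z ^ N, hs, ?_, pow_ne_zero _ z0, by rw [map_pow]⟩
  have := SetLike.pow_mem_graded N hz
  rwa [smul_eq_mul] at this

/-- The chart. -/
noncomputable abbrev CT (hgr : ∀ γ n, ∀ s ∈ 𝒜 n, ρS γ s ∈ 𝒜 n) (hb : ∀ i, b i ∈ 𝒜 1)
    (t : TS ρS b) : Subalgebra k (ML (FractionRing S) (ℤ × Unit)) :=
  CR (zS_mem ρS hgr b hb t) (zS_ne ρS b t) (DD_pos Γ)

include hρ in
lemma zT_mem (t : TS ρS b) : mo ((DD Γ : ℤ), ()) (ev k S (zS ρS b t)) ∈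
    CT ρS b hgr hb t ⊓ FX ρ (ℤ × Unit) :=
  ⟨(mo_mem_CR _ _ _).2 (Hz.of_mem (zS_mem ρS hgr b hb t)), (mo_mem_FX ρ).2 fun γ => by
    rw [hρ, zS_inv ρS ρ hρ]⟩

include hρ in
lemma zT_mem' (t : TS ρS b) : mo (-((DD Γ : ℤ), ())) (ev k S (zS ρS b t))⁻¹ ∈
    CT ρS b hgr hb t ⊓ FX ρ (ℤ × Unit) := by
  refine ⟨(mo_mem_CR _ _ _).2 ⟨1, 0, ?_, 1, SetLike.one_mem_graded 𝒜, ?_⟩,
    (mo_mem_FX ρ).2 fun γ => by rw [map_inv₀, hρ, zS_inv ρS ρ hρ]⟩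
  · rw [Prod.fst_neg]
    simp
  · rw [map_one, pow_one, one_div]

include hb0 hbg hρ in
/-- **The atlas.** -/
theorem pbS (hfX : ∀ γ, (∀ n, ∀ s ∈ 𝒜 n, ∀ t ∈ 𝒜 n, ρS γ s * t = s * ρS γ t) → γ = 1)
    (t0 : TS ρS b) :
    PB {V : ValuationSubring (FractionRing S) | ∀ c : k, algebraMap k (FractionRing S) c ∈ V}
      (KfS ρ 𝒜).toSubfield (WS ρS ρ b 𝒜) (FX ρ (ℤ × Unit)) (DD Γ) (CT ρS b hgr hb)
      (fun t => ev k S (zS ρS b t) / ev k S (zS ρS b t0)) where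
  H0 t := div_ne_zero (ev_ne (zS_ne ρS b t)) (ev_ne (zS_ne ρS b t0))
  HK t := ⟨⟨DD Γ, _, _, zS_mem ρS hgr b hb t, zS_mem ρS hgr b hb t0, zS_ne ρS b t0, rfl⟩,
    fun γ => by rw [map_div₀, hρ, hρ, zS_inv ρS ρ hρ, zS_inv ρS ρ hρ]⟩
  gr t := gr_inf (gr_CR _ _ _) (gr_FX ρ)
  aa t := ⟨t, fun x hx => ⟨(mo_mem_CR _ _ _).2 hx.1, (mo_mem_FX ρ).2 hx.2⟩⟩
  inF t x hx := ⟨hz_L0 (zS_mem ρS hgr b hb t) (zS_ne ρS b t) ((mo_mem_CR _ _ _).1 hx.1),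
    (mo_mem_FX ρ).1 hx.2⟩
  Fi m a ha hm := by
    rw [mo_mem_FX] at hm ⊢
    intro γ
    rw [map_inv₀, hm γ]
  rt t t' := by
    have h1 : ev k S (zS ρS b t') / ev k S (zS ρS b t0) /
        (ev k S (zS ρS b t) / ev k S (zS ρS b t0)) =
        ev k S (zS ρS b t') / ev k S (zS ρS b t) := by
      have h2 : ev k S (zS ρS b t0) ≠ 0 := ev_ne (zS_ne ρS b t0)
      field_simp
    rw [h1]
    refine ⟨(mo_mem_CR _ _ _).2 ⟨1, DD Γ, ?_, _, zS_mem ρS hgr b hb t', ?_⟩,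
      (mo_mem_FX ρ).2 fun γ => by rw [map_div₀, hρ, hρ, zS_inv ρS ρ hρ, zS_inv ρS ρ hρ]⟩
    · rw [Prod.fst_zero]
      simp
    · rw [pow_one]
  gl t t' f hf := by
    have h1 : ev k S (zS ρS b t') / ev k S (zS ρS b t0) /
        (ev k S (zS ρS b t) / ev k S (zS ρS b t0)) =
        ev k S (zS ρS b t') / ev k S (zS ρS b t) := by
      have h2 : ev k S (zS ρS b t0) ≠ 0 := ev_ne (zS_ne ρS b t0)
      field_simp
    rw [h1]
    obtain ⟨n0, h⟩ := gl_CR (zS_mem ρS hgr b hb t) (zS_ne ρS b t) (DD_pos Γ)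
      (zS_mem ρS hgr b hb t') (zS_ne ρS b t') hf
    exact ⟨n0, h n0 le_rfl⟩
  cv V hV := cv_CR ρS ρ hρ hgr b hb hb0 hbg V hV
  E0 := DD_pos Γ
  un t m := by
    have h1 := zpow_mem' (zT_mem ρS ρ hρ hgr b hb t) (zT_mem' ρS ρ hρ hgr b hb t) m.1
    have h2 := zpow_mem' (zT_mem ρS ρ hρ hgr b hb t) (zT_mem' ρS ρ hρ hgr b hb t) (-m.1)
    have h3 : m.1 • (((DD Γ : ℤ), ()) : ℤ × Unit) = DD Γ • m := by
      ext
      simp [mul_comm]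
    refine ⟨ev k S (zS ρS b t) ^ m.1, zpow_ne_zero _ (ev_ne (zS_ne ρS b t)), ?_, ?_⟩
    · rwa [h3] at h1
    · rwa [zpow_neg, neg_smul, h3] at h2
  gen t := by
    rw [eq_top_iff]
    intro m _
    obtain ⟨a, ha0, ha, hai⟩ := exists_one_inv (zS_mem ρS hgr b hb t) (zS_ne ρS b t) (DD_pos Γ)
      ρS ρ hρ hgr (zS_inv ρS ρ hρ b t) hfX (hb 0) (hb0 0)
    have h1 : ((1 : ℤ), ()) ∈ AddSubgroup.closure {m : ℤ × Unit | ∃ a : FractionRing S, a ≠ 0 ∧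
        mo m a ∈ CT ρS b hgr hb t ⊓ FX ρ (ℤ × Unit)} :=
      AddSubgroup.subset_closure ⟨a, ha0, (mo_mem_CR _ _ _).2 ha, (mo_mem_FX ρ).2 hai⟩
    have h3 : m = m.1 • ((1 : ℤ), ()) := by
      ext
      simp
    rw [h3]
    exact AddSubgroup.zsmul_mem _ h1 _

end pb

end Pool.Agent.U197.GQ
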