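import Pool.Agent.U197.GQ.N8
import Pool.Agent.W333.Et.Modif
import Pool.Agent.W417.Et.Step
import Pool.Agent.W440.ET.Model

/-!
Smooth projective models of quotients of projective varieties by finite groups.
-/

set_option autoImplicit false
set_option linter.unusedSectionVars false

open MvPolynomial

namespace Pool.Agent.U197.GQ

open Pool.Agent.W559.Mg Pool.Agent.W559.Et Pool.Agent.H920R2 Pool.Agent.U197.SF

section main

variable {k S : Type} [Field k] [CommRing S] [IsDomain S] [Algebra k S] {𝒜 : ℕ → Submodule k S}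
  [GradedAlgebra 𝒜] {Γ : Type} [Group Γ] [Fintype Γ] (ρS : Γ →* (S ≃ₐ[k] S))
  (ρ : Γ →* (FractionRing S ≃ₐ[k] FractionRing S))
  (hρ : ∀ γ s, ρ γ (ev k S s) = ev k S (ρS γ s))
  (hgr : ∀ γ n, ∀ s ∈ 𝒜 n, ρS γ s ∈ 𝒜 n)
  {m : ℕ} (b : Fin (m + 1) → S) (hb : ∀ i, b i ∈ 𝒜 1) (hb0 : ∀ i, b i ≠ 0)
  (hbg : Algebra.adjoin k (Set.range b) = ⊤)

/-- A homogeneous nondegenerate weighted centre on the chart of the cone. -/
def HomC (𝒜 : ℕ → Submodule k S) [GradedAlgebra 𝒜] {z : S} (D : ℕ) (z0 : z ≠ 0)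
    (τ : FractionRing S ≃ₐ[k] FractionRing S) (l : ℕ)
    (F : ℕ → Ideal (Cz z0 : Subalgebra k (FractionRing S))) : Prop :=
  NWC (Cz z0 : Subalgebra k (FractionRing S)) (fun x => τ x - x) l F ∧
    ∀ d, F d = Ideal.span {y | y ∈ F d ∧ ∃ m : ℤ, Hz 𝒜 z D m y}

lemma HomC.scale {z : S} {D : ℕ} {z0 : z ≠ 0} {τ : FractionRing S ≃ₐ[k] FractionRing S} {l : ℕ}
    {F : ℕ → Ideal (Cz z0 : Subalgebra k (FractionRing S))} (h : HomC 𝒜 D z0 τ l F) {L : ℕ}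
    (hL : l ∣ L) (hL0 : 0 < L) : ∃ F', HomC 𝒜 D z0 τ L F' := by
  obtain ⟨c, rfl⟩ := hL
  obtain ⟨q, rfl⟩ : ∃ q, c = q + 1 := by
    refine ⟨c - 1, ?_⟩
    have : c ≠ 0 := by
      rintro rfl
      simp at hL0
    omega
  refine ⟨fun d => F (cd q d), ?_, fun d => h.2 _⟩
  rw [mul_comm]
  exact h.1.scale q

include hρ hb hb0 hbg hgr in
/-- **Smooth projective models of the quotients.** -/
theorem modelS [PerfectField k] {p : ℕ} (hp : p.Prime)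
    (hsm : ∀ t : TS ρS b, Algebra.Smooth k
      (Cz (zS_ne ρS b t) : Subalgebra k (FractionRing S)))
    (hfX : ∀ γ, (∀ n, ∀ s ∈ 𝒜 n, ∀ t ∈ 𝒜 n, ρS γ s * t = s * ρS γ t) → γ = 1)
    (hin : ∀ x : ProjectiveSpectrum 𝒜, Nat.card (InS ρS x.asHomogeneousIdeal.toIdeal) = 1 ∨
      Nat.card (InS ρS x.asHomogeneousIdeal.toIdeal) = p)
    (hc : ∀ t : TS ρS b, ∀ σ ∈ SP p Γ, ∃ l, 0 < l ∧
      ∃ F, HomC 𝒜 (DD Γ) (zS_ne ρS b t) (ρ σ) l F) :
    ∃ (I : Type) (_ : Finite I) (z : I → FractionRing S) (J : Set I),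
      ModelG k (WS ρS ρ b 𝒜) (KfS ρ 𝒜).toSubfield z J := by
  classical
  have _ : Fintype (TS ρS b) := Fintype.ofFinite _
  -- a chart
  obtain ⟨t0, -⟩ := exists_TS ρS ρ hρ b hb0 ⊤ 0
  have hf : ∀ γ, (∀ s, ρS γ s = s) → γ = 1 := by
    intro γ h
    apply hfX
    intro n s _ t _
    rw [h s, h t]
  -- the common order
  have hc' : ∀ (t : TS ρS b) (σ : Γ), ∃ l, 0 < l ∧ (σ ∈ SP p Γ →
      ∃ F, HomC 𝒜 (DD Γ) (zS_ne ρS b t) (ρ σ) l F) := by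
    intro t σ
    by_cases hσ : σ ∈ SP p Γ
    · obtain ⟨l, hl, h⟩ := hc t σ hσ
      exact ⟨l, hl, fun _ => h⟩
    · exact ⟨1, one_pos, fun h => absurd h hσ⟩
  choose l hl0 hl using hc'
  let L : ℕ := ∏ t, ∏ σ, l t σ
  have hL : 0 < L := Finset.prod_pos fun t _ => Finset.prod_pos fun σ _ => hl0 t σ
  have hdvd : ∀ t σ, l t σ ∣ L := fun t σ =>
    (Finset.dvd_prod_of_mem (fun σ => l t σ) (Finset.mem_univ σ)).trans
      (Finset.dvd_prod_of_mem (fun t => ∏ σ, l t σ) (Finset.mem_univ t))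
  have hF' : ∀ (t : TS ρS b) (σ : Γ),
      ∃ F : ℕ → Ideal (Cz (zS_ne ρS b t) : Subalgebra k (FractionRing S)),
      σ ∈ SP p Γ → HomC 𝒜 (DD Γ) (zS_ne ρS b t) (ρ σ) L F := by
    intro t σ
    by_cases hσ : σ ∈ SP p Γ
    · obtain ⟨F, hF⟩ := hl t σ hσ
      obtain ⟨F', hF'⟩ := hF.scale (hdvd t σ) hL
      exact ⟨F', fun _ => hF'⟩
    · exact ⟨fun _ => ⊥, fun h => absurd h hσ⟩
  choose F hF using hF'
  have hN : ∀ t, ∀ σ ∈ SP p Γ, NWC (Cz (zS_ne ρS b t) : Subalgebra k (FractionRing S))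
      (fun x => ρ σ x - x) L (F t σ) := fun t σ hσ => (hF t σ hσ).1
  have hfam : ∀ t, SigFam k (aC (zS_mem ρS hgr b hb t) (zS_ne ρS b t) (DD_pos Γ) ρS ρ hρ hgr
      (zS_inv ρS ρ hρ b t)) p L (FR (zS_mem ρS hgr b hb t) (zS_ne ρS b t) (DD_pos Γ) (F t)) := by
    intro t
    have _ := hsm t
    exact sigFam (zS_mem ρS hgr b hb t) (zS_ne ρS b t) (DD_pos Γ) ρS ρ hρ hgr
      (zS_inv ρS ρ hρ b t) (hN t) hp hL hin
  have hpb := pbS ρS ρ hρ hgr b hb hb0 hbg hfX t0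
  obtain ⟨T1, _, E1, C1, H1, h1⟩ := mb_of_centre ρ hpb
    (fun t => gr_CR (zS_mem ρS hgr b hb t) (zS_ne ρS b t) (DD_pos Γ))
    (fun t => ga_CR (zS_mem ρS hgr b hb t) (zS_ne ρS b t) (DD_pos Γ) ρS ρ hρ hgr
      (zS_inv ρS ρ hρ b t))
    (fun t => by
      have _ := hsm t
      exact Algebra.Smooth.of_equiv (eC (zS_mem ρS hgr b hb t) (zS_ne ρS b t) (DD_pos Γ)).symm)
    (fun t => faith_CR (zS_mem ρS hgr b hb t) (zS_ne ρS b t) (DD_pos Γ) ρS ρ hρ hf)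
    (fun t => FFa p (FR (zS_mem ρS hgr b hb t) (zS_ne ρS b t) (DD_pos Γ) (F t)))
    (fun t => (hfam t).rwc hp)
    (fun t γ d a ha => (hfam t).stab γ d ha)
    (fun t d c hc m => hom_FFa (zS_mem ρS hgr b hb t) (zS_ne ρS b t) (DD_pos Γ)
      (fun σ hσ d => (hF t σ hσ).2 d) d c hc m)
    (fun t t' d c hc => by
      have _ := hsm t
      have _ := hsm t'
      have h1 : ev k S (zS ρS b t') / ev k S (zS ρS b t0) /
          (ev k S (zS ρS b t) / ev k S (zS ρS b t0)) =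
          ev k S (zS ρS b t') / ev k S (zS ρS b t) := by
        have h2 : ev k S (zS ρS b t0) ≠ 0 := ev_ne (zS_ne ρS b t0)
        field_simp
      rw [h1]
      exact glue_FFa (zS_mem ρS hgr b hb t) (zS_ne ρS b t) (DD_pos Γ) (zS_mem ρS hgr b hb t')
        (zS_ne ρS b t') ρS ρ hρ (zS_inv ρS ρ hρ b t) (zS_inv ρS ρ hρ b t') (hN t) (hN t') hL
        d c hc)
    (fun t => pos_FFa (zS_mem ρS hgr b hb t) (zS_ne ρS b t) (DD_pos Γ) ρS ρ hρ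
      (zS_inv ρS ρ hρ b t) (hN t) hf hL)
    (fun t P hP => (hfam t).loc hp hL P hP)
  have hstep := Pool.Agent.W417.Et.step Pool.Agent.W333.Et.modif
  obtain ⟨T2, _, E2, C2, H2, h2⟩ := hstep k (FractionRing S) (ℤ × Unit) _ _ _ _ T1 E1 C1 H1 h1
  obtain ⟨T3, _, E3, C3, H3, h3⟩ := hstep k (FractionRing S) Unit _ _ _ _ T2 E2 C2 H2 h2
  exact Pool.Agent.W440.ET.model k (FractionRing S) _ _ _ T3 E3 C3 H3 h3

end main

end Pool.Agent.U197.GQ
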