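import Pool.Agent.U197.GQ.V7

/-!
Models and embeddings of fields; resolution of `Proj` of a subalgebra from a model.
-/

set_option autoImplicit false
set_option linter.unusedSectionVars false

namespace Pool.Agent.U197.GQ

open AlgebraicGeometry CategoryTheory
open Pool.Agent.W559.Mg Pool.Agent.W559.Et Pool.Agent.H920R2 Pool.Agent.U197.SF
open Pool.Agent.H519R3.RS Pool.Agent.N98.PJ Pool.Agent.U197.PQ

section map

variable {k K K' : Type} [Field k] [Field K] [Field K'] [Algebra k K] [Algebra k K']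
  (j : K' →ₐ[k] K)

lemma adjoin_map_div {I : Type} (z : I → K') (i : I) :
    Algebra.adjoin k (Set.range fun i' => j (z i') / j (z i)) =
      (Algebra.adjoin k (Set.range fun i' => z i' / z i)).map j := by
  rw [AlgHom.map_adjoin]
  congr 1
  ext x
  constructor
  · rintro ⟨i', rfl⟩
    exact ⟨_, ⟨i', rfl⟩, map_div₀ j _ _⟩
  · rintro ⟨_, ⟨i', rfl⟩, rfl⟩
    exact ⟨i', (map_div₀ j _ _).symm⟩

/-- The image of a model. -/
theorem modelG_map {𝒯 : Type} {W' : 𝒯 → Set K'} {W : 𝒯 → Set K} {L' : Subfield K'}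
    {L : Subfield K} (hW : ∀ t, W t ⊆ j '' W' t) (hL : ∀ x ∈ L', j x ∈ L) {I : Type} {z : I → K'}
    {J : Set I} (h : ModelG k W' L' z J) : ModelG k W L (fun i => j (z i)) J where
  zK i := hL _ (h.zK i)
  z0 i hi := fun h0 => h.z0 i hi ((map_eq_zero_iff j j.injective).1 h0)
  cv V hV := by
    obtain ⟨i, hi, hV'⟩ := h.cv (V.comap (j : K' →+* K)) (fun c => by
      rw [ValuationSubring.mem_comap]
      change j (algebraMap k K' c) ∈ V
      rw [j.commutes]
      exact hV c)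
    refine ⟨i, hi, fun i' => ?_⟩
    have h1 := hV' i'
    rw [ValuationSubring.mem_comap] at h1
    rw [← map_div₀]
    exact h1
  sm i hi := by
    have h1 := h.sm i hi
    rw [adjoin_map_div]
    exact Algebra.Smooth.of_equiv (Subalgebra.equivMapOfInjective _ j j.injective)
  aa i hi := by
    obtain ⟨a, ha⟩ := h.aa i hi
    refine ⟨a, fun x hx => ?_⟩
    obtain ⟨x', hx', rfl⟩ := hW a hx
    rw [adjoin_map_div]
    exact ⟨x', ha hx', rfl⟩

end map

section res

variable {k S : Type} [Field k] [CommRing S] [IsDomain S] [Algebra k S] (𝒜 : ℕ → Submodule k S)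
  [GradedAlgebra 𝒜]

/-- **Resolution of quotients** from a model of the field. -/
theorem resolution_of_model (C : Subalgebra k S) [GradedAlgebra (piece 𝒜 C)]
    (Kf : IntermediateField k (FractionRing S)) (hKf : ∀ s, ev k S s ∈ Kf ↔ s ∈ C)
    {𝒯 : Type} {D : ℕ} (hD : 0 < D) (h : 𝒯 → S) (hh : ∀ a, h a ∈ 𝒜 D)
    (h0 : ∀ a, h a ≠ 0) (hC : ∀ a, h a ∈ C)
    (hden : ∀ (d : ℕ) (t : S), t ∈ 𝒜 d → t ≠ 0 →
      ∃ (d' : ℕ) (w : S), w ∈ 𝒜 d' ∧ t * w ∈ C ∧ w ≠ 0)
    (M : IntermediateField k (FractionRing S)) (hM : ∀ x, x ∈ M ↔ x ∈ L0 𝒜 ∧ x ∈ Kf)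
    {W : 𝒯 → Set (FractionRing S)}
    (hW : ∀ a, ∀ x ∈ ch 𝒜 (h a) D (hh a) (h0 a), x ∈ Kf → x ∈ W a)
    {I : Type} [Finite I] {z : I → FractionRing S} {J : Set I}
    (hmod : ModelG k W M.toSubfield z J) :
    ∃ (Y : Scheme.{0}) (π : Y ⟶ Proj (piece 𝒜 C)), AlgebraicGeometry.IsIntegral Y ∧ IsProper π ∧
      AlgebraicGeometry.Smooth (π ≫ str (piece 𝒜 C)) ∧
      ∃ U : (Proj (piece 𝒜 C)).Opens, (U : Set (Proj (piece 𝒜 C))).Nonempty ∧ IsIso (π ∣_ U) := by
  classical
  have hHne : ∀ a, ev k S (h a) ≠ 0 := fun a => ev_ne (h0 a)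
  obtain ⟨P, hP1, hP2⟩ := exists_spmG M hmod
  have hev : ∀ n, ∀ s ∈ piece 𝒜 C n, (ev k S).comp C.val s = 0 → s = 0 := by
    intro n s _ h0
    apply Subtype.ext
    exact ev_inj (k := k) (h0.trans (map_zero _).symm)
  have hint := P.int
  obtain ⟨π, hπ1, hπ2, hπ3⟩ := exists_resG (piece 𝒜 C) ((ev k S).comp C.val) M hev P hP2 (by
    intro j
    obtain ⟨a, ha⟩ := hP1 j
    have hf : (⟨h a, hC a⟩ : C) ∈ piece 𝒜 C D := hh a
    refine ⟨D, ⟨h a, hC a⟩, hf, hHne a, hD, ?_, ?_⟩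
    · rintro _ ⟨i, s, hs, rfl⟩
      refine ha _ (hW a _ ?_ ?_)
      · exact ⟨i, s, hs, rfl⟩
      · exact Kf.div_mem ((hKf _).2 s.2) (pow_mem ((hKf _).2 (hC a)) i)
    · intro x hx
      obtain ⟨⟨d, s, t, hs, ht, ht0, rfl⟩, hxK⟩ := (hM x).1 hx
      obtain ⟨d', w, hw, htw, hw0⟩ := hden d t ht ht0
      let T : S := (t * w) ^ D
      have htw0 : t * w ≠ 0 := mul_ne_zero ht0 hw0
      have hT0 : T ≠ 0 := pow_ne_zero _ htw0
      have hTC : T ∈ C := pow_mem htw D
      have htwh : t * w ∈ 𝒜 (d + d') := SetLike.mul_mem_graded ht hw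
      have hTh : T ∈ 𝒜 ((d + d') * D) := by
        have := SetLike.pow_mem_graded D htwh
        rwa [smul_eq_mul, mul_comm] at this
      obtain ⟨e', he'⟩ : ∃ e', D = e' + 1 := ⟨D - 1, by omega⟩
      let R : S := s * w * (t * w) ^ e'
      have hRh : R ∈ 𝒜 ((d + d') * D) := by
        have h1 := SetLike.mul_mem_graded (SetLike.mul_mem_graded hs hw)
          (SetLike.pow_mem_graded e' htwh)
        have h2 : d + d' + e' • (d + d') = (d + d') * D := by rw [he', smul_eq_mul]; ring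
        rwa [h2] at h1
      have hRT : ev k S R = (ev k S s / ev k S t) * ev k S T := by
        have h1 : t * R = s * T := by
          change t * (s * w * (t * w) ^ e') = s * (t * w) ^ D
          rw [he', pow_succ]
          ring
        have h2 := ev_ne (k := k) ht0
        have h3 : ev k S t * ev k S R = ev k S s * ev k S T := by
          rw [← map_mul, ← map_mul, h1]
        rw [div_mul_eq_mul_div, ← h3]
        field_simp
      have hRC : R ∈ C := by
        rw [← hKf, hRT]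
        exact Kf.mul_mem hxK ((hKf _).2 hTC)
      have hHi : ev k S (h a) ^ (d + d') ≠ 0 := pow_ne_zero _ (hHne a)
      refine ⟨_, ⟨d + d', ⟨R, hRC⟩, hRh, rfl⟩, _, ⟨d + d', ⟨T, hTC⟩, hTh, rfl⟩, ?_, ?_⟩
      · exact div_ne_zero (ev_ne (k := k) hT0) hHi
      · change ev k S s / ev k S t = (ev k S R / ev k S (h a) ^ (d + d')) /
          (ev k S T / ev k S (h a) ^ (d + d'))
        rw [hRT]
        have h4 := ev_ne (k := k) hT0
        field_simp)
  exact ⟨P.Y, π, hint, hπ1, hπ2, hπ3⟩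

end res

section fin

variable {k S : Type} [Field k] [CommRing S] [IsDomain S] [Algebra k S] {Γ : Type} [Group Γ]
  (ρS : Γ →* (S ≃ₐ[k] S))

/-- The ring of invariants of a finite group is finitely generated. -/
theorem finiteType_inv [Finite Γ] [Algebra.FiniteType k S] (R : Subalgebra k S)
    (hR : ∀ f, f ∈ R ↔ ∀ γ, ρS γ f = f) : Algebra.FiniteType k R := by
  classical
  have _ : Fintype Γ := Fintype.ofFinite Γ
  have h1 : Algebra.IsIntegral R S := by
    refine ⟨fun s => ?_⟩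
    let P : Polynomial S := ∏ g : Γ, (Polynomial.X - Polynomial.C (ρS g s))
    have hP : P.Monic := Polynomial.monic_prod_of_monic _ _ fun g _ => Polynomial.monic_X_sub_C _
    have hmap : ∀ h : Γ, P.map ((ρS h : S →ₐ[k] S) : S →+* S) = P := by
      intro h
      change (∏ g : Γ, (Polynomial.X - Polynomial.C (ρS g s))).map _ = _
      rw [Polynomial.map_prod]
      refine Fintype.prod_equiv (Equiv.mulLeft h) _ _ fun g => ?_
      rw [Polynomial.map_sub, Polynomial.map_X, Polynomial.map_C]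
      congr 2
      change ρS h (ρS g s) = ρS (h * g) s
      rw [map_mul]
      rfl
    have hc : ∀ i, P.coeff i ∈ R := by
      intro i
      rw [hR]
      intro h
      have h2 := congrArg (fun Q : Polynomial S => Q.coeff i) (hmap h)
      simp only [Polynomial.coeff_map] at h2
      exact h2
    have hl : P ∈ Polynomial.lifts (algebraMap R S) := by
      rw [Polynomial.lifts_iff_coeff_lifts]
      intro i
      exact ⟨⟨_, hc i⟩, rfl⟩
    obtain ⟨Q, hQ, -, hQm⟩ := Polynomial.lifts_and_natDegree_eq_and_monic hl hP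
    refine ⟨Q, hQm, ?_⟩
    rw [← Polynomial.eval_map, hQ]
    change Polynomial.eval s (∏ g : Γ, (Polynomial.X - Polynomial.C (ρS g s))) = 0
    rw [Polynomial.eval_prod]
    refine Finset.prod_eq_zero (Finset.mem_univ 1) ?_
    rw [map_one, Polynomial.eval_sub, Polynomial.eval_X, Polynomial.eval_C]
    exact sub_self s
  have h2 : Algebra.FiniteType R S := by
    apply Algebra.FiniteType.of_restrictScalars_finiteType k
  have h3 : Module.Finite R S := Algebra.IsIntegral.finite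
  refine ⟨?_⟩
  refine fg_of_fg_of_fg k R S ?_ h3.1 ?_
  · exact (inferInstance : Algebra.FiniteType k S).1
  · exact Subtype.val_injective

variable {𝒜 : ℕ → Submodule k S} [GradedAlgebra 𝒜] (hgr : ∀ γ n, ∀ s ∈ 𝒜 n, ρS γ s ∈ 𝒜 n)

include hgr in
/-- The components of invariant elements are invariant. -/
lemma proj_inv (C : Subalgebra k S) (hC : ∀ s, s ∈ C ↔ ∀ γ, ρS γ s = s) :
    ∀ f ∈ C, ∀ d, GradedAlgebra.proj 𝒜 d f ∈ C := by
  classical
  intro f hf d
  rw [hC] at hf ⊢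
  intro γ
  have h1 : ∀ f : S, GradedAlgebra.proj 𝒜 d (ρS γ f) = ρS γ (GradedAlgebra.proj 𝒜 d f) := by
    intro f
    conv_lhs => rw [← DirectSum.sum_support_decompose 𝒜 f]
    rw [map_sum, map_sum]
    have h2 : ∀ i, GradedAlgebra.proj 𝒜 d (ρS γ ((DirectSum.decompose 𝒜 f i : 𝒜 i) : S)) =
        if i = d then ρS γ ((DirectSum.decompose 𝒜 f i : 𝒜 i) : S) else 0 := by
      intro i
      have h3 := hgr γ i _ (DirectSum.decompose 𝒜 f i).2
      rw [GradedAlgebra.proj_apply]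
      split_ifs with h
      · subst h
        rw [DirectSum.decompose_of_mem_same 𝒜 h3]
      · rw [DirectSum.decompose_of_mem_ne 𝒜 h3 h]
    rw [Finset.sum_congr rfl fun i _ => h2 i, Finset.sum_ite_eq']
    rw [GradedAlgebra.proj_apply]
    split_ifs with h4
    · rfl
    · rw [DFinsupp.notMem_support_iff.1 h4]
      exact (map_zero (ρS γ)).symm
  rw [← h1, hf γ]

include hgr in
/-- Every homogeneous element divides an invariant one. -/
lemma exists_inv_mul [Finite Γ] (C : Subalgebra k S) (hC : ∀ s, s ∈ C ↔ ∀ γ, ρS γ s = s)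
    (d : ℕ) (t : S) (ht : t ∈ 𝒜 d) (ht0 : t ≠ 0) :
    ∃ (d' : ℕ) (w : S), w ∈ 𝒜 d' ∧ t * w ∈ C ∧ w ≠ 0 := by
  classical
  have _ : Fintype Γ := Fintype.ofFinite Γ
  refine ⟨_, ∏ γ ∈ Finset.univ.erase (1 : Γ), ρS γ t, SetLike.prod_mem_graded 𝒜 (fun _ => d)
    (fun γ => ρS γ t) (fun γ _ => hgr γ d _ ht), ?_, ?_⟩
  · have h1 : t * ∏ γ ∈ Finset.univ.erase (1 : Γ), ρS γ t = ∏ γ : Γ, ρS γ t := by
      rw [← Finset.mul_prod_erase Finset.univ _ (Finset.mem_univ (1 : Γ)), map_one]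
      rfl
    rw [h1, hC]
    intro δ
    rw [map_prod]
    refine Fintype.prod_equiv (Equiv.mulLeft δ) _ _ fun γ => ?_
    change ρS δ (ρS γ t) = ρS (δ * γ) t
    rw [map_mul]
    rfl
  · rw [Finset.prod_ne_zero_iff]
    intro γ _ h
    exact ht0 ((map_eq_zero_iff _ (ρS γ).injective).1 h)

end fin

end Pool.Agent.U197.GQ
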