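import Pool.Agent.U197.GQ.N21

/-!
The Veronese subalgebra and its grading.
-/

set_option autoImplicit false
set_option linter.unusedSectionVars false

namespace Pool.Agent.U197.GQ

open AlgebraicGeometry CategoryTheory
open Pool.Agent.H920R2 Pool.Agent.U197.SF

section ver

variable {k S : Type} [Field k] [CommRing S] [Algebra k S] (𝒜 : ℕ → Submodule k S)
  [GradedAlgebra 𝒜] (r : ℕ)

/-- The elements whose components have degrees divisible by `r`. -/
def Ver : Subalgebra k S where
  carrier := {s | ∀ n, ¬ r ∣ n → GradedAlgebra.proj 𝒜 n s = 0}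
  mul_mem' := by
    classical
    intro s t hs ht n hn
    rw [GradedAlgebra.proj_apply, DirectSum.decompose_mul, DirectSum.coe_mul_apply]
    refine Finset.sum_eq_zero fun ij hij => ?_
    rw [Finset.mem_filter] at hij
    have h1 : ¬ r ∣ ij.1 ∨ ¬ r ∣ ij.2 := by
      by_contra hcon
      push Not at hcon
      apply hn
      rw [← hij.2]
      exact Nat.dvd_add hcon.1 hcon.2
    rcases h1 with h | h
    · have h2 := hs _ h
      rw [GradedAlgebra.proj_apply] at h2
      rw [h2, zero_mul]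
    · have h2 := ht _ h
      rw [GradedAlgebra.proj_apply] at h2
      rw [h2, mul_zero]
  add_mem' := by
    intro s t hs ht n hn
    rw [map_add, hs n hn, ht n hn, add_zero]
  algebraMap_mem' := by
    intro c n hn
    rw [GradedAlgebra.proj_apply]
    refine DirectSum.decompose_of_mem_ne 𝒜 (SetLike.algebraMap_mem_graded 𝒜 c) ?_
    rintro rfl
    exact hn (dvd_zero r)

variable {𝒜 r}

lemma mem_Ver_of_mem {n : ℕ} {s : S} (hs : s ∈ 𝒜 (r * n)) : s ∈ Ver 𝒜 r := by
  intro m hm
  rw [GradedAlgebra.proj_apply]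
  refine DirectSum.decompose_of_mem_ne 𝒜 hs ?_
  rintro rfl
  exact hm (dvd_mul_right r n)

variable (𝒜 r)

/-- The grading of the Veronese subalgebra. -/
def VG (n : ℕ) : Submodule k (Ver 𝒜 r) := (𝒜 (r * n)).comap (Ver 𝒜 r).val.toLinearMap

variable {𝒜 r}

lemma mem_VG {n : ℕ} {v : Ver 𝒜 r} : v ∈ VG 𝒜 r n ↔ (v : S) ∈ 𝒜 (r * n) := Iff.rfl

variable (𝒜)

lemma VG_coe (hr : 0 < r) (d : ℕ) (x : DirectSum ℕ fun i => VG 𝒜 r i) :
    GradedAlgebra.proj 𝒜 (r * d) ((DirectSum.coeLinearMap (VG 𝒜 r) x : Ver 𝒜 r) : S) =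
      ((x d : Ver 𝒜 r) : S) := by
  classical
  have h1 : (GradedAlgebra.proj 𝒜 (r * d)).comp ((Ver 𝒜 r).val.toLinearMap.comp
      (DirectSum.coeLinearMap (VG 𝒜 r))) = ((Ver 𝒜 r).val.toLinearMap.comp
        ((VG 𝒜 r d).subtype.comp (DirectSum.component k ℕ (fun i => VG 𝒜 r i) d))) := by
    apply DirectSum.linearMap_ext
    intro i
    ext1 y
    change GradedAlgebra.proj 𝒜 (r * d) ((DirectSum.coeLinearMap (VG 𝒜 r)
      (DirectSum.lof k ℕ (fun i => VG 𝒜 r i) i y) : Ver 𝒜 r) : S) =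
      (((DirectSum.lof k ℕ (fun i => VG 𝒜 r i) i y) d : Ver 𝒜 r) : S)
    rw [DirectSum.coeLinearMap_lof, GradedAlgebra.proj_apply]
    have hy : ((y : Ver 𝒜 r) : S) ∈ 𝒜 (r * i) := y.2
    by_cases h : i = d
    · subst h
      rw [DirectSum.lof_eq_of, DirectSum.of_eq_same, DirectSum.decompose_of_mem_same 𝒜 hy]
    · have h' : r * i ≠ r * d := fun h2 => h (Nat.eq_of_mul_eq_mul_left hr h2)
      rw [DirectSum.lof_eq_of, DirectSum.of_eq_of_ne _ _ _ (Ne.symm h),
        DirectSum.decompose_of_mem_ne 𝒜 hy h']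
      rfl
  exact congrArg (fun f => f x) h1

lemma VG_inj (hr : 0 < r) : Function.Injective (DirectSum.coeLinearMap (VG 𝒜 r)) := by
  rw [injective_iff_map_eq_zero]
  intro x hx
  ext d
  have h1 := VG_coe 𝒜 hr d x
  rw [hx] at h1
  rw [← h1]
  change GradedAlgebra.proj 𝒜 (r * d) (0 : S) = _
  rw [map_zero]
  rfl

lemma VG_surj : Function.Surjective (DirectSum.coeLinearMap (VG 𝒜 r)) := by
  classical
  intro v
  change v ∈ LinearMap.range (DirectSum.coeLinearMap (VG 𝒜 r))
  have hmem : ∀ n, GradedAlgebra.proj 𝒜 n (v : S) ∈ Ver 𝒜 r := by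
    intro n m hm
    have h1 : GradedAlgebra.proj 𝒜 n (v : S) ∈ 𝒜 n := proj_mem 𝒜 n _
    by_cases h : n = m
    · subst h
      rw [v.2 n hm, map_zero]
    · rw [GradedAlgebra.proj_apply]
      exact DirectSum.decompose_of_mem_ne 𝒜 h1 h
  have h1 : v = ∑ n ∈ (DirectSum.decompose 𝒜 (v : S)).support,
      (⟨GradedAlgebra.proj 𝒜 n (v : S), hmem n⟩ : Ver 𝒜 r) := by
    apply Subtype.ext
    rw [AddSubmonoidClass.coe_finsetSum]
    exact (DirectSum.sum_support_decompose 𝒜 (v : S)).symm
  rw [h1]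
  refine Submodule.sum_mem _ fun n _ => ?_
  by_cases hn : r ∣ n
  · obtain ⟨i, rfl⟩ := hn
    have h2 : (⟨GradedAlgebra.proj 𝒜 (r * i) (v : S), hmem _⟩ : Ver 𝒜 r) ∈ VG 𝒜 r i :=
      proj_mem 𝒜 (r * i) _
    refine ⟨DirectSum.lof k ℕ (fun i => VG 𝒜 r i) i ⟨_, h2⟩, ?_⟩
    rw [DirectSum.coeLinearMap_lof]
  · have h2 : (⟨GradedAlgebra.proj 𝒜 n (v : S), hmem n⟩ : Ver 𝒜 r) = 0 := Subtype.ext (v.2 n hn)
    rw [h2]
    exact Submodule.zero_mem _

/-- The grading of the Veronese subalgebra. -/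
@[instance_reducible]
noncomputable def gVG (hr : 0 < r) : GradedAlgebra (VG 𝒜 r) where
  one_mem := by
    change (1 : S) ∈ 𝒜 (r * 0)
    rw [mul_zero]
    exact SetLike.one_mem_graded 𝒜
  mul_mem := by
    intro i j a b ha hb
    change ((a : S) * b) ∈ 𝒜 (r * (i + j))
    rw [mul_add]
    exact SetLike.mul_mem_graded ha hb
  decompose' := fun v => (LinearEquiv.ofBijective (DirectSum.coeLinearMap (VG 𝒜 r))
    ⟨VG_inj 𝒜 hr, VG_surj 𝒜⟩).symm v
  left_inv := fun v => (LinearEquiv.ofBijective (DirectSum.coeLinearMap (VG 𝒜 r))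
    ⟨VG_inj 𝒜 hr, VG_surj 𝒜⟩).apply_symm_apply v
  right_inv := fun x => (LinearEquiv.ofBijective (DirectSum.coeLinearMap (VG 𝒜 r))
    ⟨VG_inj 𝒜 hr, VG_surj 𝒜⟩).symm_apply_apply x

end ver

section gens

variable {k S : Type} [Field k] [CommRing S] [IsDomain S] [Algebra k S] (𝒜 : ℕ → Submodule k S)
  [GradedAlgebra 𝒜] {r : ℕ} (hr : 0 < r) {m : ℕ} (b : Fin (m + 1) → S) (hb : ∀ i, b i ∈ 𝒜 1)
  (hb0 : ∀ i, b i ≠ 0) (hbg : Algebra.adjoin k (Set.range b) = ⊤)

lemma list_fun (l : List S) (hl : ∀ y ∈ l, y ∈ Set.range b) :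
    ∃ f : Fin l.length → Fin (m + 1), l.prod = ∏ i, b (f i) := by
  induction l with
  | nil => exact ⟨fun i => i.elim0, by simp⟩
  | cons a l ih =>
    obtain ⟨j, hj⟩ := hl a List.mem_cons_self
    obtain ⟨f, hf⟩ := ih fun y hy => hl y (List.mem_cons_of_mem a hy)
    refine ⟨Fin.cons j f, ?_⟩
    rw [List.prod_cons, hf]
    change a * _ = ∏ i : Fin (l.length + 1), b ((Fin.cons j f : Fin (l.length + 1) → Fin (m + 1)) i)
    rw [Fin.prod_univ_succ]
    simp [hj]

include hb in
lemma prod_mem_deg {n : ℕ} (f : Fin n → Fin (m + 1)) : ∏ i, b (f i) ∈ 𝒜 n := by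
  have h1 := SetLike.prod_mem_graded 𝒜 (fun _ => 1) (fun i => b (f i)) (F := Finset.univ)
    fun i _ => hb (f i)
  rwa [Finset.sum_const, Finset.card_univ, Fintype.card_fin, smul_eq_mul, mul_one] at h1

include hb in
lemma list_prod_deg (l : List S) (hl : ∀ y ∈ l, y ∈ Set.range b) : l.prod ∈ 𝒜 l.length := by
  obtain ⟨f, hf⟩ := list_fun b l hl
  rw [hf]
  exact prod_mem_deg 𝒜 b hb f

include hr hb hb0 hbg in
/-- The Veronese subalgebra is generated in degree one. -/
theorem exists_gen_V : ∃ (m' : ℕ) (b' : Fin (m' + 1) → Ver 𝒜 r), (∀ i, b' i ∈ VG 𝒜 r 1) ∧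
    (∀ i, b' i ≠ 0) ∧ Algebra.adjoin k (Set.range b') = ⊤ := by
  classical
  let T := Fin r → Fin (m + 1)
  have hT : ∀ f : T, ∏ i, b (f i) ∈ 𝒜 (r * 1) := fun f => by
    rw [mul_one]
    exact prod_mem_deg 𝒜 b hb f
  let c : T → Ver 𝒜 r := fun f => ⟨∏ i, b (f i), mem_Ver_of_mem (hT f)⟩
  obtain ⟨m', hm'⟩ : ∃ m', Fintype.card T = m' + 1 := by
    refine ⟨Fintype.card T - 1, ?_⟩
    have : 0 < Fintype.card T := Fintype.card_pos_iff.2 ⟨fun _ => 0⟩
    omega
  let e : Fin (m' + 1) ≃ T := (finCongr hm'.symm).trans (Fintype.equivFin T).symm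
  refine ⟨m', fun i => c (e i), fun i => hT (e i), fun i h => ?_, ?_⟩
  · have h1 : ∏ j, b (e i j) = 0 := congrArg Subtype.val h
    exact Finset.prod_ne_zero_iff.2 (fun j _ => hb0 _) h1
  · have hrange : Set.range (fun i => c (e i)) = Set.range c := by
      ext v
      constructor
      · rintro ⟨i, rfl⟩
        exact ⟨e i, rfl⟩
      · rintro ⟨f, rfl⟩
        exact ⟨e.symm f, by simp⟩
    rw [hrange]
    let W : Subalgebra k S := (Algebra.adjoin k (Set.range c)).map (Ver 𝒜 r).val
    have hcW : ∀ f : T, ∏ i, b (f i) ∈ W := fun f =>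
      ⟨c f, Algebra.subset_adjoin ⟨f, rfl⟩, rfl⟩
    have hlist : ∀ (n : ℕ) (l : List S), (∀ y ∈ l, y ∈ Set.range b) → l.length = r * n →
        l.prod ∈ W := by
      intro n
      induction n with
      | zero =>
        intro l _ hlen
        rw [mul_zero] at hlen
        rw [List.eq_nil_of_length_eq_zero hlen, List.prod_nil]
        exact W.one_mem
      | succ n ih =>
        intro l hl hlen
        have h1 : (l.take r).length = r := by
          rw [List.length_take, hlen]
          have : r ≤ r * (n + 1) := Nat.le_mul_of_pos_right r (Nat.succ_pos n)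
          omega
        have h2 : (l.drop r).length = r * n := by
          rw [List.length_drop, hlen, Nat.mul_succ]
          omega
        rw [← List.prod_take_mul_prod_drop l r]
        refine W.mul_mem ?_ (ih _ (fun y hy => hl y (List.mem_of_mem_drop hy)) h2)
        obtain ⟨f, hf⟩ := list_fun b (l.take r) fun y hy => hl y (List.mem_of_mem_take hy)
        rw [hf]
        have h3 : ∀ (q : ℕ) (hq : q = r) (g : Fin q → Fin (m + 1)), ∏ i, b (g i) ∈ W := by
          intro q hq g
          subst hq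
          exact hcW g
        exact h3 _ h1 f
    have hhom : ∀ (n : ℕ) (s : S), s ∈ 𝒜 (r * n) → s ∈ W := by
      intro n s hs
      have hs1 : s ∈ Submodule.span k (Submonoid.closure (Set.range b) : Set S) := by
        rw [← Algebra.adjoin_eq_span, hbg]
        trivial
      have key : ∀ s ∈ Submodule.span k (Submonoid.closure (Set.range b) : Set S),
          GradedAlgebra.proj 𝒜 (r * n) s ∈ W := by
        intro s hs
        induction hs using Submodule.span_induction with
        | mem x hx =>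
          obtain ⟨l, hl, rfl⟩ := Submonoid.exists_list_of_mem_closure hx
          have h1 := list_prod_deg 𝒜 b hb l hl
          by_cases h : l.length = r * n
          · rw [GradedAlgebra.proj_apply]
            rw [h] at h1
            rw [DirectSum.decompose_of_mem_same 𝒜 h1]
            exact hlist n l hl h
          · rw [GradedAlgebra.proj_apply, DirectSum.decompose_of_mem_ne 𝒜 h1 h]
            exact W.zero_mem
        | zero => rw [map_zero]; exact W.zero_mem
        | add x y _ _ hx hy => rw [map_add]; exact W.add_mem hx hy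
        | smul a x _ hx => rw [map_smul]; exact W.smul_mem hx a
      have h1 := key s hs1
      rwa [GradedAlgebra.proj_apply, DirectSum.decompose_of_mem_same 𝒜 hs] at h1
    rw [eq_top_iff]
    intro v _
    have hv : (v : S) ∈ W := by
      rw [← DirectSum.sum_support_decompose 𝒜 (v : S)]
      refine W.sum_mem fun n _ => ?_
      by_cases hn : r ∣ n
      · obtain ⟨i, rfl⟩ := hn
        exact hhom i _ (DirectSum.decompose 𝒜 (v : S) (r * i)).2
      · have h1 := v.2 n hn
        rw [GradedAlgebra.proj_apply] at h1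
        rw [h1]
        exact W.zero_mem
    obtain ⟨v', hv', hvv⟩ := hv
    have h1 : v' = v := Subtype.ext hvv
    rw [← h1]
    exact hv'

end gens

end Pool.Agent.U197.GQ
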