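import Pool.Agent.U197.GQ.V2

/-!
Transport of local coordinates along embeddings of fields.
-/

set_option autoImplicit false
set_option linter.unusedSectionVars false

namespace Pool.Agent.U197.GQ

open AlgebraicGeometry CategoryTheory
open Pool.Agent.W559.Mg Pool.Agent.W559.Et Pool.Agent.H920R2 Pool.Agent.U197.SF
open Pool.Agent.H519R3.RS Pool.Agent.N98.PJ

section transport

variable {k K K' : Type} [Field k] [Field K] [Field K'] [Algebra k K] [Algebra k K']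
  (j : K' →ₐ[k] K) {R : Subalgebra k K} {R' : Subalgebra k K'} (h1 : ∀ x ∈ R', j x ∈ R)
  (h2 : ∀ x ∈ R, ∃ x' ∈ R', j x' = x)

include h2 in
lemma span_lift {T : Set K} {T' : Set K'} (hT : ∀ t ∈ T, ∃ t' ∈ Submodule.span R' T', j t' = t)
    {v : K} (hv : v ∈ Submodule.span R T) : ∃ v' ∈ Submodule.span R' T', j v' = v := by
  induction hv using Submodule.span_induction with
  | mem v hv => exact hT v hv
  | zero => exact ⟨0, Submodule.zero_mem _, map_zero j⟩
  | add v w _ _ h h' =>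
    obtain ⟨v', hv', rfl⟩ := h
    obtain ⟨w', hw', rfl⟩ := h'
    exact ⟨v' + w', Submodule.add_mem _ hv' hw', map_add j _ _⟩
  | smul r v _ h =>
    obtain ⟨v', hv', rfl⟩ := h
    obtain ⟨r', hr', hrr⟩ := h2 r r.2
    refine ⟨r' * v', Submodule.smul_mem _ (⟨r', hr'⟩ : R') hv', ?_⟩
    rw [map_mul, hrr]
    rfl

variable {n : ℕ} {y' : Fin n → K'} {w : Fin n → ℕ} {l : ℕ} {δ : K → K} {δ' : K' → K'}

include h2 in
lemma Fk_lift {d : ℕ} {v : K} (hv : v ∈ Fk (fun i => j (y' i)) w R d) :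
    ∃ v' ∈ Fk y' w R' d, j v' = v := by
  refine span_lift j h2 ?_ hv
  rintro t ⟨α, hα, rfl⟩
  refine ⟨∏ i, y' i ^ α i, Submodule.subset_span ⟨α, hα, rfl⟩, ?_⟩
  rw [map_prod]
  exact Finset.prod_congr rfl fun i _ => map_pow j _ _

include h2 in
lemma Fk_lift' {d : ℕ} {v' : K'} (hv : j v' ∈ Fk (fun i => j (y' i)) w R d) :
    v' ∈ Fk y' w R' d := by
  obtain ⟨u, hu, huv⟩ := Fk_lift j h2 hv
  rwa [← j.injective huv]

include h1 h2 in
/-- The conditions on the local coordinates. -/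
theorem ndk_lift (hδ : ∀ x, j (δ' x) = δ (j x)) (h : NDk (fun i => j (y' i)) w δ l R) :
    NDk y' w δ' l R' where
  order := by
    intro a ha
    apply Fk_lift' j h2
    rw [hδ]
    exact h.order _ (h1 a ha)
  order_coord := by
    intro i
    apply Fk_lift' j h2
    rw [hδ]
    exact h.order_coord i
  zeros := by
    intro i hi
    obtain ⟨M, hM⟩ := h.zeros i hi
    refine ⟨M, ?_⟩
    obtain ⟨v, hv, hvv⟩ := span_lift j h2 (T' := {y | ∃ b ∈ R', y = δ' b}) (by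
      rintro t ⟨b, hb, rfl⟩
      obtain ⟨b', hb', rfl⟩ := h2 b hb
      exact ⟨δ' b', Submodule.subset_span ⟨b', hb', rfl⟩, hδ b'⟩) hM
    rw [← map_pow] at hvv
    rw [← j.injective hvv]
    exact hv
  lead := by
    intro i hi
    obtain ⟨N, hN⟩ := h.lead i hi
    refine ⟨N, ?_⟩
    obtain ⟨v, hv, hvv⟩ := span_lift j h2 (T' := LS y' w δ' l R' (N * w i)) (by
      rintro t (ht | ⟨e, c, hc, b, hb, rfl⟩)
      · obtain ⟨t', ht', rfl⟩ := Fk_lift j h2 ht
        exact ⟨t', Submodule.subset_span (Or.inl ht'), rfl⟩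
      · obtain ⟨c', hc', rfl⟩ := Fk_lift j h2 hc
        obtain ⟨b', hb', rfl⟩ := Fk_lift j h2 hb
        refine ⟨b' * δ' c', Submodule.subset_span (Or.inr ⟨e, c', hc', b', hb', rfl⟩), ?_⟩
        rw [map_mul, hδ]) hN
    rw [← map_pow] at hvv
    rw [← j.injective hvv]
    exact hv

/-- The isomorphism of the subalgebras. -/
noncomputable def eqR : R' ≃ₐ[k] R :=
  AlgEquiv.ofBijective ((j.comp R'.val).codRestrict R fun x => h1 _ x.2)
    ⟨fun _ _ hxy => Subtype.ext (j.injective (congrArg Subtype.val hxy)), fun x => by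
      obtain ⟨x', hx', hxx⟩ := h2 x x.2
      exact ⟨⟨x', hx'⟩, Subtype.ext hxx⟩⟩

lemma eqR_coe (x : R') : ((eqR j h1 h2 x : R) : K) = j x := rfl

include h2 in
/-- Étale coordinates. -/
theorem etC_lift (hy' : ∀ i, y' i ∈ R')
    (h : EtC R (fun i => j (y' i)) fun i => h1 _ (hy' i)) : EtC R' y' hy' := by
  have h3 := etale_equiv (eqR j h1 h2).symm _ h
  unfold EtC
  convert h3 using 3
  congr 1
  funext i
  rw [AlgEquiv.eq_symm_apply]
  exact Subtype.ext (eqR_coe j h1 h2 _)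

include h1 h2 in
lemma smooth_lift (h : Algebra.Smooth k R) : Algebra.Smooth k R' :=
  Algebra.Smooth.of_equiv (eqR j h1 h2).symm

end transport

section core

variable {k S : Type} [Field k] [CommRing S] [IsDomain S] [Algebra k S] {𝒜 : ℕ → Submodule k S}
  [GradedAlgebra 𝒜] {Γ : Type} [Group Γ] (ρS : Γ →* (S ≃ₐ[k] S))

/-- Coordinates on a chart give centres on the punctured cone. -/
theorem niceC_core {σ : Γ} {e : ℕ} {u q z : S} (hu1 : u ∈ 𝒜 1) (hq : q ∈ 𝒜 e)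
    (hz : z ∈ 𝒜 (e + 1)) (z0 : z ≠ 0) (hzt : z = u * q) (hσz : ρS σ z = z)
    {n : ℕ} {y : Fin n → FractionRing S} {w : Fin n → ℕ} {l : ℕ} (hl : 0 < l)
    (hyR : ∀ i, y i ∈ ch 𝒜 z (e + 1) hz z0) (het : EtC (ch 𝒜 z (e + 1) hz z0) y hyR)
    (hndR : NDk y w (fun x => rhoF ρS σ x - x) l (ch 𝒜 z (e + 1) hz z0))
    (hcR : (rhoF ρS σ (ev k S u) - ev k S u) / ev k S u ∈ Fk y w (ch 𝒜 z (e + 1) hz z0) l) :
    NiceC ρS (rhoF ρS) 𝒜 σ z := by
  have hzz : ev k S z ≠ 0 := ev_ne z0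
  have h1 : ev k S z = ev k S u * ev k S q := by rw [hzt, map_mul]
  have u0 : ev k S u ≠ 0 := fun h => hzz (by rw [h1, h, zero_mul])
  have hq0 : ev k S q ≠ 0 := fun h => hzz (by rw [h1, h, mul_zero])
  have hu : Hz 𝒜 z (e + 1) 1 (ev k S u) := by
    have h1 : Hz 𝒜 z (e + 1) ((1 : ℕ) : ℤ) (ev k S u) := Hz.of_mem hu1
    exact_mod_cast h1
  have hu' : Hz 𝒜 z (e + 1) (-1) (ev k S u)⁻¹ := by
    refine ⟨1, e, by push_cast; ring, q, hq, ?_⟩
    rw [pow_one, h1]
    field_simp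
  have hst : ∀ v ∈ (Cz z0 : Subalgebra k (FractionRing S)),
      rhoF ρS σ v ∈ (Cz z0 : Subalgebra k (FractionRing S)) :=
    tau_Cz (τS := fun s => ρS σ s) (fun s => rhoF_ev ρS σ s) hσz
  have hxC : ∀ i, (Fin.cons (ev k S u) y : Fin (n + 1) → FractionRing S) i ∈
      (Cz z0 : Subalgebra k (FractionRing S)) := by
    intro i
    refine Fin.cases ?_ (fun j => ?_) i
    · exact ev_mem_Cz z0 u
    · exact ch_le_Cz hz z0 (hyR j)
  have hord := order_Cz hz z0 (Nat.succ_pos e) (τ := rhoF ρS σ) u0 hu hu' hst hndR.order hcR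
  have hndC := ndk_cons (ch_le_Cz hz z0) (u := ev k S u) hndR hord (ev_mem_Cz z0 u)
  have hetC := etC_cons hz z0 (Nat.succ_pos e) u0 hu hu' hyR het hxC
  refine ⟨e + 1, hz, z0, l, _, Nat.succ_pos e, hσz, hl,
    nwc_of_ndk hxC (fun a ha => Subalgebra.sub_mem _ (hst a ha) ha)
      (fun a b => by rw [map_add]; ring) (fun a b => ⟨1, by
        rw [map_mul, one_smul]
        ring⟩) hndC hetC, fun d => mono_hom z0 _ _ (fun i => ?_) d⟩
  refine Fin.cases ?_ (fun j => ?_) i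
  · exact ⟨1, hu⟩
  · exact ⟨0, hz_ch hz z0 (hyR j)⟩

end core

end Pool.Agent.U197.GQ
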