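import Pool.Agent.U197.GQ.V3

/-!
The Frobenius map into the Veronese subalgebra, and points.
-/

set_option autoImplicit false
set_option linter.unusedSectionVars false

namespace Pool.Agent.U197.GQ

open AlgebraicGeometry CategoryTheory
open Pool.Agent.W559.Mg Pool.Agent.W559.Et Pool.Agent.H920R2 Pool.Agent.U197.SF
open Pool.Agent.H519R3.RS Pool.Agent.N98.PJ

section frob

variable {k S : Type} [Field k] [CommRing S] [Algebra k S] (𝒜 : ℕ → Submodule k S)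
  [GradedAlgebra 𝒜] (p : ℕ) [hp : Fact p.Prime] [CharP S p]

lemma pow_mem_A {n : ℕ} {s : S} (hs : s ∈ 𝒜 n) : s ^ p ∈ 𝒜 (p * n) := by
  have h := SetLike.pow_mem_graded p hs
  rwa [smul_eq_mul] at h

lemma pow_mem_Ver (s : S) : s ^ p ∈ Ver 𝒜 p := by
  classical
  have h1 : s ^ p = ∑ i ∈ (DirectSum.decompose 𝒜 s).support,
      ((DirectSum.decompose 𝒜 s i : 𝒜 i) : S) ^ p := by
    rw [← sum_pow_char p, DirectSum.sum_support_decompose 𝒜 s]
  rw [h1]
  exact Subalgebra.sum_mem _ fun i _ => mem_Ver_of_mem (pow_mem_A 𝒜 p (DirectSum.decompose 𝒜 s i).2)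

/-- The Frobenius map into the Veronese subalgebra. -/
def frV : S →+* Ver 𝒜 p :=
  (frobenius S p).codRestrict (Ver 𝒜 p).toSubring fun s => pow_mem_Ver 𝒜 p s

lemma frV_coe (s : S) : ((frV 𝒜 p s : Ver 𝒜 p) : S) = s ^ p := rfl

lemma frV_mem {n : ℕ} {s : S} (hs : s ∈ 𝒜 n) : frV 𝒜 p s ∈ VG 𝒜 p n := pow_mem_A 𝒜 p hs

lemma frV_val (v : Ver 𝒜 p) : frV 𝒜 p (v : S) = v ^ p := Subtype.ext rfl

variable [GradedAlgebra (VG 𝒜 p)]

lemma dec_frV (s : S) (i : ℕ) : ((DirectSum.decompose (VG 𝒜 p) (frV 𝒜 p s) i : VG 𝒜 p i) :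
    Ver 𝒜 p) = frV 𝒜 p (DirectSum.decompose 𝒜 s i : 𝒜 i) := by
  classical
  induction s using DirectSum.Decomposition.inductionOn 𝒜 with
  | zero => simp
  | homogeneous s =>
    rename_i j
    by_cases h : j = i
    · subst h
      rw [DirectSum.decompose_of_mem_same _ (frV_mem 𝒜 p s.2),
        DirectSum.decompose_of_mem_same _ s.2]
    · rw [DirectSum.decompose_of_mem_ne _ (frV_mem 𝒜 p s.2) h,
        DirectSum.decompose_of_mem_ne _ s.2 h, map_zero]
  | add s t hs ht =>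
    rw [map_add, DirectSum.decompose_add, DirectSum.add_apply, DirectSum.decompose_add,
      DirectSum.add_apply]
    push_cast
    rw [hs, ht, map_add]

lemma dec_val (hr : 0 < p) (v : Ver 𝒜 p) (i : ℕ) : ((DirectSum.decompose (VG 𝒜 p) v i :
    VG 𝒜 p i) : S) = (DirectSum.decompose 𝒜 (v : S) (p * i) : 𝒜 (p * i)) := by
  classical
  induction v using DirectSum.Decomposition.inductionOn (VG 𝒜 p) with
  | zero => simp
  | homogeneous s =>
    rename_i j
    have hs : ((s : Ver 𝒜 p) : S) ∈ 𝒜 (p * j) := s.2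
    by_cases h : j = i
    · subst h
      rw [DirectSum.decompose_of_mem_same _ s.2, DirectSum.decompose_of_mem_same _ hs]
    · have h' : p * j ≠ p * i := fun h2 => h (Nat.eq_of_mul_eq_mul_left hr h2)
      rw [DirectSum.decompose_of_mem_ne _ s.2 h, DirectSum.decompose_of_mem_ne _ hs h']
      rfl
  | add s t hs ht =>
    rw [DirectSum.decompose_add, DirectSum.add_apply, Subalgebra.coe_add, DirectSum.decompose_add,
      DirectSum.add_apply]
    push_cast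
    rw [hs, ht]

/-- The point of `Proj S` under a point of `Proj` of the Veronese subalgebra. -/
def ptV (x : ProjectiveSpectrum (VG 𝒜 p)) : ProjectiveSpectrum 𝒜 where
  asHomogeneousIdeal := ⟨x.asHomogeneousIdeal.toIdeal.comap (frV 𝒜 p), by
    intro i s hs
    change frV 𝒜 p _ ∈ x.asHomogeneousIdeal.toIdeal
    rw [← dec_frV]
    exact x.asHomogeneousIdeal.isHomogeneous i hs⟩
  isPrime := by
    have := x.isPrime
    exact Ideal.comap_isPrime _ _
  not_irrelevant_le := by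
    intro hle
    apply x.not_irrelevant_le
    intro v hv
    have h0 : (v : S) ∈ HomogeneousIdeal.irrelevant 𝒜 := by
      rw [HomogeneousIdeal.mem_irrelevant_iff, GradedRing.proj_apply] at hv ⊢
      have h1 := dec_val 𝒜 p hp.out.pos v 0
      rw [hv, mul_zero] at h1
      exact h1.symm
    have h1 : frV 𝒜 p (v : S) ∈ x.asHomogeneousIdeal.toIdeal := hle h0
    rw [frV_val] at h1
    exact x.isPrime.mem_of_pow_mem _ h1

lemma mem_ptV {x : ProjectiveSpectrum (VG 𝒜 p)} {s : S} :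
    s ∈ (ptV 𝒜 p x).asHomogeneousIdeal ↔ frV 𝒜 p s ∈ x.asHomogeneousIdeal := Iff.rfl

lemma mem_ptV' {x : ProjectiveSpectrum (VG 𝒜 p)} {v : Ver 𝒜 p} :
    (v : S) ∈ (ptV 𝒜 p x).asHomogeneousIdeal ↔ v ∈ x.asHomogeneousIdeal := by
  rw [mem_ptV, frV_val]
  constructor
  · intro h
    exact x.isPrime.mem_of_pow_mem _ h
  · intro h
    exact Ideal.pow_mem_of_mem _ h _ hp.out.pos

end frob

section act

variable {k S : Type} [Field k] [CommRing S] [Algebra k S] {𝒜 : ℕ → Submodule k S}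
  [GradedAlgebra 𝒜] {Γ : Type} [Group Γ] (ρS : Γ →* (S ≃ₐ[k] S))
  (hgr : ∀ γ n, ∀ s ∈ 𝒜 n, ρS γ s ∈ 𝒜 n) (r : ℕ)

include hgr in
lemma rho_Ver (γ : Γ) (v : S) (hv : v ∈ Ver 𝒜 r) : ρS γ v ∈ Ver 𝒜 r := by
  classical
  rw [← DirectSum.sum_support_decompose 𝒜 v, map_sum]
  refine Subalgebra.sum_mem _ fun n _ => ?_
  by_cases hn : r ∣ n
  · obtain ⟨i, rfl⟩ := hn
    exact mem_Ver_of_mem (hgr γ _ _ (DirectSum.decompose 𝒜 v (r * i)).2)
  · have h1 := hv n hn
    rw [GradedAlgebra.proj_apply] at h1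
    rw [h1, map_zero]
    exact Subalgebra.zero_mem _

lemma rho_inv_apply (γ : Γ) (s : S) : ρS γ (ρS γ⁻¹ s) = s := by
  have h2 : (ρS γ * ρS γ⁻¹) s = s := by
    rw [← map_mul, mul_inv_cancel, map_one]
    rfl
  exact h2

lemma rho_inv_apply' (γ : Γ) (s : S) : ρS γ⁻¹ (ρS γ s) = s := by
  have h2 : (ρS γ⁻¹ * ρS γ) s = s := by
    rw [← map_mul, inv_mul_cancel, map_one]
    rfl
  exact h2

/-- The action on the Veronese subalgebra. -/
noncomputable def rhoV : Γ →* (Ver 𝒜 r ≃ₐ[k] Ver 𝒜 r) where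
  toFun γ := AlgEquiv.ofAlgHom
    (((ρS γ : S →ₐ[k] S).comp (Ver 𝒜 r).val).codRestrict _ fun v => rho_Ver ρS hgr r γ v v.2)
    (((ρS γ⁻¹ : S →ₐ[k] S).comp (Ver 𝒜 r).val).codRestrict _ fun v => rho_Ver ρS hgr r γ⁻¹ v v.2)
    (AlgHom.ext fun v => Subtype.ext (rho_inv_apply ρS γ _))
    (AlgHom.ext fun v => Subtype.ext (rho_inv_apply' ρS γ _))
  map_one' := AlgEquiv.ext fun v => Subtype.ext (by
    change ρS 1 (v : S) = v
    rw [map_one]
    rfl)
  map_mul' γ γ' := AlgEquiv.ext fun v => Subtype.ext (by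
    change ρS (γ * γ') (v : S) = ρS γ (ρS γ' v)
    rw [map_mul]
    rfl)

lemma rhoV_coe (γ : Γ) (v : Ver 𝒜 r) : ((rhoV ρS hgr r γ v : Ver 𝒜 r) : S) = ρS γ v := rfl

lemma rhoV_gr (γ : Γ) (n : ℕ) (v : Ver 𝒜 r) (hv : v ∈ VG 𝒜 r n) :
    rhoV ρS hgr r γ v ∈ VG 𝒜 r n := hgr γ _ _ hv

variable (p : ℕ) [hp : Fact p.Prime] [CharP S p] [GradedAlgebra (VG 𝒜 p)]

lemma InS_ptV (x : ProjectiveSpectrum (VG 𝒜 p)) :
    InS (rhoV ρS hgr p) x.asHomogeneousIdeal.toIdeal =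
      InS ρS (ptV 𝒜 p x).asHomogeneousIdeal.toIdeal := by
  ext γ
  constructor
  · intro h s
    change frV 𝒜 p (ρS γ s - s) ∈ x.asHomogeneousIdeal.toIdeal
    rw [map_sub]
    have h1 : frV 𝒜 p (ρS γ s) = rhoV ρS hgr p γ (frV 𝒜 p s) := Subtype.ext (map_pow (ρS γ) s p).symm
    rw [h1]
    exact h _
  · intro h v
    have h1 : ρS γ (v : S) - v ∈ (ptV 𝒜 p x).asHomogeneousIdeal := h v
    exact (mem_ptV' 𝒜 p (v := rhoV ρS hgr p γ v - v)).1 h1

end act

end Pool.Agent.U197.GQ
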