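import Pool.Agent.U197.GQ.V4

/-!
The field of fractions of the Veronese subalgebra, and the charts.
-/

set_option autoImplicit false
set_option linter.unusedSectionVars false

namespace Pool.Agent.U197.GQ

open AlgebraicGeometry CategoryTheory
open Pool.Agent.W559.Mg Pool.Agent.W559.Et Pool.Agent.H920R2 Pool.Agent.U197.SF
open Pool.Agent.H519R3.RS Pool.Agent.N98.PJ

section field

variable {k S : Type} [Field k] [CommRing S] [IsDomain S] [Algebra k S] (𝒜 : ℕ → Submodule k S)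
  [GradedAlgebra 𝒜] (r : ℕ)

lemma evV_inj : Function.Injective ((ev k S).comp (Ver 𝒜 r).val) :=
  fun _ _ h => Subtype.ext (ev_inj (k := k) h)

/-- The embedding of the fields of fractions. -/
noncomputable def jV : FractionRing (Ver 𝒜 r) →ₐ[k] FractionRing S :=
  IsFractionRing.liftAlgHom (evV_inj 𝒜 r)

lemma jV_ev (v : Ver 𝒜 r) : jV 𝒜 r (ev k (Ver 𝒜 r) v) = ev k S (v : S) :=
  IsFractionRing.lift_algebraMap (evV_inj 𝒜 r) v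

variable {𝒜} {Γ : Type} [Group Γ] (ρS : Γ →* (S ≃ₐ[k] S))
  (hgr : ∀ γ n, ∀ s ∈ 𝒜 n, ρS γ s ∈ 𝒜 n)

lemma jV_rho (γ : Γ) (x : FractionRing (Ver 𝒜 r)) :
    jV 𝒜 r (rhoF (rhoV ρS hgr r) γ x) = rhoF ρS γ (jV 𝒜 r x) := by
  obtain ⟨s, t, -, rfl⟩ := IsFractionRing.div_surjective (Ver 𝒜 r) x
  change jV 𝒜 r (rhoF (rhoV ρS hgr r) γ (ev k _ s / ev k _ t)) =
    rhoF ρS γ (jV 𝒜 r (ev k _ s / ev k _ t))
  rw [map_div₀, map_div₀, map_div₀, map_div₀, rhoF_ev, rhoF_ev, jV_ev, jV_ev, jV_ev, jV_ev,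
    rhoF_ev, rhoF_ev, rhoV_coe, rhoV_coe]

variable [GradedAlgebra (VG 𝒜 r)] {z : Ver 𝒜 r} {D : ℕ} (hz : z ∈ VG 𝒜 r D) (z0 : z ≠ 0)
  (hz' : (z : S) ∈ 𝒜 (r * D)) (z0' : (z : S) ≠ 0)

lemma jV_ch1 (x : FractionRing (Ver 𝒜 r)) (hx : x ∈ ch (VG 𝒜 r) z D hz z0) :
    jV 𝒜 r x ∈ ch 𝒜 (z : S) (r * D) hz' z0' := by
  obtain ⟨i, s, hs, rfl⟩ := hx
  have hs' : (s : S) ∈ 𝒜 (r * (i * D)) := hs
  refine ⟨i, (s : S), ?_, ?_⟩
  · rwa [show i * (r * D) = r * (i * D) by ring]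
  · rw [map_div₀, map_pow, jV_ev, jV_ev]

lemma jV_ch2 (x : FractionRing S) (hx : x ∈ ch 𝒜 (z : S) (r * D) hz' z0') :
    ∃ x' ∈ ch (VG 𝒜 r) z D hz z0, jV 𝒜 r x' = x := by
  obtain ⟨i, s, hs, rfl⟩ := hx
  have hs' : s ∈ 𝒜 (r * (i * D)) := by rwa [show r * (i * D) = i * (r * D) by ring]
  refine ⟨ev k _ (⟨s, mem_Ver_of_mem hs'⟩ : Ver 𝒜 r) / ev k _ z ^ i,
    ⟨i, ⟨s, mem_Ver_of_mem hs'⟩, hs', rfl⟩, ?_⟩
  rw [map_div₀, map_pow, jV_ev, jV_ev]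

/-- The charts of the Veronese subalgebra are smooth. -/
theorem smCh_V (hr : 0 < r) (hX : AlgebraicGeometry.Smooth (str 𝒜)) : SmCh (VG 𝒜 r) := by
  intro D z hz z0 hD
  have z0' : (z : S) ≠ 0 := fun h => z0 (Subtype.ext h)
  exact smooth_lift (jV 𝒜 r) (jV_ch1 r hz z0 hz z0') (jV_ch2 r hz z0 hz z0')
    (smooth_ch 𝒜 hX (Nat.mul_pos hr hD) (z : S) hz z0')

end field

section faith

variable {k S : Type} [Field k] [CommRing S] [IsDomain S] [Algebra k S] {𝒜 : ℕ → Submodule k S}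
  [GradedAlgebra 𝒜] {Γ : Type} [Group Γ] (ρS : Γ →* (S ≃ₐ[k] S))
  (hgr : ∀ γ n, ∀ s ∈ 𝒜 n, ρS γ s ∈ 𝒜 n) (p : ℕ) [hp : Fact p.Prime]

/-- The action on the Veronese subalgebra is faithful. -/
theorem faith_V (hfX : ∀ γ, (∀ n, ∀ s ∈ 𝒜 n, ∀ t ∈ 𝒜 n, ρS γ s * t = s * ρS γ t) → γ = 1) :
    ∀ γ, (∀ n, ∀ s ∈ VG 𝒜 p n, ∀ t ∈ VG 𝒜 p n, rhoV ρS hgr p γ s * t = s * rhoV ρS hgr p γ t) →
      γ = 1 := by
  intro γ h
  apply hfX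
  intro n s hs t ht
  obtain ⟨q, hq⟩ : ∃ q, p = q + 1 := ⟨p - 1, by have := hp.out.pos; omega⟩
  by_cases ht0 : t = 0
  · rw [ht0, map_zero, mul_zero, mul_zero]
  have h1 : s * t ^ q ∈ 𝒜 (p * n) := by
    have h2 := SetLike.mul_mem_graded hs (SetLike.pow_mem_graded q ht)
    rwa [smul_eq_mul, show n + q * n = p * n by rw [hq]; ring] at h2
  have h2 : t ^ p ∈ 𝒜 (p * n) := by
    have h3 := SetLike.pow_mem_graded p ht
    rwa [smul_eq_mul] at h3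
  have h3 := congrArg Subtype.val (h n ⟨_, mem_Ver_of_mem h1⟩ h1 ⟨_, mem_Ver_of_mem h2⟩ h2)
  change ρS γ (s * t ^ q) * t ^ p = s * t ^ q * ρS γ (t ^ p) at h3
  rw [map_mul, map_pow, map_pow] at h3
  have hρt : ρS γ t ≠ 0 := fun h => ht0 ((map_eq_zero_iff _ (ρS γ).injective).1 h)
  have h4 : ρS γ t ^ q * t ^ q ≠ 0 := mul_ne_zero (pow_ne_zero _ hρt) (pow_ne_zero _ ht0)
  apply mul_left_cancel₀ h4
  calc ρS γ t ^ q * t ^ q * (ρS γ s * t) = ρS γ s * ρS γ t ^ q * t ^ (q + 1) := by ring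
    _ = s * t ^ q * ρS γ t ^ (q + 1) := by rw [← hq]; exact h3
    _ = _ := by ring

variable [GradedAlgebra (VG 𝒜 p)]

/-- The fields of invariant functions are isomorphic. -/
theorem field_V : Nonempty (KfS (rhoF (rhoV ρS hgr p)) (VG 𝒜 p) ≃+* KfS (rhoF ρS) 𝒜) := by
  obtain ⟨q, hq⟩ : ∃ q, p = q + 1 := ⟨p - 1, by have := hp.out.pos; omega⟩
  have h1 : ∀ x : KfS (rhoF (rhoV ρS hgr p)) (VG 𝒜 p), jV 𝒜 p x ∈ KfS (rhoF ρS) 𝒜 := by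
    rintro ⟨x, ⟨d, s, t, hs, ht, ht0, rfl⟩, hinv⟩
    refine ⟨⟨p * d, s, t, hs, ht, fun h => ht0 (Subtype.ext h), ?_⟩, fun γ => ?_⟩
    · rw [map_div₀, jV_ev, jV_ev]
    · rw [← jV_rho p ρS hgr, hinv γ]
  let f : KfS (rhoF (rhoV ρS hgr p)) (VG 𝒜 p) →+* KfS (rhoF ρS) 𝒜 :=
    ((jV 𝒜 p : FractionRing (Ver 𝒜 p) →+* FractionRing S).comp
      (KfS (rhoF (rhoV ρS hgr p)) (VG 𝒜 p)).val.toRingHom).codRestrict
        (KfS (rhoF ρS) 𝒜).toSubring fun x => h1 x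
  refine ⟨RingEquiv.ofBijective f ⟨fun x y hxy => ?_, ?_⟩⟩
  · exact Subtype.ext ((jV 𝒜 p).injective (congrArg Subtype.val hxy))
  · rintro ⟨x, ⟨d, s, t, hs, ht, ht0, rfl⟩, hinv⟩
    have h2 : s * t ^ q ∈ 𝒜 (p * d) := by
      have h2 := SetLike.mul_mem_graded hs (SetLike.pow_mem_graded q ht)
      rwa [smul_eq_mul, show d + q * d = p * d by rw [hq]; ring] at h2
    have h3 : t ^ p ∈ 𝒜 (p * d) := by
      have h3 := SetLike.pow_mem_graded p ht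
      rwa [smul_eq_mul] at h3
    have h4 : jV 𝒜 p (ev k _ (⟨_, mem_Ver_of_mem h2⟩ : Ver 𝒜 p) /
        ev k _ (⟨_, mem_Ver_of_mem h3⟩ : Ver 𝒜 p)) = ev k S s / ev k S t := by
      have ht1 : ev k S t ≠ 0 := ev_ne ht0
      rw [map_div₀, jV_ev, jV_ev, map_mul, map_pow, map_pow, hq]
      field_simp
      ring
    refine ⟨⟨ev k _ (⟨_, mem_Ver_of_mem h2⟩ : Ver 𝒜 p) /
        ev k _ (⟨_, mem_Ver_of_mem h3⟩ : Ver 𝒜 p),
      ⟨d, _, _, h2, h3, fun h => pow_ne_zero p ht0 (congrArg Subtype.val h), rfl⟩, fun γ => ?_⟩,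
      Subtype.ext h4⟩
    apply (jV 𝒜 p).injective
    change jV 𝒜 p _ = jV 𝒜 p _
    rw [jV_rho, h4]
    exact hinv γ

end faith

end Pool.Agent.U197.GQ
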