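import Pool.Agent.U197.GQ.V5

/-!
Centres on the cone of the Veronese subalgebra from coordinates at the closed points.
-/

set_option autoImplicit false
set_option linter.unusedSectionVars false

namespace Pool.Agent.U197.GQ

open AlgebraicGeometry CategoryTheory
open Pool.Agent.W559.Mg Pool.Agent.W559.Et Pool.Agent.H920R2 Pool.Agent.U197.SF
open Pool.Agent.H519R3.RS Pool.Agent.N98.PJ
open KaehlerDifferential TensorProduct

section nrm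

variable {k S : Type} [Field k] [CommRing S] [IsDomain S] [Algebra k S] {𝒜 : ℕ → Submodule k S}
  [GradedAlgebra 𝒜] {p : ℕ} (σ : S ≃ₐ[k] S)

lemma nrm_mul' (s t : S) : nrm σ p (s * t) = nrm σ p s * nrm σ p t := by
  unfold H920R2.nrm
  rw [← Finset.prod_mul_distrib]
  refine Finset.prod_congr rfl fun j _ => ?_
  exact iterate_map_mul σ j s t

lemma nrm_fixed {s : S} (hs : σ s = s) : nrm σ p s = s ^ p := by
  unfold H920R2.nrm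
  rw [Finset.prod_congr rfl fun j _ => Function.iterate_fixed hs j, Finset.prod_const,
    Finset.card_range]

lemma nrm_deg (hσh : ∀ n, ∀ s ∈ 𝒜 n, σ s ∈ 𝒜 n) {n : ℕ} {s : S} (hs : s ∈ 𝒜 n) :
    nrm σ p s ∈ 𝒜 (p * n) := by
  unfold H920R2.nrm
  have h3 := SetLike.prod_mem_graded 𝒜 (fun _ => n)
    (fun j => σ^[j] s) (F := Finset.range p) (fun j _ => SF.iter_mem 𝒜 σ hσh j n _ hs)
  rwa [Finset.sum_const, Finset.card_range, smul_eq_mul] at h3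

end nrm

section loc

variable {k S : Type} [Field k] [CommRing S] [IsDomain S] [Algebra k S] {𝒜 : ℕ → Submodule k S}
  [GradedAlgebra 𝒜] {Γ : Type} [Group Γ] (ρS : Γ →* (S ≃ₐ[k] S))
  (hgr : ∀ γ n, ∀ s ∈ 𝒜 n, ρS γ s ∈ 𝒜 n) (p : ℕ) [hp : Fact p.Prime]

/-- Weighted coordinates in the local ring of a point which are adapted to `σ`. -/
def LocD (𝒜 : ℕ → Submodule k S) [GradedAlgebra 𝒜] (σ : S ≃ₐ[k] S) (x : ProjectiveSpectrum 𝒜) :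
    Prop :=
  ∃ (n : ℕ) (y : Fin n → FractionRing S) (w : Fin n → ℕ) (l : ℕ) (hy : ∀ i, y i ∈ lrx 𝒜 x),
    0 < l ∧ (∃ b : Module.Basis (Fin n) (lrx 𝒜 x) (Ω[lrx 𝒜 x⁄k]),
      ∀ i, b i = KaehlerDifferential.D k (lrx 𝒜 x) ⟨y i, hy i⟩) ∧
    NDk y w (fun z => tauS σ z - z) l (lrx 𝒜 x)

variable [GradedAlgebra (VG 𝒜 p)]

/-- **Local coordinates give centres on the cone of the Veronese subalgebra.** -/
theorem niceC_V (hX : AlgebraicGeometry.Smooth (str 𝒜)) {m : ℕ} (b : Fin (m + 1) → S)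
    (hb : ∀ i, b i ∈ 𝒜 1) (hbg : Algebra.adjoin k (Set.range b) = ⊤)
    {σ : Γ} (hσ : σ ^ p = 1) {x : ProjectiveSpectrum 𝒜}
    (hσx : σ ∈ InS ρS x.asHomogeneousIdeal.toIdeal) (h : LocD 𝒜 (ρS σ) x) :
    ∃ z : Ver 𝒜 p, NiceC (rhoV ρS hgr p) (rhoF (rhoV ρS hgr p)) (VG 𝒜 p) σ z ∧
      ∃ s : S, s ∉ x.asHomogeneousIdeal ∧ (z : S) = s ^ p := by
  obtain ⟨n, y, w, l, hy, hl, hyΩ, hnd⟩ := h
  have hfix := fixed_of_InS ρS hσx
  have hσh : ∀ n, ∀ s ∈ 𝒜 n, ρS σ s ∈ 𝒜 n := hgr σ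
  have hσp : ∀ s, (ρS σ)^[p] s = s := by
    intro s
    rw [iter_rho, hσ, map_one]
    rfl
  obtain ⟨i0, hi0⟩ := exists_coord_notMem 𝒜 b hb hbg x
  obtain ⟨R, hR, hyR, het, hndR, -⟩ := spread2 (c := 0) (chartFamU hσh hσp hX hfix (hb i0) hi0)
    hp.out.pos (tauS_iter (ρS σ) hσp) (tau_mem_lrx 𝒜 (ρS σ) hσh hfix) hy hyΩ hnd
    (Submodule.zero_mem _)
  obtain ⟨e, q, z, hq, hz, z0, hzt, hσz, hzx, rfl⟩ := hR
  have hz1 : z ^ p ∈ 𝒜 (p * (e + 1)) := by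
    have h1 := SetLike.pow_mem_graded p hz
    rwa [smul_eq_mul] at h1
  have hu1 : nrm (ρS σ) p (b i0) ∈ 𝒜 (p * 1) := nrm_deg (ρS σ) hσh (hb i0)
  have hq1 : nrm (ρS σ) p q ∈ 𝒜 (p * e) := nrm_deg (ρS σ) hσh hq
  let z' : Ver 𝒜 p := ⟨_, mem_Ver_of_mem hz1⟩
  let u' : Ver 𝒜 p := ⟨_, mem_Ver_of_mem hu1⟩
  let q' : Ver 𝒜 p := ⟨_, mem_Ver_of_mem hq1⟩
  have hz' : z' ∈ VG 𝒜 p (e + 1) := hz1
  have z0p : z ^ p ≠ 0 := pow_ne_zero p z0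
  have z0' : z' ≠ 0 := fun h => z0p (congrArg Subtype.val h)
  have hzt' : z' = u' * q' := by
    apply Subtype.ext
    change z ^ p = nrm (ρS σ) p (b i0) * nrm (ρS σ) p q
    rw [← nrm_mul', ← hzt, nrm_fixed _ hσz]
  have hσz' : rhoV ρS hgr p σ z' = z' := by
    apply Subtype.ext
    change ρS σ (z ^ p) = z ^ p
    rw [map_pow, hσz]
  have hσu : rhoV ρS hgr p σ u' = u' := Subtype.ext (map_nrm (ρS σ) p hσp _)
  have hch : ch 𝒜 (z ^ p) (p * (e + 1)) hz1 z0p = ch 𝒜 z (e + 1) hz z0 :=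
    ch_pow' 𝒜 z hz z0 hp.out.pos rfl hz1 z0p
  have h1 : ∀ v ∈ ch (VG 𝒜 p) z' (e + 1) hz' z0', jV 𝒜 p v ∈ ch 𝒜 z (e + 1) hz z0 := by
    intro v hv
    rw [← hch]
    exact jV_ch1 p hz' z0' hz1 z0p v hv
  have h2 : ∀ v ∈ ch 𝒜 z (e + 1) hz z0, ∃ v' ∈ ch (VG 𝒜 p) z' (e + 1) hz' z0',
      jV 𝒜 p v' = v := by
    intro v hv
    rw [← hch] at hv
    exact jV_ch2 p hz' z0' hz1 z0p v hv
  choose y' hy' hyy using fun i => h2 (y i) (hyR i)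
  obtain rfl : y = fun i => jV 𝒜 p (y' i) := funext fun i => (hyy i).symm
  have hnd' : NDk y' w (fun x => rhoF (rhoV ρS hgr p) σ x - x) l
      (ch (VG 𝒜 p) z' (e + 1) hz' z0') := by
    refine ndk_lift (jV 𝒜 p) h1 h2 (δ := fun x => rhoF ρS σ x - x) (fun v => ?_) hndR
    rw [map_sub, jV_rho]
  have het' : EtC (ch (VG 𝒜 p) z' (e + 1) hz' z0') y' hy' :=
    etC_lift (jV 𝒜 p) h1 h2 hy' het
  refine ⟨z', niceC_core (rhoV ρS hgr p) (u := u') hu1 hq1 hz' z0' hzt' hσz' hl hy' het' hnd' ?_,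
    z, hzx, rfl⟩
  rw [rhoF_ev, hσu, sub_self, zero_div]
  exact Submodule.zero_mem _

end loc

end Pool.Agent.U197.GQ
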