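import Pool.Agent.U197.GQ.V6

/-!
Regular models of the fields of invariant functions: conditions at the closed points only.
-/

set_option autoImplicit false
set_option linter.unusedSectionVars false

namespace Pool.Agent.U197.GQ

open AlgebraicGeometry CategoryTheory
open Pool.Agent.W559.Mg Pool.Agent.W559.Et Pool.Agent.H920R2 Pool.Agent.U197.SF
open Pool.Agent.H519R3.RS Pool.Agent.N98.PJ

/-- **Regular models over the integers.** -/
theorem regV (p : ℕ) [Fact p.Prime] {k S : Type} [Field k] [Finite k] [CharP k p]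
    [CommRing S] [IsDomain S] [Algebra k S] {𝒜 : ℕ → Submodule k S} [GradedAlgebra 𝒜]
    {Γ : Type} [Group Γ] [Finite Γ] (ρS : Γ →* (S ≃ₐ[k] S))
    (hgr : ∀ γ n, ∀ s ∈ 𝒜 n, ρS γ s ∈ 𝒜 n)
    (hgen : Algebra.adjoin k (𝒜 1 : Set S) = ⊤) (hone : ∃ s ∈ 𝒜 1, s ≠ 0)
    (hfin : Module.Finite k (𝒜 1))
    (hX : AlgebraicGeometry.Smooth (str 𝒜))
    (hfX : ∀ γ, (∀ n, ∀ s ∈ 𝒜 n, ∀ t ∈ 𝒜 n, ρS γ s * t = s * ρS γ t) → γ = 1)
    (hin : ∀ x : ProjectiveSpectrum 𝒜, IsClosed ({x} : Set (ProjectiveSpectrum 𝒜)) →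
      Nat.card (InS ρS x.asHomogeneousIdeal.toIdeal) = 1 ∨
      Nat.card (InS ρS x.asHomogeneousIdeal.toIdeal) = p)
    (hpt : ∀ σ : Γ, σ ≠ 1 → σ ^ p = 1 → ∀ x : ProjectiveSpectrum 𝒜,
      IsClosed ({x} : Set (ProjectiveSpectrum 𝒜)) → σ ∈ InS ρS x.asHomogeneousIdeal.toIdeal →
        LocD 𝒜 (ρS σ) x) :
    ∃ (X' : Scheme.{0}) (_ : IsIntegral X') (g : X' ⟶ Spec (CommRingCat.of ℤ)),
      IsProper g ∧
      (∀ x : X',
        (((Module.finrank (IsLocalRing.ResidueField (X'.presheaf.stalk x))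
            (IsLocalRing.CotangentSpace (X'.presheaf.stalk x)) : ℕ∞)) : WithBot ℕ∞)
          = ringKrullDim (X'.presheaf.stalk x)) ∧
      Nonempty (X'.functionField ≃+* KfS (rhoF ρS) 𝒜) := by
  classical
  have hp : p.Prime := Fact.out
  have hpk : (p : k) = 0 := CharP.cast_eq_zero k p
  have _ : CharP S p := charP_of_injective_algebraMap (algebraMap k S).injective p
  have _ : Fintype Γ := Fintype.ofFinite Γ
  have _ := hfin
  obtain ⟨m, b, hb, hb0, hbg⟩ := exists_basis 𝒜 hgen hone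
  have hftS : Algebra.FiniteType k S := by
    refine ⟨⟨(Set.finite_range b).toFinset, ?_⟩⟩
    rw [Set.Finite.coe_toFinset, hbg]
  have hnoe : IsNoetherianRing S := Algebra.FiniteType.isNoetherianRing k S
  let _ : GradedAlgebra (VG 𝒜 p) := gVG 𝒜 hp.pos
  obtain ⟨m', b', hb', hb0', hbg'⟩ := exists_gen_V 𝒜 hp.pos b hb hb0 hbg
  let ρV : Γ →* (Ver 𝒜 p ≃ₐ[k] Ver 𝒜 p) := rhoV ρS hgr p
  have hgrV : ∀ γ n, ∀ s ∈ VG 𝒜 p n, ρV γ s ∈ VG 𝒜 p n := fun γ n s hs => rhoV_gr ρS hgr p γ n s hs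
  obtain ⟨I, _, z, J, hmod⟩ := modelX' ρV (rhoF ρV) (rhoF_ev ρV) hgrV b' hb' hb0' hbg' hp hpk
    (smCh_V p hp.pos hX) (faith_V ρS hgr p hfX) (fun x => by
      rw [InS_ptV ρS hgr p x]
      obtain ⟨y, hxy, hcl⟩ := exists_closed 𝒜 (ptV 𝒜 p x)
      have hle : InS ρS (ptV 𝒜 p x).asHomogeneousIdeal.toIdeal ≤
          InS ρS y.asHomogeneousIdeal.toIdeal := fun γ hγ s => hxy (hγ s)
      have hdvd := Subgroup.card_dvd_of_le hle
      rcases hin y hcl with h | h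
      · left
        rw [h] at hdvd
        exact Nat.dvd_one.1 hdvd
      · rw [h] at hdvd
        exact (Nat.dvd_prime hp).1 hdvd) (fun σ hσ x hx => by
      rw [InS_ptV ρS hgr p x] at hx
      obtain ⟨y, hxy, hcl⟩ := exists_closed 𝒜 (ptV 𝒜 p x)
      have hy : σ ∈ InS ρS y.asHomogeneousIdeal.toIdeal := fun s => hxy (hx s)
      obtain ⟨z, hz, s, hs, hzs⟩ := niceC_V ρS hgr p hX b hb hbg hσ.2 hy (hpt σ hσ.1 hσ.2 y hcl hy)
      refine ⟨z, hz, fun h => hs (hxy ?_)⟩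
      change frV 𝒜 p s ∈ x.asHomogeneousIdeal
      have h1 : frV 𝒜 p s = z := Subtype.ext hzs.symm
      rw [h1]
      exact h)
  obtain ⟨X', hX', g, hg, hreg, ⟨e⟩⟩ := exists_regular_model (KfS (rhoF ρV) (VG 𝒜 p)) hmod
    (fun t x hx => hW_S ρV (rhoF ρV) (rhoF_ev ρV) hgrV b' hb' t x hx)
  obtain ⟨e'⟩ := field_V ρS hgr p
  exact ⟨X', hX', g, hg, hreg, ⟨e.trans e'⟩⟩

end Pool.Agent.U197.GQ
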